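import Mathlib

set_option autoImplicit false
set_option linter.all false
open scoped InnerProductSpace ENNReal ComplexConjugate
open ContinuousLinearMap
noncomputable section
namespace Pool.Agent.H772R2

/-- The complexified exterior algebra of the three-dimensional cotangent space, in terms of an
orthonormal coframe `ω⁰, ω¹, ω²`: the component of `α` at `S = {i₁ < ... < i_k}` is the coefficient
of `ω^{i₁} ∧ ... ∧ ω^{i_k}`. -/
abbrev Lam : Type := EuclideanSpace ℂ (Finset (Fin 3))

/-- the sign `(-1)^{#{j ∈ S | j < i}}` -/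
def sgn (i : Fin 3) (S : Finset (Fin 3)) : ℂ := (-1) ^ (S.filter (· < i)).card

/-- exterior multiplication `α ↦ ω^i ∧ α` -/
def ext (i : Fin 3) : Lam →L[ℂ] Lam :=
  LinearMap.toContinuousLinearMap
    { toFun := fun α => WithLp.toLp 2 fun S => if i ∈ S then sgn i S * α (S.erase i) else 0
      map_add' := by
        intro α β; ext S; simp only [PiLp.add_apply, PiLp.toLp_apply]; split_ifs <;> ring
      map_smul' := by
        intro c α; ext S; simp only [PiLp.smul_apply, PiLp.toLp_apply, smul_eq_mul, RingHom.id_apply]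
        split_ifs <;> ring }

/-- interior multiplication (contraction) with the `i`-th vector of the frame -/
def int (i : Fin 3) : Lam →L[ℂ] Lam :=
  LinearMap.toContinuousLinearMap
    { toFun := fun α => WithLp.toLp 2 fun S => if i ∈ S then 0 else sgn i S * α (insert i S)
      map_add' := by
        intro α β; ext S; simp only [PiLp.add_apply, PiLp.toLp_apply]; split_ifs <;> ring
      map_smul' := by
        intro c α; ext S; simp only [PiLp.smul_apply, PiLp.toLp_apply, smul_eq_mul, RingHom.id_apply]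
        split_ifs <;> ring }

lemma ext_apply (i : Fin 3) (α : Lam) (S : Finset (Fin 3)) :
    ext i α S = if i ∈ S then sgn i S * α (S.erase i) else 0 := rfl

lemma int_apply (i : Fin 3) (α : Lam) (S : Finset (Fin 3)) :
    int i α S = if i ∈ S then 0 else sgn i S * α (insert i S) := rfl

lemma norm_sgn (i : Fin 3) (S : Finset (Fin 3)) : ‖sgn i S‖ = 1 := by simp [sgn]

/-- the involution `S ↦ S ∆ {i}` -/
def flip (i : Fin 3) : Finset (Fin 3) ≃ Finset (Fin 3) where
  toFun S := if i ∈ S then S.erase i else insert i S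
  invFun S := if i ∈ S then S.erase i else insert i S
  left_inv S := by by_cases h : i ∈ S <;> simp [h]
  right_inv S := by by_cases h : i ∈ S <;> simp [h]

lemma norm_ext_int (i : Fin 3) (α : Lam) : ‖ext i α‖ ^ 2 + ‖int i α‖ ^ 2 = ‖α‖ ^ 2 := by
  rw [EuclideanSpace.norm_sq_eq, EuclideanSpace.norm_sq_eq, EuclideanSpace.norm_sq_eq]
  have h1 : ∑ S, ‖ext i α S‖ ^ 2 = ∑ S, if i ∈ S then 0 else ‖α S‖ ^ 2 := by
    rw [← Equiv.sum_comp (flip i)]
    refine Finset.sum_congr rfl fun S _ => ?_
    by_cases h : i ∈ S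
    · simp [flip, h, ext_apply, norm_sgn]
    · simp [flip, h, ext_apply, norm_sgn]
  have h2 : ∑ S, ‖int i α S‖ ^ 2 = ∑ S, if i ∈ S then ‖α S‖ ^ 2 else 0 := by
    rw [← Equiv.sum_comp (flip i)]
    refine Finset.sum_congr rfl fun S _ => ?_
    by_cases h : i ∈ S
    · simp [flip, h, int_apply, norm_sgn]
    · simp [flip, h, int_apply, norm_sgn]
  rw [h1, h2, ← Finset.sum_add_distrib]
  refine Finset.sum_congr rfl fun S _ => ?_
  by_cases h : i ∈ S <;> simp [h]

lemma norm_ext_le (i : Fin 3) (α : Lam) : ‖ext i α‖ ≤ ‖α‖ := by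
  have h := norm_ext_int i α
  have : ‖ext i α‖ ^ 2 ≤ ‖α‖ ^ 2 := by nlinarith [sq_nonneg ‖int i α‖]
  exact (sq_le_sq₀ (norm_nonneg _) (norm_nonneg _)).1 this

lemma norm_int_le (i : Fin 3) (α : Lam) : ‖int i α‖ ≤ ‖α‖ := by
  have h := norm_ext_int i α
  have : ‖int i α‖ ^ 2 ≤ ‖α‖ ^ 2 := by nlinarith [sq_nonneg ‖ext i α‖]
  exact (sq_le_sq₀ (norm_nonneg _) (norm_nonneg _)).1 this

/-- interior multiplication is the adjoint of exterior multiplication -/
lemma adjoint_ext (i : Fin 3) (α β : Lam) : ⟪ext i α, β⟫_ℂ = ⟪α, int i β⟫_ℂ := by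
  rw [PiLp.inner_apply, PiLp.inner_apply, ← Equiv.sum_comp (flip i)]
  refine Finset.sum_congr rfl fun S _ => ?_
  by_cases h : i ∈ S
  · simp [flip, h, ext_apply, int_apply]
  · have hs : sgn i (insert i S) = sgn i S := by
      simp [sgn, Finset.filter_insert]
    have hc : conj (sgn i S) = sgn i S := by simp [sgn]
    simp [flip, h, ext_apply, int_apply, hs, hc]
    ring

lemma adjoint_int (i : Fin 3) (α β : Lam) : ⟪int i α, β⟫_ℂ = ⟪α, ext i β⟫_ℂ := by
  rw [← inner_conj_symm, ← adjoint_ext, inner_conj_symm]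

end Pool.Agent.H772R2
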