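import Pool.Agent.H772R2.Geo

set_option autoImplicit false
set_option linter.all false
open scoped InnerProductSpace ENNReal ComplexConjugate ContDiff Topology
open ContinuousLinearMap MeasureTheory Set Filter
noncomputable section
namespace Pool.Agent.H772R2

/-- if `g` is nowhere locally constant then no loop in a leaf has trivial holonomy -/
lemma holonomy {g : ℝ → ℝ} (hg : Continuous g) (h : ∀ x c, ¬ ∀ᶠ y in 𝓝 x, g y = c) (ν : Ph)
    {r : ℝ} (hr : r ≠ 0) : ¬ ∀ᶠ ν' in 𝓝 ν, SameT (flow g r ν') ν' := by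
  intro hev
  obtain ⟨⟨t, x, y⟩, ξ, η⟩ := ν
  have hc : Continuous (fun x' : ℝ => (((t, x', y), (ξ, η)) : Ph)) := by fun_prop
  have h1 : ∀ᶠ x' in 𝓝 x, SameT (flow g r ((t, x', y), (ξ, η))) ((t, x', y), (ξ, η)) :=
    (hc.tendsto x).eventually hev
  have h2 : ∀ᶠ x' in 𝓝 x, |r * g x' - r * g x| < 1 := by
    have : Continuous (fun x' => |r * g x' - r * g x|) := by fun_prop
    have h3 := this.tendsto x
    simp only [sub_self, abs_zero] at h3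
    exact h3.eventually (gt_mem_nhds one_pos)
  obtain ⟨_, _, ⟨a, ha⟩, _⟩ := h1.self_of_nhds
  have ha' : r * g x = a := by
    have : y + r * g x = y + a := ha
    linarith
  refine h x (g x) ?_
  filter_upwards [h1, h2] with x' h3 h4
  obtain ⟨_, _, ⟨c, hc'⟩, _⟩ := h3
  have hc'' : r * g x' = c := by
    have : y + r * g x' = y + c := hc'
    linarith
  rw [ha', hc''] at h4
  have h5 : |c - a| < 1 := by exact_mod_cast h4
  have h6 : c = a := by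
    have := Int.abs_lt_one_iff.1 h5
    omega
  have h7 : r * g x' = r * g x := by rw [hc'', ha', h6]
  exact mul_left_cancel₀ hr h7

/-- constants -/
def K1 : ℝ := ((2 * Real.pi) ^ 2)⁻¹ * (24 * cN (1 / 4) 5 24 ^ 2 * (10 * Real.pi))
def K2 : ℝ := 1 / (4096 * Real.pi * Real.sqrt Cpsi)

lemma cN_pos : 0 < cN (1 / 4) 5 24 := by unfold cN; norm_num

lemma K1_pos : 0 < K1 := by
  have := cN_pos
  have := Real.pi_pos
  unfold K1; positivity

lemma K2_pos : 0 < K2 := by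
  have := Real.pi_pos
  have := Real.sqrt_pos.2 Cpsi_pos
  unfold K2; positivity

/-- the energy level -/
def eps : ℝ := min 1 ((K2 / (2 * K1)) ^ 2)

lemma eps_pos : 0 < eps := by
  have := K1_pos
  have := K2_pos
  unfold eps; positivity

lemma eps_bound : K1 * (Real.sqrt eps * eps) ≤ K2 * eps / 2 := by
  have h1 := K1_pos
  have h2 := K2_pos
  have h3 := eps_pos
  have h4 : Real.sqrt eps ≤ K2 / (2 * K1) := by
    rw [Real.sqrt_le_left (by positivity)]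
    exact min_le_right _ _
  calc K1 * (Real.sqrt eps * eps) ≤ K1 * ((K2 / (2 * K1)) * eps) := by gcongr
    _ = K2 * eps / 2 := by field_simp

/-- the size of the slope of `g` -/
def gam : ℝ := Real.sqrt (eps / (1024 * (Cpsi + 1)))

lemma gam_pos : 0 < gam := by
  have := eps_pos
  have := Cpsi_pos
  unfold gam; positivity

lemma gam_sq : gam ^ 2 = eps / (1024 * (Cpsi + 1)) := by
  have := eps_pos
  have := Cpsi_pos
  exact Real.sq_sqrt (by positivity)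

lemma gam1 : gam ^ 2 ≤ eps / 256 := by
  have h1 := eps_pos
  have h2 := Cpsi_pos
  rw [gam_sq]
  apply div_le_div_of_nonneg_left h1.le (by norm_num)
  linarith

lemma gam2 : 4 * gam ^ 2 * Cpsi ≤ eps / 256 := by
  have h1 := eps_pos
  have h2 := Cpsi_pos
  rw [gam_sq]
  rw [show 4 * (eps / (1024 * (Cpsi + 1))) * Cpsi = (eps / 256) * (Cpsi / (Cpsi + 1)) by
    field_simp; norm_num]
  have h3 : Cpsi / (Cpsi + 1) ≤ 1 := by
    rw [div_le_one (by positivity)]; linarith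
  have h4 : 0 ≤ eps / 256 := by positivity
  calc (eps / 256) * (Cpsi / (Cpsi + 1)) ≤ (eps / 256) * 1 := by gcongr
    _ = _ := mul_one _

lemma gam3 : gam ^ 2 ≤ eps := by
  have := gam1
  have := eps_pos
  linarith

/-- the bound of the leafwise trace -/
lemma trN_le {k : Ph → ℝ → ℝ → (Lam →L[ℂ] Lam)}
    (hk : ∀ ν, trL (k ν 0 0) ≤ (24 * cN (1 / 4) 5 24 ^ 2 * Real.sqrt eps *
      (1 + (ν.2.1 / Real.sqrt eps) ^ 2)⁻¹) *
      (Icc (-(5 * Real.sqrt eps)) (5 * Real.sqrt eps)).indicator (fun _ => (1 : ℝ)) ν.2.2) :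
    trN k ≤ ENNReal.ofReal (24 * cN (1 / 4) 5 24 ^ 2 * Real.sqrt eps * (10 * Real.pi * eps)) := by
  have h1 := lint_major eps_pos (show 0 ≤ 24 * cN (1 / 4) 5 24 ^ 2 * Real.sqrt eps by positivity)
  rw [← h1]
  set G : ℝ × ℝ → ℝ≥0∞ := fun z => ENNReal.ofReal ((24 * cN (1 / 4) 5 24 ^ 2 * Real.sqrt eps *
      (1 + (z.1 / Real.sqrt eps) ^ 2)⁻¹) *
      (Icc (-(5 * Real.sqrt eps)) (5 * Real.sqrt eps)).indicator (fun _ => (1 : ℝ)) z.2) with hG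
  have hGm : Measurable G := by
    refine Measurable.ennreal_ofReal (Measurable.mul (by fun_prop) ?_)
    exact (measurable_const.indicator measurableSet_Icc).comp measurable_snd
  calc trN k ≤ ∫⁻ ν, G ν.2 ∂(muM.prod (volume : Measure (ℝ × ℝ))) :=
        lintegral_mono fun ν => ENNReal.ofReal_le_ofReal (hk ν)
    _ = ∫⁻ z, G z := by
        rw [lintegral_prod (fun ν : Ph => G ν.2) (hGm.comp measurable_snd).aemeasurable]
        simp

/-- the comparison of the two sides -/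
lemma compare {t T : ℝ≥0∞} {h : ℝ} (hh : 0 < h)
    (ht : t ≤ ENNReal.ofReal (24 * cN (1 / 4) 5 24 ^ 2 * Real.sqrt eps * (10 * Real.pi * eps)))
    (hT : ENNReal.ofReal (eps / (4096 * Real.pi * Real.sqrt Cpsi) * (h ^ 2)⁻¹) ≤ T) :
    ENNReal.ofReal (((2 * Real.pi) ^ 2)⁻¹ * (h ^ 2)⁻¹) * t +
      ENNReal.ofReal (K2 * eps / 2 * (h ^ 2)⁻¹) ≤ T := by
  have hpi := Real.pi_pos
  have he := eps_pos
  have hK := K2_pos
  refine le_trans ?_ hT
  calc ENNReal.ofReal (((2 * Real.pi) ^ 2)⁻¹ * (h ^ 2)⁻¹) * t +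
      ENNReal.ofReal (K2 * eps / 2 * (h ^ 2)⁻¹)
      ≤ ENNReal.ofReal (((2 * Real.pi) ^ 2)⁻¹ * (h ^ 2)⁻¹) *
        ENNReal.ofReal (24 * cN (1 / 4) 5 24 ^ 2 * Real.sqrt eps * (10 * Real.pi * eps)) +
      ENNReal.ofReal (K2 * eps / 2 * (h ^ 2)⁻¹) := by gcongr
    _ = ENNReal.ofReal (((2 * Real.pi) ^ 2)⁻¹ * (h ^ 2)⁻¹ *
        (24 * cN (1 / 4) 5 24 ^ 2 * Real.sqrt eps * (10 * Real.pi * eps)) +
        K2 * eps / 2 * (h ^ 2)⁻¹) := by
        rw [← ENNReal.ofReal_mul (by positivity), ← ENNReal.ofReal_add (by positivity)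
          (by positivity)]
    _ ≤ _ := by
        apply ENNReal.ofReal_le_ofReal
        have h1 : ((2 * Real.pi) ^ 2)⁻¹ * (h ^ 2)⁻¹ *
          (24 * cN (1 / 4) 5 24 ^ 2 * Real.sqrt eps * (10 * Real.pi * eps)) =
          (K1 * (Real.sqrt eps * eps)) * (h ^ 2)⁻¹ := by unfold K1; ring
        have h2 : eps / (4096 * Real.pi * Real.sqrt Cpsi) = K2 * eps := by unfold K2; ring
        rw [h1, h2, ← add_mul]
        have := eps_bound
        gcongr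
        linarith

lemma adm_of_cs {f : ℝ → ℝ} (hf : Continuous f) {c : ℝ} (h : ∀ x, c ≤ x → f x = 0) : Adm f :=
  ⟨hf, c, h⟩

/-- the majorant of the pointwise trace of the leafwise kernel -/
def maj (ν : Ph) : ℝ≥0∞ := ENNReal.ofReal ((24 * cN (1 / 4) 5 24 ^ 2 * Real.sqrt eps *
      (1 + (ν.2.1 / Real.sqrt eps) ^ 2)⁻¹) *
      (Icc (-(5 * Real.sqrt eps)) (5 * Real.sqrt eps)).indicator (fun _ => (1 : ℝ)) ν.2.2)

lemma maj_meas : Measurable maj := by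
  have : Measurable (fun z : ℝ × ℝ => ENNReal.ofReal ((24 * cN (1 / 4) 5 24 ^ 2 * Real.sqrt eps *
      (1 + (z.1 / Real.sqrt eps) ^ 2)⁻¹) *
      (Icc (-(5 * Real.sqrt eps)) (5 * Real.sqrt eps)).indicator (fun _ => (1 : ℝ)) z.2)) := by
    refine Measurable.ennreal_ofReal (Measurable.mul (by fun_prop) ?_)
    exact (measurable_const.indicator measurableSet_Icc).comp measurable_snd
  exact this.comp measurable_snd

lemma maj_int : ∫⁻ ν, maj ν ∂(muM.prod (volume : Measure (ℝ × ℝ))) =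
    ENNReal.ofReal (24 * cN (1 / 4) 5 24 ^ 2 * Real.sqrt eps * (10 * Real.pi * eps)) := by
  have h1 := lint_major eps_pos (show 0 ≤ 24 * cN (1 / 4) 5 24 ^ 2 * Real.sqrt eps by positivity)
  rw [← h1, lintegral_prod _ maj_meas.aemeasurable]
  simp [maj]

/-- conclusion: an inequality with a gap contradicts the convergence -/
lemma not_tendsto_of_gap {T : ℝ → ℝ≥0∞} {t I : ℝ≥0∞} {δ : ℝ} (hδ : 0 < δ) (htI : t ≤ I)
    (hI : I ≠ ⊤)
    (h : ∀ᶠ h in 𝓝[>] (0 : ℝ), ENNReal.ofReal (((2 * Real.pi) ^ 2)⁻¹ * (h ^ 2)⁻¹) * I +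
      ENNReal.ofReal (δ * (h ^ 2)⁻¹) ≤ T h) :
    ¬ Tendsto (fun h => ENNReal.ofReal (h ^ 2) * T h) (𝓝[>] (0 : ℝ))
      (𝓝 (ENNReal.ofReal (((2 * Real.pi) ^ 2)⁻¹) * t)) := by
  intro hlim
  have hpi := Real.pi_pos
  have h1 : ∀ᶠ h in 𝓝[>] (0 : ℝ), ENNReal.ofReal (((2 * Real.pi) ^ 2)⁻¹) * I + ENNReal.ofReal δ ≤
      ENNReal.ofReal (h ^ 2) * T h := by
    filter_upwards [h, self_mem_nhdsWithin] with h hh hpos
    have hpos' : (0 : ℝ) < h := hpos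
    refine le_trans (le_of_eq ?_) (mul_le_mul_right hh (ENNReal.ofReal (h ^ 2)))
    rw [mul_add, ← mul_assoc, ← ENNReal.ofReal_mul (by positivity),
      ← ENNReal.ofReal_mul (by positivity)]
    congr 3
    · field_simp
    · field_simp
  have h2 := ge_of_tendsto hlim h1
  have h3 : ENNReal.ofReal (((2 * Real.pi) ^ 2)⁻¹) * t ≤ ENNReal.ofReal (((2 * Real.pi) ^ 2)⁻¹) * I :=
    mul_le_mul_right htI _
  have h4 : ENNReal.ofReal (((2 * Real.pi) ^ 2)⁻¹) * I ≠ ⊤ :=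
    ENNReal.mul_ne_top ENNReal.ofReal_ne_top hI
  have h5 : ENNReal.ofReal (((2 * Real.pi) ^ 2)⁻¹) * I <
      ENNReal.ofReal (((2 * Real.pi) ^ 2)⁻¹) * I + ENNReal.ofReal δ :=
    ENNReal.lt_add_right h4 (by simpa using hδ)
  exact absurd (h2.trans h3) (not_le.2 h5)

universe v

theorem main_lap : ∃ (g : ℝ → ℝ) (hg : ContDiff ℝ ∞ g) (f : ℝ → ℝ), Function.Periodic g 1 ∧
    ContDiff ℝ ∞ f ∧ HasCompactSupport f ∧ (∀ x, 0 ≤ f x) ∧
    (∀ (ν : Ph) (r : ℝ), r ≠ 0 → ¬ ∀ᶠ ν' in 𝓝 ν, SameT (flow g r ν') ν') ∧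
    ∃ k : Ph → ℝ → ℝ → (Lam →L[ℂ] Lam),
      (∀ ν, HasContKernel (fcalc iL (leafLap g ν) f) (k ν)) ∧
      (∀ ν a, ∃ c : ℝ, 0 ≤ c ∧ ⟪a, k ν 0 0 a⟫_ℂ = (c : ℂ)) ∧ trN k ≠ ⊤ ∧
      (∀ {ι : Type v} (b : HilbertBasis ι ℂ (Lp Lam 2 muM)),
        ¬ Tendsto (fun h => ENNReal.ofReal (h ^ 2) * traceE b (fcalc iM (lapOp g hg h) f))
          (𝓝[>] (0 : ℝ)) (𝓝 (ENNReal.ofReal (((2 * Real.pi) ^ 2)⁻¹) * trN k))) ∧
      ∃ G : Ph → ℝ≥0∞, Measurable G ∧ (∀ ν, ENNReal.ofReal (trL (k ν 0 0)) ≤ G ν) ∧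
        ∃ δ : ℝ, 0 < δ ∧ ∀ {ι : Type v} (b : HilbertBasis ι ℂ (Lp Lam 2 muM)),
          ∀ᶠ h in 𝓝[>] (0 : ℝ),
            ENNReal.ofReal (((2 * Real.pi) ^ 2)⁻¹ * (h ^ 2)⁻¹) *
              ∫⁻ ν, G ν ∂(muM.prod (volume : Measure (ℝ × ℝ))) +
              ENNReal.ofReal (δ * (h ^ 2)⁻¹) ≤ traceE b (fcalc iM (lapOp g hg h) f) := by
  obtain ⟨g, hg, hgp, hgd, hgz, hgn⟩ := exists_g gam_pos
  have he := eps_pos
  obtain ⟨f, hf, hfc, hfe, hf0, hf1, hfz, hfo⟩ := exists_f (show 0 < eps / 2 by positivity)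
    (show eps / 2 < eps by linarith)
  have hadm : Adm f := adm_of_cs hf.continuous hfz
  have hgd2 : ∀ x, deriv g x ^ 2 ≤ gam ^ 2 := fun x => by
    rw [← sq_abs]; exact pow_le_pow_left₀ (abs_nonneg _) (hgd x) 2
  have hcoer : ∀ ν : Ph, Coer lapA (fun r => lapCoef g (flow g r ν)) (lapCoef_cont g ν) ν.2.1 ν.2.2
      (deriv g ν.1.2.1 * ν.2.2) (1 / 4) (5 * eps) := fun ν =>
    lap_coer ((hgd2 _).trans gam3) ν.2.1 ν.2.2
  have hflow : ∀ x, 0 ≤ x → 1 - x / (eps / 2) ≤ f x := by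
    intro x hx
    by_cases h : x ≤ eps / 2
    · rw [hfo x (by rw [abs_of_nonneg hx]; exact h)]
      have : 0 ≤ x / (eps / 2) := by positivity
      linarith
    · push Not at h
      have h1 : 1 ≤ x / (eps / 2) := by
        rw [le_div_iff₀ (by positivity)]; linarith
      linarith [hf0 x]
  set k : Ph → ℝ → ℝ → (Lam →L[ℂ] Lam) := fun ν =>
    leafKer lapA (fun r => lapCoef g (flow g r ν)) (lapCoef_cont g ν) f with hk
  have hkm : ∀ ν, ENNReal.ofReal (trL (k ν 0 0)) ≤ maj ν := fun ν => ENNReal.ofReal_le_ofReal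
    (leaf_bound lapA _ (lapCoef_cont g ν) lapA_norm he ((hgd2 _).trans gam3) (hcoer ν) hadm hf0
      hf1 hfz)
  have hkb : trN k ≤ ∫⁻ ν, maj ν ∂(muM.prod (volume : Measure (ℝ × ℝ))) := lintegral_mono hkm
  have hmt : ∫⁻ ν, maj ν ∂(muM.prod (volume : Measure (ℝ × ℝ))) ≠ ⊤ := by
    rw [maj_int]; exact ENNReal.ofReal_ne_top
  have hδ : 0 < K2 * eps / 2 := by
    have := K2_pos
    positivity
  have hfinal : ∀ {ι : Type v} (b : HilbertBasis ι ℂ (Lp Lam 2 muM)), ∀ᶠ h in 𝓝[>] (0 : ℝ),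
      ENNReal.ofReal (((2 * Real.pi) ^ 2)⁻¹ * (h ^ 2)⁻¹) *
        ∫⁻ ν, maj ν ∂(muM.prod (volume : Measure (ℝ × ℝ))) +
        ENNReal.ofReal (K2 * eps / 2 * (h ^ 2)⁻¹) ≤ traceE b (fcalc iM (lapOp g hg h) f) := by
    intro ι b
    obtain ⟨h₀, hh₀, hlow⟩ := trace_low (F := Lam4) hg he gam_pos.le hgd gam1 gam2 hgz hadm hf0 hflow
    filter_upwards [Ioo_mem_nhdsGT hh₀] with h hh
    have h1 := hlow h hh.1 hh.2 (lapOp g hg h) (fun L j hL hj m M hm hgc =>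
      energy_bound (lapP g h) _ _ _ (lapP_bound g h) hL hj m hm hgd2 hgc) b
    exact compare hh.1 maj_int.le h1
  refine ⟨g, hg, f, hgp, hf, hfc, hf0, fun ν r hr => holonomy hg.continuous hgn ν hr, k,
    fun ν => ?_, fun ν a => ?_, ne_top_of_le_ne_top hmt hkb, fun {ι} b => ?_, maj, maj_meas, hkm,
    K2 * eps / 2, hδ, fun {ι} b => hfinal b⟩
  · exact hasContKernel_leaf lapA _ (lapCoef_cont g ν) (show 0 ≤ (1 + 5 * eps) / (1 / 4) by positivity)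
      (ell_of_coer lapA _ (lapCoef_cont g ν) (by norm_num) (by positivity) (hcoer ν)) hadm
  · exact leafKer_psd lapA _ (lapCoef_cont g ν) hadm hf0 0 a
  · exact not_tendsto_of_gap hδ hkb hmt (hfinal b)

theorem main_sig : ∃ (g : ℝ → ℝ) (hg : ContDiff ℝ ∞ g) (f : ℝ → ℝ), Function.Periodic g 1 ∧
    ContDiff ℝ ∞ f ∧ HasCompactSupport f ∧ (∀ x, f (-x) = f x) ∧ (∀ x, 0 ≤ f x) ∧
    (∀ (ν : Ph) (r : ℝ), r ≠ 0 → ¬ ∀ᶠ ν' in 𝓝 ν, SameT (flow g r ν') ν') ∧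
    ∃ k : Ph → ℝ → ℝ → (Lam →L[ℂ] Lam),
      (∀ ν, HasContKernel (fcalc iL (leafSig g ν) (fun x => f (Real.sqrt x))) (k ν)) ∧
      (∀ ν a, ∃ c : ℝ, 0 ≤ c ∧ ⟪a, k ν 0 0 a⟫_ℂ = (c : ℂ)) ∧ trN k ≠ ⊤ ∧
      (∀ {ι : Type v} (b : HilbertBasis ι ℂ (Lp Lam 2 muM)),
        ¬ Tendsto (fun h => ENNReal.ofReal (h ^ 2) *
          traceE b (fcalc iM (sigOp g hg h) (fun x => f (Real.sqrt x))))
          (𝓝[>] (0 : ℝ)) (𝓝 (ENNReal.ofReal (((2 * Real.pi) ^ 2)⁻¹) * trN k))) ∧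
      ∃ G : Ph → ℝ≥0∞, Measurable G ∧ (∀ ν, ENNReal.ofReal (trL (k ν 0 0)) ≤ G ν) ∧
        ∃ δ : ℝ, 0 < δ ∧ ∀ {ι : Type v} (b : HilbertBasis ι ℂ (Lp Lam 2 muM)),
          ∀ᶠ h in 𝓝[>] (0 : ℝ),
            ENNReal.ofReal (((2 * Real.pi) ^ 2)⁻¹ * (h ^ 2)⁻¹) *
              ∫⁻ ν, G ν ∂(muM.prod (volume : Measure (ℝ × ℝ))) +
              ENNReal.ofReal (δ * (h ^ 2)⁻¹) ≤
              traceE b (fcalc iM (sigOp g hg h) (fun x => f (Real.sqrt x))) := by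
  obtain ⟨g, hg, hgp, hgd, hgz, hgn⟩ := exists_g gam_pos
  have he := eps_pos
  obtain ⟨f, hf, hfc, hfe, hf0', hf1', hfz', hfo'⟩ :=
    exists_f (show 0 < Real.sqrt (eps / 2) by positivity)
      (show Real.sqrt (eps / 2) < Real.sqrt eps from Real.sqrt_lt_sqrt (by positivity) (by linarith))
  set F : ℝ → ℝ := fun x => f (Real.sqrt x) with hF
  have hf0 : ∀ x, 0 ≤ F x := fun x => hf0' _
  have hf1 : ∀ x, F x ≤ 1 := fun x => hf1' _
  have hfz : ∀ x, eps ≤ x → F x = 0 := fun x hx => hfz' _ (Real.sqrt_le_sqrt hx)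
  have hfo : ∀ x, x ≤ eps / 2 → F x = 1 := fun x hx => hfo' _ (by
    rw [abs_of_nonneg (Real.sqrt_nonneg _)]
    exact Real.sqrt_le_sqrt hx)
  have hadm : Adm F := adm_of_cs (hf.continuous.comp Real.continuous_sqrt) hfz
  have hgd2 : ∀ x, deriv g x ^ 2 ≤ gam ^ 2 := fun x => by
    rw [← sq_abs]; exact pow_le_pow_left₀ (abs_nonneg _) (hgd x) 2
  have hcoer : ∀ ν : Ph, Coer (cl 0) (fun r => sigCoef g (flow g r ν)) (sigCoef_cont g ν) ν.2.1
      ν.2.2 (deriv g ν.1.2.1 * ν.2.2) (1 / 4) (5 * eps) := fun ν =>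
    sig_coer ((hgd2 _).trans gam3) ν.2.1 ν.2.2
  have hflow : ∀ x, 0 ≤ x → 1 - x / (eps / 2) ≤ F x := by
    intro x hx
    by_cases h : x ≤ eps / 2
    · rw [hfo x h]
      have : 0 ≤ x / (eps / 2) := by positivity
      linarith
    · push Not at h
      have h1 : 1 ≤ x / (eps / 2) := by
        rw [le_div_iff₀ (by positivity)]; linarith
      linarith [hf0 x]
  set k : Ph → ℝ → ℝ → (Lam →L[ℂ] Lam) := fun ν =>
    leafKer (cl 0) (fun r => sigCoef g (flow g r ν)) (sigCoef_cont g ν) F with hk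
  have hkm : ∀ ν, ENNReal.ofReal (trL (k ν 0 0)) ≤ maj ν := fun ν => ENNReal.ofReal_le_ofReal
    (leaf_bound (cl 0) _ (sigCoef_cont g ν) (fun a => (norm_cl 0 a).le) he ((hgd2 _).trans gam3)
      (hcoer ν) hadm hf0 hf1 hfz)
  have hkb : trN k ≤ ∫⁻ ν, maj ν ∂(muM.prod (volume : Measure (ℝ × ℝ))) := lintegral_mono hkm
  have hmt : ∫⁻ ν, maj ν ∂(muM.prod (volume : Measure (ℝ × ℝ))) ≠ ⊤ := by
    rw [maj_int]; exact ENNReal.ofReal_ne_top
  have hδ : 0 < K2 * eps / 2 := by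
    have := K2_pos
    positivity
  have hfinal : ∀ {ι : Type v} (b : HilbertBasis ι ℂ (Lp Lam 2 muM)), ∀ᶠ h in 𝓝[>] (0 : ℝ),
      ENNReal.ofReal (((2 * Real.pi) ^ 2)⁻¹ * (h ^ 2)⁻¹) *
        ∫⁻ ν, maj ν ∂(muM.prod (volume : Measure (ℝ × ℝ))) +
        ENNReal.ofReal (K2 * eps / 2 * (h ^ 2)⁻¹) ≤
        traceE b (fcalc iM (sigOp g hg h) F) := by
    intro ι b
    obtain ⟨h₀, hh₀, hlow⟩ := trace_low (F := Lam) hg he gam_pos.le hgd gam1 gam2 hgz hadm hf0 hflow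
    filter_upwards [Ioo_mem_nhdsGT hh₀] with h hh
    have h1 := hlow h hh.1 hh.2 (sigOp g hg h) (fun L j hL hj m M hm hgc =>
      energy_bound (sigP g h) _ _ _ (sigP_bound g h) hL hj m hm hgd2 hgc) b
    exact compare hh.1 maj_int.le h1
  refine ⟨g, hg, f, hgp, hf, hfc, hfe, hf0', fun ν r hr => holonomy hg.continuous hgn ν hr, k,
    fun ν => ?_, fun ν a => ?_, ne_top_of_le_ne_top hmt hkb, fun {ι} b => ?_, maj, maj_meas, hkm,
    K2 * eps / 2, hδ, fun {ι} b => hfinal b⟩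
  · exact hasContKernel_leaf (cl 0) _ (sigCoef_cont g ν)
      (show 0 ≤ (1 + 5 * eps) / (1 / 4) by positivity)
      (ell_of_coer (cl 0) _ (sigCoef_cont g ν) (by norm_num) (by positivity) (hcoer ν)) hadm
  · exact leafKer_psd (cl 0) _ (sigCoef_cont g ν) hadm hf0 0 a
  · exact not_tendsto_of_gap hδ hkb hmt (hfinal b)

end Pool.Agent.H772R2
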