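import Pool.Agent.H772R2.San3

set_option autoImplicit false
set_option linter.all false
open scoped InnerProductSpace ENNReal ComplexConjugate ContDiff Topology
open ContinuousLinearMap MeasureTheory Set Filter
noncomputable section
namespace Pool.Agent.H772R2

lemma ext_self (i : Fin 3) (α : Lam) : ext i (ext i α) = 0 := by
  ext S
  simp [ext_apply]

lemma int_ext_self (i : Fin 3) (α : Lam) : int i (ext i α) = α - ext i (int i α) := by
  ext S
  simp only [ext_apply, int_apply, PiLp.sub_apply, Finset.mem_insert_self, Finset.mem_erase]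
  have hs : sgn i S * sgn i S = 1 := by
    unfold sgn
    rw [← pow_add, ← two_mul, pow_mul]; simp
  by_cases h : i ∈ S
  · have h1 : sgn i (S.erase i) = sgn i S := by
      unfold sgn
      congr 2
      ext j
      simp only [Finset.mem_filter, Finset.mem_erase]
      constructor
      · rintro ⟨⟨_, h2⟩, h3⟩; exact ⟨h2, h3⟩
      · rintro ⟨h2, h3⟩; exact ⟨⟨h3.ne, h2⟩, h3⟩
    simp only [h, if_true, ne_eq, not_true_eq_false, false_and, if_false, Finset.insert_erase h, h1]
    rw [← mul_assoc, hs]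
    ring
  · have h1 : sgn i (insert i S) = sgn i S := by
      simp [sgn, Finset.filter_insert]
    simp only [h, if_true, if_false, h1, Finset.erase_insert h]
    rw [← mul_assoc, hs]
    ring

/-- The change of coframe: the algebra automorphism replacing `ω⁰, ω¹, ω²` by
`dt, dx, dy - g dt`. If `u` is the vector of components of a form in the coframe
`ω⁰, ω¹, ω²`, then `chg g p (u p)` is its vector of components in the coframe `dt, dx, dy`. -/
def chg (g : ℝ → ℝ) (p : ℝ × ℝ × ℝ) (α : Lam) : Lam := α - (g p.2.1 : ℂ) • ext 0 (int 2 α)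

/-- the de Rham differential `Σ dx^j ∧ ∂_j` in the coframe `dt, dx, dy` -/
def dR (U : ℝ × ℝ × ℝ → Lam) (p : ℝ × ℝ × ℝ) : Lam :=
  ext 0 (fderiv ℝ U p (1, 0, 0)) + ext 1 (fderiv ℝ U p (0, 1, 0)) + ext 2 (fderiv ℝ U p (0, 0, 1))

/-- `d = d_F + d_H` (here `θ = 0`) -/
theorem deRham_split {g : ℝ → ℝ} (hg : Differentiable ℝ g) {u : ℝ × ℝ × ℝ → Lam}
    (hu : Differentiable ℝ u) (p : ℝ × ℝ × ℝ) :
    dR (fun p => chg g p (u p)) p = chg g p (opF g u p + opH u p) := by
  have h1 : HasFDerivAt (fun p : ℝ × ℝ × ℝ => p.2.1)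
      ((ContinuousLinearMap.fst ℝ ℝ ℝ).comp (ContinuousLinearMap.snd ℝ ℝ (ℝ × ℝ))) p :=
    ((ContinuousLinearMap.fst ℝ ℝ ℝ).comp (ContinuousLinearMap.snd ℝ ℝ (ℝ × ℝ))).hasFDerivAt
  have h2 := (hg p.2.1).hasDerivAt.ofReal_comp.hasFDerivAt.comp p h1
  have h3 := (hu p).hasFDerivAt
  have h4 : HasFDerivAt (fun p => ext 0 (int 2 (u p)))
      ((((ext 0) ∘L (int 2)).restrictScalars ℝ).comp (fderiv ℝ u p)) p :=
    (((ext 0) ∘L (int 2)).restrictScalars ℝ).hasFDerivAt.comp p h3
  have h5 := h3.sub (h2.smul h4)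
  have h6 : ∀ w : ℝ × ℝ × ℝ, fderiv ℝ (fun p => chg g p (u p)) p w =
      fderiv ℝ u p w - ((g p.2.1 : ℂ) • ext 0 (int 2 (fderiv ℝ u p w)) +
        ((w.2.1 * deriv g p.2.1 : ℝ) : ℂ) • ext 0 (int 2 (u p))) := by
    intro w
    have h7 : fderiv ℝ (fun p => chg g p (u p)) p = _ := h5.fderiv
    rw [h7]
    simp only [_root_.sub_apply, _root_.add_apply, _root_.smul_apply,
      ContinuousLinearMap.comp_apply, ContinuousLinearMap.smulRight_apply,
      ContinuousLinearMap.coe_fst', ContinuousLinearMap.coe_snd', Function.comp,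
      ContinuousLinearMap.toSpanSingleton_apply]
    congr 3
    · simp
  unfold dR
  rw [h6, h6, h6]
  have hX : dX g u p = fderiv ℝ u p (1, 0, 0) + (g p.2.1 : ℂ) • dy u p := dX_eq g u p
  unfold chg opF opH
  rw [hX]
  unfold dx dy
  set A := fderiv ℝ u p (1, 0, 0)
  set B := fderiv ℝ u p (0, 1, 0)
  set C := fderiv ℝ u p (0, 0, 1)
  set G : ℂ := (g p.2.1 : ℂ)
  have hB : Bz (deriv g p.2.1) (u p) = ((deriv g p.2.1 : ℝ) : ℂ) • ext 1 (int 2 (u p)) := rfl
  rw [hB]
  simp only [map_add, map_sub, map_smul, zero_mul, one_mul, Complex.ofReal_zero, zero_smul,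
    add_zero, ext_self, smul_zero, sub_zero]
  have r1 : ∀ α : Lam, int 2 (ext 0 α) = - ext 0 (int 2 α) := fun α =>
    (neg_eq_iff_eq_neg.2 (ext_int 0 2 (by decide) α)).symm
  have r2 : ∀ α : Lam, int 2 (ext 1 α) = - ext 1 (int 2 α) := fun α =>
    (neg_eq_iff_eq_neg.2 (ext_int 1 2 (by decide) α)).symm
  simp only [r1, r2, int_ext_self, map_neg, map_sub, ext_self, smul_zero, neg_zero, sub_zero,
    add_zero, zero_add, smul_neg, smul_sub, smul_add]
  rw [ext_ext 1 0 (by decide) (int 2 B), ext_ext 1 0 (by decide) (int 2 (u p)),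
    ext_ext 2 0 (by decide) (int 2 C)]
  simp only [smul_neg]
  abel

end Pool.Agent.H772R2
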