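import Pool.Agent.H772R2.Elem
import Pool.Agent.H772R2.San4
import Pool.Agent.H772R2.Main

set_option autoImplicit false
set_option linter.all false
open scoped InnerProductSpace ENNReal ComplexConjugate ContDiff Topology
open ContinuousLinearMap MeasureTheory Set Filter
noncomputable section
namespace Pool.Agent.H772R2

section
variable {D D' H H' : Type*} [AddCommGroup D] [Module ℂ D] [AddCommGroup D']
  [NormedAddCommGroup H] [InnerProductSpace ℂ H] [CompleteSpace H]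
  [NormedAddCommGroup H'] [InnerProductSpace ℂ H'] [CompleteSpace H']

lemma norm_sq_toGl (i : D →ₗ[ℂ] H) (T : D →ₗ[ℂ] H') (u : D) :
    ‖toGl i T u‖ ^ 2 = ‖i u‖ ^ 2 + ‖T u‖ ^ 2 := norm_sq_eq i T (toGl i T u)

/-- `resolv i T` is the resolvent of the Friedrichs extension of `L` if `T^* T = L` on `D` -/
lemma isRes_gen (i : D →ₗ[ℂ] H) (T : D →ₗ[ℂ] H') (e : D → D')
    (ha : ∀ u v, e (u + v) = e u + e v) (hs : ∀ u v, e (u - v) = e u - e v)
    {F : Set D'} (hF : ∀ u' ∈ F, ∃ u, e u = u') (hF' : ∀ u, e u ∈ F)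
    {ip : D' → D' → ℂ} (hip : ∀ u v, ip (e u) (e v) = ⟪i u, i v⟫_ℂ)
    {j : D' → H} (hj : ∀ u, j (e u) = i u) {L : D → D} {L' : D' → D'}
    (hL : ∀ u, L' (e u) = e (L u)) (hT : ∀ u v, ⟪T u, T v⟫_ℂ = ⟪i (L u), i v⟫_ℂ) :
    El.IsRes F ip j L' (resolv i T) := by
  refine ⟨fun v w => ?_, fun u' hu' => ?_, fun w => ?_⟩
  · have h1 := resolv_sa i T
    rw [ContinuousLinearMap.isSelfAdjoint_iff'] at h1
    rw [← ContinuousLinearMap.adjoint_inner_right, h1]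
  · obtain ⟨u, rfl⟩ := hF u' hu'
    rw [hL, ← ha, hj, hj, map_add]
    exact resolv_apply i T u _ (hT u)
  · obtain ⟨x, hx, hlim⟩ := mem_closure_iff_seq_limit.1
      (denseRange_toGl i T (adjoint (projH i T) w))
    choose U hU using hx
    refine ⟨fun n => e (U n), fun n => hF' _, ?_, ?_⟩
    · have h1 := ((projH i T).continuous.tendsto _).comp hlim
      refine h1.congr fun n => ?_
      show projH i T (x n) = j (e (U n))
      rw [← hU, projH_toGl, hj]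
    · have h1 : ∀ n : ℕ × ℕ, ip (e (U n.1) - e (U n.2)) (L' (e (U n.1) - e (U n.2))) =
          ((‖T (U n.1 - U n.2)‖ ^ 2 : ℝ) : ℂ) := by
        intro n
        rw [← hs, hL, hip, ← inner_conj_symm, ← hT, inner_self_eq_norm_sq_to_K]
        simp
      simp only [h1]
      have h2 : Tendsto (fun n : ℕ × ℕ => ‖x n.1 - x n.2‖ ^ 2) atTop (𝓝 0) := by
        have h3 : Tendsto (fun n : ℕ × ℕ => x n.1 - x n.2) atTop (𝓝 0) := by
          have h4 : Tendsto (fun n : ℕ × ℕ => x n.1) atTop (𝓝 (adjoint (projH i T) w)) := by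
            rw [← prod_atTop_atTop_eq]
            exact hlim.comp tendsto_fst
          have h5 : Tendsto (fun n : ℕ × ℕ => x n.2) atTop (𝓝 (adjoint (projH i T) w)) := by
            rw [← prod_atTop_atTop_eq]
            exact hlim.comp tendsto_snd
          simpa using h4.sub h5
        have h6 := h3.norm.pow 2
        simpa using h6
      have h7 : Tendsto (fun n : ℕ × ℕ => ‖T (U n.1 - U n.2)‖ ^ 2) atTop (𝓝 0) := by
        refine squeeze_zero (fun n => sq_nonneg _) (fun n => ?_) h2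
        have h8 : x n.1 - x n.2 = toGl i T (U n.1 - U n.2) := by rw [map_sub, hU, hU]
        rw [h8, norm_sq_toGl]
        nlinarith [sq_nonneg ‖i (U n.1 - U n.2)‖]
      have h9 := (Complex.continuous_ofReal.tendsto (0 : ℝ)).comp h7
      rw [Complex.ofReal_zero] at h9
      exact h9

end

/-! ### from `Lam` valued functions to families of components -/

/-- the components -/
def dn {X : Type*} (U : X → Lam) (p : X) : Finset (Fin 3) → ℂ := WithLp.ofLp (U p)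

/-- the inverse of `dn` -/
def up {X : Type*} (u : X → Finset (Fin 3) → ℂ) (p : X) : Lam := WithLp.toLp 2 (u p)

/-- the components, as a continuous linear map -/
def dnL : Lam →L[ℝ] (Finset (Fin 3) → ℂ) :=
  (PiLp.continuousLinearEquiv 2 ℝ (fun _ : Finset (Fin 3) => ℂ) : Lam →L[ℝ] (Finset (Fin 3) → ℂ))

def upL : (Finset (Fin 3) → ℂ) →L[ℝ] Lam :=
  ((PiLp.continuousLinearEquiv 2 ℝ (fun _ : Finset (Fin 3) => ℂ)).symm :
    (Finset (Fin 3) → ℂ) →L[ℝ] Lam)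

lemma dn_up {X : Type*} (u : X → Finset (Fin 3) → ℂ) : dn (up u) = u := rfl

lemma up_dn {X : Type*} (U : X → Lam) : up (dn U) = U := rfl

lemma dn_smooth {V : Type*} [NormedAddCommGroup V] [NormedSpace ℝ V] {U : V → Lam}
    (h : ContDiff ℝ ∞ U) : ContDiff ℝ ∞ (dn U) := dnL.contDiff.comp h

lemma up_smooth {V : Type*} [NormedAddCommGroup V] [NormedSpace ℝ V]
    {u : V → Finset (Fin 3) → ℂ} (h : ContDiff ℝ ∞ u) : ContDiff ℝ ∞ (up u) :=
  upL.contDiff.comp h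

lemma fderiv_dn {V : Type*} [NormedAddCommGroup V] [NormedSpace ℝ V] {U : V → Lam} {p : V}
    (h : DifferentiableAt ℝ U p) (w : V) :
    fderiv ℝ (dn U) p w = WithLp.ofLp (fderiv ℝ U p w) := by
  have h1 : HasFDerivAt (dn U) (dnL.comp (fderiv ℝ U p)) p := dnL.hasFDerivAt.comp p h.hasFDerivAt
  rw [h1.fderiv]; rfl

lemma deriv_dn {U : ℝ → Lam} {r : ℝ} (h : DifferentiableAt ℝ U r) :
    deriv (dn U) r = WithLp.ofLp (deriv U r) :=
  (dnL.hasFDerivAt.comp_hasDerivAt r h.hasDerivAt).deriv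

lemma ext_of (i : Fin 3) (a : Lam) : El.ext i (WithLp.ofLp a) = WithLp.ofLp (ext i a) := by
  funext S
  exact (ext_apply i a S).symm

lemma int_of (i : Fin 3) (a : Lam) : El.int i (WithLp.ofLp a) = WithLp.ofLp (int i a) := by
  funext S
  exact (int_apply i a S).symm

lemma inner_of (a b : Lam) : ∑ S, conj (WithLp.ofLp a S) * WithLp.ofLp b S = ⟪a, b⟫_ℂ := by
  rw [PiLp.inner_apply]
  refine Finset.sum_congr rfl fun S _ => ?_
  rw [RCLike.inner_apply, mul_comm]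

/-! ### the torus -/

lemma dn_mem (U : DM) : dn (U : ℝ × ℝ × ℝ → Lam) ∈ El.FM :=
  ⟨dn_smooth U.2.1, fun t x y => by
    obtain ⟨h1, h2, h3⟩ := U.2.2 t x y
    simp only [dn, h1, h2, h3, and_self]⟩

/-- smooth forms as elements of `DM` -/
def toDM (u : ℝ × ℝ × ℝ → Finset (Fin 3) → ℂ) (h : u ∈ El.FM) : DM :=
  ⟨up u, up_smooth h.1, fun t x y => by
    obtain ⟨h1, h2, h3⟩ := h.2 t x y
    simp only [up, h1, h2, h3, and_self]⟩

open Classical in
/-- the inclusion of the smooth forms into `L²` -/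
def jM (u : ℝ × ℝ × ℝ → Finset (Fin 3) → ℂ) : Lp Lam 2 muM :=
  if h : u ∈ El.FM then iM (toDM u h) else 0

lemma jM_dn (U : DM) : jM (dn (U : ℝ × ℝ × ℝ → Lam)) = iM U := by
  unfold jM
  rw [dif_pos (dn_mem U)]
  rfl

lemma exists_DM (u : ℝ × ℝ × ℝ → Finset (Fin 3) → ℂ) (h : u ∈ El.FM) :
    ∃ U : DM, dn (U : ℝ × ℝ × ℝ → Lam) = u := ⟨toDM u h, rfl⟩

lemma ipM_dn (U V : DM) : El.ipM (dn (U : ℝ × ℝ × ℝ → Lam)) (dn (V : ℝ × ℝ × ℝ → Lam)) =
    ⟪iM U, iM V⟫_ℂ := by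
  rw [iM_inner]
  unfold El.ipM muM dn
  simp only [inner_of]

section
variable {g : ℝ → ℝ}

lemma dF_dn (U : DM) : El.dF g (dn (U : ℝ × ℝ × ℝ → Lam)) = dn (opF g U) := by
  funext p
  unfold El.dF
  rw [fderiv_dn (DM.diff U p)]
  show El.ext 0 (WithLp.ofLp (fderiv ℝ (U : ℝ × ℝ × ℝ → Lam) p (1, 0, g p.2.1)) +
    ((deriv g p.2.1 : ℝ) : ℂ) • El.ext 1 (El.int 2 (WithLp.ofLp ((U : ℝ × ℝ × ℝ → Lam) p)))) = _
  rw [int_of, ext_of, ← WithLp.ofLp_smul, ← WithLp.ofLp_add, ext_of]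
  rfl

lemma dFs_dn (U : DM) : El.dFs g (dn (U : ℝ × ℝ × ℝ → Lam)) = dn (opFs g U) := by
  funext p
  unfold El.dFs
  rw [fderiv_dn (DM.diff U p)]
  show - El.int 0 (WithLp.ofLp (fderiv ℝ (U : ℝ × ℝ × ℝ → Lam) p (1, 0, g p.2.1)) -
    ((deriv g p.2.1 : ℝ) : ℂ) • El.ext 2 (El.int 1 (WithLp.ofLp ((U : ℝ × ℝ × ℝ → Lam) p)))) = _
  rw [int_of, ext_of, ← WithLp.ofLp_smul, ← WithLp.ofLp_sub, int_of, ← WithLp.ofLp_neg]
  rfl

lemma dH_dn (U : DM) : El.dH (dn (U : ℝ × ℝ × ℝ → Lam)) = dn (opH U) := by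
  funext p
  unfold El.dH
  rw [fderiv_dn (DM.diff U p), fderiv_dn (DM.diff U p), ext_of, ext_of, ← WithLp.ofLp_add]
  rfl

lemma dHs_dn (U : DM) : El.dHs (dn (U : ℝ × ℝ × ℝ → Lam)) = dn (opHs U) := by
  funext p
  unfold El.dHs
  rw [fderiv_dn (DM.diff U p), fderiv_dn (DM.diff U p), int_of, int_of, ← WithLp.ofLp_add,
    ← WithLp.ofLp_neg]
  rfl

variable (hg : ContDiff ℝ ∞ g) (hp : Function.Periodic g 1)

lemma LapM_dn (h : ℝ) (U : DM) : El.LapM g h (dn (U : ℝ × ℝ × ℝ → Lam)) =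
    dn (DeltaM hg hp h U : ℝ × ℝ × ℝ → Lam) := by
  have h1 : ∀ V : DM, El.dF g (dn (V : ℝ × ℝ × ℝ → Lam)) = dn (mF hg hp V : ℝ × ℝ × ℝ → Lam) :=
    fun V => dF_dn V
  have h2 : ∀ V : DM, El.dFs g (dn (V : ℝ × ℝ × ℝ → Lam)) = dn (mFs hg hp V : ℝ × ℝ × ℝ → Lam) :=
    fun V => dFs_dn V
  have h3 : ∀ V : DM, El.dH (dn (V : ℝ × ℝ × ℝ → Lam)) = dn (mH V : ℝ × ℝ × ℝ → Lam) :=
    fun V => dH_dn V
  have h4 : ∀ V : DM, El.dHs (dn (V : ℝ × ℝ × ℝ → Lam)) = dn (mHs V : ℝ × ℝ × ℝ → Lam) :=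
    fun V => dHs_dn V
  unfold El.LapM
  rw [h1, h2, h1, h2, h3, h4, h3, h4]
  rfl

lemma SigM_dn (h : ℝ) (U : DM) : El.SigM g h (dn (U : ℝ × ℝ × ℝ → Lam)) =
    dn (SigM hg hp h U : ℝ × ℝ × ℝ → Lam) := by
  unfold El.SigM
  rw [dF_dn, dFs_dn, dH_dn, dHs_dn]
  rfl

lemma dense_jM (h : DenseRange (iM : DM → Lp Lam 2 muM)) : Dense (jM '' El.FM) := by
  refine h.mono ?_
  rintro _ ⟨U, rfl⟩
  exact ⟨dn (U : ℝ × ℝ × ℝ → Lam), dn_mem U, jM_dn U⟩

include hp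

lemma isRes_lap (h : ℝ) : El.IsRes El.FM El.ipM jM (El.LapM g h) (resolv iM (lapOp g hg h)) :=
  isRes_gen iM (lapOp g hg h) (fun U => dn (U : ℝ × ℝ × ℝ → Lam)) (fun _ _ => rfl)
    (fun _ _ => rfl) (fun u hu => exists_DM u hu) dn_mem ipM_dn jM_dn (LapM_dn hg hp h)
    (fun u v => lapOp_inner hg hp h u v)

lemma isRes_sig (h : ℝ) : El.IsRes El.FM El.ipM jM (fun u => El.SigM g h (El.SigM g h u))
    (resolv iM (sigOp g hg h)) :=
  isRes_gen iM (sigOp g hg h) (fun U => dn (U : ℝ × ℝ × ℝ → Lam)) (fun _ _ => rfl)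
    (fun _ _ => rfl) (fun u hu => exists_DM u hu) dn_mem ipM_dn jM_dn
    (L := fun U => SigM hg hp h (SigM hg hp h U))
    (fun U => by
      show El.SigM g h (El.SigM g h (dn (U : ℝ × ℝ × ℝ → Lam))) = _
      rw [SigM_dn hg hp, SigM_dn hg hp])
    (fun u v => by
      rw [sigOp_eq hg hp, sigOp_eq hg hp, SigM_symm hg hp h (SigM hg hp h u) v])

end

end Pool.Agent.H772R2
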