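import Pool.Agent.H772R2.Core4
import Pool.Agent.H772R2.Alg

set_option autoImplicit false
set_option linter.all false
open scoped InnerProductSpace ENNReal ComplexConjugate ContDiff Topology
open ContinuousLinearMap MeasureTheory Set Filter
noncomputable section
namespace Pool.Agent.H772R2

/-- Smooth compactly supported functions on the line with values in `Lam`. -/
def DL : Submodule ℂ (ℝ → Lam) where
  carrier := {φ | ContDiff ℝ ∞ φ ∧ HasCompactSupport φ}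
  add_mem' := fun h h' => ⟨h.1.add h'.1, h.2.add h'.2⟩
  zero_mem' := ⟨contDiff_const, HasCompactSupport.zero⟩
  smul_mem' := fun c φ h => ⟨contDiff_const.smul h.1, h.2.smul_left (f := fun _ => c)⟩

lemma DL.memLp (φ : DL) : MemLp (φ : ℝ → Lam) 2 volume :=
  φ.2.1.continuous.memLp_of_hasCompactSupport φ.2.2

/-- The inclusion of the test functions into `L²(ℝ; Lam)`. -/
def iL : DL →ₗ[ℂ] Lp Lam 2 (volume : Measure ℝ) where
  toFun φ := (DL.memLp φ).toLp _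
  map_add' φ ψ := MemLp.toLp_add _ _
  map_smul' c φ := MemLp.toLp_const_smul _ _

/-- the derivative of a test function -/
def dD (φ : DL) : DL := ⟨deriv (φ : ℝ → Lam), by
  refine ⟨?_, φ.2.2.deriv⟩
  exact (contDiff_infty_iff_deriv.1 φ.2.1).2⟩

lemma hasDerivAt_DL (φ : DL) (r : ℝ) : HasDerivAt (φ : ℝ → Lam) ((dD φ : ℝ → Lam) r) r :=
  (φ.2.1.differentiable (by simp)).differentiableAt.hasDerivAt

lemma norm_iL_sq (φ : DL) : ‖iL φ‖ ^ 2 = ∫ r, ‖(φ : ℝ → Lam) r‖ ^ 2 := by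
  have h1 : ⟪iL φ, iL φ⟫_ℂ = ((‖iL φ‖ ^ 2 : ℝ) : ℂ) := by
    rw [inner_self_eq_norm_sq_to_K]; push_cast; rfl
  rw [L2.inner_def] at h1
  have h2 : ∫ r, ⟪(iL φ : ℝ → Lam) r, (iL φ : ℝ → Lam) r⟫_ℂ =
      ∫ r, ((‖(φ : ℝ → Lam) r‖ ^ 2 : ℝ) : ℂ) := by
    refine integral_congr_ae ?_
    filter_upwards [(DL.memLp φ).coeFn_toLp] with r hr
    have : (iL φ : ℝ → Lam) r = (φ : ℝ → Lam) r := hr
    rw [this, inner_self_eq_norm_sq_to_K]; push_cast; rfl
  rw [h2, integral_complex_ofReal] at h1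
  exact_mod_cast h1.symm

lemma integrable_normSq (φ : DL) : Integrable (fun r => ‖(φ : ℝ → Lam) r‖ ^ 2) := by
  refine Continuous.integrable_of_hasCompactSupport (φ.2.1.continuous.norm.pow 2) ?_
  exact φ.2.2.norm.comp_left (g := fun x : ℝ => x ^ 2) (by simp)

/-- Sobolev inequality with a parameter -/
lemma sobolev (φ : DL) (r : ℝ) {s : ℝ} (hs : 0 < s) :
    ‖(φ : ℝ → Lam) r‖ ^ 2 ≤ s * ‖iL φ‖ ^ 2 + s⁻¹ * ‖iL (dD φ)‖ ^ 2 := by
  have hF : ContDiff ℝ 1 (fun r => ‖(φ : ℝ → Lam) r‖ ^ 2) := by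
    exact ContDiff.norm_sq ℝ (φ.2.1.of_le (by exact_mod_cast le_top))
  have hc : HasCompactSupport (fun r => ‖(φ : ℝ → Lam) r‖ ^ 2) :=
    φ.2.2.norm.comp_left (g := fun x : ℝ => x ^ 2) (by simp)
  have h1 := HasCompactSupport.integral_Iic_deriv_eq hF hc r
  have hd : ∀ x, deriv (fun r => ‖(φ : ℝ → Lam) r‖ ^ 2) x =
      2 * ⟪(φ : ℝ → Lam) x, (dD φ : ℝ → Lam) x⟫_ℝ := fun x =>
    ((hasDerivAt_DL φ x).norm_sq).deriv
  have hle : ∀ x, deriv (fun r => ‖(φ : ℝ → Lam) r‖ ^ 2) x ≤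
      s * ‖(φ : ℝ → Lam) x‖ ^ 2 + s⁻¹ * ‖(dD φ : ℝ → Lam) x‖ ^ 2 := by
    intro x
    rw [hd x]
    have h2 := real_inner_le_norm ((φ : ℝ → Lam) x) ((dD φ : ℝ → Lam) x)
    have h3 : 0 ≤ s⁻¹ * (s * ‖(φ : ℝ → Lam) x‖ - ‖(dD φ : ℝ → Lam) x‖) ^ 2 := by positivity
    have h4 : s⁻¹ * (s * ‖(φ : ℝ → Lam) x‖ - ‖(dD φ : ℝ → Lam) x‖) ^ 2 =
        s * ‖(φ : ℝ → Lam) x‖ ^ 2 - 2 * (‖(φ : ℝ → Lam) x‖ * ‖(dD φ : ℝ → Lam) x‖) +
        s⁻¹ * ‖(dD φ : ℝ → Lam) x‖ ^ 2 := by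
      field_simp
      ring
    linarith
  have hi := ((integrable_normSq φ).const_mul s).add ((integrable_normSq (dD φ)).const_mul s⁻¹)
  have hid : Integrable (deriv (fun r => ‖(φ : ℝ → Lam) r‖ ^ 2)) :=
    (hF.continuous_deriv le_rfl).integrable_of_hasCompactSupport hc.deriv
  rw [← h1, norm_iL_sq, norm_iL_sq]
  calc ∫ x in Iic r, deriv (fun r => ‖(φ : ℝ → Lam) r‖ ^ 2) x
      ≤ ∫ x in Iic r, (s * ‖(φ : ℝ → Lam) x‖ ^ 2 + s⁻¹ * ‖(dD φ : ℝ → Lam) x‖ ^ 2) := by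
        exact setIntegral_mono hid.integrableOn hi.integrableOn hle
    _ ≤ ∫ x, (s * ‖(φ : ℝ → Lam) x‖ ^ 2 + s⁻¹ * ‖(dD φ : ℝ → Lam) x‖ ^ 2) := by
        refine setIntegral_le_integral hi ?_
        exact Eventually.of_forall fun x => by positivity
    _ = _ := by
        rw [integral_add ((integrable_normSq φ).const_mul s) ((integrable_normSq (dD φ)).const_mul s⁻¹),
          integral_const_mul, integral_const_mul]

lemma holder (φ : DL) (r r' : ℝ) :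
    ‖(φ : ℝ → Lam) r - (φ : ℝ → Lam) r'‖ ^ 2 ≤ |r - r'| * ‖iL (dD φ)‖ ^ 2 := by
  wlog h : r' ≤ r generalizing r r'
  · rw [norm_sub_rev, abs_sub_comm]
    exact this r' r (le_of_not_ge h)
  have hint : ∫ x in r'..r, (dD φ : ℝ → Lam) x = (φ : ℝ → Lam) r - (φ : ℝ → Lam) r' :=
    intervalIntegral.integral_eq_sub_of_hasDerivAt (fun x _ => hasDerivAt_DL φ x)
      ((dD φ).2.1.continuous.intervalIntegrable _ _)
  set x := ‖(φ : ℝ → Lam) r - (φ : ℝ → Lam) r'‖ with hx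
  have hD : ∫ y in r'..r, ‖(dD φ : ℝ → Lam) y‖ ^ 2 ≤ ‖iL (dD φ)‖ ^ 2 := by
    rw [norm_iL_sq, intervalIntegral.integral_of_le h]
    exact setIntegral_le_integral (integrable_normSq (dD φ))
      (Eventually.of_forall fun x => by positivity)
  have hx1 : x ≤ ∫ y in r'..r, ‖(dD φ : ℝ → Lam) y‖ := by
    rw [hx, ← hint]
    exact intervalIntegral.norm_integral_le_integral_norm h
  have hcont : Continuous (dD φ : ℝ → Lam) := (dD φ).2.1.continuous
  have key : ∀ s : ℝ, 0 ≤ (r - r') * (s * s) + (-2 * x) * s + ‖iL (dD φ)‖ ^ 2 := by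
    intro s
    by_cases hs : 0 < s
    · have h2 : ∫ y in r'..r, ‖(dD φ : ℝ → Lam) y‖ ≤
          ∫ y in r'..r, (s / 2 + ‖(dD φ : ℝ → Lam) y‖ ^ 2 / (2 * s)) := by
        refine intervalIntegral.integral_mono_on h (hcont.norm.intervalIntegrable _ _)
          (Continuous.intervalIntegrable (by fun_prop) _ _) fun y _ => ?_
        have h3 : 0 ≤ (s - ‖(dD φ : ℝ → Lam) y‖) ^ 2 / (2 * s) := by positivity
        have h4 : (s - ‖(dD φ : ℝ → Lam) y‖) ^ 2 / (2 * s) =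
          s / 2 - ‖(dD φ : ℝ → Lam) y‖ + ‖(dD φ : ℝ → Lam) y‖ ^ 2 / (2 * s) := by
          field_simp
          ring
        linarith
      rw [intervalIntegral.integral_add (Continuous.intervalIntegrable (by fun_prop) _ _)
        (Continuous.intervalIntegrable (by fun_prop) _ _), intervalIntegral.integral_const,
        intervalIntegral.integral_div, smul_eq_mul] at h2
      have h5 : x ≤ (r - r') * (s / 2) + ‖iL (dD φ)‖ ^ 2 / (2 * s) := by
        refine hx1.trans (h2.trans ?_)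
        gcongr
      have h6 : x * (2 * s) ≤ ((r - r') * (s / 2) + ‖iL (dD φ)‖ ^ 2 / (2 * s)) * (2 * s) := by
        gcongr
      have h7 : ((r - r') * (s / 2) + ‖iL (dD φ)‖ ^ 2 / (2 * s)) * (2 * s) =
        (r - r') * (s * s) + ‖iL (dD φ)‖ ^ 2 := by
        field_simp
      linarith
    · have h8 : 0 ≤ x := norm_nonneg _
      have h9 : 0 ≤ (-2 * x) * s := by nlinarith
      have h10 : 0 ≤ (r - r') * (s * s) := mul_nonneg (by linarith) (mul_self_nonneg s)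
      positivity
  have h11 := discrim_le_zero key
  rw [discrim] at h11
  rw [abs_of_nonneg (by linarith)]
  nlinarith

end Pool.Agent.H772R2
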