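import Pool.Agent.H772R2.MBase
import Pool.Agent.H772R2.Leaf

set_option autoImplicit false
set_option linter.all false
open scoped InnerProductSpace ENNReal ComplexConjugate ContDiff Topology
open ContinuousLinearMap MeasureTheory Set Filter
noncomputable section
namespace Pool.Agent.H772R2

/-- the periodic extension of a function supported in the open unit cube -/
def perE (χ : ℝ × ℝ × ℝ → ℝ) (p : ℝ × ℝ × ℝ) : ℝ :=
  χ (Int.fract p.1, Int.fract p.2.1, Int.fract p.2.2)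

lemma fract_ev {A : Set ℝ} (hA : IsClosed A) (hA' : A ⊆ Ioo 0 1) (t₀ : ℝ) :
    ∀ᶠ t : ℝ in 𝓝 t₀, Int.fract t = t - (⌊t₀⌋ : ℝ) ∨ (Int.fract t ∉ A ∧ t - (⌊t₀⌋ : ℝ) ∉ A) := by
  have h1 : Aᶜ ∈ 𝓝 (1 : ℝ) := hA.isOpen_compl.mem_nhds (fun h => (lt_irrefl _ (hA' h).2))
  obtain ⟨ε, hε, hball⟩ := Metric.mem_nhds_iff.1 h1
  by_cases ht : (⌊t₀⌋ : ℝ) = t₀
  · have hm : 0 < min ε 1 := lt_min hε one_pos
    filter_upwards [Ioo_mem_nhds (show t₀ - min ε 1 < t₀ by linarith)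
      (show t₀ < t₀ + 1 by linarith)] with t ht'
    obtain ⟨ha, hb⟩ := ht'
    by_cases h : t₀ ≤ t
    · left
      have h2 : ⌊t⌋ = ⌊t₀⌋ := Int.floor_eq_iff.2 ⟨by rw [ht]; exact h, by rw [ht]; exact hb⟩
      rw [Int.fract, h2]
    · right
      push Not at h
      have hm1 : min ε 1 ≤ ε := min_le_left _ _
      have hm2 : min ε 1 ≤ 1 := min_le_right _ _
      have h2 : ⌊t⌋ = ⌊t₀⌋ - 1 := Int.floor_eq_iff.2
        ⟨by push_cast; rw [ht]; linarith, by push_cast; rw [ht]; linarith⟩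
      refine ⟨?_, ?_⟩
      · have h3 : Int.fract t ∈ Metric.ball 1 ε := by
          rw [Int.fract, h2, Metric.mem_ball, Real.dist_eq, abs_lt]
          push_cast
          rw [ht]
          constructor <;> linarith
        exact hball h3
      · intro h3
        have := (hA' h3).1
        rw [ht] at this
        linarith
  · have h2 : (⌊t₀⌋ : ℝ) < t₀ := lt_of_le_of_ne (Int.floor_le t₀) ht
    filter_upwards [Ioo_mem_nhds h2 (Int.lt_floor_add_one t₀)] with t ht'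
    left
    rw [Int.fract, Int.floor_eq_iff.2 ⟨ht'.1.le, ht'.2⟩]

lemma perE_smooth {χ : ℝ × ℝ × ℝ → ℝ} (hχ : ContDiff ℝ ∞ χ) (hc : HasCompactSupport χ)
    (hs : tsupport χ ⊆ Ioo 0 1 ×ˢ Ioo 0 1 ×ˢ Ioo 0 1) : ContDiff ℝ ∞ (perE χ) := by
  rw [contDiff_iff_contDiffAt]
  rintro ⟨t₀, x₀, y₀⟩
  have hK : IsCompact (tsupport χ) := hc
  have hz : ∀ q, q ∉ tsupport χ → χ q = 0 := fun q hq => image_eq_zero_of_notMem_tsupport hq
  have e1 := (continuous_fst.tendsto (t₀, x₀, y₀)).eventually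
    (fract_ev (A := Prod.fst '' tsupport χ) (hK.image continuous_fst).isClosed
      (by rintro _ ⟨p, hp, rfl⟩; exact (hs hp).1) t₀)
  have e2 := ((continuous_fst.comp continuous_snd).tendsto (t₀, x₀, y₀)).eventually
    (fract_ev (A := (fun p : ℝ × ℝ × ℝ => p.2.1) '' tsupport χ)
      (hK.image (by fun_prop)).isClosed (by rintro _ ⟨p, hp, rfl⟩; exact (hs hp).2.1) x₀)
  have e3 := ((continuous_snd.comp continuous_snd).tendsto (t₀, x₀, y₀)).eventually
    (fract_ev (A := (fun p : ℝ × ℝ × ℝ => p.2.2) '' tsupport χ)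
      (hK.image (by fun_prop)).isClosed (by rintro _ ⟨p, hp, rfl⟩; exact (hs hp).2.2) y₀)
  have hev : perE χ =ᶠ[𝓝 (t₀, x₀, y₀)]
      fun p => χ (p.1 - ⌊t₀⌋, p.2.1 - ⌊x₀⌋, p.2.2 - ⌊y₀⌋) := by
    filter_upwards [e1, e2, e3] with p h1 h2 h3
    simp only [Function.comp] at h2 h3
    unfold perE
    rcases h1 with h1 | h1
    · rcases h2 with h2 | h2
      · rcases h3 with h3 | h3
        · rw [h1, h2, h3]
        · rw [hz _ fun h => h3.1 ⟨_, h, rfl⟩, hz _ fun h => h3.2 ⟨_, h, rfl⟩]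
      · rw [hz _ fun h => h2.1 ⟨_, h, rfl⟩, hz _ fun h => h2.2 ⟨_, h, rfl⟩]
    · rw [hz _ fun h => h1.1 ⟨_, h, rfl⟩, hz _ fun h => h1.2 ⟨_, h, rfl⟩]
  refine ContDiffAt.congr_of_eventuallyEq ?_ hev
  have : ContDiff ℝ ∞ (fun p : ℝ × ℝ × ℝ => χ (p.1 - ⌊t₀⌋, p.2.1 - ⌊x₀⌋, p.2.2 - ⌊y₀⌋)) :=
    hχ.comp (by fun_prop)
  exact this.contDiffAt

/-- the form `perE χ · a` -/
def perD (χ : ℝ × ℝ × ℝ → ℝ) (hχ : ContDiff ℝ ∞ χ) (hc : HasCompactSupport χ)
    (hs : tsupport χ ⊆ Ioo 0 1 ×ˢ Ioo 0 1 ×ˢ Ioo 0 1) (a : Lam) : DM :=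
  ⟨fun p => perE χ p • a, (perE_smooth hχ hc hs).smul contDiff_const, fun t x y => by
    simp only [perE, Int.fract_add_one, and_self]⟩

lemma muI_eq : muI = volume.restrict (Ioo (0 : ℝ) 1) := by
  unfold muI
  exact (Measure.restrict_congr_set Ioo_ae_eq_Ico).symm

lemma muM_eq' : muM = volume.restrict (Ioo (0 : ℝ) 1 ×ˢ Ioo (0 : ℝ) 1 ×ˢ Ioo (0 : ℝ) 1) := by
  rw [muM_eq, muI_eq, Measure.prod_restrict, Measure.prod_restrict]
  rfl

lemma inner_zero_all {w : Lam} (h : ∀ S : Finset (Fin 3),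
    ⟪EuclideanSpace.basisFun (Finset (Fin 3)) ℂ S, w⟫_ℂ = 0) : w = 0 := by
  ext S
  have := h S
  rw [EuclideanSpace.basisFun_apply, EuclideanSpace.inner_single_left] at this
  simpa using this

lemma inner_real_smul' (c : ℝ) (a w : Lam) : c • ⟪a, w⟫_ℂ = ⟪c • a, w⟫_ℂ := by
  rw [RCLike.real_smul_eq_coe_smul (K := ℂ) c a, inner_smul_left]
  simp

lemma ae_zero_muM {f : ℝ × ℝ × ℝ → ℂ} (hI : Integrable f muM)
    (h : ∀ χ : ℝ × ℝ × ℝ → ℝ, ContDiff ℝ ∞ χ → HasCompactSupport χ →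
      tsupport χ ⊆ Ioo 0 1 ×ˢ Ioo 0 1 ×ˢ Ioo 0 1 → ∫ p, χ p • f p ∂muM = 0) :
    ∀ᵐ p ∂muM, f p = 0 := by
  rw [muM_eq'] at hI h ⊢
  have h1 := IsOpen.ae_eq_zero_of_integral_contDiff_smul_eq_zero (μ := volume)
    (U := Ioo (0 : ℝ) 1 ×ˢ Ioo (0 : ℝ) 1 ×ˢ Ioo (0 : ℝ) 1) (f := f)
    (isOpen_Ioo.prod (isOpen_Ioo.prod isOpen_Ioo))
    (IntegrableOn.locallyIntegrableOn hI) ?_
  · exact (ae_restrict_iff' (measurableSet_Ioo.prod
      (measurableSet_Ioo.prod measurableSet_Ioo))).2 h1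
  · intro χ hχ hc hs
    rw [← h χ hχ hc hs]
    symm
    apply setIntegral_eq_integral_of_forall_compl_eq_zero
    intro p hp
    rw [image_eq_zero_of_notMem_tsupport (fun h => hp (hs h)), zero_smul]

/-- the smooth forms are dense in `L²` -/
lemma dense_iM : DenseRange (iM : DM → Lp Lam 2 muM) := by
  have h : (LinearMap.range iM).topologicalClosure = ⊤ := by
    rw [Submodule.topologicalClosure_eq_top_iff, Submodule.eq_bot_iff]
    intro w hw
    have hint : Integrable (w : ℝ × ℝ × ℝ → Lam) muM := (Lp.memLp w).integrable (by norm_num)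
    have key : ∀ a : Lam, ∀ᵐ p ∂muM, ⟪a, (w : ℝ × ℝ × ℝ → Lam) p⟫_ℂ = 0 := by
      intro a
      have hI : Integrable (fun p => ⟪a, (w : ℝ × ℝ × ℝ → Lam) p⟫_ℂ) muM := hint.const_inner a
      refine ae_zero_muM hI ?_
      intro χ hχ hc hs
      have h2 := hw (iM (perD χ hχ hc hs a)) ⟨_, rfl⟩
      rw [L2.inner_def] at h2
      rw [← h2]
      refine integral_congr_ae ?_
      have h4 : (iM (perD χ hχ hc hs a) : ℝ × ℝ × ℝ → Lam) =ᵐ[muM]
        (perD χ hχ hc hs a : ℝ × ℝ × ℝ → Lam) := mkOp_ae _ _ _ _ _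
      have h5 : ∀ᵐ p ∂muM, p ∈ Ico (0 : ℝ) 1 ×ˢ Ico (0 : ℝ) 1 ×ˢ Ico (0 : ℝ) 1 :=
        ae_restrict_mem (measurableSet_Ico.prod (measurableSet_Ico.prod measurableSet_Ico))
      filter_upwards [h4, h5] with p h4 h5
      rw [h4]
      have h6 : (perD χ hχ hc hs a : ℝ × ℝ × ℝ → Lam) p = χ p • a := by
        show perE χ p • a = χ p • a
        unfold perE
        rw [Int.fract_eq_self.2 h5.1, Int.fract_eq_self.2 h5.2.1, Int.fract_eq_self.2 h5.2.2]
      rw [h6]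
      exact inner_real_smul' _ _ _
    have hall : ∀ᵐ p ∂muM, ∀ S : Finset (Fin 3),
        ⟪EuclideanSpace.basisFun (Finset (Fin 3)) ℂ S, (w : ℝ × ℝ × ℝ → Lam) p⟫_ℂ = 0 :=
      ae_all_iff.2 fun S => key _
    refine Lp.ext ?_
    filter_upwards [hall, Lp.coeFn_zero (E := Lam) (p := 2) (μ := muM)] with p h1 h2
    rw [h2]
    exact inner_zero_all h1
  have h2 := (Submodule.dense_iff_topologicalClosure_eq_top).2 h
  exact h2

/-- the test sections are dense in `L²` of the line -/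
lemma dense_iL : DenseRange (iL : DL → Lp Lam 2 (volume : Measure ℝ)) := by
  have h : (LinearMap.range iL).topologicalClosure = ⊤ := by
    rw [Submodule.topologicalClosure_eq_top_iff, Submodule.eq_bot_iff]
    intro w hw
    have hint : LocallyIntegrable (w : ℝ → Lam) volume :=
      (Lp.memLp w).locallyIntegrable (by norm_num)
    have key : ∀ a : Lam, ∀ᵐ p, ⟪a, (w : ℝ → Lam) p⟫_ℂ = 0 := by
      intro a
      have hI : LocallyIntegrable (fun p => ⟪a, (w : ℝ → Lam) p⟫_ℂ) volume := by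
        intro p
        obtain ⟨s, hs, hi⟩ := hint p
        exact ⟨s, hs, hi.const_inner a⟩
      refine ae_eq_zero_of_integral_contDiff_smul_eq_zero hI ?_
      intro χ hχ hc
      set D : DL := ⟨fun p => χ p • a, hχ.smul contDiff_const, hc.smul_right⟩ with hD
      have h2 := hw (iL D) ⟨_, rfl⟩
      rw [L2.inner_def] at h2
      rw [← h2]
      refine integral_congr_ae ?_
      have h4 : (iL D : ℝ → Lam) =ᵐ[volume] (D : ℝ → Lam) := (DL.memLp D).coeFn_toLp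
      filter_upwards [h4] with p h4
      rw [h4]
      have h6 : (D : ℝ → Lam) p = χ p • a := rfl
      rw [h6]
      exact inner_real_smul' _ _ _
    have hall : ∀ᵐ p, ∀ S : Finset (Fin 3),
        ⟪EuclideanSpace.basisFun (Finset (Fin 3)) ℂ S, (w : ℝ → Lam) p⟫_ℂ = 0 :=
      ae_all_iff.2 fun S => key _
    refine Lp.ext ?_
    filter_upwards [hall, Lp.coeFn_zero (E := Lam) (p := 2) (μ := (volume : Measure ℝ))] with p h1 h2
    rw [h2]
    exact inner_zero_all h1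
  exact (Submodule.dense_iff_topologicalClosure_eq_top).2 h

end Pool.Agent.H772R2
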