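import Pool.Agent.H772R2.Bridge
import Pool.Agent.H772R2.Dense

set_option autoImplicit false
set_option linter.all false
open scoped InnerProductSpace ENNReal ComplexConjugate ContDiff Topology
open ContinuousLinearMap MeasureTheory Set Filter
noncomputable section
namespace Pool.Agent.H772R2

lemma isL2_M : El.IsL2 El.FM El.ipM jM :=
  ⟨fun u hu v hv => by
    obtain ⟨U, rfl⟩ := exists_DM u hu
    obtain ⟨V, rfl⟩ := exists_DM v hv
    rw [jM_dn, jM_dn, ipM_dn], dense_jM dense_iM⟩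

/-! ### the leaves -/

lemma dnL_mem (φ : DL) : dn (φ : ℝ → Lam) ∈ El.FL :=
  ⟨dn_smooth φ.2.1, φ.2.2.comp_left (g := (WithLp.ofLp : Lam → _)) rfl⟩

/-- test sections as elements of `DL` -/
def toDL (φ : ℝ → Finset (Fin 3) → ℂ) (h : φ ∈ El.FL) : DL :=
  ⟨up φ, up_smooth h.1, h.2.comp_left (g := (WithLp.toLp 2 : _ → Lam)) rfl⟩

open Classical in
/-- the inclusion of the test sections into `L²` -/
def jL (φ : ℝ → Finset (Fin 3) → ℂ) : Lp Lam 2 (volume : Measure ℝ) :=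
  if h : φ ∈ El.FL then iL (toDL φ h) else 0

lemma jL_dn (φ : DL) : jL (dn (φ : ℝ → Lam)) = iL φ := by
  unfold jL
  rw [dif_pos (dnL_mem φ)]
  rfl

lemma exists_DL (φ : ℝ → Finset (Fin 3) → ℂ) (h : φ ∈ El.FL) :
    ∃ U : DL, dn (U : ℝ → Lam) = φ := ⟨toDL φ h, rfl⟩

lemma ipL_dn (U V : DL) : El.ipL (dn (U : ℝ → Lam)) (dn (V : ℝ → Lam)) = ⟪iL U, iL V⟫_ℂ := by
  rw [iL_inner]
  unfold El.ipL dn
  simp only [inner_of]

lemma isL2_L : El.IsL2 El.FL El.ipL jL :=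
  ⟨fun u hu v hv => by
    obtain ⟨U, rfl⟩ := exists_DL u hu
    obtain ⟨V, rfl⟩ := exists_DL v hv
    rw [jL_dn, jL_dn, ipL_dn], by
    refine dense_iL.mono ?_
    rintro _ ⟨U, rfl⟩
    exact ⟨dn (U : ℝ → Lam), dnL_mem U, jL_dn U⟩⟩

lemma DL.diff (φ : DL) (r : ℝ) : DifferentiableAt ℝ (φ : ℝ → Lam) r :=
  (φ.2.1.differentiable (by simp)).differentiableAt

section
variable (g : ℝ → ℝ) (ν : Ph)

lemma lF_dn_gen {U : ℝ → Lam} {r : ℝ} (hU : DifferentiableAt ℝ U r) :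
    El.lF g ν (dn U) r = WithLp.ofLp (ext 0 (deriv U r + Bz (deriv g ν.1.2.1) (U r))) := by
  unfold El.lF
  rw [deriv_dn hU]
  show El.ext 0 (WithLp.ofLp (deriv U r) +
    ((deriv g ν.1.2.1 : ℝ) : ℂ) • El.ext 1 (El.int 2 (WithLp.ofLp (U r)))) = _
  rw [int_of, ext_of, ← WithLp.ofLp_smul, ← WithLp.ofLp_add, ext_of]
  rfl

lemma lFs_dn_gen {U : ℝ → Lam} {r : ℝ} (hU : DifferentiableAt ℝ U r) :
    El.lFs g ν (dn U) r = WithLp.ofLp (- int 0 (deriv U r - Bs (deriv g ν.1.2.1) (U r))) := by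
  unfold El.lFs
  rw [deriv_dn hU]
  show - El.int 0 (WithLp.ofLp (deriv U r) -
    ((deriv g ν.1.2.1 : ℝ) : ℂ) • El.ext 2 (El.int 1 (WithLp.ofLp (U r)))) = _
  rw [int_of, ext_of, ← WithLp.ofLp_smul, ← WithLp.ofLp_sub, int_of, ← WithLp.ofLp_neg]
  rfl

lemma lF_dn (φ : DL) : El.lF g ν (dn (φ : ℝ → Lam)) = dn (lF g ν φ : ℝ → Lam) := by
  funext r
  rw [lF_dn_gen g ν (DL.diff φ r)]
  rfl

lemma lFs_dn (φ : DL) : El.lFs g ν (dn (φ : ℝ → Lam)) = dn (lFs g ν φ : ℝ → Lam) := by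
  funext r
  rw [lFs_dn_gen g ν (DL.diff φ r)]
  rfl

lemma LapL_dn (φ : DL) : El.LapL g ν (dn (φ : ℝ → Lam)) = dn (DeltaL g ν φ : ℝ → Lam) := by
  unfold El.LapL
  rw [lF_dn, lFs_dn, lF_dn, lFs_dn]
  funext r
  have h1 : (DeltaL g ν φ : ℝ → Lam) r = ((lF g ν (lFs g ν φ) : ℝ → Lam) r +
    (lFs g ν (lF g ν φ) : ℝ → Lam) r) + gN (flow g r ν) • (φ : ℝ → Lam) r := rfl
  have h2 : dn (DeltaL g ν φ : ℝ → Lam) r = WithLp.ofLp ((DeltaL g ν φ : ℝ → Lam) r) := rfl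
  rw [h2, h1, WithLp.ofLp_add, WithLp.ofLp_add, WithLp.ofLp_smul,
    RCLike.real_smul_eq_coe_smul (K := ℂ)]
  rfl

lemma SigL_dn (φ : DL) : El.SigL g ν (dn (φ : ℝ → Lam)) = dn (SigL g ν φ : ℝ → Lam) := by
  unfold El.SigL
  rw [lF_dn, lFs_dn]
  funext r
  have h1 : (SigL g ν φ : ℝ → Lam) r = ((lF g ν φ : ℝ → Lam) r +
    (lFs g ν φ : ℝ → Lam) r) + (lS g ν φ : ℝ → Lam) r := rfl
  have h2 : dn (SigL g ν φ : ℝ → Lam) r = WithLp.ofLp ((SigL g ν φ : ℝ → Lam) r) := rfl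
  rw [h2, h1, lS_apply, sym_apply, WithLp.ofLp_add, WithLp.ofLp_add, WithLp.ofLp_smul,
    WithLp.ofLp_add, WithLp.ofLp_smul, WithLp.ofLp_smul, cl_apply, cl_apply, WithLp.ofLp_sub,
    WithLp.ofLp_sub, ← ext_of, ← ext_of, ← int_of, ← int_of]
  rfl

lemma isRes_leafLap : El.IsRes El.FL El.ipL jL (El.LapL g ν) (resolv iL (leafLap g ν)) :=
  isRes_gen iL (leafLap g ν) (fun U => dn (U : ℝ → Lam)) (fun _ _ => rfl)
    (fun _ _ => rfl) (fun u hu => exists_DL u hu) dnL_mem ipL_dn jL_dn (LapL_dn g ν)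
    (fun u v => leafLap_inner g ν u v)

lemma isRes_leafSig : El.IsRes El.FL El.ipL jL (fun φ => El.SigL g ν (El.SigL g ν φ))
    (resolv iL (leafSig g ν)) :=
  isRes_gen iL (leafSig g ν) (fun U => dn (U : ℝ → Lam)) (fun _ _ => rfl)
    (fun _ _ => rfl) (fun u hu => exists_DL u hu) dnL_mem ipL_dn jL_dn
    (L := fun U => SigL g ν (SigL g ν U))
    (fun U => by
      show El.SigL g ν (El.SigL g ν (dn (U : ℝ → Lam))) = _
      rw [SigL_dn, SigL_dn])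
    (fun u v => by
      rw [leafSig_eq, leafSig_eq, SigL_symm g ν (SigL g ν u) v])

end

/-! ### kernels -/

/-- matrix entries -/
def mat (k : Lam →L[ℂ] Lam) (S T : Finset (Fin 3)) : ℂ :=
  WithLp.ofLp (k (EuclideanSpace.single T 1)) S

lemma inner_mat (k : Lam →L[ℂ] Lam) (a b : Lam) :
    ∑ S, ∑ T, conj (WithLp.ofLp a S) * mat k S T * WithLp.ofLp b T = ⟪a, k b⟫_ℂ := by
  rw [← inner_of]
  refine Finset.sum_congr rfl fun S _ => ?_
  have h1 : WithLp.ofLp (k b) S = ∑ T, mat k S T * WithLp.ofLp b T := by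
    have hb : b = ∑ T, (WithLp.ofLp b T) • (EuclideanSpace.single T (1 : ℂ) : Lam) := by
      have := (EuclideanSpace.basisFun (Finset (Fin 3)) ℂ).sum_repr b
      simpa using this.symm
    conv_lhs => rw [hb, map_sum]
    rw [WithLp.ofLp_sum, Finset.sum_apply]
    refine Finset.sum_congr rfl fun T _ => ?_
    rw [map_smul, WithLp.ofLp_smul, Pi.smul_apply, smul_eq_mul, mul_comm]
    rfl
  rw [h1, Finset.mul_sum]
  refine Finset.sum_congr rfl fun T _ => ?_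
  ring

lemma mat_diag (k : Lam →L[ℂ] Lam) (S : Finset (Fin 3)) : mat k S S =
    ⟪EuclideanSpace.basisFun (Finset (Fin 3)) ℂ S,
      k (EuclideanSpace.basisFun (Finset (Fin 3)) ℂ S)⟫_ℂ := by
  rw [EuclideanSpace.basisFun_apply, EuclideanSpace.inner_single_left]
  simp [mat]

lemma sum_mat (k : Lam →L[ℂ] Lam) : ∑ S, (mat k S S).re = trL k := by
  rw [trL_eq]
  refine Finset.sum_congr rfl fun S _ => ?_
  rw [mat_diag]
  rfl

lemma isKer_of {A : Lp Lam 2 (volume : Measure ℝ) →L[ℂ] Lp Lam 2 (volume : Measure ℝ)}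
    {k : ℝ → ℝ → (Lam →L[ℂ] Lam)} (h : HasContKernel A k) :
    El.IsKer jL A (fun r s => mat (k r s)) := by
  obtain ⟨hc, hk⟩ := h
  refine ⟨?_, fun φ hφ ψ hψ => ?_⟩
  · refine continuous_pi fun S => continuous_pi fun T => ?_
    have h1 : Continuous (fun p : ℝ × ℝ => k p.1 p.2 (EuclideanSpace.single T 1)) :=
      hc.clm_apply continuous_const
    exact (EuclideanSpace.proj (𝕜 := ℂ) S).continuous.comp h1
  · obtain ⟨Φ, rfl⟩ := exists_DL φ hφ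
    obtain ⟨Ψ, rfl⟩ := exists_DL ψ hψ
    rw [jL_dn, jL_dn, L2.inner_def]
    refine integral_congr_ae ?_
    have h1 : (iL Φ : ℝ → Lam) =ᵐ[volume] (Φ : ℝ → Lam) := (DL.memLp Φ).coeFn_toLp
    have h2 : (A (iL Ψ) : ℝ → Lam) =ᵐ[volume] fun r => ∫ s, k r s ((Ψ : ℝ → Lam) s) :=
      hk (Ψ : ℝ → Lam) Ψ.2.1.continuous Ψ.2.2
    filter_upwards [h1, h2] with r h3 h4
    rw [h3, h4]
    have hi : Integrable (fun s => k r s ((Ψ : ℝ → Lam) s)) := by
      have c1 : Continuous (fun s => k r s) := hc.comp (Continuous.prodMk_right r)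
      refine (c1.clm_apply Ψ.2.1.continuous).integrable_of_hasCompactSupport ?_
      refine Ψ.2.2.mono fun s hs => ?_
      rw [Function.mem_support] at hs ⊢
      intro h0; apply hs; rw [h0, map_zero]
    rw [← integral_inner hi]
    refine integral_congr_ae (Eventually.of_forall fun s => ?_)
    exact (inner_mat (k r s) _ _).symm

lemma trN_mat (k : Ph → ℝ → ℝ → (Lam →L[ℂ] Lam)) :
    El.trN (fun ν r s => mat (k ν r s)) = trN k := by
  unfold El.trN trN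
  simp only [sum_mat]
  congr 1
  unfold muM
  conv_rhs => rw [← Measure.restrict_univ (μ := (volume : Measure (ℝ × ℝ)))]
  rw [Measure.prod_restrict]
  rfl

lemma meas_eq : (volume : Measure Ph).restrict
    ((Ico (0 : ℝ) 1 ×ˢ Ico (0 : ℝ) 1 ×ˢ Ico (0 : ℝ) 1) ×ˢ univ) =
    muM.prod (volume : Measure (ℝ × ℝ)) := by
  unfold muM
  conv_rhs => rw [← Measure.restrict_univ (μ := (volume : Measure (ℝ × ℝ)))]
  rw [Measure.prod_restrict]
  rfl

lemma mat_nonneg {k : Lam →L[ℂ] Lam} (h : ∀ a, ∃ c : ℝ, 0 ≤ c ∧ ⟪a, k a⟫_ℂ = (c : ℂ))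
    (S : Finset (Fin 3)) : 0 ≤ (mat k S S).re ∧ (mat k S S).im = 0 := by
  obtain ⟨c, hc, h1⟩ := h (EuclideanSpace.basisFun (Finset (Fin 3)) ℂ S)
  rw [mat_diag, h1]
  exact ⟨hc, rfl⟩

/-! ### the geometric identities -/

lemma chg_of (g : ℝ → ℝ) (p : ℝ × ℝ × ℝ) (a : Lam) :
    El.chg g p (WithLp.ofLp a) = WithLp.ofLp (chg g p a) := by
  unfold El.chg chg
  rw [int_of, ext_of, ← WithLp.ofLp_smul, ← WithLp.ofLp_sub]

lemma dR_dn {U : ℝ × ℝ × ℝ → Lam} {p : ℝ × ℝ × ℝ} (hU : DifferentiableAt ℝ U p) :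
    El.dR (dn U) p = WithLp.ofLp (dR U p) := by
  unfold El.dR dR
  rw [fderiv_dn hU, fderiv_dn hU, fderiv_dn hU, ext_of, ext_of, ext_of]
  rfl

lemma geo {g : ℝ → ℝ} (hg : ContDiff ℝ ∞ g) (hp : Function.Periodic g 1) : El.Geo g := by
  have hgd : Differentiable ℝ g := hg.differentiable (by simp)
  intro u hu
  obtain ⟨U, rfl⟩ := exists_DM u hu
  refine ⟨fun p => ?_, fun v hv => ?_, fun ν r => ⟨?_, ?_⟩⟩
  · rw [dF_dn, dH_dn]
    have h1 : dn (opF g U) p + dn (opH U) p = WithLp.ofLp (opF g U p + opH U p) := rfl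
    have h2 : (fun q => El.chg g q (dn (U : ℝ × ℝ × ℝ → Lam) q)) =
        dn (fun q => chg g q ((U : ℝ × ℝ × ℝ → Lam) q)) := funext fun q => chg_of g q _
    have h3 : DifferentiableAt ℝ (fun q => chg g q ((U : ℝ × ℝ × ℝ → Lam) q)) p := by
      unfold chg
      have h4 : DifferentiableAt ℝ (fun q : ℝ × ℝ × ℝ => ((g q.2.1 : ℝ) : ℂ)) p := by
        have : DifferentiableAt ℝ (fun q : ℝ × ℝ × ℝ => g q.2.1) p :=
          (hgd p.2.1).comp p (by fun_prop)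
        exact Complex.ofRealCLM.differentiableAt.comp p this
      have h5 : DifferentiableAt ℝ (fun q => ext 0 (int 2 ((U : ℝ × ℝ × ℝ → Lam) q))) p :=
        (((ext 0) ∘L (int 2)).restrictScalars ℝ).differentiableAt.comp p (DM.diff U p)
      exact (DM.diff U p).sub (h4.smul h5)
    rw [h1, chg_of, h2, dR_dn h3, deRham_split hgd (DM.diff U)]
  · obtain ⟨V, rfl⟩ := exists_DM v hv
    have h1 : El.dF g (dn (U : ℝ × ℝ × ℝ → Lam)) = dn (mF hg hp U : ℝ × ℝ × ℝ → Lam) := dF_dn U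
    have h2 : El.dFs g (dn (V : ℝ × ℝ × ℝ → Lam)) = dn (mFs hg hp V : ℝ × ℝ × ℝ → Lam) :=
      dFs_dn V
    have h3 : El.dH (dn (U : ℝ × ℝ × ℝ → Lam)) = dn (mH U : ℝ × ℝ × ℝ → Lam) := dH_dn U
    have h4 : El.dHs (dn (V : ℝ × ℝ × ℝ → Lam)) = dn (mHs V : ℝ × ℝ × ℝ → Lam) := dHs_dn V
    rw [h1, h2, h3, h4, ipM_dn, ipM_dn, ipM_dn, ipM_dn]
    exact ⟨mF_adj hg hp U V, mH_adj U V⟩
  all_goals
    have hcurve : Differentiable ℝ (fun s => (El.flow g s ν).1) := by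
      unfold El.flow
      fun_prop
    have h5 : DifferentiableAt ℝ (fun s => (U : ℝ × ℝ × ℝ → Lam) (El.flow g s ν).1) r :=
      (DM.diff U _).comp r (hcurve r)
  · rw [dF_dn]
    have h6 := pullback_F g ν (DM.diff U) r
    have h7 := lF_dn_gen g ν h5
    show WithLp.ofLp (opF g U (flow g r ν).1) = _
    rw [h6]
    exact h7.symm
  · rw [dFs_dn]
    have h6 := pullback_Fs g ν (DM.diff U) r
    have h7 := lFs_dn_gen g ν h5
    show WithLp.ofLp (opFs g U (flow g r ν).1) = _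
    rw [h6]
    exact h7.symm

end Pool.Agent.H772R2
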