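import Mathlib

set_option autoImplicit false
set_option linter.all false
open scoped ENNReal ContDiff Topology
open MeasureTheory Set Filter
noncomputable section
namespace Pool.Agent.H772R2

/-- a bump function supported in `(1/4, 3/4)` -/
def psi0 : ContDiffBump (1 / 2 : ℝ) := ⟨1 / 8, 1 / 4, by norm_num, by norm_num⟩

def psi (x : ℝ) : ℝ := psi0 x

lemma psi_contDiff : ContDiff ℝ ∞ psi := psi0.contDiff

lemma psi_zero {x : ℝ} (h : x ≤ 1 / 4 ∨ 3 / 4 ≤ x) : psi x = 0 := by
  apply psi0.zero_of_le_dist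
  show (1 / 4 : ℝ) ≤ dist x (1 / 2)
  rw [Real.dist_eq]
  rcases h with h | h
  · rw [abs_of_nonpos (by linarith)]; linarith
  · rw [abs_of_nonneg (by linarith)]; linarith

lemma psi_one : psi (1 / 2) = 1 := by
  apply psi0.one_of_mem_closedBall
  rw [Metric.mem_closedBall, dist_self]
  exact psi0.rIn_pos.le

lemma psi_cs : HasCompactSupport psi := psi0.hasCompactSupport

/-- the cell functions -/
def cell (L : ℕ) (j : ℕ) (x : ℝ) : ℝ := psi (L * Int.fract x - j)

lemma cell_periodic (L j : ℕ) : Function.Periodic (cell L j) 1 := by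
  intro x
  unfold cell
  rw [Int.fract_add_one]

lemma cell_eventually {L j : ℕ} (hL : 0 < L) (hj : j < L) (x : ℝ) :
    (Int.fract x ≠ 0 ∧ cell L j =ᶠ[𝓝 x] fun y => psi (L * (y - ⌊x⌋) - j)) ∨
    (Int.fract x = 0 ∧ cell L j =ᶠ[𝓝 x] fun _ => 0) := by
  have hL' : (0 : ℝ) < L := by exact_mod_cast hL
  have hj' : (j : ℝ) + 1 ≤ L := by exact_mod_cast hj
  have hj0 : (0 : ℝ) ≤ j := by positivity
  by_cases h : Int.fract x = 0
  · right
    refine ⟨h, ?_⟩
    have hx : x = ⌊x⌋ := by
      have := Int.self_sub_floor x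
      rw [h] at this; linarith
    set n : ℤ := ⌊x⌋ with hn
    have hnb : Ioo ((n : ℝ) - 1 / (4 * L)) (n + 1 / (4 * L)) ∈ 𝓝 x := by
      apply Ioo_mem_nhds
      · rw [hx]; have : (0 : ℝ) < 1 / (4 * L) := by positivity
        linarith
      · rw [hx]; have : (0 : ℝ) < 1 / (4 * L) := by positivity
        linarith
    filter_upwards [hnb] with y hy
    have h4 : (L : ℝ) * (1 / (4 * L)) = 1 / 4 := by field_simp
    have hlt1 : 1 / (4 * (L : ℝ)) < 1 := by
      rw [div_lt_one (by positivity)]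
      have : (1 : ℝ) ≤ L := by exact_mod_cast hL
      linarith
    by_cases hyn : (n : ℝ) ≤ y
    · have hfl : ⌊y⌋ = n := by
        rw [Int.floor_eq_iff]
        exact ⟨hyn, by linarith [hy.2]⟩
      have hfr : Int.fract y = y - n := by rw [← Int.self_sub_floor, hfl]
      unfold cell
      rw [hfr]
      apply psi_zero
      left
      have : (L : ℝ) * (y - n) ≤ L * (1 / (4 * L)) := by
        gcongr; linarith [hy.2]
      linarith
    · push Not at hyn
      have hfl : ⌊y⌋ = n - 1 := by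
        rw [Int.floor_eq_iff]
        push_cast
        exact ⟨by linarith [hy.1], by linarith⟩
      have hfr : Int.fract y = y - n + 1 := by
        rw [← Int.self_sub_floor, hfl]; push_cast; ring
      unfold cell
      rw [hfr]
      apply psi_zero
      right
      have : (L : ℝ) * (1 - 1 / (4 * L)) ≤ L * (y - n + 1) := by
        gcongr; linarith [hy.1]
      linarith
  · left
    refine ⟨h, ?_⟩
    have h0 : 0 < Int.fract x := lt_of_le_of_ne (Int.fract_nonneg x) (Ne.symm h)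
    have h1 := Int.fract_lt_one x
    have hx := Int.self_sub_floor x
    have hnb : Ioo ((⌊x⌋ : ℝ)) (⌊x⌋ + 1) ∈ 𝓝 x := by
      apply Ioo_mem_nhds <;> linarith
    filter_upwards [hnb] with y hy
    have hfl : ⌊y⌋ = ⌊x⌋ := by
      rw [Int.floor_eq_iff]
      exact ⟨hy.1.le, hy.2⟩
    unfold cell
    rw [← Int.self_sub_floor y, hfl]

lemma cell_contDiff {L j : ℕ} (hL : 0 < L) (hj : j < L) : ContDiff ℝ ∞ (cell L j) := by
  rw [contDiff_iff_contDiffAt]
  intro x
  rcases cell_eventually hL hj x with ⟨_, h⟩ | ⟨_, h⟩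
  · refine ContDiffAt.congr_of_eventuallyEq ?_ h
    exact (psi_contDiff.comp (by fun_prop)).contDiffAt
  · exact contDiffAt_const.congr_of_eventuallyEq h

lemma cell_deriv {L j : ℕ} (hL : 0 < L) (hj : j < L) {x : ℝ} (hx : x ∈ Ico (0 : ℝ) 1) :
    deriv (cell L j) x = L * deriv psi (L * x - j) := by
  have hL' : (0 : ℝ) < L := by exact_mod_cast hL
  have hj0 : (0 : ℝ) ≤ j := by positivity
  have hfl : ⌊x⌋ = 0 := by
    rw [Int.floor_eq_iff]; simpa using hx
  rcases cell_eventually hL hj x with ⟨_, h⟩ | ⟨h0, h⟩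
  · rw [h.deriv_eq]
    rw [hfl]
    have h1 : HasDerivAt (fun y : ℝ => (L : ℝ) * (y - ((0 : ℤ) : ℝ)) - j) (L * 1) x := by
      have := (((hasDerivAt_id x).sub_const ((0 : ℤ) : ℝ)).const_mul (L : ℝ)).sub_const (j : ℝ)
      simpa using this
    have h2 : HasDerivAt psi (deriv psi ((L : ℝ) * (x - ((0 : ℤ) : ℝ)) - j))
      ((L : ℝ) * (x - ((0 : ℤ) : ℝ)) - j) :=
      (psi_contDiff.differentiable (by simp)).differentiableAt.hasDerivAt
    have h3 := h2.comp x h1
    have h4 : deriv (fun y : ℝ => psi ((L : ℝ) * (y - ((0 : ℤ) : ℝ)) - j)) x = _ := h3.deriv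
    rw [h4]
    simp
    ring
  · rw [h.deriv_eq, deriv_const]
    have hx0 : x = 0 := by
      have := Int.self_sub_floor x
      rw [h0, hfl] at this; simpa using this
    rw [hx0, mul_zero, zero_sub]
    have h1 : deriv psi (-(j : ℝ)) = 0 := by
      have : psi =ᶠ[𝓝 (-(j : ℝ))] fun _ => 0 := by
        filter_upwards [gt_mem_nhds (show -(j : ℝ) < 1 / 4 by linarith)] with y hy
        exact psi_zero (Or.inl hy.le)
      rw [this.deriv_eq, deriv_const]
    rw [h1, mul_zero]

lemma cell_val {L j : ℕ} {x : ℝ} (hx : x ∈ Ico (0 : ℝ) 1) : cell L j x = psi (L * x - j) := by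
  unfold cell
  rw [Int.fract_eq_self.2 hx]

lemma cell_supp {L j : ℕ} (hL : 0 < L) {x : ℝ} (hx : x ∈ Ico (0 : ℝ) 1) (h : cell L j x ≠ 0) :
    (j : ℝ) / L < x ∧ x < (j + 1) / L := by
  have hL' : (0 : ℝ) < L := by exact_mod_cast hL
  rw [cell_val hx] at h
  have h1 : 1 / 4 < L * x - j := by
    by_contra hc
    exact h (psi_zero (Or.inl (not_lt.1 hc)))
  have h2 : L * x - j < 3 / 4 := by
    by_contra hc
    exact h (psi_zero (Or.inr (not_lt.1 hc)))
  rw [div_lt_iff₀ hL', lt_div_iff₀ hL']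
  constructor <;> nlinarith

lemma cell_mul {L j k : ℕ} (hL : 0 < L) (hjk : j ≠ k) (x : ℝ) : cell L j x * cell L k x = 0 := by
  have hL' : (0 : ℝ) < L := by exact_mod_cast hL
  have hx : Int.fract x ∈ Ico (0 : ℝ) 1 := ⟨Int.fract_nonneg x, Int.fract_lt_one x⟩
  have e1 : ∀ j, cell L j x = cell L j (Int.fract x) := by
    intro j
    unfold cell
    rw [Int.fract_fract]
  rw [e1, e1]
  by_contra hc
  obtain ⟨h1, h2⟩ := cell_supp hL hx (left_ne_zero_of_mul hc)
  obtain ⟨h3, h4⟩ := cell_supp hL hx (right_ne_zero_of_mul hc)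
  rw [div_lt_iff₀ hL'] at h1 h3
  rw [lt_div_iff₀ hL'] at h2 h4
  have h5 : (j : ℝ) < k + 1 := by linarith
  have h6 : (k : ℝ) < j + 1 := by linarith
  have h7 : j < k + 1 := by exact_mod_cast h5
  have h8 : k < j + 1 := by exact_mod_cast h6
  omega

/-- integration over the unit interval -/
lemma integral_cell {L j : ℕ} (hL : 0 < L) (hj : j < L) {F : ℝ → ℝ}
    (hF : ∀ x, x ≤ 0 ∨ 1 ≤ x → F x = 0) :
    ∫ x in Ico (0 : ℝ) 1, F (L * x - j) = (L : ℝ)⁻¹ * ∫ x, F x := by
  have hL' : (0 : ℝ) < L := by exact_mod_cast hL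
  have hj' : (j : ℝ) + 1 ≤ L := by exact_mod_cast hj
  have hj0 : (0 : ℝ) ≤ j := by positivity
  rw [integral_Ico_eq_integral_Ioo, ← integral_Ioc_eq_integral_Ioo,
    ← intervalIntegral.integral_of_le zero_le_one]
  rw [intervalIntegral.integral_comp_mul_sub F hL'.ne' (j : ℝ), smul_eq_mul]
  congr 1
  rw [intervalIntegral.integral_of_le (by linarith)]
  apply setIntegral_eq_integral_of_forall_compl_eq_zero
  intro x hx
  apply hF
  by_contra hc
  push Not at hc
  apply hx
  constructor <;> nlinarith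

def A0 : ℝ := ∫ x, psi x ^ 2
def A1 : ℝ := ∫ x, deriv psi x ^ 2

lemma A0_pos : 0 < A0 := by
  unfold A0
  have hc : Continuous (fun x => psi x ^ 2) := psi_contDiff.continuous.pow 2
  have hs : HasCompactSupport (fun x => psi x ^ 2) :=
    psi_cs.comp_left (g := fun x : ℝ => x ^ 2) (by simp)
  refine hc.integral_pos_of_hasCompactSupport_nonneg_nonzero hs (fun x => sq_nonneg _)
    (x := 1 / 2) ?_
  rw [psi_one]; norm_num

lemma A1_nonneg : 0 ≤ A1 := integral_nonneg fun x => sq_nonneg _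

lemma dpsi_zero {x : ℝ} (h : x ≤ 0 ∨ 1 ≤ x) : deriv psi x = 0 := by
  have : psi =ᶠ[𝓝 x] fun _ => 0 := by
    rcases h with h | h
    · filter_upwards [gt_mem_nhds (show x < 1 / 4 by linarith)] with y hy
      exact psi_zero (Or.inl hy.le)
    · filter_upwards [lt_mem_nhds (show 3 / 4 < x by linarith)] with y hy
      exact psi_zero (Or.inr hy.le)
  rw [this.deriv_eq, deriv_const]

lemma integral_cell_sq {L j : ℕ} (hL : 0 < L) (hj : j < L) :
    ∫ x in Ico (0 : ℝ) 1, cell L j x ^ 2 = (L : ℝ)⁻¹ * A0 := by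
  rw [A0, ← integral_cell hL hj (F := fun x => psi x ^ 2)]
  · refine setIntegral_congr_fun measurableSet_Ico fun x hx => ?_
    beta_reduce
    rw [cell_val hx]
  · intro x hx
    show psi x ^ 2 = 0
    rw [psi_zero]
    · norm_num
    · rcases hx with h | h
      · left; linarith
      · right; linarith

lemma integral_dcell_sq {L j : ℕ} (hL : 0 < L) (hj : j < L) :
    ∫ x in Ico (0 : ℝ) 1, deriv (cell L j) x ^ 2 = (L : ℝ) * A1 := by
  have hL' : (0 : ℝ) < L := by exact_mod_cast hL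
  have h1 : ∫ x in Ico (0 : ℝ) 1, deriv (cell L j) x ^ 2 =
      ∫ x in Ico (0 : ℝ) 1, (L : ℝ) ^ 2 * (fun y => deriv psi y ^ 2) (L * x - j) := by
    refine setIntegral_congr_fun measurableSet_Ico fun x hx => ?_
    beta_reduce
    rw [cell_deriv hL hj hx, mul_pow]
  rw [h1, integral_const_mul, integral_cell hL hj (F := fun y => deriv psi y ^ 2)]
  · rw [A1]
    field_simp
  · intro x hx
    show deriv psi x ^ 2 = 0
    rw [dpsi_zero hx]; norm_num

end Pool.Agent.H772R2
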