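import Pool.Agent.H772R2.Alg

set_option autoImplicit false
set_option linter.all false
open scoped InnerProductSpace ENNReal ComplexConjugate
open ContinuousLinearMap
noncomputable section
namespace Pool.Agent.H772R2

/-- exponent of the sign -/
def sg (i : Fin 3) (S : Finset (Fin 3)) : ℕ := (S.filter (· < i)).card

lemma sgn_eq (i : Fin 3) (S : Finset (Fin 3)) : sgn i S = (-1) ^ sg i S := rfl

lemma neg_one_rel {a b c d : ℕ} (h : (a + b) % 2 ≠ (c + d) % 2) :
    ((-1 : ℂ) ^ a * (-1) ^ b) = - ((-1) ^ c * (-1) ^ d) := by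
  rw [← pow_add, ← pow_add]
  rcases Nat.even_or_odd (a + b) with h1 | h1 <;> rcases Nat.even_or_odd (c + d) with h2 | h2
  · exact absurd ((Nat.even_iff.1 h1).trans (Nat.even_iff.1 h2).symm) h
  · rw [h1.neg_one_pow, h2.neg_one_pow]; ring
  · rw [h1.neg_one_pow, h2.neg_one_pow]
  · exact absurd ((Nat.odd_iff.1 h1).trans (Nat.odd_iff.1 h2).symm) h

lemma sg1 : ∀ i j : Fin 3, ∀ S : Finset (Fin 3), i ≠ j → i ∈ S → j ∈ S →
    (sg i S + sg j (S.erase i)) % 2 ≠ (sg j S + sg i (S.erase j)) % 2 := by decide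

lemma sg2 : ∀ i j : Fin 3, ∀ S : Finset (Fin 3), i ≠ j → i ∉ S → j ∉ S →
    (sg i S + sg j (insert i S)) % 2 ≠ (sg j S + sg i (insert j S)) % 2 := by decide

lemma sg3 : ∀ i j : Fin 3, ∀ S : Finset (Fin 3), i ≠ j → i ∈ S → j ∉ S →
    (sg i S + sg j (S.erase i)) % 2 ≠ (sg j S + sg i (insert j S)) % 2 := by decide

lemma ext_ext (i j : Fin 3) (h : i ≠ j) (α : Lam) : ext i (ext j α) = - ext j (ext i α) := by
  ext S
  simp only [ext_apply, PiLp.neg_apply, Finset.mem_erase]
  by_cases hi : i ∈ S <;> by_cases hj : j ∈ S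
  · simp only [hi, hj, h, h.symm, ne_eq, not_false_eq_true, and_self, if_true]
    have h1 := neg_one_rel (sg1 i j S h hi hj)
    rw [← sgn_eq, ← sgn_eq, ← sgn_eq, ← sgn_eq] at h1
    rw [Finset.erase_right_comm]
    linear_combination α ((S.erase j).erase i) * h1
  · simp [hi, hj]
  · simp [hi, hj]
  · simp [hi, hj]

lemma int_int (i j : Fin 3) (h : i ≠ j) (α : Lam) : int i (int j α) = - int j (int i α) := by
  ext S
  simp only [int_apply, PiLp.neg_apply, Finset.mem_insert]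
  by_cases hi : i ∈ S <;> by_cases hj : j ∈ S
  · simp [hi, hj]
  · simp [hi, hj]
  · simp [hi, hj]
  · simp only [hi, hj, h, h.symm, or_self, if_false]
    have h1 := neg_one_rel (sg2 i j S h hi hj)
    rw [← sgn_eq, ← sgn_eq, ← sgn_eq, ← sgn_eq] at h1
    rw [Finset.insert_comm]
    linear_combination α (insert i (insert j S)) * h1

lemma int_self (i : Fin 3) (α : Lam) : int i (int i α) = 0 := by
  ext S
  simp [int_apply]

lemma ext_int (i j : Fin 3) (h : i ≠ j) (α : Lam) : ext i (int j α) = - int j (ext i α) := by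
  ext S
  simp only [ext_apply, int_apply, PiLp.neg_apply, Finset.mem_insert, Finset.mem_erase]
  by_cases hi : i ∈ S <;> by_cases hj : j ∈ S
  · simp [hi, hj, h.symm]
  · simp only [hi, hj, h, h.symm, ne_eq, not_false_eq_true, and_false, if_true, if_false, or_true]
    have h1 := neg_one_rel (sg3 i j S h hi hj)
    rw [← sgn_eq, ← sgn_eq, ← sgn_eq, ← sgn_eq] at h1
    rw [Finset.erase_insert_of_ne (Ne.symm h)]
    linear_combination α (insert j (S.erase i)) * h1
  · simp [hi, hj]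
  · simp [hi, hj, h]

/-- Clifford multiplication `c_i = ε_i - ι_i` -/
def cl (i : Fin 3) : Lam →L[ℂ] Lam := ext i - int i

lemma cl_apply (i : Fin 3) (α : Lam) : cl i α = ext i α - int i α := rfl

lemma cl_adj (i : Fin 3) (α β : Lam) : ⟪cl i α, β⟫_ℂ = - ⟪α, cl i β⟫_ℂ := by
  rw [cl_apply, cl_apply, inner_sub_left, inner_sub_right, adjoint_ext, adjoint_int]
  ring

lemma cl_anti (i j : Fin 3) (h : i ≠ j) (α : Lam) : cl i (cl j α) = - cl j (cl i α) := by
  simp only [cl_apply, map_sub]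
  rw [ext_ext i j h, int_int i j h, ext_int i j h, ← neg_eq_iff_eq_neg.2 (ext_int j i h.symm α)]
  abel

lemma norm_cl (i : Fin 3) (α : Lam) : ‖cl i α‖ = ‖α‖ := by
  have h1 : ‖cl i α‖ ^ 2 = ‖α‖ ^ 2 := by
    rw [cl_apply, @norm_sub_sq ℂ, adjoint_ext, int_self, inner_zero_right, ← norm_ext_int i α]
    simp
  exact (sq_eq_sq₀ (norm_nonneg _) (norm_nonneg _)).1 h1

end Pool.Agent.H772R2
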