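import Mathlib

set_option autoImplicit false
open scoped InnerProductSpace ENNReal ComplexConjugate
noncomputable section
namespace Pool.Agent.H772R2

section
variable {D H H' : Type*} [AddCommGroup D] [Module ℂ D]
  [NormedAddCommGroup H] [InnerProductSpace ℂ H] [CompleteSpace H]
  [NormedAddCommGroup H'] [InnerProductSpace ℂ H'] [CompleteSpace H']

/-- The graph map `u ↦ (u, T u)` of an operator `T` defined on `D`, where `i` is the inclusion of
`D` into the Hilbert space `H`. -/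
def graphMap (i : D →ₗ[ℂ] H) (T : D →ₗ[ℂ] H') : D →ₗ[ℂ] WithLp 2 (H × H') :=
  (WithLp.linearEquiv 2 ℂ (H × H')).symm.toLinearMap ∘ₗ (i.prod T)

/-- The closure of the graph of `T`: the graph of the closed operator `T̄`. -/
def graphClosure (i : D →ₗ[ℂ] H) (T : D →ₗ[ℂ] H') : Submodule ℂ (WithLp 2 (H × H')) :=
  (LinearMap.range (graphMap i T)).topologicalClosure

instance (i : D →ₗ[ℂ] H) (T : D →ₗ[ℂ] H') : CompleteSpace (graphClosure i T) :=
  (Submodule.isClosed_topologicalClosure _).completeSpace_coe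

/-- The projection of the closed graph to `H`. -/
def projH (i : D →ₗ[ℂ] H) (T : D →ₗ[ℂ] H') : graphClosure i T →L[ℂ] H :=
  (WithLp.fstL 2 ℂ H H').comp (graphClosure i T).subtypeL

def projH' (i : D →ₗ[ℂ] H) (T : D →ₗ[ℂ] H') : graphClosure i T →L[ℂ] H' :=
  (WithLp.sndL 2 ℂ H H').comp (graphClosure i T).subtypeL

/-- The resolvent `(1 + T^* T̄)⁻¹` -/
def resolv (i : D →ₗ[ℂ] H) (T : D →ₗ[ℂ] H') : H →L[ℂ] H :=
  projH i T ∘L ContinuousLinearMap.adjoint (projH i T)

/-- functional calculus -/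
def fcalc (i : D →ₗ[ℂ] H) (T : D →ₗ[ℂ] H') (f : ℝ → ℝ) : H →L[ℂ] H :=
  cfc (fun x : ℝ => if 0 < x then f (x⁻¹ - 1) else 0) (resolv i T)

end
end Pool.Agent.H772R2
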