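import Pool.Agent.H772R2.Core

set_option autoImplicit false
set_option linter.all false
open scoped InnerProductSpace ENNReal ComplexConjugate
open ContinuousLinearMap
noncomputable section
namespace Pool.Agent.H772R2

/-- the function of the resolvent variable `x = 1/(1+λ)` corresponding to the function `F` of `λ` -/
def gf (F : ℝ → ℝ) : ℝ → ℝ := fun x => if 0 < x then F (x⁻¹ - 1) else 0

/-- admissible functions -/
def Adm (F : ℝ → ℝ) : Prop := Continuous F ∧ ∃ E : ℝ, ∀ x, E ≤ x → F x = 0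

lemma Adm.mul {F G : ℝ → ℝ} (hF : Adm F) (hG : Continuous G) : Adm (fun x => F x * G x) := by
  obtain ⟨h1, E, h2⟩ := hF
  exact ⟨h1.mul hG, E, fun x hx => by show F x * G x = 0; rw [h2 x hx, zero_mul]⟩

lemma Adm.continuous_gf {F : ℝ → ℝ} (hF : Adm F) : Continuous (gf F) := by
  obtain ⟨h1, E, h2⟩ := hF
  rw [continuous_iff_continuousAt]
  intro x
  by_cases hx : 0 < x
  · have h3 : ContinuousAt (fun x : ℝ => F (x⁻¹ - 1)) x :=
      h1.continuousAt.comp (((continuousAt_inv₀ hx.ne').sub continuousAt_const))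
    refine h3.congr ?_
    filter_upwards [lt_mem_nhds hx] with y hy
    simp [gf, hy]
  · have hx' : x ≤ 0 := not_lt.1 hx
    have h3 : gf F =ᶠ[nhds x] fun _ => 0 := by
      have : ∀ᶠ y in nhds x, y < (|E| + 2)⁻¹ := gt_mem_nhds (lt_of_le_of_lt hx' (by positivity))
      filter_upwards [this] with y hy
      by_cases hy0 : 0 < y
      · simp only [gf, if_pos hy0]
        apply h2
        have : |E| + 2 < y⁻¹ := by
          rw [lt_inv_comm₀ (by positivity) hy0]
          exact hy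
        have := le_abs_self E
        linarith
      · simp [gf, hy0]
    exact continuousAt_const.congr h3.symm

lemma gf_mul (F G : ℝ → ℝ) : gf (fun x => F x * G x) = fun x => gf F x * gf G x := by
  funext x
  by_cases hx : 0 < x
  · simp [gf, hx]
  · simp [gf, hx]

lemma mul_gf (F : ℝ → ℝ) : (fun x => x * gf (fun y => F y * (1 + y)) x) = gf F := by
  funext x
  by_cases hx : 0 < x
  · simp only [gf, if_pos hx]
    field_simp
    ring
  · simp [gf, hx]

section
variable {D H H' : Type*} [AddCommGroup D] [Module ℂ D]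
  [NormedAddCommGroup H] [InnerProductSpace ℂ H] [CompleteSpace H]
  [NormedAddCommGroup H'] [InnerProductSpace ℂ H'] [CompleteSpace H']

lemma fcalc_eq (i : D →ₗ[ℂ] H) (T : D →ₗ[ℂ] H') (f : ℝ → ℝ) :
    fcalc i T f = cfc (gf f) (resolv i T) := rfl

lemma projH_norm_le (i : D →ₗ[ℂ] H) (T : D →ₗ[ℂ] H') : ‖projH i T‖ ≤ 1 := by
  refine ContinuousLinearMap.opNorm_le_bound _ zero_le_one fun v => ?_
  rw [one_mul]
  have h := WithLp.prod_norm_sq_eq_of_L2 (v : WithLp 2 (H × H'))
  have h2 : ‖projH i T v‖ ^ 2 ≤ ‖v‖ ^ 2 := by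
    have h3 : ‖v‖ ^ 2 = ‖projH i T v‖ ^ 2 + ‖(v : WithLp 2 (H × H')).snd‖ ^ 2 := h
    nlinarith [sq_nonneg ‖(v : WithLp 2 (H × H')).snd‖]
  exact (sq_le_sq₀ (norm_nonneg _) (norm_nonneg _)).1 h2

lemma norm_sq_eq (i : D →ₗ[ℂ] H) (T : D →ₗ[ℂ] H') (v : graphClosure i T) :
    ‖v‖ ^ 2 = ‖projH i T v‖ ^ 2 + ‖projH' i T v‖ ^ 2 :=
  WithLp.prod_norm_sq_eq_of_L2 (v : WithLp 2 (H × H'))

lemma inner_eq (i : D →ₗ[ℂ] H) (T : D →ₗ[ℂ] H') (v w : graphClosure i T) :
    ⟪v, w⟫_ℂ = ⟪projH i T v, projH i T w⟫_ℂ + ⟪projH' i T v, projH' i T w⟫_ℂ :=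
  WithLp.prod_inner_apply (v : WithLp 2 (H × H')) (w : WithLp 2 (H × H'))

/-- embedding of `D` into the closed graph -/
def toG (i : D →ₗ[ℂ] H) (T : D →ₗ[ℂ] H') (u : D) : graphClosure i T :=
  ⟨graphMap i T u, Submodule.le_topologicalClosure _ ⟨u, rfl⟩⟩

@[simp] lemma projH_toG (i : D →ₗ[ℂ] H) (T : D →ₗ[ℂ] H') (u : D) : projH i T (toG i T u) = i u := rfl
@[simp] lemma projH'_toG (i : D →ₗ[ℂ] H) (T : D →ₗ[ℂ] H') (u : D) :
    projH' i T (toG i T u) = T u := rfl

lemma resolv_nonneg (i : D →ₗ[ℂ] H) (T : D →ₗ[ℂ] H') : 0 ≤ resolv i T := by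
  rw [nonneg_iff_isPositive]
  have := ContinuousLinearMap.IsPositive.conj_adjoint (isPositive_one (𝕜 := ℂ)
    (E := graphClosure i T)) (projH i T)
  simpa [resolv] using! this

end

section gen
variable {K H : Type*} [NormedAddCommGroup K] [InnerProductSpace ℂ K] [CompleteSpace K]
  [NormedAddCommGroup H] [InnerProductSpace ℂ H] [CompleteSpace H]

lemma JJ_pos (J : K →L[ℂ] H) : (J ∘L adjoint J).IsPositive := by
  have := ContinuousLinearMap.IsPositive.conj_adjoint (isPositive_one (𝕜 := ℂ) (E := K)) J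
  simpa using! this

lemma JJ_pos' (J : K →L[ℂ] H) : (adjoint J ∘L J).IsPositive := by
  have := ContinuousLinearMap.IsPositive.adjoint_conj (isPositive_one (𝕜 := ℂ) (E := H)) J
  simpa using! this

lemma norm_JJ_le (J : K →L[ℂ] H) {c : ℝ} (hc : ‖J‖ ^ 2 ≤ c) : ‖J ∘L adjoint J‖ ≤ c := by
  refine (opNorm_comp_le _ _).trans ?_
  have : ‖adjoint J‖ = ‖J‖ := LinearIsometryEquiv.norm_map _ _
  rw [this, ← sq]
  exact hc

lemma norm_JJ_le' (J : K →L[ℂ] H) {c : ℝ} (hc : ‖J‖ ^ 2 ≤ c) : ‖adjoint J ∘L J‖ ≤ c := by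
  refine (opNorm_comp_le _ _).trans ?_
  have : ‖adjoint J‖ = ‖J‖ := LinearIsometryEquiv.norm_map _ _
  rw [this, ← sq]
  exact hc

lemma spec_subset {A : H →L[ℂ] H} (hA : A.IsPositive) {c : ℝ} (hc : ‖A‖ ≤ c) :
    ∀ x ∈ spectrum ℝ A, 0 ≤ x ∧ x ≤ c := by
  intro x hx
  constructor
  · exact spectrum_nonneg_of_nonneg ((nonneg_iff_isPositive A).2 hA) hx
  · rcases subsingleton_or_nontrivial H with h | h
    · exfalso
      have : Subsingleton (H →L[ℂ] H) := inferInstance
      rw [spectrum.mem_iff] at hx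
      exact hx (isUnit_of_subsingleton _)
    · have h1 := spectrum.norm_le_norm_of_mem hx
      have h2 := le_abs_self x
      rw [← Real.norm_eq_abs] at h2
      linarith

/-- polynomial intertwining -/
lemma intertwine_poly (J : K →L[ℂ] H) (p : Polynomial ℝ) :
    J ∘L (Polynomial.aeval (adjoint J ∘L J) p) = (Polynomial.aeval (J ∘L adjoint J) p) ∘L J := by
  induction p using Polynomial.induction_on' with
  | add p q hp hq =>
    rw [map_add, map_add, ContinuousLinearMap.comp_add, ContinuousLinearMap.add_comp, hp, hq]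
  | monomial n a =>
    have hpow : ∀ n : ℕ, J ∘L ((adjoint J ∘L J) ^ n) = ((J ∘L adjoint J) ^ n) ∘L J := by
      intro n
      induction n with
      | zero => ext v; simp
      | succ n ih =>
        rw [pow_succ', pow_succ]
        calc J ∘L ((adjoint J ∘L J) * (adjoint J ∘L J) ^ n)
            = (J ∘L adjoint J) ∘L (J ∘L ((adjoint J ∘L J) ^ n)) := rfl
          _ = (J ∘L adjoint J) ∘L (((J ∘L adjoint J) ^ n) ∘L J) := by rw [ih]
          _ = ((J ∘L adjoint J) * (J ∘L adjoint J) ^ n) ∘L J := rfl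
          _ = ((J ∘L adjoint J) ^ n * (J ∘L adjoint J)) ∘L J := by
            rw [← pow_succ', pow_succ]
    rw [Polynomial.aeval_monomial, Polynomial.aeval_monomial]
    rw [← Algebra.smul_def, ← Algebra.smul_def]
    ext v
    have h1 := congrArg (fun A : K →L[ℂ] H => A v) (hpow n)
    simp only [ContinuousLinearMap.comp_apply] at h1
    rw [ContinuousLinearMap.comp_apply, ContinuousLinearMap.comp_apply, ContinuousLinearMap.smul_apply,
      ContinuousLinearMap.smul_apply, ← h1]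
    exact ContinuousLinearMap.map_smul_of_tower J a _

/-- intertwining for the continuous functional calculus -/
lemma intertwine (J : K →L[ℂ] H) (g : ℝ → ℝ) (hg : Continuous g) :
    J ∘L (cfc g (adjoint J ∘L J)) = (cfc g (J ∘L adjoint J)) ∘L J := by
  set c : ℝ := ‖J‖ ^ 2 with hc
  have hA : (J ∘L adjoint J).IsPositive := JJ_pos J
  have hC : (adjoint J ∘L J).IsPositive := JJ_pos' J
  have sA := spec_subset hA (norm_JJ_le J le_rfl)
  have sC := spec_subset hC (norm_JJ_le' J le_rfl)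
  have hAs : IsSelfAdjoint (J ∘L adjoint J) := hA.isSelfAdjoint
  have hCs : IsSelfAdjoint (adjoint J ∘L J) := hC.isSelfAdjoint
  have key : ∀ ε : ℝ, 0 < ε → ‖J ∘L (cfc g (adjoint J ∘L J)) - (cfc g (J ∘L adjoint J)) ∘L J‖ ≤
      2 * ‖J‖ * ε := by
    intro ε hε
    obtain ⟨p, hp⟩ := exists_polynomial_near_of_continuousOn 0 c g hg.continuousOn ε hε
    have e1 : ‖cfc g (adjoint J ∘L J) - Polynomial.aeval (adjoint J ∘L J) p‖ ≤ ε := by
      rw [← cfc_polynomial p (adjoint J ∘L J) hCs, ← cfc_sub g p.eval (adjoint J ∘L J)]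
      refine norm_cfc_le hε.le fun x hx => ?_
      rw [Real.norm_eq_abs, abs_sub_comm]
      exact (hp x ⟨(sC x hx).1, (sC x hx).2⟩).le
    have e2 : ‖cfc g (J ∘L adjoint J) - Polynomial.aeval (J ∘L adjoint J) p‖ ≤ ε := by
      rw [← cfc_polynomial p (J ∘L adjoint J) hAs, ← cfc_sub g p.eval (J ∘L adjoint J)]
      refine norm_cfc_le hε.le fun x hx => ?_
      rw [Real.norm_eq_abs, abs_sub_comm]
      exact (hp x ⟨(sA x hx).1, (sA x hx).2⟩).le
    have e3 : J ∘L (cfc g (adjoint J ∘L J)) - (cfc g (J ∘L adjoint J)) ∘L J =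
        J ∘L (cfc g (adjoint J ∘L J) - Polynomial.aeval (adjoint J ∘L J) p) -
        (cfc g (J ∘L adjoint J) - Polynomial.aeval (J ∘L adjoint J) p) ∘L J := by
      rw [ContinuousLinearMap.comp_sub, ContinuousLinearMap.sub_comp, intertwine_poly J p]
      abel
    rw [e3]
    refine (norm_sub_le _ _).trans ?_
    have e4 := opNorm_comp_le J (cfc g (adjoint J ∘L J) - Polynomial.aeval (adjoint J ∘L J) p)
    have e5 := opNorm_comp_le (cfc g (J ∘L adjoint J) - Polynomial.aeval (J ∘L adjoint J) p) J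
    have hJ := norm_nonneg J
    nlinarith
  have h0 : ‖J ∘L (cfc g (adjoint J ∘L J)) - (cfc g (J ∘L adjoint J)) ∘L J‖ ≤ 0 := by
    refine le_of_forall_pos_le_add fun ε hε => ?_
    have hJ := norm_nonneg J
    refine (key (ε / (2 * ‖J‖ + 1)) (by positivity)).trans ?_
    rw [zero_add]
    rw [mul_div_assoc', div_le_iff₀ (by positivity)]
    nlinarith
  exact sub_eq_zero.1 (norm_le_zero_iff.1 h0)

end gen

end Pool.Agent.H772R2
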