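import Pool.Agent.H772R2.Core2

set_option autoImplicit false
set_option linter.all false
open scoped InnerProductSpace ENNReal ComplexConjugate
open ContinuousLinearMap
noncomputable section
namespace Pool.Agent.H772R2

section
variable {D H H' : Type*} [AddCommGroup D] [Module ℂ D]
  [NormedAddCommGroup H] [InnerProductSpace ℂ H] [CompleteSpace H]
  [NormedAddCommGroup H'] [InnerProductSpace ℂ H'] [CompleteSpace H']

lemma spec_resolv (i : D →ₗ[ℂ] H) (T : D →ₗ[ℂ] H') :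
    ∀ x ∈ spectrum ℝ (resolv i T), 0 ≤ x ∧ x ≤ 1 := by
  have h1 : ‖projH i T‖ ^ 2 ≤ 1 := by
    have := projH_norm_le i T
    have h0 := norm_nonneg (projH i T)
    nlinarith
  exact spec_subset (JJ_pos (projH i T)) (norm_JJ_le (projH i T) h1)

lemma resolv_sa (i : D →ₗ[ℂ] H) (T : D →ₗ[ℂ] H') : IsSelfAdjoint (resolv i T) :=
  (JJ_pos (projH i T)).isSelfAdjoint

lemma fcalc_sa (i : D →ₗ[ℂ] H) (T : D →ₗ[ℂ] H') (f : ℝ → ℝ) : IsSelfAdjoint (fcalc i T f) :=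
  cfc_predicate _ _

lemma fcalc_mul (i : D →ₗ[ℂ] H) (T : D →ₗ[ℂ] H') {F G : ℝ → ℝ} (hF : Adm F) (hG : Adm G) :
    fcalc i T (fun x => F x * G x) = fcalc i T F ∘L fcalc i T G := by
  rw [fcalc_eq, fcalc_eq, fcalc_eq, gf_mul]
  exact cfc_mul (gf F) (gf G) (resolv i T) hF.continuous_gf.continuousOn hG.continuous_gf.continuousOn

lemma fcalc_resolv (i : D →ₗ[ℂ] H) (T : D →ₗ[ℂ] H') {F : ℝ → ℝ} (hF : Adm F) :
    resolv i T ∘L fcalc i T (fun y => F y * (1 + y)) = fcalc i T F := by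
  have hF' : Adm (fun y => F y * (1 + y)) := hF.mul (by fun_prop)
  rw [fcalc_eq, fcalc_eq, ← mul_gf F]
  rw [cfc_mul (fun x => x) (gf fun y => F y * (1 + y)) (resolv i T) continuousOn_id
    hF'.continuous_gf.continuousOn, cfc_id' ℝ (resolv i T) (resolv_sa i T)]
  rfl

lemma norm_fcalc_le (i : D →ₗ[ℂ] H) (T : D →ₗ[ℂ] H') {F : ℝ → ℝ} {c : ℝ} (hc : 0 ≤ c)
    (h : ∀ x, 0 ≤ x → |F x| ≤ c) : ‖fcalc i T F‖ ≤ c := by
  rw [fcalc_eq]
  refine norm_cfc_le hc fun x hx => ?_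
  obtain ⟨h0, h1⟩ := spec_resolv i T x hx
  by_cases hx0 : 0 < x
  · simp only [gf, if_pos hx0]
    rw [Real.norm_eq_abs]
    apply h
    rw [sub_nonneg]
    exact (one_le_inv₀ hx0).2 h1
  · simp [gf, hx0, hc]

/-- if the operator is bounded below by `c` and `F` vanishes on `[c, ∞)`, then `F(A) = 0` -/
lemma fcalc_eq_zero (i : D →ₗ[ℂ] H) (T : D →ₗ[ℂ] H') {F : ℝ → ℝ} {c : ℝ} (hc : 0 ≤ c)
    (h : ∀ x, c ≤ x → F x = 0) (hT : ∀ u : D, c * ‖i u‖ ^ 2 ≤ ‖T u‖ ^ 2) : fcalc i T F = 0 := by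
  have hv : ∀ v : graphClosure i T, (1 + c) * ‖projH i T v‖ ^ 2 ≤ ‖v‖ ^ 2 := by
    have hclosed : IsClosed {v : WithLp 2 (H × H') |
        (1 + c) * ‖WithLp.fstL 2 ℂ H H' v‖ ^ 2 ≤ ‖v‖ ^ 2} := by
      apply isClosed_le <;> fun_prop
    rintro ⟨v, hv⟩
    have hsub : (LinearMap.range (graphMap i T) : Set (WithLp 2 (H × H'))) ⊆
        {v : WithLp 2 (H × H') | (1 + c) * ‖WithLp.fstL 2 ℂ H H' v‖ ^ 2 ≤ ‖v‖ ^ 2} := by
      rintro _ ⟨u, rfl⟩
      have h1 := WithLp.prod_norm_sq_eq_of_L2 (graphMap i T u)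
      have h2 : (graphMap i T u).fst = i u := rfl
      have h3 : (graphMap i T u).snd = T u := rfl
      show (1 + c) * ‖(graphMap i T u).fst‖ ^ 2 ≤ ‖graphMap i T u‖ ^ 2
      rw [h1, h2, h3]
      have := hT u
      linarith
    exact closure_minimal hsub hclosed hv
  have hJ : ‖projH i T‖ ^ 2 ≤ (1 + c)⁻¹ := by
    have h1 : ‖projH i T‖ ≤ Real.sqrt ((1 + c)⁻¹) := by
      refine ContinuousLinearMap.opNorm_le_bound _ (Real.sqrt_nonneg _) fun v => ?_
      have h2 := hv v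
      rw [← Real.sqrt_sq (norm_nonneg (projH i T v)), ← Real.sqrt_sq (norm_nonneg v),
        ← Real.sqrt_mul (by positivity)]
      apply Real.sqrt_le_sqrt
      rw [inv_mul_eq_div, le_div_iff₀ (by positivity)]
      linarith
    calc ‖projH i T‖ ^ 2 ≤ Real.sqrt ((1 + c)⁻¹) ^ 2 := by
          have := norm_nonneg (projH i T); gcongr
      _ = (1 + c)⁻¹ := Real.sq_sqrt (by positivity)
  have hs := spec_subset (JJ_pos (projH i T)) (norm_JJ_le (projH i T) hJ)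
  rw [fcalc_eq]
  have : (spectrum ℝ (resolv i T)).EqOn (gf F) (fun _ => 0) := by
    intro x hx
    obtain ⟨h0, h1⟩ := hs x hx
    by_cases hx0 : 0 < x
    · simp only [gf, if_pos hx0]
      apply h
      have : 1 + c ≤ x⁻¹ := by
        rw [le_inv_comm₀ (by positivity) hx0]
        exact h1
      linarith
    · simp [gf, hx0]
  rw [cfc_congr this]
  simp

end

section gen
variable {K H : Type*} [NormedAddCommGroup K] [InnerProductSpace ℂ K] [CompleteSpace K]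
  [NormedAddCommGroup H] [InnerProductSpace ℂ H] [CompleteSpace H]

lemma lower_gen (J : K →L[ℂ] H) (hJ1 : ‖J‖ ^ 2 ≤ 1) {g : ℝ → ℝ} (hcg : Continuous g) {δ : ℝ}
    (h : ∀ x, 0 ≤ x → x ≤ 1 → x - (1 - x) / δ ≤ x * g x) (v : K) :
    (1 + 1 / δ) * ‖J v‖ ^ 2 - (1 / δ) * ‖v‖ ^ 2 ≤
      RCLike.re ⟪J v, cfc g (J ∘L adjoint J) (J v)⟫_ℂ := by
  have sC := spec_subset (JJ_pos' J) (norm_JJ_le' J hJ1)
  have hCs : IsSelfAdjoint (adjoint J ∘L J) := (JJ_pos' J).isSelfAdjoint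
  have e1 : cfc g (J ∘L adjoint J) (J v) = J (cfc g (adjoint J ∘L J) v) := by
    have := congrArg (fun A : K →L[ℂ] H => A v) (intertwine J g hcg)
    exact this.symm
  have e2 : ⟪J v, cfc g (J ∘L adjoint J) (J v)⟫_ℂ =
      ⟪v, (cfc (fun x => x * g x) (adjoint J ∘L J)) v⟫_ℂ := by
    rw [e1, cfc_mul (fun x => x) g (adjoint J ∘L J) continuousOn_id
      hcg.continuousOn, cfc_id' ℝ (adjoint J ∘L J) hCs]
    show ⟪J v, _⟫_ℂ = ⟪v, adjoint J (J (cfc g (adjoint J ∘L J) v))⟫_ℂ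
    rw [ContinuousLinearMap.adjoint_inner_right]
  have e3 : cfc (fun x => x - (1 - x) / δ) (adjoint J ∘L J) ≤
      cfc (fun x => x * g x) (adjoint J ∘L J) := by
    refine cfc_mono (fun x hx => ?_) (by fun_prop) (by fun_prop)
    obtain ⟨hx0, hx1⟩ := sC x hx
    exact h x hx0 hx1
  have e4 : cfc (fun x => x - (1 - x) / δ) (adjoint J ∘L J) =
      (1 + 1 / δ : ℝ) • (adjoint J ∘L J) - (1 / δ : ℝ) • (1 : K →L[ℂ] K) := by
    have : (fun x : ℝ => x - (1 - x) / δ) = fun x => (1 + 1 / δ) * x - 1 / δ := by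
      funext x; ring
    rw [this, cfc_sub (fun x : ℝ => (1 + 1 / δ) * x) (fun _ => 1 / δ) (adjoint J ∘L J),
      cfc_const_mul (1 + 1 / δ) (fun x => x) (adjoint J ∘L J), cfc_id' ℝ (adjoint J ∘L J) hCs,
      cfc_const (1 / δ) (adjoint J ∘L J) hCs, Algebra.algebraMap_eq_smul_one]
  have e5 := (ContinuousLinearMap.le_def _ _).1 e3
  have e6 := e5.re_inner_nonneg_right v
  rw [e2]
  rw [_root_.sub_apply, inner_sub_right, map_sub, sub_nonneg, e4,
    _root_.sub_apply, inner_sub_right, map_sub] at e6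
  refine le_trans (le_of_eq ?_) e6
  have e7 : RCLike.re ⟪v, ((1 + 1 / δ : ℝ) • (adjoint J ∘L J)) v⟫_ℂ = (1 + 1 / δ) * ‖J v‖ ^ 2 := by
    rw [_root_.smul_apply, ContinuousLinearMap.comp_apply, RCLike.real_smul_eq_coe_smul (K := ℂ),
      inner_smul_right, ContinuousLinearMap.adjoint_inner_right, RCLike.re_ofReal_mul,
      inner_self_eq_norm_sq]
  have e8 : RCLike.re ⟪v, ((1 / δ : ℝ) • (1 : K →L[ℂ] K)) v⟫_ℂ = (1 / δ) * ‖v‖ ^ 2 := by
    rw [_root_.smul_apply, RCLike.real_smul_eq_coe_smul (K := ℂ),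
      inner_smul_right, ContinuousLinearMap.one_apply, RCLike.re_ofReal_mul,
      inner_self_eq_norm_sq]
  rw [e7, e8]

/-- The trace of a positive operator of the form `C*C` dominates the sum over any orthonormal
family. -/
lemma trace_ge {ι κ : Type*} [Fintype κ] (b : HilbertBasis ι ℂ H) (C : H →L[ℂ] H) (u : κ → H)
    (hu : Orthonormal ℂ u) :
    (∑ k, ENNReal.ofReal (‖C (u k)‖ ^ 2)) ≤ ∑' i, ENNReal.ofReal (‖adjoint C (b i)‖ ^ 2) := by
  have hpars : ∀ x : H, ENNReal.ofReal (‖x‖ ^ 2) = ∑' i, ENNReal.ofReal (‖⟪b i, x⟫_ℂ‖ ^ 2) := by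
    intro x
    have h1 := b.hasSum_inner_mul_inner x x
    have h2 : HasSum (fun i => ‖⟪b i, x⟫_ℂ‖ ^ 2) (‖x‖ ^ 2) := by
      have h3 : HasSum (fun i => RCLike.re (⟪x, b i⟫_ℂ * ⟪b i, x⟫_ℂ)) (RCLike.re ⟪x, x⟫_ℂ) :=
        h1.mapL (RCLike.reCLM (K := ℂ))
      rw [inner_self_eq_norm_sq] at h3
      convert h3 using 2 with i
      rw [← inner_conj_symm x (b i), RCLike.conj_mul]
      norm_cast
    have h4 := h2.tsum_eq
    rw [← h4, ENNReal.ofReal_tsum_of_nonneg (fun _ => by positivity) h2.summable]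
  calc (∑ k, ENNReal.ofReal (‖C (u k)‖ ^ 2))
      = ∑ k, ∑' i, ENNReal.ofReal (‖⟪b i, C (u k)⟫_ℂ‖ ^ 2) := by
        refine Finset.sum_congr rfl fun k _ => hpars _
    _ = ∑' i, ∑ k, ENNReal.ofReal (‖⟪b i, C (u k)⟫_ℂ‖ ^ 2) := by
        have h5 := ENNReal.tsum_comm (f := fun (k : κ) (i : ι) => ENNReal.ofReal (‖⟪b i, C (u k)⟫_ℂ‖ ^ 2))
        simpa only [tsum_fintype] using h5
    _ ≤ ∑' i, ENNReal.ofReal (‖adjoint C (b i)‖ ^ 2) := by
        refine ENNReal.tsum_le_tsum fun i => ?_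
        rw [← ENNReal.ofReal_sum_of_nonneg (fun _ _ => by positivity)]
        apply ENNReal.ofReal_le_ofReal
        have h1 := hu.sum_inner_products_le (adjoint C (b i)) (s := Finset.univ)
        refine le_trans (le_of_eq ?_) h1
        refine Finset.sum_congr rfl fun k _ => ?_
        rw [ContinuousLinearMap.adjoint_inner_right, ← inner_conj_symm, RCLike.norm_conj]

end gen

section
variable {D H H' : Type*} [AddCommGroup D] [Module ℂ D]
  [NormedAddCommGroup H] [InnerProductSpace ℂ H] [CompleteSpace H]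
  [NormedAddCommGroup H'] [InnerProductSpace ℂ H'] [CompleteSpace H']

/-- lower bound for the quadratic form of `f(A)` -/
lemma lower_form (i : D →ₗ[ℂ] H) (T : D →ₗ[ℂ] H') {f : ℝ → ℝ} (hf : Adm f) {δ : ℝ} (hδ : 0 < δ)
    (h : ∀ x, 0 ≤ x → 1 - x / δ ≤ f x) (u : D) :
    ‖i u‖ ^ 2 - ‖T u‖ ^ 2 / δ ≤ RCLike.re ⟪i u, fcalc i T f (i u)⟫_ℂ := by
  have hJ1 : ‖projH i T‖ ^ 2 ≤ 1 := by
    have := projH_norm_le i T
    have h0 := norm_nonneg (projH i T)
    nlinarith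
  have key := lower_gen (projH i T) hJ1 (hf.continuous_gf) (δ := δ) (fun x hx0 hx1 => by
    rcases hx0.eq_or_lt with h' | h'
    · rw [← h']; simp; positivity
    · simp only [gf, if_pos h']
      have h1 : 0 ≤ x⁻¹ - 1 := by
        rw [sub_nonneg]; exact (one_le_inv₀ h').2 hx1
      have h2 := mul_le_mul_of_nonneg_left (h _ h1) hx0
      refine le_trans (le_of_eq ?_) h2
      field_simp) (toG i T u)
  have h9 := norm_sq_eq i T (toG i T u)
  rw [projH_toG, projH'_toG] at h9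
  rw [projH_toG, h9] at key
  refine le_trans (le_of_eq ?_) key
  ring

end
end Pool.Agent.H772R2
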