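import Pool.Agent.H772R2.Core3

set_option autoImplicit false
set_option linter.all false
open scoped InnerProductSpace ENNReal ComplexConjugate
open ContinuousLinearMap
noncomputable section
namespace Pool.Agent.H772R2

/-- The trace, in `[0, ∞]`, of a positive bounded operator, computed in a Hilbert basis. -/
def traceE {H : Type*} [NormedAddCommGroup H] [InnerProductSpace ℂ H] {ι : Type*}
    (b : HilbertBasis ι ℂ H) (A : H →L[ℂ] H) : ℝ≥0∞ :=
  ∑' i, ENNReal.ofReal (RCLike.re ⟪b i, A (b i)⟫_ℂ)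

lemma Adm.sqrt {f : ℝ → ℝ} (hf : Adm f) : Adm (fun x => Real.sqrt (f x)) := by
  obtain ⟨h1, E, h2⟩ := hf
  exact ⟨h1.sqrt, E, fun x hx => by show Real.sqrt (f x) = 0; rw [h2 x hx, Real.sqrt_zero]⟩

section
variable {D H H' : Type*} [AddCommGroup D] [Module ℂ D]
  [NormedAddCommGroup H] [InnerProductSpace ℂ H] [CompleteSpace H]
  [NormedAddCommGroup H'] [InnerProductSpace ℂ H'] [CompleteSpace H']

lemma fcalc_sqrt (i : D →ₗ[ℂ] H) (T : D →ₗ[ℂ] H') {f : ℝ → ℝ} (hf : Adm f) (h0 : ∀ x, 0 ≤ f x) :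
    fcalc i T f = fcalc i T (fun x => Real.sqrt (f x)) ∘L fcalc i T (fun x => Real.sqrt (f x)) := by
  rw [← fcalc_mul i T hf.sqrt hf.sqrt]
  congr 1
  funext x
  rw [Real.mul_self_sqrt (h0 x)]

lemma fcalc_form (i : D →ₗ[ℂ] H) (T : D →ₗ[ℂ] H') {f : ℝ → ℝ} (hf : Adm f) (h0 : ∀ x, 0 ≤ f x)
    (w : H) : RCLike.re ⟪w, fcalc i T f w⟫_ℂ = ‖fcalc i T (fun x => Real.sqrt (f x)) w‖ ^ 2 := by
  rw [fcalc_sqrt i T hf h0, ContinuousLinearMap.comp_apply]
  have hsa := fcalc_sa i T (fun x => Real.sqrt (f x))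
  rw [ContinuousLinearMap.isSelfAdjoint_iff'] at hsa
  rw [← ContinuousLinearMap.adjoint_inner_left, hsa, inner_self_eq_norm_sq]

lemma trace_lower (i : D →ₗ[ℂ] H) (T : D →ₗ[ℂ] H') {f : ℝ → ℝ} (hf : Adm f) (h0 : ∀ x, 0 ≤ f x)
    {δ e : ℝ} (hδ : 0 < δ) (h : ∀ x, 0 ≤ x → 1 - x / δ ≤ f x) {ι κ : Type*} [Fintype κ]
    (b : HilbertBasis ι ℂ H) (u : κ → D) (hu : Orthonormal ℂ (fun k => i (u k)))
    (hT : ∀ k, ‖T (u k)‖ ^ 2 ≤ e) :
    ENNReal.ofReal (Fintype.card κ * (1 - e / δ)) ≤ traceE b (fcalc i T f) := by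
  set C := fcalc i T (fun x => Real.sqrt (f x)) with hC
  have hsa : adjoint C = C := by
    have := fcalc_sa i T (fun x => Real.sqrt (f x))
    rwa [ContinuousLinearMap.isSelfAdjoint_iff'] at this
  have h1 := trace_ge b C (fun k => i (u k)) hu
  rw [hsa] at h1
  have h2 : traceE b (fcalc i T f) = ∑' j, ENNReal.ofReal (‖C (b j)‖ ^ 2) := by
    unfold traceE
    congr 1
    funext j
    rw [fcalc_form i T hf h0]
  rw [h2]
  refine le_trans ?_ h1
  rw [← ENNReal.ofReal_sum_of_nonneg (fun _ _ => by positivity)]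
  apply ENNReal.ofReal_le_ofReal
  have h3 : ∀ k, 1 - e / δ ≤ ‖C (i (u k))‖ ^ 2 := by
    intro k
    have h4 := lower_form i T hf hδ h (u k)
    rw [fcalc_form i T hf h0] at h4
    have h5 : ‖i (u k)‖ = 1 := hu.1 k
    rw [h5] at h4
    refine le_trans ?_ h4
    have := hT k
    have h6 : ‖T (u k)‖ ^ 2 / δ ≤ e / δ := by gcongr
    linarith
  calc (Fintype.card κ : ℝ) * (1 - e / δ) = ∑ k : κ, (1 - e / δ) := by
        rw [Finset.sum_const, Finset.card_univ, nsmul_eq_mul]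
    _ ≤ _ := Finset.sum_le_sum fun k _ => h3 k

/-! ### factorisation through the closed graph -/

/-- the middle factor -/
def midB (i : D →ₗ[ℂ] H) (T : D →ₗ[ℂ] H') (f : ℝ → ℝ) : graphClosure i T →L[ℂ] graphClosure i T :=
  adjoint (projH i T) ∘L fcalc i T (fun x => f x * (1 + x) * (1 + x)) ∘L projH i T

lemma fcalc_factor (i : D →ₗ[ℂ] H) (T : D →ₗ[ℂ] H') {f : ℝ → ℝ} (hf : Adm f) :
    fcalc i T f = projH i T ∘L midB i T f ∘L adjoint (projH i T) := by
  have h1 := fcalc_resolv i T hf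
  have hf2 : Adm (fun x => f x * (1 + x)) := hf.mul (by fun_prop)
  have h2 := fcalc_resolv i T hf2
  have hsa := fcalc_sa i T f
  have h3 : fcalc i T f = fcalc i T (fun y => f y * (1 + y)) ∘L resolv i T := by
    have h4 := congrArg adjoint h1
    rw [ContinuousLinearMap.adjoint_comp] at h4
    have e1 : adjoint (fcalc i T f) = fcalc i T f := by
      have := fcalc_sa i T f
      rwa [ContinuousLinearMap.isSelfAdjoint_iff'] at this
    have e2 : adjoint (fcalc i T (fun y => f y * (1 + y))) = fcalc i T (fun y => f y * (1 + y)) := by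
      have := fcalc_sa i T (fun y => f y * (1 + y))
      rwa [ContinuousLinearMap.isSelfAdjoint_iff'] at this
    have e3 : adjoint (resolv i T) = resolv i T := by
      have := resolv_sa i T
      rwa [ContinuousLinearMap.isSelfAdjoint_iff'] at this
    rw [e1, e2, e3] at h4
    exact h4.symm
  rw [h3, ← h2]
  rfl

/-- the vector `v = J* S₁ w` and its properties -/
lemma spectral_vec (i : D →ₗ[ℂ] H) (T : D →ₗ[ℂ] H') {f : ℝ → ℝ} (hf : Adm f) (h0 : ∀ x, 0 ≤ f x)
    (h1 : ∀ x, f x ≤ 1) {ε : ℝ} (hε : 0 ≤ ε) (hfε : ∀ x, ε ≤ x → f x = 0) (w : H) :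
    ∃ (v : graphClosure i T) (z : H),
      v = adjoint (projH i T) (fcalc i T (fun x => Real.sqrt (f x) * (1 + x)) w) ∧
      ‖projH i T v‖ ≤ ‖w‖ ∧ ‖z‖ ≤ ε * ‖w‖ ∧
      ∀ v', ⟪v, v'⟫_ℂ = ⟪projH i T v + z, projH i T v'⟫_ℂ := by
  set S₁ := fcalc i T (fun x => Real.sqrt (f x) * (1 + x)) with hS₁
  have hs := hf.sqrt
  have e1 : resolv i T ∘L S₁ = fcalc i T (fun x => Real.sqrt (f x)) := fcalc_resolv i T hs
  have e2 : projH i T (adjoint (projH i T) (S₁ w)) = fcalc i T (fun x => Real.sqrt (f x)) w := by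
    rw [← e1]; rfl
  have hsum : S₁ = fcalc i T (fun x => Real.sqrt (f x)) + fcalc i T (fun x => Real.sqrt (f x) * x) := by
    rw [hS₁, fcalc_eq, fcalc_eq, fcalc_eq]
    rw [← cfc_add (resolv i T) (gf fun x => Real.sqrt (f x)) (gf fun x => Real.sqrt (f x) * x)
      hs.continuous_gf.continuousOn (hs.mul continuous_id).continuous_gf.continuousOn]
    congr 1
    funext x
    by_cases hx : 0 < x
    · simp only [gf, if_pos hx]; ring
    · simp [gf, hx]
  refine ⟨adjoint (projH i T) (S₁ w), fcalc i T (fun x => Real.sqrt (f x) * x) w, rfl, ?_, ?_, ?_⟩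
  · rw [e2]
    have := (fcalc i T (fun x => Real.sqrt (f x))).le_opNorm w
    refine this.trans ?_
    have hn : ‖fcalc i T (fun x => Real.sqrt (f x))‖ ≤ 1 := by
      refine norm_fcalc_le i T zero_le_one fun x _ => ?_
      rw [abs_of_nonneg (Real.sqrt_nonneg _)]
      exact Real.sqrt_le_one.2 (h1 x)
    nlinarith [norm_nonneg w]
  · have := (fcalc i T (fun x => Real.sqrt (f x) * x)).le_opNorm w
    refine this.trans ?_
    have hn : ‖fcalc i T (fun x => Real.sqrt (f x) * x)‖ ≤ ε := by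
      refine norm_fcalc_le i T hε fun x hx => ?_
      rw [abs_of_nonneg (by positivity)]
      by_cases hxe : ε ≤ x
      · rw [hfε x hxe]; simpa using hε
      · push Not at hxe
        have : Real.sqrt (f x) ≤ 1 := Real.sqrt_le_one.2 (h1 x)
        nlinarith
    gcongr
  · intro v'
    rw [e2, ContinuousLinearMap.adjoint_inner_left]
    congr 1
    have := congrArg (fun A : H →L[ℂ] H => A w) hsum
    exact this

end
end Pool.Agent.H772R2
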