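import Mathlib

/-!
# Elementary definitions

The torus `T³ = ℝ³/ℤ³` with coordinates `(t, x, y)`, the vector field `X = ∂_t + g(x) ∂_y`, the
metric making `X, ∂_x, ∂_y` orthonormal and the dual orthonormal coframe `ω⁰ = dt`, `ω¹ = dx`,
`ω² = dy - g dt`.  A form is given by its components `a S`, `S ⊆ {0, 1, 2}`, in this coframe.
-/

set_option autoImplicit false
open scoped InnerProductSpace ENNReal ComplexConjugate ContDiff Topology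
open MeasureTheory Set Filter
noncomputable section
namespace Pool.Agent.H772R2.El

/-- exterior multiplication by `ω^i` -/
def ext (i : Fin 3) (a : Finset (Fin 3) → ℂ) (S : Finset (Fin 3)) : ℂ :=
  if i ∈ S then (-1) ^ (S.filter (· < i)).card * a (S.erase i) else 0

/-- interior multiplication by the dual vector of `ω^i`, the adjoint of `ext i` -/
def int (i : Fin 3) (a : Finset (Fin 3) → ℂ) (S : Finset (Fin 3)) : ℂ :=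
  if i ∈ S then 0 else (-1) ^ (S.filter (· < i)).card * a (insert i S)

/-! ### the torus -/

/-- the smooth forms of the torus -/
def FM : Set (ℝ × ℝ × ℝ → Finset (Fin 3) → ℂ) :=
  {u | ContDiff ℝ ∞ u ∧ ∀ t x y, u (t + 1, x, y) = u (t, x, y) ∧
    u (t, x + 1, y) = u (t, x, y) ∧ u (t, x, y + 1) = u (t, x, y)}

/-- the inner product of `L²(T³, Λ)` -/
def ipM (u v : ℝ × ℝ × ℝ → Finset (Fin 3) → ℂ) : ℂ :=
  ∫ p in Ico (0 : ℝ) 1 ×ˢ Ico (0 : ℝ) 1 ×ˢ Ico (0 : ℝ) 1, ∑ S, conj (u p S) * v p S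

/-- `d_F = ε₀ (X + g' ε₁ ι₂)` -/
def dF (g : ℝ → ℝ) (u : ℝ × ℝ × ℝ → Finset (Fin 3) → ℂ) (p : ℝ × ℝ × ℝ) :
    Finset (Fin 3) → ℂ :=
  ext 0 (fderiv ℝ u p (1, 0, g p.2.1) + ((deriv g p.2.1 : ℝ) : ℂ) • ext 1 (int 2 (u p)))

/-- `d_F^* = - ι₀ (X - g' ε₂ ι₁)` -/
def dFs (g : ℝ → ℝ) (u : ℝ × ℝ × ℝ → Finset (Fin 3) → ℂ) (p : ℝ × ℝ × ℝ) :
    Finset (Fin 3) → ℂ :=
  - int 0 (fderiv ℝ u p (1, 0, g p.2.1) - ((deriv g p.2.1 : ℝ) : ℂ) • ext 2 (int 1 (u p)))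

/-- `d_H = ε₁ ∂_x + ε₂ ∂_y` -/
def dH (u : ℝ × ℝ × ℝ → Finset (Fin 3) → ℂ) (p : ℝ × ℝ × ℝ) : Finset (Fin 3) → ℂ :=
  ext 1 (fderiv ℝ u p (0, 1, 0)) + ext 2 (fderiv ℝ u p (0, 0, 1))

/-- `d_H^* = - (ι₁ ∂_x + ι₂ ∂_y)` -/
def dHs (u : ℝ × ℝ × ℝ → Finset (Fin 3) → ℂ) (p : ℝ × ℝ × ℝ) : Finset (Fin 3) → ℂ :=
  - (int 1 (fderiv ℝ u p (0, 1, 0)) + int 2 (fderiv ℝ u p (0, 0, 1)))

/-- change of coframe: the components in `dt, dx, dy` of a form with components `a` in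
`ω⁰, ω¹, ω²` -/
def chg (g : ℝ → ℝ) (p : ℝ × ℝ × ℝ) (a : Finset (Fin 3) → ℂ) : Finset (Fin 3) → ℂ :=
  a - ((g p.2.1 : ℝ) : ℂ) • ext 0 (int 2 a)

/-- the de Rham differential in the coframe `dt, dx, dy` -/
def dR (u : ℝ × ℝ × ℝ → Finset (Fin 3) → ℂ) (p : ℝ × ℝ × ℝ) : Finset (Fin 3) → ℂ :=
  ext 0 (fderiv ℝ u p (1, 0, 0)) + ext 1 (fderiv ℝ u p (0, 1, 0)) +
    ext 2 (fderiv ℝ u p (0, 0, 1))

/-! ### the linearised foliation -/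

/-- The point `ν = ((t, x, y), (ξ, η))` stands for the conormal covector `ξ ω¹ + η ω²` at
`(t, x, y)`; `flow g r ν` is its transport along the leaf for the time `r`. -/
def flow (g : ℝ → ℝ) (r : ℝ) (ν : (ℝ × ℝ × ℝ) × ℝ × ℝ) : (ℝ × ℝ × ℝ) × ℝ × ℝ :=
  ((ν.1.1 + r, ν.1.2.1, ν.1.2.2 + r * g ν.1.2.1),
    (ν.2.1 - r * (deriv g ν.1.2.1 * ν.2.2), ν.2.2))

/-- equality of two points of the conormal bundle over the torus -/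
def SameT (ν ν' : (ℝ × ℝ × ℝ) × ℝ × ℝ) : Prop :=
  (∃ a : ℤ, ν.1.1 = ν'.1.1 + a) ∧ (∃ a : ℤ, ν.1.2.1 = ν'.1.2.1 + a) ∧
    (∃ a : ℤ, ν.1.2.2 = ν'.1.2.2 + a) ∧ ν.2 = ν'.2

/-- the smooth compactly supported sections on a leaf, parametrised by `r ↦ flow g r ν` -/
def FL : Set (ℝ → Finset (Fin 3) → ℂ) := {φ | ContDiff ℝ ∞ φ ∧ HasCompactSupport φ}

/-- the inner product of `L²` of a leaf -/
def ipL (φ ψ : ℝ → Finset (Fin 3) → ℂ) : ℂ := ∫ r, ∑ S, conj (φ r S) * ψ r S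

/-- the pullback of `d_F` to the leaf through `ν` -/
def lF (g : ℝ → ℝ) (ν : (ℝ × ℝ × ℝ) × ℝ × ℝ) (φ : ℝ → Finset (Fin 3) → ℂ) (r : ℝ) :
    Finset (Fin 3) → ℂ :=
  ext 0 (deriv φ r + ((deriv g (flow g r ν).1.2.1 : ℝ) : ℂ) • ext 1 (int 2 (φ r)))

/-- the pullback of `d_F^*` to the leaf through `ν` -/
def lFs (g : ℝ → ℝ) (ν : (ℝ × ℝ × ℝ) × ℝ × ℝ) (φ : ℝ → Finset (Fin 3) → ℂ) (r : ℝ) :
    Finset (Fin 3) → ℂ :=
  - int 0 (deriv φ r - ((deriv g (flow g r ν).1.2.1 : ℝ) : ℂ) • ext 2 (int 1 (φ r)))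

/-! ### Hilbert spaces and operators -/

section
variable {D H : Type*} [AddCommGroup D] [NormedAddCommGroup H] [InnerProductSpace ℂ H]

/-- `H` is the completion of `F` for the inner product `ip`, and `j` the inclusion -/
def IsL2 (F : Set D) (ip : D → D → ℂ) (j : D → H) : Prop :=
  (∀ u ∈ F, ∀ v ∈ F, ⟪j u, j v⟫_ℂ = ip u v) ∧ Dense (j '' F)

/-- `R = (1 + L)⁻¹` for the Friedrichs extension of the operator `L` with domain `F`: `R` is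
self-adjoint, it inverts `1 + L` on `F`, and its range is in the domain of the closed form. -/
def IsRes (F : Set D) (ip : D → D → ℂ) (j : D → H) (L : D → D) (R : H →L[ℂ] H) : Prop :=
  (∀ v w, ⟪R v, w⟫_ℂ = ⟪v, R w⟫_ℂ) ∧ (∀ u ∈ F, R (j (u + L u)) = j u) ∧
    ∀ w, ∃ u : ℕ → D, (∀ n, u n ∈ F) ∧ Tendsto (fun n => j (u n)) atTop (𝓝 (R w)) ∧
      Tendsto (fun n : ℕ × ℕ => ip (u n.1 - u n.2) (L (u n.1 - u n.2))) atTop (𝓝 0)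

/-- `f(L)`, where `R = (1 + L)⁻¹` -/
def fc [CompleteSpace H] (f : ℝ → ℝ) (R : H →L[ℂ] H) : H →L[ℂ] H :=
  cfc (fun x : ℝ => if 0 < x then f (x⁻¹ - 1) else 0) R

/-- the trace of a positive operator -/
def tr {ι : Type*} (b : HilbertBasis ι ℂ H) (A : H →L[ℂ] H) : ℝ≥0∞ :=
  ∑' n, ENNReal.ofReal (RCLike.re ⟪b n, A (b n)⟫_ℂ)

/-- `k` is the continuous kernel of the operator `A` on the leaf -/
def IsKer (i : (ℝ → Finset (Fin 3) → ℂ) → H) (A : H →L[ℂ] H)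
    (k : ℝ → ℝ → Finset (Fin 3) → Finset (Fin 3) → ℂ) : Prop :=
  Continuous (fun p : ℝ × ℝ => k p.1 p.2) ∧ ∀ φ ∈ FL, ∀ ψ ∈ FL,
    ⟪i φ, A (i ψ)⟫_ℂ = ∫ r, ∫ s, ∑ S, ∑ T, conj (φ r S) * k r s S T * ψ s T

end

/-- The trace defined by the transverse Liouville measure: the integral over the conormal bundle
`T³ × ℝ²` of the pointwise trace of the kernels `k ν` on the leaves through `ν`, on the
diagonal, against leafwise volume times Liouville measure, i.e. `dt dx dy dξ dη`. -/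
def trN (k : (ℝ × ℝ × ℝ) × ℝ × ℝ → ℝ → ℝ → Finset (Fin 3) → Finset (Fin 3) → ℂ) : ℝ≥0∞ :=
  ∫⁻ ν in (Ico (0 : ℝ) 1 ×ˢ Ico (0 : ℝ) 1 ×ˢ Ico (0 : ℝ) 1) ×ˢ univ,
    ENNReal.ofReal (∑ S, (k ν 0 0 S S).re)

/-- The checks that the above formulas are right: `d_F + d_H` is the de Rham differential, the
stars are the adjoints, and the operators on the leaves are pullbacks. -/
def Geo (g : ℝ → ℝ) : Prop :=
  ∀ u ∈ FM, (∀ p, chg g p (dF g u p + dH u p) = dR (fun q => chg g q (u q)) p) ∧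
    (∀ v ∈ FM, ipM (dF g u) v = ipM u (dFs g v) ∧ ipM (dH u) v = ipM u (dHs v)) ∧
    ∀ ν r, dF g u (flow g r ν).1 = lF g ν (fun s => u (flow g s ν).1) r ∧
      dFs g u (flow g r ν).1 = lFs g ν (fun s => u (flow g s ν).1) r

/-! ### the operators of MP_ccad24_an -/

/-- `Δ_F + h² Δ_H` -/
def LapM (g : ℝ → ℝ) (h : ℝ) (u : ℝ × ℝ × ℝ → Finset (Fin 3) → ℂ) :
    ℝ × ℝ × ℝ → Finset (Fin 3) → ℂ :=
  dF g (dFs g u) + dFs g (dF g u) + ((h : ℂ) ^ 2) • (dH (dHs u) + dHs (dH u))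

/-- `Δ_{F_N} + g_N` on the leaf through `ν` -/
def LapL (g : ℝ → ℝ) (ν : (ℝ × ℝ × ℝ) × ℝ × ℝ) (φ : ℝ → Finset (Fin 3) → ℂ) :
    ℝ → Finset (Fin 3) → ℂ :=
  lF g ν (lFs g ν φ) + lFs g ν (lF g ν φ) +
    fun r => (((flow g r ν).2.1 ^ 2 + (flow g r ν).2.2 ^ 2 : ℝ) : ℂ) • φ r

/-! ### the operators of MP_e0a138_an -/

/-- `D_F + h D_H` -/
def SigM (g : ℝ → ℝ) (h : ℝ) (u : ℝ × ℝ × ℝ → Finset (Fin 3) → ℂ) :
    ℝ × ℝ × ℝ → Finset (Fin 3) → ℂ :=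
  dF g u + dFs g u + (h : ℂ) • (dH u + dHs u)

/-- `D_{F_N} + σ(D_H)` on the leaf through `ν`, where
`σ(D_H)(ξ ω¹ + η ω²) = i (ξ (ε₁ - ι₁) + η (ε₂ - ι₂))` -/
def SigL (g : ℝ → ℝ) (ν : (ℝ × ℝ × ℝ) × ℝ × ℝ) (φ : ℝ → Finset (Fin 3) → ℂ) :
    ℝ → Finset (Fin 3) → ℂ :=
  lF g ν φ + lFs g ν φ + fun r =>
    Complex.I • (((flow g r ν).2.1 : ℂ) • (ext 1 (φ r) - int 1 (φ r)) +
      ((flow g r ν).2.2 : ℂ) • (ext 2 (φ r) - int 2 (φ r)))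

end Pool.Agent.H772R2.El
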