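import Mathlib

set_option autoImplicit false
set_option linter.all false
open scoped ENNReal ContDiff Topology
open MeasureTheory Set Filter
noncomputable section
namespace Pool.Agent.H772R2

def eC (x : ℝ) : ℂ := Complex.exp (((2 * Real.pi * x : ℝ) : ℂ) * Complex.I)

lemma eC_contDiff : ContDiff ℝ ∞ eC := by
  unfold eC
  apply ContDiff.cexp
  apply ContDiff.mul _ contDiff_const
  exact Complex.ofRealCLM.contDiff.comp (contDiff_const.mul contDiff_id)

lemma eC_add_one (x : ℝ) : eC (x + 1) = eC x := by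
  unfold eC
  have h : ((2 * Real.pi * (x + 1) : ℝ) : ℂ) * Complex.I =
      ((2 * Real.pi * x : ℝ) : ℂ) * Complex.I + 2 * Real.pi * Complex.I := by
    push_cast; ring
  rw [h, Complex.exp_add, Complex.exp_two_pi_mul_I, mul_one]

lemma eC_eq {x y : ℝ} (h : eC x = eC y) : ∃ n : ℤ, x = y + n := by
  unfold eC at h
  rw [Complex.exp_eq_exp_iff_exists_int] at h
  obtain ⟨n, hn⟩ := h
  refine ⟨n, ?_⟩
  have h1 : ((2 * Real.pi * x : ℝ) : ℂ) * Complex.I =
      ((2 * Real.pi * y + n * (2 * Real.pi) : ℝ) : ℂ) * Complex.I := by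
    rw [hn]; push_cast; ring
  have h2 := mul_right_cancel₀ Complex.I_ne_zero h1
  have h3 : 2 * Real.pi * x = 2 * Real.pi * y + n * (2 * Real.pi) := by exact_mod_cast h2
  have := Real.pi_pos
  have h4 : 2 * Real.pi * (x - (y + n)) = 0 := by linarith
  have h5 : x - (y + n) = 0 := by
    rcases mul_eq_zero.1 h4 with h | h
    · exact absurd h (by positivity)
    · exact h
  linarith

lemma exists_g1 : ∃ g : ℝ → ℝ, ContDiff ℝ ∞ g ∧ Function.Periodic g 1 ∧
    ENNReal.ofReal (1 / 2) ≤ volume {x | x ∈ Ico (0 : ℝ) 1 ∧ g x = 0} ∧ ∀ q : ℚ, g q ≠ 0 := by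
  have h0 : volume (range (fun q : ℚ => (q : ℝ))) < ENNReal.ofReal (1 / 2) := by
    rw [(countable_range _).measure_zero]
    simp
  obtain ⟨V, hV1, hV2, hV3⟩ := Set.exists_isOpen_lt_of_lt _ _ h0
  set K : Set ℂ := eC '' (Icc (0 : ℝ) 1 \ V) with hK
  have hKc : IsCompact K := (isCompact_Icc.diff hV2).image eC_contDiff.continuous
  obtain ⟨F, hF1, hF2, hF3⟩ := hKc.isClosed.isOpen_compl.exists_contDiff_support_eq (n := (⊤ : ℕ∞))
  have hzero : ∀ z, F z = 0 ↔ z ∈ K := by
    intro z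
    have : z ∈ F.support ↔ z ∈ Kᶜ := by rw [hF1]
    rw [Function.mem_support, mem_compl_iff] at this
    tauto
  refine ⟨fun x => F (eC x), hF2.comp eC_contDiff, fun x => by simp only [eC_add_one], ?_, ?_⟩
  · have hsub : Ico (0 : ℝ) 1 \ V ⊆ {x | x ∈ Ico (0 : ℝ) 1 ∧ F (eC x) = 0} := by
      intro x hx
      refine ⟨hx.1, (hzero _).2 ⟨x, ⟨Ico_subset_Icc_self hx.1, hx.2⟩, rfl⟩⟩
    refine le_trans ?_ (measure_mono hsub)
    have h1 : volume (Ico (0 : ℝ) 1) - volume V ≤ volume (Ico (0 : ℝ) 1 \ V) := le_measure_diff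
    refine le_trans ?_ h1
    rw [Real.volume_Ico]
    have h2 : ENNReal.ofReal (1 / 2) = ENNReal.ofReal (1 - 0) - ENNReal.ofReal (1 / 2) := by
      rw [← ENNReal.ofReal_sub _ (by norm_num)]; norm_num
    rw [h2]
    exact tsub_le_tsub_left hV3.le _
  · intro q hq
    obtain ⟨x, ⟨hx1, hx2⟩, hx3⟩ := (hzero _).1 hq
    obtain ⟨n, hn⟩ := eC_eq hx3
    apply hx2
    apply hV1
    exact ⟨q + n, by push_cast; exact hn.symm⟩

lemma cos_not_const {a b : ℝ} (hab : a < b) {s c : ℝ} (hs : s ≠ 0)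
    (h : ∀ x ∈ Ioo a b, s * Real.cos (2 * Real.pi * x) = c) : False := by
  have hpi := Real.pi_pos
  have h1 : ∀ x ∈ Ioo a b, Real.sin (2 * Real.pi * x) = 0 := by
    intro x hx
    have e1 : (fun y => s * Real.cos (2 * Real.pi * y)) =ᶠ[𝓝 x] fun _ => c := by
      filter_upwards [Ioo_mem_nhds hx.1 hx.2] with y hy using h y hy
    have e2 : HasDerivAt (fun y => s * Real.cos (2 * Real.pi * y))
        (s * (-Real.sin (2 * Real.pi * x) * (2 * Real.pi))) x := by
      have h2 : HasDerivAt (fun y : ℝ => 2 * Real.pi * y) (2 * Real.pi) x := by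
        simpa using (hasDerivAt_id x).const_mul (2 * Real.pi)
      exact h2.cos.const_mul s
    have e3 := e1.deriv_eq
    rw [e2.deriv, deriv_const] at e3
    have e4 : s * (2 * Real.pi) * Real.sin (2 * Real.pi * x) = 0 := by linarith
    rcases mul_eq_zero.1 e4 with h | h
    · exact absurd h (by positivity)
    · exact h
  have h2 : ∀ x ∈ Ioo a b, Real.cos (2 * Real.pi * x) = 0 := by
    intro x hx
    have e1 : (fun y => Real.sin (2 * Real.pi * y)) =ᶠ[𝓝 x] fun _ => 0 := by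
      filter_upwards [Ioo_mem_nhds hx.1 hx.2] with y hy using h1 y hy
    have e2 : HasDerivAt (fun y => Real.sin (2 * Real.pi * y))
        (Real.cos (2 * Real.pi * x) * (2 * Real.pi)) x := by
      have h2 : HasDerivAt (fun y : ℝ => 2 * Real.pi * y) (2 * Real.pi) x := by
        simpa using (hasDerivAt_id x).const_mul (2 * Real.pi)
      exact h2.sin
    have e3 := e1.deriv_eq
    rw [e2.deriv, deriv_const] at e3
    rcases mul_eq_zero.1 e3 with h | h
    · exact h
    · exact absurd h (by positivity)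
  have hm : (a + b) / 2 ∈ Ioo a b := ⟨by linarith, by linarith⟩
  have := Real.sin_sq_add_cos_sq (2 * Real.pi * ((a + b) / 2))
  rw [h1 _ hm, h2 _ hm] at this
  norm_num at this

theorem exists_g {γ₀ : ℝ} (hγ₀ : 0 < γ₀) : ∃ g : ℝ → ℝ, ContDiff ℝ ∞ g ∧ Function.Periodic g 1 ∧
    (∀ x, |deriv g x| ≤ γ₀) ∧
    ENNReal.ofReal (1 / 2) ≤ volume {x | x ∈ Ico (0 : ℝ) 1 ∧ g x = 0} ∧
    ∀ x c, ¬ ∀ᶠ y in 𝓝 x, g y = c := by
  obtain ⟨g₁, h1, h2, h3, h4⟩ := exists_g1
  set G : ℝ → ℝ → ℝ := fun l x => g₁ x * Real.exp (l * Real.cos (2 * Real.pi * x)) with hG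
  set B : ℚ × ℚ → Set ℝ := fun p => {l | (p.1 : ℝ) < p.2 ∧ ∃ c, ∀ x ∈ Ioo (p.1 : ℝ) p.2, G l x = c}
    with hB
  have hBs : ∀ p, (B p).Subsingleton := by
    rintro ⟨a, b⟩ l ⟨hab, c, hc⟩ l' ⟨_, c', hc'⟩
    by_contra hne
    obtain ⟨q, hq1, hq2⟩ := exists_rat_btwn hab
    have hcq := hc q ⟨hq1, hq2⟩
    have hcq' := hc' q ⟨hq1, hq2⟩
    have hc0 : c ≠ 0 := by
      rw [← hcq]; exact mul_ne_zero (h4 q) (Real.exp_ne_zero _)
    have hc0' : c' ≠ 0 := by
      rw [← hcq']; exact mul_ne_zero (h4 q) (Real.exp_ne_zero _)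
    refine cos_not_const hab (sub_ne_zero.2 hne) (c := Real.log (c / c')) fun x hx => ?_
    have e1 := hc x hx
    have e2 := hc' x hx
    have hgx : g₁ x ≠ 0 := by
      intro h0
      apply hc0
      rw [← e1, hG]
      simp [h0]
    have e3 : Real.exp ((l - l') * Real.cos (2 * Real.pi * x)) = c / c' := by
      rw [← e1, ← e2, hG]
      rw [sub_mul, Real.exp_sub]
      field_simp
    rw [← e3, Real.log_exp]
  have hcount : (⋃ p, B p).Countable := countable_iUnion fun p => (hBs p).countable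
  obtain ⟨l, hl⟩ := (hcount.dense_compl ℝ).nonempty
  have hGc : ContDiff ℝ ∞ (G l) := by
    rw [hG]
    refine h1.mul ?_
    apply ContDiff.exp
    apply contDiff_const.mul
    exact Real.contDiff_cos.comp (contDiff_const.mul contDiff_id)
  have hGp : Function.Periodic (G l) 1 := by
    intro x
    rw [hG]
    simp only []
    rw [h2 x, mul_add, mul_one, Real.cos_add_two_pi]
  have hdc : Continuous (deriv (G l)) := hGc.continuous_deriv (by simp)
  have hdp : Function.Periodic (deriv (G l)) 1 := by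
    intro x
    have e1 : G l = fun y => G l (y + 1) := funext fun y => (hGp y).symm
    have e2 : deriv (fun y => G l (y + 1)) x = deriv (G l) (x + 1) := deriv_comp_add_const _ _ _
    rw [← e2, ← e1]
  obtain ⟨D, hD⟩ := isCompact_Icc.exists_bound_of_continuousOn
    (s := Icc (0 : ℝ) 1) hdc.continuousOn
  have hD' : ∀ x, |deriv (G l) x| ≤ D := by
    intro x
    have e1 : deriv (G l) x = deriv (G l) (Int.fract x) := by
      have := hdp.sub_zsmul_eq (x := x) ⌊x⌋
      rw [zsmul_eq_mul, mul_one, Int.self_sub_floor] at this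
      exact this.symm
    rw [e1]
    have := hD (Int.fract x) ⟨Int.fract_nonneg x, (Int.fract_lt_one x).le⟩
    rwa [Real.norm_eq_abs] at this
  have hD0 : 0 ≤ D := (abs_nonneg _).trans (hD' 0)
  have hs : 0 < γ₀ / (D + 1) := by positivity
  refine ⟨fun x => γ₀ / (D + 1) * G l x, contDiff_const.mul hGc, fun x => ?_, ?_, ?_, ?_⟩
  · simp only []
    rw [hGp x]
  · intro x
    have e1 : deriv (fun x => γ₀ / (D + 1) * G l x) x = γ₀ / (D + 1) * deriv (G l) x :=
      deriv_const_mul _ (hGc.differentiable (by simp)).differentiableAt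
    rw [e1, abs_mul, abs_of_pos hs]
    have e2 := hD' x
    calc γ₀ / (D + 1) * |deriv (G l) x| ≤ γ₀ / (D + 1) * (D + 1) := by gcongr; linarith
      _ = γ₀ := by field_simp
  · refine h3.trans (measure_mono ?_)
    rintro x ⟨hx1, hx2⟩
    refine ⟨hx1, ?_⟩
    rw [hG]
    simp [hx2]
  · intro x c hc
    have hc' : ∀ᶠ y in 𝓝 x, G l y = c / (γ₀ / (D + 1)) := by
      filter_upwards [hc] with y hy
      rw [← hy]; field_simp
    obtain ⟨a, b, hab, hsub⟩ := mem_nhds_iff_exists_Ioo_subset.1 hc'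
    obtain ⟨q, hq1, hq2⟩ := exists_rat_btwn hab.1
    obtain ⟨q', hq1', hq2'⟩ := exists_rat_btwn hab.2
    apply hl
    rw [mem_iUnion]
    refine ⟨(q, q'), ?_, c / (γ₀ / (D + 1)), fun y hy => ?_⟩
    · show (q : ℝ) < q'
      linarith
    · exact hsub ⟨lt_trans hq1 hy.1, lt_trans hy.2 hq2'⟩

/-- the bump function used as test function -/
theorem exists_f {a c : ℝ} (ha : 0 < a) (hac : a < c) : ∃ f : ℝ → ℝ, ContDiff ℝ ∞ f ∧
    HasCompactSupport f ∧
    (∀ x, f (-x) = f x) ∧ (∀ x, 0 ≤ f x) ∧ (∀ x, f x ≤ 1) ∧ (∀ x, c ≤ x → f x = 0) ∧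
    (∀ x, |x| ≤ a → f x = 1) := by
  let b : ContDiffBump (0 : ℝ) := ⟨a, c, ha, hac⟩
  refine ⟨b, b.contDiff, b.hasCompactSupport, b.neg, fun x => b.nonneg, fun x => b.le_one,
    fun x hx => ?_, fun x hx => ?_⟩
  · apply b.zero_of_le_dist
    rw [Real.dist_eq, sub_zero]
    exact hx.trans (le_abs_self x)
  · apply b.one_of_mem_closedBall
    rw [Metric.mem_closedBall, Real.dist_eq, sub_zero]
    exact hx

end Pool.Agent.H772R2
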