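import Pool.Agent.H772R2.MTest

set_option autoImplicit false
set_option linter.all false
open scoped InnerProductSpace ENNReal ComplexConjugate ContDiff Topology
open ContinuousLinearMap MeasureTheory Set Filter
noncomputable section
namespace Pool.Agent.H772R2

/-- the constant of the profile -/
def Cpsi : ℝ := A1 / A0 + 1

lemma Cpsi_pos : 0 < Cpsi := by
  have := A0_pos
  have := A1_nonneg
  unfold Cpsi; positivity

/-- the selected cells -/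
def Sel (g : ℝ → ℝ) (L : ℕ) : Finset (Fin L) := by
  classical
  exact Finset.univ.filter fun j => ∃ x, (j : ℝ) / L ≤ x ∧ x < (j + 1) / L ∧ g x = 0

lemma Sel_card {g : ℝ → ℝ} {L : ℕ} (hL : 0 < L)
    (hg : ENNReal.ofReal (1 / 2) ≤ volume {x | x ∈ Ico (0 : ℝ) 1 ∧ g x = 0}) :
    (L : ℝ) / 2 ≤ (Sel g L).card := by
  have hL' : (0 : ℝ) < L := by exact_mod_cast hL
  have hsub : {x | x ∈ Ico (0 : ℝ) 1 ∧ g x = 0} ⊆
      ⋃ j ∈ Sel g L, Ico ((j : ℝ) / L) (((j : ℕ) + 1 : ℝ) / L) := by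
    rintro x ⟨hx, hgx⟩
    have hfl := Nat.floor_le (show 0 ≤ (L : ℝ) * x by have := hx.1; positivity)
    have hlt := Nat.lt_floor_add_one ((L : ℝ) * x)
    have hj : ⌊(L : ℝ) * x⌋₊ < L := by
      rw [Nat.floor_lt (by have := hx.1; positivity)]
      nlinarith [hx.2]
    have h1 : ((⌊(L : ℝ) * x⌋₊ : ℕ) : ℝ) / L ≤ x := by
      rw [div_le_iff₀ hL']; linarith
    have h2 : x < ((⌊(L : ℝ) * x⌋₊ : ℕ) + 1 : ℝ) / L := by
      rw [lt_div_iff₀ hL']; linarith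
    rw [mem_iUnion₂]
    refine ⟨⟨⌊(L : ℝ) * x⌋₊, hj⟩, ?_, h1, h2⟩
    classical
    unfold Sel
    rw [Finset.mem_filter]
    exact ⟨Finset.mem_univ _, x, h1, h2, hgx⟩
  have h3 := (hg.trans (measure_mono hsub)).trans (measure_biUnion_finset_le _ _)
  have h4 : ∀ j ∈ Sel g L, volume (Ico ((j : ℝ) / L) (((j : ℕ) + 1 : ℝ) / L)) =
      ENNReal.ofReal (1 / L) := by
    intro j _
    rw [Real.volume_Ico]
    congr 1
    field_simp
    ring
  rw [Finset.sum_congr rfl h4, Finset.sum_const, nsmul_eq_mul, ← ENNReal.ofReal_natCast,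
    ← ENNReal.ofReal_mul (by positivity), ENNReal.ofReal_le_ofReal_iff (by positivity)] at h3
  rw [mul_one_div, le_div_iff₀ hL'] at h3
  linarith

lemma Sel_bound {g : ℝ → ℝ} (hg : ContDiff ℝ ∞ g) {γ₀ : ℝ} (hγ0 : 0 ≤ γ₀)
    (hγ : ∀ x, |deriv g x| ≤ γ₀) {L : ℕ} (hL : 0 < L) {j : Fin L} (hj : j ∈ Sel g L) (x : ℝ)
    (h1 : (j : ℝ) / L < x) (h2 : x < (j + 1) / L) : g x ^ 2 ≤ (γ₀ / L) ^ 2 := by
  have hL' : (0 : ℝ) < L := by exact_mod_cast hL
  classical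
  unfold Sel at hj
  rw [Finset.mem_filter] at hj
  obtain ⟨_, z, hz1, hz2, hz⟩ := hj
  have h3 := Convex.norm_image_sub_le_of_norm_deriv_le (f := g) (C := γ₀) (s := univ) (x := z)
    (y := x) (fun y _ => (hg.differentiable (by simp)).differentiableAt)
    (fun y _ => by rw [Real.norm_eq_abs]; exact hγ y) convex_univ (mem_univ _) (mem_univ _)
  rw [hz, sub_zero, Real.norm_eq_abs, Real.norm_eq_abs] at h3
  have h4 : |x - z| ≤ 1 / L := by
    rw [abs_le]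
    have h5 : ((j : ℕ) + 1 : ℝ) / L = (j : ℝ) / L + 1 / L := by ring
    constructor <;> linarith
  have h5 : |g x| ≤ γ₀ / L := by
    calc |g x| ≤ γ₀ * |x - z| := h3
      _ ≤ γ₀ * (1 / L) := by gcongr
      _ = γ₀ / L := by ring
  rw [← sq_abs (g x)]
  exact pow_le_pow_left₀ (abs_nonneg _) h5 2

universe v in
theorem trace_low {F : Type*} [NormedAddCommGroup F] [InnerProductSpace ℂ F] [CompleteSpace F]
    {g : ℝ → ℝ} (hg : ContDiff ℝ ∞ g) {γ₀ ε : ℝ} (hε : 0 < ε) (hγ0 : 0 ≤ γ₀)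
    (hγ : ∀ x, |deriv g x| ≤ γ₀) (hγε : γ₀ ^ 2 ≤ ε / 256) (hγε' : 4 * γ₀ ^ 2 * Cpsi ≤ ε / 256)
    (hz : ENNReal.ofReal (1 / 2) ≤ volume {x | x ∈ Ico (0 : ℝ) 1 ∧ g x = 0})
    {f : ℝ → ℝ} (hf : Adm f) (hf0 : ∀ x, 0 ≤ f x) (hf1 : ∀ x, 0 ≤ x → 1 - x / (ε / 2) ≤ f x) :
    ∃ h₀ : ℝ, 0 < h₀ ∧ ∀ h : ℝ, 0 < h → h < h₀ → ∀ T : DM →ₗ[ℂ] Lp F 2 muM,
      (∀ (L j : ℕ) (hL : 0 < L) (hj : j < L) (m : ℤ) (M : ℝ), |(m : ℝ)| ≤ M →
        (∀ x, (j : ℝ) / L < x → x < (j + 1) / L → g x ^ 2 ≤ (γ₀ / L) ^ 2) →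
        ‖T (tst (Real.sqrt (L / A0)) hL hj m)‖ ^ 2 ≤
          16 * (((γ₀ / L) ^ 2 * (2 * Real.pi * M) ^ 2 + γ₀ ^ 2 + h ^ 2 * (2 * Real.pi * M) ^ 2) +
            h ^ 2 * (L ^ 2 * A1 / A0))) →
      ∀ {ι : Type v} (b : HilbertBasis ι ℂ (Lp Lam 2 muM)),
        ENNReal.ofReal (ε / (4096 * Real.pi * Real.sqrt Cpsi) * (h ^ 2)⁻¹) ≤
          traceE b (fcalc iM T f) := by
  have hCp := Cpsi_pos
  have hpi := Real.pi_pos
  set c₂ : ℝ := Real.sqrt ε / (32 * Real.pi) with hc₂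
  set C : ℝ := 16 * Real.sqrt Cpsi / Real.sqrt ε with hC
  have hsε : 0 < Real.sqrt ε := Real.sqrt_pos.2 hε
  have hsC : 0 < Real.sqrt Cpsi := Real.sqrt_pos.2 hCp
  have hc₂p : 0 < c₂ := by positivity
  have hCp' : 0 < C := by positivity
  have e1 : (2 * Real.pi * c₂) ^ 2 = ε / 256 := by
    have : 2 * Real.pi * c₂ = Real.sqrt ε / 16 := by rw [hc₂]; field_simp; norm_num
    rw [this, div_pow, Real.sq_sqrt hε.le]; norm_num
  have e2 : C ^ 2 = 256 * Cpsi / ε := by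
    rw [hC, div_pow, mul_pow, Real.sq_sqrt hε.le, Real.sq_sqrt hCp.le]; norm_num
  refine ⟨min (1 / (2 * C)) c₂, by positivity, fun h hh hh0 T hT ι b => ?_⟩
  have hh1 : h < 1 / (2 * C) := lt_of_lt_of_le hh0 (min_le_left _ _)
  have hh2 : h < c₂ := lt_of_lt_of_le hh0 (min_le_right _ _)
  set L := ⌊1 / (C * h)⌋₊ with hLd
  set M := ⌊c₂ / h⌋₊ with hMd
  have hL1 : (L : ℝ) ≤ 1 / (C * h) := Nat.floor_le (by positivity)
  have hL2 : 1 / (C * h) < L + 1 := Nat.lt_floor_add_one _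
  have hM1 : (M : ℝ) ≤ c₂ / h := Nat.floor_le (by positivity)
  have hM2 : c₂ / h < M + 1 := Nat.lt_floor_add_one _
  have hL3 : 1 ≤ 1 / (2 * C * h) := by
    rw [le_div_iff₀ (by positivity)]
    rw [lt_div_iff₀ (by positivity)] at hh1
    linarith
  have hL4 : 1 / (2 * C * h) ≤ L := by
    have : 1 / (C * h) = 1 / (2 * C * h) + 1 / (2 * C * h) := by field_simp; norm_num
    linarith
  have hLpos' : (0 : ℝ) < L := by linarith
  have hLpos : 0 < L := by exact_mod_cast hLpos'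
  have hM3 : 1 ≤ c₂ / h := by rw [le_div_iff₀ hh]; linarith
  -- the family
  set κ := (Sel g L) × Fin (2 * M + 1) with hκ
  set u : κ → DM := fun q => tst (Real.sqrt (L / A0)) hLpos q.1.1.2 ((q.2 : ℤ) - M) with hu
  have horth : Orthonormal ℂ (fun k => iM (u k)) := by
    classical
    rw [orthonormal_iff_ite]
    intro q q'
    rw [hu, tst_orth]
    have : (((q.1.1 : Fin L) : ℕ) = ((q'.1.1 : Fin L) : ℕ) ∧ ((q.2 : ℕ) : ℤ) - M = ((q'.2 : ℕ) : ℤ) - M) ↔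
        q = q' := by
      constructor
      · rintro ⟨h1, h2⟩
        refine Prod.ext (Subtype.ext (Fin.ext h1)) (Fin.ext ?_)
        omega
      · rintro rfl; exact ⟨rfl, rfl⟩
    simp only [this]
  have hTu : ∀ k, ‖T (u k)‖ ^ 2 ≤ ε / 4 := by
    intro q
    have hm : |(((q.2 : ℕ) : ℤ) - M : ℤ)| ≤ (M : ℤ) := by
      have := q.2.2
      rw [abs_le]; omega
    have hm' : |((((q.2 : ℕ) : ℤ) - M : ℤ) : ℝ)| ≤ (M : ℝ) := by exact_mod_cast hm
    have h1 := hT L q.1.1 hLpos q.1.1.2 (((q.2 : ℕ) : ℤ) - M) M hm'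
      (Sel_bound hg hγ0 hγ hLpos q.1.2)
    refine h1.trans ?_
    have hMh : h * (M : ℝ) ≤ c₂ := by
      rw [le_div_iff₀ hh] at hM1; linarith
    have b1 : h ^ 2 * (2 * Real.pi * M) ^ 2 ≤ ε / 256 := by
      rw [← e1]
      have : h ^ 2 * (2 * Real.pi * M) ^ 2 = (2 * Real.pi * (h * M)) ^ 2 := by ring
      rw [this]
      gcongr
    have b2 : h ^ 2 * ((L : ℝ) ^ 2 * A1 / A0) ≤ ε / 256 := by
      have hA := A0_pos
      have hA1 := A1_nonneg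
      have h2 : C * h * L ≤ 1 := by
        rw [le_div_iff₀ (by positivity)] at hL1; linarith
      have h3 : (C * h * L) ^ 2 ≤ 1 := pow_le_one₀ (by positivity) h2
      have h4 : h ^ 2 * (L : ℝ) ^ 2 ≤ ε / (256 * Cpsi) := by
        have h5 : (C * h * L) ^ 2 = (256 * Cpsi / ε) * (h ^ 2 * L ^ 2) := by
          rw [mul_pow, mul_pow, e2]; ring
        rw [h5] at h3
        rw [le_div_iff₀ (by positivity)]
        have h6 : (256 * Cpsi / ε) * (h ^ 2 * L ^ 2) * ε ≤ 1 * ε := by gcongr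
        have h7 : (256 * Cpsi / ε) * (h ^ 2 * (L : ℝ) ^ 2) * ε = h ^ 2 * L ^ 2 * (256 * Cpsi) := by
          field_simp
        linarith
      have h8 : A1 / A0 ≤ Cpsi := by unfold Cpsi; linarith
      calc h ^ 2 * ((L : ℝ) ^ 2 * A1 / A0) = (h ^ 2 * (L : ℝ) ^ 2) * (A1 / A0) := by ring
        _ ≤ (ε / (256 * Cpsi)) * Cpsi := by gcongr
        _ = ε / 256 := by field_simp
    have b3 : (γ₀ / L) ^ 2 * (2 * Real.pi * M) ^ 2 ≤ ε / 256 := by
      refine le_trans ?_ hγε'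
      have h2 : (M : ℝ) / L ≤ 2 * C * c₂ := by
        rw [div_le_iff₀ hLpos']
        rw [div_le_iff₀ (by positivity)] at hL4
        rw [le_div_iff₀ hh] at hM1
        have h3 : (M : ℝ) * h * 1 ≤ c₂ * (L * (2 * C * h)) := by
          gcongr
        have h4 : (M : ℝ) * h ≤ (2 * C * c₂ * L) * h := by linarith
        exact le_of_mul_le_mul_right h4 hh
      have h3 : (γ₀ / L) ^ 2 * (2 * Real.pi * M) ^ 2 = γ₀ ^ 2 * (2 * Real.pi) ^ 2 * ((M : ℝ) / L) ^ 2 := by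
        field_simp
      rw [h3]
      calc γ₀ ^ 2 * (2 * Real.pi) ^ 2 * ((M : ℝ) / L) ^ 2
          ≤ γ₀ ^ 2 * (2 * Real.pi) ^ 2 * (2 * C * c₂) ^ 2 := by gcongr
        _ = 4 * γ₀ ^ 2 * (C ^ 2 * (2 * Real.pi * c₂) ^ 2) := by ring
        _ = 4 * γ₀ ^ 2 * Cpsi := by rw [e1, e2]; field_simp
    linarith
  have hδ : 0 < ε / 2 := by positivity
  have key := trace_lower iM T hf hf0 hδ hf1 b u horth hTu
  refine le_trans ?_ key
  apply ENNReal.ofReal_le_ofReal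
  have hcard : (Fintype.card κ : ℝ) = (Sel g L).card * (2 * M + 1) := by
    show ((Fintype.card ((Sel g L) × Fin (2 * M + 1)) : ℕ) : ℝ) = _
    rw [Fintype.card_prod, Fintype.card_coe, Fintype.card_fin]
    push_cast; ring
  rw [hcard]
  have h5 : (1 : ℝ) - ε / 4 / (ε / 2) = 1 / 2 := by field_simp; norm_num
  rw [h5]
  have h6 := Sel_card hLpos hz
  have h7 : c₂ / h ≤ 2 * (M : ℝ) + 1 := by linarith
  have h8 : 1 / (2 * C * h) / 2 ≤ (Sel g L).card := by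
    refine le_trans ?_ h6
    gcongr
  have h9 : (1 / (2 * C * h) / 2) * (c₂ / h) * (1 / 2) ≤ ((Sel g L).card : ℝ) * (2 * M + 1) * (1 / 2) := by
    gcongr
  refine le_trans (le_of_eq ?_) h9
  rw [hc₂, hC]
  have h10 : ε = Real.sqrt ε * Real.sqrt ε := (Real.mul_self_sqrt hε.le).symm
  have h11 : ε / (4096 * Real.pi * Real.sqrt Cpsi) * (h ^ 2)⁻¹ =
      (Real.sqrt ε * Real.sqrt ε) / (4096 * Real.pi * Real.sqrt Cpsi) * (h ^ 2)⁻¹ := by rw [← h10]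
  rw [h11]
  field_simp
  norm_num

end Pool.Agent.H772R2
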