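import Pool.Agent.H772R2.LeafInt
import Pool.Agent.H772R2.MLow
import Pool.Agent.H772R2.Fn

set_option autoImplicit false
set_option linter.all false
open scoped InnerProductSpace ENNReal ComplexConjugate ContDiff Topology
open ContinuousLinearMap MeasureTheory Set Filter
noncomputable section
namespace Pool.Agent.H772R2

/-- The conormal bundle `N*F` (lifted to the universal cover `ℝ³` of the torus): the point
`((t, x, y), (ξ, η))` stands for the covector `ξ ω¹ + η ω² = ξ dx + η (dy - g dt)` at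
`(t, x, y)`. -/
abbrev Ph : Type := (ℝ × ℝ × ℝ) × (ℝ × ℝ)

/-- The linearised foliation `F_N`: transport of a conormal covector along the leaf through its
base point, i.e. the cotangent lift of the flow `(t, x, y) ↦ (t + r, x, y + r g(x))` of `X`. -/
def flow (g : ℝ → ℝ) (r : ℝ) (ν : Ph) : Ph :=
  ((ν.1.1 + r, ν.1.2.1, ν.1.2.2 + r * g ν.1.2.1),
    (ν.2.1 - r * (deriv g ν.1.2.1 * ν.2.2), ν.2.2))

/-- equality of two points of `N*F` over the torus, i.e. modulo `ℤ³` in the base -/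
def SameT (ν ν' : Ph) : Prop :=
  (∃ a : ℤ, ν.1.1 = ν'.1.1 + a) ∧ (∃ a : ℤ, ν.1.2.1 = ν'.1.2.1 + a) ∧
    (∃ a : ℤ, ν.1.2.2 = ν'.1.2.2 + a) ∧ ν.2 = ν'.2

/-- `g_N(ν) = |ν|²` -/
def gN (ν : Ph) : ℝ := ν.2.1 ^ 2 + ν.2.2 ^ 2

/-- the trace defined by the transverse Liouville measure: the integral of the pointwise trace
of the leafwise kernel on the diagonal against leafwise volume times transverse Liouville
measure, which is Lebesgue measure `dt dx dy dξ dη`, over `T³ × ℝ²` -/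
def trN (k : Ph → ℝ → ℝ → (Lam →L[ℂ] Lam)) : ℝ≥0∞ :=
  ∫⁻ ν, ENNReal.ofReal (trL (k ν 0 0)) ∂(muM.prod (volume : Measure (ℝ × ℝ)))

/-! ### the operators of MP_ccad24_an -/

/-- zeroth order coefficients of `φ ↦ (d φ, d* φ, √g_N φ)` at a point of `N*F` -/
def lapCoef (g : ℝ → ℝ) (ν : Ph) : Lam →L[ℂ] Lam3 :=
  trip (ext 0 ∘L Bz (deriv g ν.1.2.1)) (int 0 ∘L Bs (deriv g ν.1.2.1))
    ((Real.sqrt (gN ν) : ℂ) • ContinuousLinearMap.id ℂ Lam)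

lemma lapCoef_cont (g : ℝ → ℝ) (ν : Ph) : Continuous (fun r => lapCoef g (flow g r ν)) :=
  lapM_cont (deriv g ν.1.2.1) ν.2.1 ν.2.2

/-- `φ ↦ (d φ, d* φ, √g_N φ)` on the leaf of `F_N` through `ν`, parametrised by `r ↦ flow g r ν` -/
def leafLap (g : ℝ → ℝ) (ν : Ph) : DL →ₗ[ℂ] Lp Lam3 2 (volume : Measure ℝ) :=
  lineOp lapA (fun r => lapCoef g (flow g r ν)) (lapCoef_cont g ν)

/-- the Hilbert space sum of four copies of `Lam` -/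
abbrev Lam4 : Type := PiLp 2 (fun _ : Fin 4 => Lam)

/-- the expression `u ↦ (d_F u, d_F^* u, h d_H u, h d_H^* u)` -/
def lapP (g : ℝ → ℝ) (h : ℝ) (u : ℝ × ℝ × ℝ → Lam) (p : ℝ × ℝ × ℝ) : Lam4 :=
  WithLp.toLp 2 ![opF g u p, opFs g u p, (h : ℂ) • opH u p, (h : ℂ) • opHs u p]

lemma lapP_cont {g : ℝ → ℝ} (hg : ContDiff ℝ ∞ g) (h : ℝ) (u : DM) : Continuous (lapP g h u) := by
  refine (PiLp.continuous_toLp 2 _).comp (continuous_pi fun i => ?_)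
  have h1 := opF_cont hg u
  have h2 := opFs_cont hg u
  have h3 := (opH_cont u).const_smul (h : ℂ)
  have h4 := (opHs_cont u).const_smul (h : ℂ)
  fin_cases i <;> assumption

lemma lapP_add (g : ℝ → ℝ) (h : ℝ) (u v : DM) :
    lapP g h ((u + v : DM) : ℝ × ℝ × ℝ → Lam) = lapP g h u + lapP g h v := by
  funext p
  have h1 := congrFun (opF_add (g := g) u v) p
  have h2 := congrFun (opFs_add (g := g) u v) p
  have h3 := congrFun (opH_add u v) p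
  have h4 := congrFun (opHs_add u v) p
  refine WithLp.ofLp_injective 2 (funext fun i => ?_)
  fin_cases i
  · exact h1
  · exact h2
  · show (h : ℂ) • opH ((u + v : DM) : ℝ × ℝ × ℝ → Lam) p = (h : ℂ) • opH u p + (h : ℂ) • opH v p
    rw [h3, ← smul_add]; rfl
  · show (h : ℂ) • opHs ((u + v : DM) : ℝ × ℝ × ℝ → Lam) p =
      (h : ℂ) • opHs u p + (h : ℂ) • opHs v p
    rw [h4, ← smul_add]; rfl

lemma lapP_smul (g : ℝ → ℝ) (h : ℝ) (c : ℂ) (u : DM) :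
    lapP g h ((c • u : DM) : ℝ × ℝ × ℝ → Lam) = c • lapP g h u := by
  funext p
  have h1 := congrFun (opF_smul (g := g) c u) p
  have h2 := congrFun (opFs_smul (g := g) c u) p
  have h3 := congrFun (opH_smul c u) p
  have h4 := congrFun (opHs_smul c u) p
  refine WithLp.ofLp_injective 2 (funext fun i => ?_)
  fin_cases i
  · exact h1
  · exact h2
  · show (h : ℂ) • opH ((c • u : DM) : ℝ × ℝ × ℝ → Lam) p = c • (h : ℂ) • opH u p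
    rw [h3, smul_comm c]; rfl
  · show (h : ℂ) • opHs ((c • u : DM) : ℝ × ℝ × ℝ → Lam) p = c • (h : ℂ) • opHs u p
    rw [h4, smul_comm c]; rfl

/-- the operator `T_h u = (d_F u, d_F^* u, h d_H u, h d_H^* u)` on the smooth forms of the torus;
`T_h^* T_h = Δ_F + h² Δ_H`. -/
def lapOp (g : ℝ → ℝ) (hg : ContDiff ℝ ∞ g) (h : ℝ) : DM →ₗ[ℂ] Lp Lam4 2 muM :=
  mkOp (lapP g h) (lapP_cont hg h) (lapP_add g h) (lapP_smul g h)

/-! ### the operators of MP_e0a138_an -/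

/-- zeroth order coefficients of the leafwise operator `D_{F_N} + σ(D_H)` at a point of `N*F` -/
def sigCoef (g : ℝ → ℝ) (ν : Ph) : Lam →L[ℂ] Lam :=
  (ext 0 ∘L Bz (deriv g ν.1.2.1) + int 0 ∘L Bs (deriv g ν.1.2.1)) + sym ν.2.1 ν.2.2

lemma sigCoef_cont (g : ℝ → ℝ) (ν : Ph) : Continuous (fun r => sigCoef g (flow g r ν)) :=
  sigM_cont (deriv g ν.1.2.1) ν.2.1 ν.2.2

/-- `D_{F_N} + σ(D_H)` on the leaf of `F_N` through `ν`, parametrised by `r ↦ flow g r ν` -/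
def leafSig (g : ℝ → ℝ) (ν : Ph) : DL →ₗ[ℂ] Lp Lam 2 (volume : Measure ℝ) :=
  lineOp (cl 0) (fun r => sigCoef g (flow g r ν)) (sigCoef_cont g ν)

/-- the expression `u ↦ (d_F + d_F^*) u + h (d_H + d_H^*) u` -/
def sigP (g : ℝ → ℝ) (h : ℝ) (u : ℝ × ℝ × ℝ → Lam) (p : ℝ × ℝ × ℝ) : Lam :=
  (opF g u p + opFs g u p) + (h : ℂ) • (opH u p + opHs u p)

lemma sigP_cont {g : ℝ → ℝ} (hg : ContDiff ℝ ∞ g) (h : ℝ) (u : DM) : Continuous (sigP g h u) :=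
  ((opF_cont hg u).add (opFs_cont hg u)).add (((opH_cont u).add (opHs_cont u)).const_smul (h : ℂ))

lemma sigP_add (g : ℝ → ℝ) (h : ℝ) (u v : DM) :
    sigP g h ((u + v : DM) : ℝ × ℝ × ℝ → Lam) = sigP g h u + sigP g h v := by
  funext p
  show _ = sigP g h u p + sigP g h v p
  unfold sigP
  rw [opF_add, opFs_add, opH_add, opHs_add]
  simp only [Pi.add_apply, smul_add]
  abel

lemma sigP_smul (g : ℝ → ℝ) (h : ℝ) (c : ℂ) (u : DM) :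
    sigP g h ((c • u : DM) : ℝ × ℝ × ℝ → Lam) = c • sigP g h u := by
  funext p
  show _ = c • sigP g h u p
  unfold sigP
  rw [opF_smul, opFs_smul, opH_smul, opHs_smul]
  simp only [Pi.smul_apply, smul_add, smul_comm (h : ℂ) c]

/-- the operator `D_F + h D_H` on the smooth forms of the torus -/
def sigOp (g : ℝ → ℝ) (hg : ContDiff ℝ ∞ g) (h : ℝ) : DM →ₗ[ℂ] Lp Lam 2 muM :=
  mkOp (sigP g h) (sigP_cont hg h) (sigP_add g h) (sigP_smul g h)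

/-! ### pointwise bounds -/

lemma opF_le (g : ℝ → ℝ) (u : ℝ × ℝ × ℝ → Lam) (p : ℝ × ℝ × ℝ) :
    ‖opF g u p‖ ≤ ‖dX g u p‖ + |deriv g p.2.1| * ‖u p‖ :=
  (norm_ext_le _ _).trans ((norm_add_le _ _).trans (add_le_add_right (norm_Bz_le _ _) _))

lemma opFs_le (g : ℝ → ℝ) (u : ℝ × ℝ × ℝ → Lam) (p : ℝ × ℝ × ℝ) :
    ‖opFs g u p‖ ≤ ‖dX g u p‖ + |deriv g p.2.1| * ‖u p‖ := by
  unfold opFs
  rw [norm_neg]
  exact (norm_int_le _ _).trans ((norm_sub_le _ _).trans (add_le_add_right (norm_Bs_le _ _) _))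

lemma opH_le (u : ℝ × ℝ × ℝ → Lam) (p : ℝ × ℝ × ℝ) : ‖opH u p‖ ≤ ‖dx u p‖ + ‖dy u p‖ :=
  (norm_add_le _ _).trans (add_le_add (norm_ext_le _ _) (norm_ext_le _ _))

lemma opHs_le (u : ℝ × ℝ × ℝ → Lam) (p : ℝ × ℝ × ℝ) : ‖opHs u p‖ ≤ ‖dx u p‖ + ‖dy u p‖ := by
  unfold opHs
  rw [norm_neg]
  exact (norm_add_le _ _).trans (add_le_add (norm_int_le _ _) (norm_int_le _ _))

lemma arith_bd {a b c d X G x y h : ℝ} (hX : 0 ≤ X) (hG : 0 ≤ G) (hx : 0 ≤ x) (hy : 0 ≤ y)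
    (ha0 : 0 ≤ a) (hb0 : 0 ≤ b) (hc0 : 0 ≤ c) (hd0 : 0 ≤ d)
    (ha : a ≤ X + G) (hb : b ≤ X + G) (hc : c ≤ x + y) (hd : d ≤ x + y) :
    4 * (a ^ 2 + b ^ 2 + h ^ 2 * c ^ 2 + h ^ 2 * d ^ 2) ≤
      16 * (X ^ 2 + G ^ 2 + h ^ 2 * x ^ 2 + h ^ 2 * y ^ 2) := by
  have h1 : a ^ 2 ≤ (X + G) ^ 2 := pow_le_pow_left₀ ha0 ha 2
  have h2 : b ^ 2 ≤ (X + G) ^ 2 := pow_le_pow_left₀ hb0 hb 2
  have h3 : c ^ 2 ≤ (x + y) ^ 2 := pow_le_pow_left₀ hc0 hc 2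
  have h4 : d ^ 2 ≤ (x + y) ^ 2 := pow_le_pow_left₀ hd0 hd 2
  have h5 : (X + G) ^ 2 ≤ 2 * X ^ 2 + 2 * G ^ 2 := by nlinarith [sq_nonneg (X - G)]
  have h6 : (x + y) ^ 2 ≤ 2 * x ^ 2 + 2 * y ^ 2 := by nlinarith [sq_nonneg (x - y)]
  have h7 : h ^ 2 * c ^ 2 ≤ h ^ 2 * (2 * x ^ 2 + 2 * y ^ 2) :=
    mul_le_mul_of_nonneg_left (h3.trans h6) (sq_nonneg h)
  have h8 : h ^ 2 * d ^ 2 ≤ h ^ 2 * (2 * x ^ 2 + 2 * y ^ 2) :=
    mul_le_mul_of_nonneg_left (h4.trans h6) (sq_nonneg h)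
  nlinarith

lemma lapP_bound (g : ℝ → ℝ) (h : ℝ) (u : DM) (p : ℝ × ℝ × ℝ) :
    ‖lapP g h u p‖ ^ 2 ≤ 16 * (‖dX g u p‖ ^ 2 +
      deriv g p.2.1 ^ 2 * ‖(u : ℝ × ℝ × ℝ → Lam) p‖ ^ 2 + h ^ 2 * ‖dx u p‖ ^ 2 +
      h ^ 2 * ‖dy u p‖ ^ 2) := by
  have h1 : ‖lapP g h u p‖ ^ 2 = ‖opF g u p‖ ^ 2 + ‖opFs g u p‖ ^ 2 + h ^ 2 * ‖opH u p‖ ^ 2 +
      h ^ 2 * ‖opHs u p‖ ^ 2 := by
    rw [PiLp.norm_sq_eq_of_L2, Fin.sum_univ_four]
    show ‖opF g u p‖ ^ 2 + ‖opFs g u p‖ ^ 2 + ‖(h : ℂ) • opH u p‖ ^ 2 +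
      ‖(h : ℂ) • opHs u p‖ ^ 2 = _
    rw [norm_smul, norm_smul, Complex.norm_real, Real.norm_eq_abs, mul_pow, mul_pow, sq_abs]
  have h2 := arith_bd (h := h) (norm_nonneg (dX g u p))
    (show 0 ≤ |deriv g p.2.1| * ‖(u : ℝ × ℝ × ℝ → Lam) p‖ by positivity)
    (norm_nonneg (dx u p)) (norm_nonneg (dy u p)) (norm_nonneg _) (norm_nonneg _) (norm_nonneg _)
    (norm_nonneg _) (opF_le g u p) (opFs_le g u p) (opH_le u p) (opHs_le u p)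
  rw [mul_pow |deriv g p.2.1|, sq_abs (deriv g p.2.1)] at h2
  rw [h1]
  have h3 : 0 ≤ ‖opF g u p‖ ^ 2 + ‖opFs g u p‖ ^ 2 + h ^ 2 * ‖opH u p‖ ^ 2 +
      h ^ 2 * ‖opHs u p‖ ^ 2 := by positivity
  linarith

lemma sigP_bound (g : ℝ → ℝ) (h : ℝ) (u : DM) (p : ℝ × ℝ × ℝ) :
    ‖sigP g h u p‖ ^ 2 ≤ 16 * (‖dX g u p‖ ^ 2 +
      deriv g p.2.1 ^ 2 * ‖(u : ℝ × ℝ × ℝ → Lam) p‖ ^ 2 + h ^ 2 * ‖dx u p‖ ^ 2 +
      h ^ 2 * ‖dy u p‖ ^ 2) := by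
  have h2 := arith_bd (h := h) (norm_nonneg (dX g u p))
    (show 0 ≤ |deriv g p.2.1| * ‖(u : ℝ × ℝ × ℝ → Lam) p‖ by positivity)
    (norm_nonneg (dx u p)) (norm_nonneg (dy u p)) (norm_nonneg _) (norm_nonneg _) (norm_nonneg _)
    (norm_nonneg _) (opF_le g u p) (opFs_le g u p) (opH_le u p) (opHs_le u p)
  rw [mul_pow |deriv g p.2.1|, sq_abs (deriv g p.2.1)] at h2
  refine le_trans ?_ h2
  have h3 : ‖sigP g h u p‖ ≤ ‖opF g u p‖ + ‖opFs g u p‖ + (|h| * ‖opH u p‖ + |h| * ‖opHs u p‖) := by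
    unfold sigP
    refine (norm_add_le _ _).trans (add_le_add (norm_add_le _ _) ?_)
    rw [norm_smul, Complex.norm_real, Real.norm_eq_abs, ← mul_add]
    exact mul_le_mul_of_nonneg_left (norm_add_le _ _) (abs_nonneg h)
  set a := ‖opF g u p‖
  set b := ‖opFs g u p‖
  set c := |h| * ‖opH u p‖ with hc
  set d := |h| * ‖opHs u p‖ with hd
  have hc2 : h ^ 2 * ‖opH u p‖ ^ 2 = c ^ 2 := by rw [hc, mul_pow, sq_abs]
  have hd2 : h ^ 2 * ‖opHs u p‖ ^ 2 = d ^ 2 := by rw [hd, mul_pow, sq_abs]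
  rw [hc2, hd2]
  calc ‖sigP g h u p‖ ^ 2 ≤ (a + b + (c + d)) ^ 2 := pow_le_pow_left₀ (norm_nonneg _) h3 2
    _ ≤ 4 * (a ^ 2 + b ^ 2 + c ^ 2 + d ^ 2) := by
      nlinarith [sq_nonneg (a - b), sq_nonneg (a - c), sq_nonneg (a - d), sq_nonneg (b - c),
        sq_nonneg (b - d), sq_nonneg (c - d)]

end Pool.Agent.H772R2
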