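import Pool.Agent.H772R2.LineOp

set_option autoImplicit false
set_option linter.all false
open scoped InnerProductSpace ENNReal ComplexConjugate ContDiff Topology
open ContinuousLinearMap MeasureTheory Set Filter
noncomputable section
namespace Pool.Agent.H772R2

/-! ### the weights -/
section weights
variable (ξ η μ ε : ℝ)

def wV (r : ℝ) : ℝ := (ξ - r * μ) ^ 2 + η ^ 2
def wa (r : ℝ) : ℝ := 1 + wV ξ η μ r / ε
def wq (r : ℝ) : ℝ := 2 * wa ξ η μ ε r * wa ξ η μ ε 0 / (wa ξ η μ ε r + wa ξ η μ ε 0)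
def wo (r : ℝ) : ℝ := Real.sqrt (wq ξ η μ ε r)

variable {ε}

lemma wV_nonneg (r : ℝ) : 0 ≤ wV ξ η μ r := by unfold wV; positivity

lemma wa_ge (hε : 0 < ε) (r : ℝ) : 1 ≤ wa ξ η μ ε r := by
  have := wV_nonneg ξ η μ r
  unfold wa
  have : 0 ≤ wV ξ η μ r / ε := by positivity
  linarith

lemma wq_pos (hε : 0 < ε) (r : ℝ) : 0 < wq ξ η μ ε r := by
  have h1 := wa_ge ξ η μ hε r
  have h2 := wa_ge ξ η μ hε 0
  unfold wq; positivity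

lemma wq_le (hε : 0 < ε) (r : ℝ) : wq ξ η μ ε r ≤ 2 * wa ξ η μ ε r := by
  have h1 := wa_ge ξ η μ hε r
  have h2 := wa_ge ξ η μ hε 0
  unfold wq
  rw [div_le_iff₀ (by positivity)]
  nlinarith

lemma wq_le' (hε : 0 < ε) (r : ℝ) : wq ξ η μ ε r ≤ 2 * wa ξ η μ ε 0 := by
  have h1 := wa_ge ξ η μ hε r
  have h2 := wa_ge ξ η μ hε 0
  unfold wq
  rw [div_le_iff₀ (by positivity)]
  nlinarith

lemma wq_zero (hε : 0 < ε) : wq ξ η μ ε 0 = wa ξ η μ ε 0 := by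
  have h2 := wa_ge ξ η μ hε 0
  unfold wq
  field_simp
  ring

lemma wa_contDiff : ContDiff ℝ ∞ (wa ξ η μ ε) := by
  unfold wa wV; fun_prop

lemma wq_contDiff (hε : 0 < ε) : ContDiff ℝ ∞ (wq ξ η μ ε) := by
  have h1 := wa_contDiff ξ η μ (ε := ε)
  unfold wq
  refine ContDiff.div (by fun_prop) (by fun_prop) fun r => ?_
  have h1 := wa_ge ξ η μ hε r
  have h2 := wa_ge ξ η μ hε 0
  positivity

lemma wo_contDiff (hε : 0 < ε) : ContDiff ℝ ∞ (wo ξ η μ ε) :=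
  (wq_contDiff ξ η μ hε).sqrt fun r => (wq_pos ξ η μ hε r).ne'

lemma wq_eq (hε : 0 < ε) (r : ℝ) : wq ξ η μ ε r = wo ξ η μ ε r ^ 2 :=
  (Real.sq_sqrt (wq_pos ξ η μ hε r).le).symm

lemma wa_hasDeriv (hε : 0 < ε) (r : ℝ) :
    HasDerivAt (wa ξ η μ ε) (-(2 * μ * (ξ - r * μ)) / ε) r := by
  have h1 : HasDerivAt (fun r : ℝ => ξ - r * μ) (-μ) r := by
    simpa using ((hasDerivAt_id r).mul_const μ).const_sub ξ
  have h2 := (((h1.pow 2).add_const (η ^ 2)).div_const ε).const_add 1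
  refine h2.congr_deriv ?_
  push_cast
  ring

lemma wq_hasDeriv (hε : 0 < ε) (r : ℝ) :
    HasDerivAt (wq ξ η μ ε) (2 * wa ξ η μ ε 0 ^ 2 * (-(2 * μ * (ξ - r * μ)) / ε) /
      (wa ξ η μ ε r + wa ξ η μ ε 0) ^ 2) r := by
  have h1 := wa_ge ξ η μ hε r
  have h2 := wa_ge ξ η μ hε 0
  have h := wa_hasDeriv ξ η μ hε r
  have h3 := ((h.const_mul 2).mul_const (wa ξ η μ ε 0)).div (h.add_const (wa ξ η μ ε 0))
    (by positivity)
  refine h3.congr_deriv ?_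
  congr 1
  ring

lemma wo_deriv_sq (hε : 0 < ε) (r : ℝ) : deriv (wo ξ η μ ε) r ^ 2 ≤ 2 * μ ^ 2 / ε := by
  have h1 := wa_ge ξ η μ hε r
  have h2 := wa_ge ξ η μ hε 0
  have hq := wq_pos ξ η μ hε r
  have h3 := (wq_hasDeriv ξ η μ hε r).sqrt hq.ne'
  have h4 : deriv (wo ξ η μ ε) r = _ := h3.deriv
  rw [h4, div_pow, mul_pow, Real.sq_sqrt hq.le]
  set a := wa ξ η μ ε r with ha
  set a₀ := wa ξ η μ ε 0 with ha0
  have hx : (ξ - r * μ) ^ 2 ≤ ε * a := by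
    have : ε * a = ε + ((ξ - r * μ) ^ 2 + η ^ 2) := by
      rw [ha]; unfold wa wV; field_simp
    nlinarith [sq_nonneg η]
  have hqe : wq ξ η μ ε r = 2 * a * a₀ / (a + a₀) := rfl
  rw [hqe]
  have e1 : (2 * a₀ ^ 2 * (-(2 * μ * (ξ - r * μ)) / ε) / (a + a₀) ^ 2) ^ 2 /
      (2 ^ 2 * (2 * a * a₀ / (a + a₀))) =
      (2 * μ ^ 2 / ε) * ((ξ - r * μ) ^ 2 / (ε * a)) * (a₀ / (a + a₀)) ^ 3 := by
    field_simp
  rw [e1]
  have e2 : (ξ - r * μ) ^ 2 / (ε * a) ≤ 1 := by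
    rw [div_le_one (by positivity)]; exact hx
  have e3 : (a₀ / (a + a₀)) ^ 3 ≤ 1 := by
    apply pow_le_one₀ (by positivity)
    rw [div_le_one (by positivity)]
    linarith
  calc (2 * μ ^ 2 / ε) * ((ξ - r * μ) ^ 2 / (ε * a)) * (a₀ / (a + a₀)) ^ 3
      ≤ (2 * μ ^ 2 / ε) * 1 * 1 := by gcongr
    _ = 2 * μ ^ 2 / ε := by ring

lemma wq_deriv_sq (hε : 0 < ε) (r : ℝ) :
    deriv (wq ξ η μ ε) r ^ 2 ≤ 4 * (2 * wa ξ η μ ε 0) * (2 * μ ^ 2 / ε) := by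
  have h1 : wq ξ η μ ε = wo ξ η μ ε ^ 2 := funext (wq_eq ξ η μ hε)
  have h2 := (((wo_contDiff ξ η μ hε).differentiable (by simp)).differentiableAt
    (x := r)).hasDerivAt.pow 2
  have h3 : deriv (wq ξ η μ ε) r = 2 * wo ξ η μ ε r * deriv (wo ξ η μ ε) r := by
    rw [h1, h2.deriv]; push_cast; ring
  rw [h3, mul_pow, mul_pow, ← wq_eq ξ η μ hε]
  have h4 := wq_le' ξ η μ hε r
  have h5 := wo_deriv_sq ξ η μ hε r
  have h6 := wq_pos ξ η μ hε r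
  have h7 : (2:ℝ) ^ 2 * wq ξ η μ ε r ≤ 4 * (2 * wa ξ η μ ε 0) := by linarith
  exact mul_le_mul h7 h5 (sq_nonneg _) (by nlinarith)

end weights

section est
variable {E' : Type*} [NormedAddCommGroup E'] [InnerProductSpace ℂ E'] [CompleteSpace E']

lemma memLp_of_DL (φ : DL) (χ : ℝ → ℝ) (hχ : Continuous χ) :
    Integrable (fun r => χ r * ‖(φ : ℝ → Lam) r‖ ^ 2) := by
  refine Continuous.integrable_of_hasCompactSupport
    (hχ.mul (φ.2.1.continuous.norm.pow 2)) ?_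
  have : HasCompactSupport (fun r => ‖(φ : ℝ → Lam) r‖ ^ 2) :=
    φ.2.2.norm.comp_left (g := fun x : ℝ => x ^ 2) (by simp)
  exact this.mul_left

lemma norm_mulD_sq (χ : ℝ → ℝ) (hχ : ContDiff ℝ ∞ χ) (φ : DL) :
    ‖iL (mulD χ hχ φ)‖ ^ 2 = ∫ r, χ r ^ 2 * ‖(φ : ℝ → Lam) r‖ ^ 2 := by
  rw [norm_iL_sq]
  refine integral_congr_ae (Eventually.of_forall fun r => ?_)
  show ‖(mulD χ hχ φ : ℝ → Lam) r‖ ^ 2 = _
  rw [mulD_apply, norm_smul, mul_pow, Real.norm_eq_abs, sq_abs]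

lemma inner_mulD (χ : ℝ → ℝ) (hχ : ContDiff ℝ ∞ χ) (φ : DL) :
    RCLike.re ⟪iL φ, iL (mulD χ hχ φ)⟫_ℂ = ∫ r, χ r * ‖(φ : ℝ → Lam) r‖ ^ 2 := by
  rw [iL_inner]
  have h1 : ∀ r, ⟪(φ : ℝ → Lam) r, (mulD χ hχ φ : ℝ → Lam) r⟫_ℂ =
      ((χ r * ‖(φ : ℝ → Lam) r‖ ^ 2 : ℝ) : ℂ) := by
    intro r
    rw [mulD_apply, RCLike.real_smul_eq_coe_smul (K := ℂ), inner_smul_right,
      inner_self_eq_norm_sq_to_K]
    push_cast; rfl
  simp only [h1]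
  rw [integral_complex_ofReal]
  exact RCLike.ofReal_re (K := ℂ) _

/-- the boundedness of multiplication by a smooth function in the graph norm -/
lemma lineOp_mulD_le (A : Lam →L[ℂ] E') (hA : ∀ a, ‖A a‖ ≤ ‖a‖) (M : ℝ → Lam →L[ℂ] E')
    (hM : Continuous M) (χ : ℝ → ℝ) (hχ : ContDiff ℝ ∞ χ) {c d : ℝ} (hc : ∀ r, χ r ^ 2 ≤ c)
    (hd : ∀ r, deriv χ r ^ 2 ≤ d) (φ : DL) :
    ‖lineOp A M hM (mulD χ hχ φ)‖ ^ 2 ≤ 2 * c * ‖lineOp A M hM φ‖ ^ 2 + 2 * d * ‖iL φ‖ ^ 2 := by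
  rw [lineOp_norm_sq, lineOp_norm_sq, norm_iL_sq, ← integral_const_mul, ← integral_const_mul,
    ← integral_add ((lineT_int A hM φ).const_mul _) ((integrable_normSq φ).const_mul _)]
  refine integral_mono (lineT_int A hM _) (((lineT_int A hM φ).const_mul _).add
    ((integrable_normSq φ).const_mul _)) fun r => ?_
  show ‖lineT A M (mulD χ hχ φ) r‖ ^ 2 ≤
    2 * c * ‖lineT A M φ r‖ ^ 2 + 2 * d * ‖(φ : ℝ → Lam) r‖ ^ 2
  rw [lineT_mulD]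
  have h1 := norm_add_le (χ r • lineT A M φ r) (deriv χ r • A ((φ : ℝ → Lam) r))
  rw [norm_smul, norm_smul, Real.norm_eq_abs, Real.norm_eq_abs] at h1
  have h2 := hA ((φ : ℝ → Lam) r)
  have h3 := hc r
  have h4 := hd r
  rw [← sq_abs] at h3 h4
  set X := ‖lineT A M φ r‖
  set Y := ‖A ((φ : ℝ → Lam) r)‖
  set Z := ‖(φ : ℝ → Lam) r‖
  have hX : 0 ≤ X := norm_nonneg _
  have hY : 0 ≤ Y := norm_nonneg _
  have hZ : 0 ≤ Z := norm_nonneg _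
  have h5 : ‖χ r • lineT A M φ r + deriv χ r • A ((φ : ℝ → Lam) r)‖ ^ 2 ≤
      (|χ r| * X + |deriv χ r| * Y) ^ 2 := by
    gcongr
  refine h5.trans ?_
  have h6 : (|χ r| * X + |deriv χ r| * Y) ^ 2 ≤ 2 * (|χ r| * X) ^ 2 + 2 * (|deriv χ r| * Y) ^ 2 := by
    nlinarith [sq_nonneg (|χ r| * X - |deriv χ r| * Y)]
  refine h6.trans ?_
  rw [mul_pow, mul_pow]
  have h7 : Y ^ 2 ≤ Z ^ 2 := by gcongr
  have h8 : |χ r| ^ 2 * X ^ 2 ≤ c * X ^ 2 := by gcongr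
  have h9 : |deriv χ r| ^ 2 * Y ^ 2 ≤ d * Z ^ 2 := by
    calc |deriv χ r| ^ 2 * Y ^ 2 ≤ |deriv χ r| ^ 2 * Z ^ 2 := by gcongr
      _ ≤ d * Z ^ 2 := by gcongr
  linarith

/-- coercivity of the leafwise operator -/
def Coer (A : Lam →L[ℂ] E') (M : ℝ → Lam →L[ℂ] E') (hM : Continuous M) (ξ η μ c0 b : ℝ) : Prop :=
  ∀ φ : DL, c0 * (‖iL (dD φ)‖ ^ 2 + ∫ r, wV ξ η μ r * ‖(φ : ℝ → Lam) r‖ ^ 2) ≤
    ‖lineOp A M hM φ‖ ^ 2 + b * ‖iL φ‖ ^ 2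

/-- integrated localisation identity -/
lemma ims_int (A : Lam →L[ℂ] E') (hA : ∀ a, ‖A a‖ ≤ ‖a‖) (M : ℝ → Lam →L[ℂ] E')
    (hM : Continuous M) (om q : ℝ → ℝ) (hom : ContDiff ℝ ∞ om)
    (hq : ContDiff ℝ ∞ q) (hqom : ∀ r, q r = om r ^ 2) {d : ℝ} (hd : ∀ r, deriv om r ^ 2 ≤ d)
    (φ : DL) :
    ‖lineOp A M hM (mulD om hom φ)‖ ^ 2 ≤
      RCLike.re ⟪lineOp A M hM φ, lineOp A M hM (mulD q hq φ)⟫_ℂ + d * ‖iL φ‖ ^ 2 := by
  have hi1 : Integrable (fun r => ⟪lineT A M φ r, lineT A M (mulD q hq φ) r⟫_ℂ) := by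
    refine Continuous.integrable_of_hasCompactSupport
      ((lineT_cont A hM φ).inner (lineT_cont A hM _)) ?_
    refine (lineT_supp A M φ).mono fun r hr => ?_
    rw [Function.mem_support] at hr ⊢
    intro h0
    apply hr
    rw [h0, inner_zero_left]
  have hre : RCLike.re ⟪lineOp A M hM φ, lineOp A M hM (mulD q hq φ)⟫_ℂ =
      ∫ r, RCLike.re ⟪lineT A M φ r, lineT A M (mulD q hq φ) r⟫_ℂ := by
    rw [lineOp_inner]
    exact (integral_re hi1).symm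
  rw [hre, lineOp_norm_sq, norm_iL_sq, ← integral_const_mul,
    ← integral_add hi1.re ((integrable_normSq φ).const_mul _)]
  refine integral_mono (lineT_int A hM _) (hi1.re.add ((integrable_normSq φ).const_mul _))
    fun r => ?_
  show ‖lineT A M (mulD om hom φ) r‖ ^ 2 ≤
    RCLike.re ⟪lineT A M φ r, lineT A M (mulD q hq φ) r⟫_ℂ + d * ‖(φ : ℝ → Lam) r‖ ^ 2
  rw [ims A M om q hom hq hqom φ r]
  have h2 := hA ((φ : ℝ → Lam) r)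
  have h4 := hd r
  have h7 : ‖A ((φ : ℝ → Lam) r)‖ ^ 2 ≤ ‖(φ : ℝ → Lam) r‖ ^ 2 := by gcongr
  have h9 : deriv om r ^ 2 * ‖A ((φ : ℝ → Lam) r)‖ ^ 2 ≤ d * ‖(φ : ℝ → Lam) r‖ ^ 2 := by
    calc deriv om r ^ 2 * ‖A ((φ : ℝ → Lam) r)‖ ^ 2
        ≤ deriv om r ^ 2 * ‖(φ : ℝ → Lam) r‖ ^ 2 := by gcongr
      _ ≤ _ := by gcongr
  linarith

end est

end Pool.Agent.H772R2
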