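import Pool.Agent.H772R2.LeafEst

set_option autoImplicit false
set_option linter.all false
open scoped InnerProductSpace ENNReal ComplexConjugate ContDiff Topology
open ContinuousLinearMap MeasureTheory Set Filter
noncomputable section
namespace Pool.Agent.H772R2

/-- the constant in the weighted estimate -/
def cN (c0 C0 C1 : ℝ) : ℝ := (2 / c0) * (2 * (c0 + C0) + 1) + (2 / c0) * (1 + 8 * C1) + 1

lemma warith1 {ε c0 C0 C1 N S W : ℝ} (hε : 0 < ε) (hc0 : 0 < c0) (hC0 : 0 ≤ C0)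
    (hWN : W ≤ 2 * N)
    (h6 : c0 * (S + (ε / 2 * N ^ 2 - ε * W)) ≤ ε + ε * N + 8 * C1 * ε + C0 * ε * W) :
    N ^ 2 + (2 / ε) * S ≤ ((2 / c0) * (2 * (c0 + C0) + 1)) * N + (2 / c0) * (1 + 8 * C1) := by
  have h8 : c0 * (S + ε / 2 * N ^ 2) ≤ ε * ((2 * (c0 + C0) + 1) * N + (1 + 8 * C1)) := by
    have h9 : (c0 + C0) * ε * W ≤ (c0 + C0) * ε * (2 * N) := by gcongr
    linarith
  have h10 : N ^ 2 + (2 / ε) * S = (2 / (c0 * ε)) * (c0 * (S + ε / 2 * N ^ 2)) := by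
    field_simp
    ring
  have h11 : ((2 / c0) * (2 * (c0 + C0) + 1)) * N + (2 / c0) * (1 + 8 * C1) =
      (2 / (c0 * ε)) * (ε * ((2 * (c0 + C0) + 1) * N + (1 + 8 * C1))) := by
    field_simp
  rw [h10, h11]
  gcongr

lemma warith2 {ε p s N S W : ℝ} (hε : 0 < ε) (hp0 : 0 ≤ p) (hs0 : 0 ≤ s)
    (hN0 : 0 ≤ N) (hS0 : 0 ≤ S)
    (hWN : W ≤ 2 * N) (h7 : N ^ 2 + (2 / ε) * S ≤ p * N + s) :
    Real.sqrt ε * W + (Real.sqrt ε)⁻¹ * S ≤ 3 * (p + s + 1) ^ 2 * Real.sqrt ε := by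
  have h8 : 0 ≤ (2 / ε) * S := by positivity
  have hNle : N ≤ p + s + 1 := by
    by_contra hcon
    push Not at hcon
    have h1 : p * N + s * N < N * N := by nlinarith
    have h2 : s * 1 ≤ s * N := by
      apply mul_le_mul_of_nonneg_left _ hs0
      linarith
    nlinarith
  have h9 : (2 / ε) * S ≤ (p + s + 1) ^ 2 := by
    have h10 : p * N ≤ p * (p + s + 1) := by gcongr
    have h11 : 0 ≤ N ^ 2 := sq_nonneg _
    have h12 : 0 ≤ p * s := by positivity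
    have h13 : 0 ≤ s * s := by positivity
    have h14 : p * (p + s + 1) + s ≤ (p + s + 1) ^ 2 := by linarith [h12, h13, sq (p + s + 1)]
    linarith
  have hSle : S ≤ ε * (p + s + 1) ^ 2 / 2 := by
    have h10 : S = (ε / 2) * ((2 / ε) * S) := by field_simp
    rw [h10]
    calc (ε / 2) * ((2 / ε) * S) ≤ (ε / 2) * (p + s + 1) ^ 2 := by gcongr
      _ = _ := by ring
  have hsε : 0 < Real.sqrt ε := Real.sqrt_pos.2 hε
  have h11 : (Real.sqrt ε)⁻¹ * S ≤ Real.sqrt ε * ((p + s + 1) ^ 2 / 2) := by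
    rw [inv_mul_le_iff₀ hsε]
    calc S ≤ ε * (p + s + 1) ^ 2 / 2 := hSle
      _ = (Real.sqrt ε * Real.sqrt ε) * ((p + s + 1) ^ 2 / 2) := by
        rw [Real.mul_self_sqrt hε.le]; ring
      _ = _ := by ring
  have h12 : Real.sqrt ε * W ≤ Real.sqrt ε * (2 * (p + s + 1)) := by
    apply mul_le_mul_of_nonneg_left _ hsε.le
    linarith
  have h13 : 2 * (p + s + 1) + (p + s + 1) ^ 2 / 2 ≤ 3 * (p + s + 1) ^ 2 := by
    have : 1 * (p + s + 1) ≤ (p + s + 1) * (p + s + 1) := by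
      apply mul_le_mul_of_nonneg_right _ (by positivity)
      linarith
    nlinarith
  calc Real.sqrt ε * W + (Real.sqrt ε)⁻¹ * S
      ≤ Real.sqrt ε * (2 * (p + s + 1)) + Real.sqrt ε * ((p + s + 1) ^ 2 / 2) := add_le_add h12 h11
    _ = Real.sqrt ε * (2 * (p + s + 1) + (p + s + 1) ^ 2 / 2) := by ring
    _ ≤ Real.sqrt ε * (3 * (p + s + 1) ^ 2) := by gcongr
    _ = _ := by ring

lemma warith {ε c0 C0 C1 N S W : ℝ} (hε : 0 < ε) (hc0 : 0 < c0) (hC0 : 0 ≤ C0)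
    (hC1 : 0 ≤ C1) (hN0 : 0 ≤ N) (hS0 : 0 ≤ S) (hW0 : 0 ≤ W) (hWN : W ≤ 2 * N)
    (h6 : c0 * (S + (ε / 2 * N ^ 2 - ε * W)) ≤ ε + ε * N + 8 * C1 * ε + C0 * ε * W) :
    Real.sqrt ε * W + (Real.sqrt ε)⁻¹ * S ≤ 3 * cN c0 C0 C1 ^ 2 * Real.sqrt ε := by
  have h7 := warith1 hε hc0 hC0 hWN h6
  exact warith2 hε (by positivity) (by positivity) hN0 hS0 hWN h7

section est
variable {E' : Type*} [NormedAddCommGroup E'] [InnerProductSpace ℂ E'] [CompleteSpace E']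

lemma weighted_test (A : Lam →L[ℂ] E') (hA : ∀ a, ‖A a‖ ≤ ‖a‖) (M : ℝ → Lam →L[ℂ] E')
    (hM : Continuous M) {ξ η μ ε c0 C0 C1 : ℝ} (hε : 0 < ε) (hc0 : 0 < c0) (hC0 : 0 ≤ C0)
    (hC1 : 0 ≤ C1) (hμ : μ ^ 2 ≤ C1 * ε ^ 2) (hT : Coer A M hM ξ η μ c0 (C0 * ε)) (φ : DL)
    {ρ : ℝ} (hρ : ρ ≤ ε) (hφ : ‖iL φ‖ ≤ 2)
    (h : RCLike.re ⟪lineOp A M hM φ, lineOp A M hM
      (mulD (wq ξ η μ ε) (wq_contDiff ξ η μ hε) φ)⟫_ℂ ≤
        ρ + ε * ‖iL (mulD (wq ξ η μ ε) (wq_contDiff ξ η μ hε) φ)‖) :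
    wa ξ η μ ε 0 * ‖(φ : ℝ → Lam) 0‖ ^ 2 ≤ 3 * cN c0 C0 C1 ^ 2 * Real.sqrt ε := by
  set q := wq ξ η μ ε with hq
  set om := wo ξ η μ ε with hom
  have hqc := wq_contDiff ξ η μ hε
  have homc := wo_contDiff ξ η μ hε
  set N := ‖iL (mulD q hqc φ)‖ with hN
  set S := ‖iL (dD (mulD om homc φ))‖ ^ 2 with hS
  set W := ‖iL (mulD om homc φ)‖ ^ 2 with hW
  have hN0 : 0 ≤ N := norm_nonneg _
  have hS0 : 0 ≤ S := sq_nonneg _
  have hW0 : 0 ≤ W := sq_nonneg _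
  have hWe : W = ∫ r, q r * ‖(φ : ℝ → Lam) r‖ ^ 2 := by
    rw [hW, norm_mulD_sq]
    refine integral_congr_ae (Eventually.of_forall fun r => ?_)
    show om r ^ 2 * _ = q r * _
    rw [← wq_eq ξ η μ hε]
  have hWN : W ≤ 2 * N := by
    rw [hWe, ← inner_mulD q hqc φ]
    calc RCLike.re ⟪iL φ, iL (mulD q hqc φ)⟫_ℂ ≤ ‖iL φ‖ * ‖iL (mulD q hqc φ)‖ :=
          re_inner_le_norm _ _
      _ ≤ 2 * N := by gcongr
  have h1 := hT (mulD om homc φ)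
  have h2 := ims_int A hA M hM om q homc hqc (wq_eq ξ η μ hε) (wo_deriv_sq ξ η μ hε) φ
  have hVW : ε / 2 * N ^ 2 - ε * W ≤
      ∫ r, wV ξ η μ r * ‖(mulD om homc φ : ℝ → Lam) r‖ ^ 2 := by
    have e1 : ∀ r, wV ξ η μ r * ‖(mulD om homc φ : ℝ → Lam) r‖ ^ 2 =
        wV ξ η μ r * q r * ‖(φ : ℝ → Lam) r‖ ^ 2 := by
      intro r
      rw [mulD_apply, norm_smul, mul_pow, Real.norm_eq_abs, sq_abs, ← wq_eq ξ η μ hε]
      ring
    simp only [e1]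
    have hVc : Continuous (wV ξ η μ) := by unfold wV; fun_prop
    have hi1 := memLp_of_DL φ (fun r => wV ξ η μ r * q r) (hVc.mul hqc.continuous)
    have hi2 := memLp_of_DL φ (fun r => ε / 2 * q r ^ 2) (continuous_const.mul (hqc.continuous.pow 2))
    have hi3 := memLp_of_DL φ (fun r => ε * q r) (continuous_const.mul hqc.continuous)
    have e2 : ε / 2 * N ^ 2 - ε * W = ∫ r, (ε / 2 * q r ^ 2 * ‖(φ : ℝ → Lam) r‖ ^ 2 -
        ε * q r * ‖(φ : ℝ → Lam) r‖ ^ 2) := by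
      rw [integral_sub hi2 hi3, hN, norm_mulD_sq, hWe, ← integral_const_mul, ← integral_const_mul]
      congr 1 <;>
      · refine integral_congr_ae (Eventually.of_forall fun r => ?_)
        simp only []
        ring
    rw [e2]
    refine integral_mono (hi2.sub hi3) hi1 fun r => ?_
    show ε / 2 * q r ^ 2 * ‖(φ : ℝ → Lam) r‖ ^ 2 - ε * q r * ‖(φ : ℝ → Lam) r‖ ^ 2 ≤
      wV ξ η μ r * q r * ‖(φ : ℝ → Lam) r‖ ^ 2
    have h5 : ε / 2 * q r ^ 2 - ε * q r ≤ wV ξ η μ r * q r := by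
      have h6 := wq_le ξ η μ hε r
      have h7 := wq_pos ξ η μ hε r
      have h8 : wV ξ η μ r = ε * (wa ξ η μ ε r - 1) := by
        unfold wa; rw [add_sub_cancel_left, mul_div_cancel₀ _ hε.ne']
      rw [h8]
      have h9 : q r * q r ≤ 2 * wa ξ η μ ε r * q r := by gcongr
      nlinarith
    have h10 := mul_le_mul_of_nonneg_right h5 (sq_nonneg ‖(φ : ℝ → Lam) r‖)
    linarith
  -- combine
  have h3 : 2 * μ ^ 2 / ε ≤ 2 * C1 * ε := by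
    rw [div_le_iff₀ hε]; nlinarith
  have h4 : ‖iL φ‖ ^ 2 ≤ 4 := by
    have := norm_nonneg (iL φ)
    nlinarith
  have h5 : ‖lineOp A M hM (mulD om homc φ)‖ ^ 2 ≤ ε + ε * N + 8 * C1 * ε := by
    have h6 : 2 * μ ^ 2 / ε * ‖iL φ‖ ^ 2 ≤ (2 * C1 * ε) * 4 := by
      have : 0 ≤ 2 * C1 * ε := by positivity
      calc 2 * μ ^ 2 / ε * ‖iL φ‖ ^ 2 ≤ (2 * C1 * ε) * ‖iL φ‖ ^ 2 := by gcongr
        _ ≤ _ := by gcongr
    linarith
  have h6 : c0 * (S + (ε / 2 * N ^ 2 - ε * W)) ≤ ε + ε * N + 8 * C1 * ε + C0 * ε * W := by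
    have h7 : c0 * (S + (ε / 2 * N ^ 2 - ε * W)) ≤
        c0 * (S + ∫ r, wV ξ η μ r * ‖(mulD om homc φ : ℝ → Lam) r‖ ^ 2) := by gcongr
    linarith
  have hsε : 0 < Real.sqrt ε := Real.sqrt_pos.2 hε
  have h9 := sobolev (mulD om homc φ) 0 hsε
  have h10 : wa ξ η μ ε 0 * ‖(φ : ℝ → Lam) 0‖ ^ 2 = ‖(mulD om homc φ : ℝ → Lam) 0‖ ^ 2 := by
    rw [mulD_apply, norm_smul, mul_pow, Real.norm_eq_abs, sq_abs, ← wq_eq ξ η μ hε,
      wq_zero ξ η μ hε]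
  rw [h10]
  exact h9.trans (warith hε hc0 hC0 hC1 hN0 hS0 hW0 hWN h6)

end est

section gen
variable {E' : Type*} [NormedAddCommGroup E'] [InnerProductSpace ℂ E'] [CompleteSpace E']
variable {K : Type*} [NormedAddCommGroup K] [InnerProductSpace ℂ K] [CompleteSpace K]
  (J : K →L[ℂ] Lp Lam 2 (volume : Measure ℝ)) (e : DL →ₗ[ℂ] K) (he : DenseRange e)
  (hJ : ∀ φ, J (e φ) = iL φ) (hJ1 : ‖J‖ ≤ 1)

include he hJ hJ1 in
lemma weighted_gen (A : Lam →L[ℂ] E') (hA : ∀ a, ‖A a‖ ≤ ‖a‖) (M : ℝ → Lam →L[ℂ] E')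
    (hM : Continuous M) (hK : ∀ φ ψ, ⟪e φ, e ψ⟫_ℂ = ⟪iL φ, iL ψ⟫_ℂ +
      ⟪lineOp A M hM φ, lineOp A M hM ψ⟫_ℂ)
    {ξ η μ ε c0 C0 C1 : ℝ} (hε : 0 < ε) (hc0 : 0 < c0) (hC0 : 0 ≤ C0)
    (hC1 : 0 ≤ C1) (hμ : μ ^ 2 ≤ C1 * ε ^ 2) (hT : Coer A M hM ξ η μ c0 (C0 * ε))
    {c : ℝ} (hc : 0 ≤ c) (hE : Ell e c)
    (v : K) (z : Lp Lam 2 (volume : Measure ℝ)) (hv : ‖J v‖ ≤ 1) (hz : ‖z‖ ≤ ε)
    (hvz : ∀ v', ⟪v, v'⟫_ℂ = ⟪J v + z, J v'⟫_ℂ) :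
    wa ξ η μ ε 0 * ‖ev e 0 v‖ ^ 2 ≤ 3 * cN c0 C0 C1 ^ 2 * Real.sqrt ε := by
  obtain ⟨y, hy, hyv⟩ := mem_closure_iff_seq_limit.1 (he v)
  choose φ hφ using hy
  have hy' : Tendsto (fun n => e (φ n)) atTop (𝓝 v) := by
    refine hyv.congr fun n => (hφ n).symm
  set q := wq ξ η μ ε with hq
  have hqc := wq_contDiff ξ η μ hε
  set a₀ := wa ξ η μ ε 0 with ha0
  have ha01 : 1 ≤ a₀ := wa_ge ξ η μ hε 0
  -- norm bound of e (q φ)
  have hnorm : ∀ ψ, ‖e ψ‖ ^ 2 = ‖iL ψ‖ ^ 2 + ‖lineOp A M hM ψ‖ ^ 2 := by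
    intro ψ
    have h1 := congrArg RCLike.re (hK ψ ψ)
    rw [map_add, inner_self_eq_norm_sq, inner_self_eq_norm_sq, inner_self_eq_norm_sq] at h1
    exact h1
  obtain ⟨Kw, hKw0, hKw⟩ : ∃ Kw : ℝ, 0 ≤ Kw ∧ ∀ ψ, ‖e (mulD q hqc ψ)‖ ≤ Kw * ‖e ψ‖ := by
    set cc := (2 * a₀) ^ 2 with hcc
    set dd := 4 * (2 * a₀) * (2 * μ ^ 2 / ε) with hdd
    have hdd0 : 0 ≤ dd := by positivity
    refine ⟨Real.sqrt (cc + 2 * cc + 2 * dd), Real.sqrt_nonneg _, fun ψ => ?_⟩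
    have hqs : ∀ r, q r ^ 2 ≤ cc := fun r => by
      have h1 := wq_pos ξ η μ hε r
      have h2 := wq_le' ξ η μ hε r
      rw [hcc]
      exact pow_le_pow_left₀ h1.le h2 2
    have h1 := lineOp_mulD_le A hA M hM q hqc hqs (wq_deriv_sq ξ η μ hε) ψ
    have h2 : ‖iL (mulD q hqc ψ)‖ ^ 2 ≤ cc * ‖iL ψ‖ ^ 2 := by
      rw [norm_mulD_sq, norm_iL_sq, ← integral_const_mul]
      refine integral_mono (memLp_of_DL ψ (fun r => q r ^ 2) (hqc.continuous.pow 2))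
        ((integrable_normSq ψ).const_mul _) fun r => ?_
      exact mul_le_mul_of_nonneg_right (hqs r) (sq_nonneg _)
    rw [← Real.sqrt_sq (norm_nonneg (e (mulD q hqc ψ))), ← Real.sqrt_sq (norm_nonneg (e ψ)),
      ← Real.sqrt_mul (by positivity)]
    apply Real.sqrt_le_sqrt
    rw [hnorm, hnorm]
    have h3 : 0 ≤ ‖iL ψ‖ ^ 2 := sq_nonneg _
    have h4 : 0 ≤ ‖lineOp A M hM ψ‖ ^ 2 := sq_nonneg _
    have hcc0 : 0 ≤ cc := by positivity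
    nlinarith [mul_nonneg hcc0 h3, mul_nonneg hdd0 h4, mul_nonneg hcc0 h4]
  -- the limit of the error terms
  have hlim1 : Tendsto (fun n => ‖e (φ n) - v‖) atTop (𝓝 0) :=
    tendsto_iff_norm_sub_tendsto_zero.1 hy'
  have hlim2 : Tendsto (fun n => ‖e (φ n)‖) atTop (𝓝 ‖v‖) := hy'.norm
  have hlim3 : Tendsto (fun n => 2 * ‖e (φ n) - v‖ * (Kw * ‖e (φ n)‖)) atTop (𝓝 0) := by
    have := (hlim1.const_mul 2).mul (hlim2.const_mul Kw)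
    simpa using this
  have hlim4 : Tendsto (fun n => ‖iL (φ n)‖) atTop (𝓝 ‖J v‖) := by
    have := ((J.continuous.tendsto v).comp hy').norm
    refine this.congr fun n => ?_
    show ‖J (e (φ n))‖ = _
    rw [hJ]
  have hev1 : ∀ᶠ n in atTop, 2 * ‖e (φ n) - v‖ * (Kw * ‖e (φ n)‖) < ε :=
    hlim3.eventually (gt_mem_nhds hε)
  have hev2 : ∀ᶠ n in atTop, ‖iL (φ n)‖ < 2 :=
    hlim4.eventually (gt_mem_nhds (lt_of_le_of_lt hv one_lt_two))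
  have hfin : ∀ᶠ n in atTop,
      a₀ * ‖ev e 0 (e (φ n))‖ ^ 2 ≤ 3 * cN c0 C0 C1 ^ 2 * Real.sqrt ε := by
    filter_upwards [hev1, hev2] with n hn1 hn2
    rw [ev_apply he hc hE]
    refine weighted_test A hA M hM hε hc0 hC0 hC1 hμ hT (φ n) hn1.le hn2.le ?_
    have e1 := hK (φ n) (mulD q hqc (φ n))
    have e2 : ⟪lineOp A M hM (φ n), lineOp A M hM (mulD q hqc (φ n))⟫_ℂ =
        ⟪e (φ n) - v, e (mulD q hqc (φ n))⟫_ℂ + ⟪J (v - e (φ n)), iL (mulD q hqc (φ n))⟫_ℂ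
          + ⟪z, iL (mulD q hqc (φ n))⟫_ℂ := by
      have e3 := hvz (e (mulD q hqc (φ n)))
      rw [hJ, inner_add_left] at e3
      rw [inner_sub_left, e3, map_sub, inner_sub_left, hJ, e1]
      ring
    rw [e2, map_add, map_add]
    have h1 : RCLike.re ⟪e (φ n) - v, e (mulD q hqc (φ n))⟫_ℂ ≤
        ‖e (φ n) - v‖ * (Kw * ‖e (φ n)‖) :=
      (re_inner_le_norm _ _).trans (mul_le_mul_of_nonneg_left (hKw _) (norm_nonneg _))
    have h2 : RCLike.re ⟪J (v - e (φ n)), iL (mulD q hqc (φ n))⟫_ℂ ≤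
        ‖e (φ n) - v‖ * (Kw * ‖e (φ n)‖) := by
      refine (re_inner_le_norm _ _).trans ?_
      have h3 : ‖J (v - e (φ n))‖ ≤ ‖e (φ n) - v‖ := by
        refine (J.le_opNorm _).trans ?_
        rw [norm_sub_rev v]
        nlinarith [norm_nonneg (e (φ n) - v)]
      have h4 : ‖iL (mulD q hqc (φ n))‖ ≤ Kw * ‖e (φ n)‖ := by
        refine le_trans ?_ (hKw (φ n))
        rw [← hJ]
        refine (J.le_opNorm _).trans ?_
        nlinarith [norm_nonneg (e (mulD q hqc (φ n)))]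
      exact mul_le_mul h3 h4 (norm_nonneg _) (norm_nonneg _)
    have h3 : RCLike.re ⟪z, iL (mulD q hqc (φ n))⟫_ℂ ≤ ε * ‖iL (mulD q hqc (φ n))‖ :=
      (re_inner_le_norm _ _).trans (mul_le_mul_of_nonneg_right hz (norm_nonneg _))
    linarith
  have hlim5 : Tendsto (fun n => a₀ * ‖ev e 0 (e (φ n))‖ ^ 2) atTop (𝓝 (a₀ * ‖ev e 0 v‖ ^ 2)) :=
    ((((ev e 0).continuous.tendsto v).comp hy').norm.pow 2).const_mul a₀
  exact le_of_tendsto hlim5 hfin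

end gen

end Pool.Agent.H772R2
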