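import Pool.Agent.H772R2.Leaf

set_option autoImplicit false
set_option linter.all false
open scoped InnerProductSpace ENNReal ComplexConjugate ContDiff Topology
open ContinuousLinearMap MeasureTheory Set Filter
noncomputable section
namespace Pool.Agent.H772R2

/-- `A` is the integral operator on `L²(ℝ; Lam)` with continuous kernel `k`. -/
def HasContKernel (A : Lp Lam 2 (volume : Measure ℝ) →L[ℂ] Lp Lam 2 (volume : Measure ℝ))
    (k : ℝ → ℝ → (Lam →L[ℂ] Lam)) : Prop :=
  Continuous (fun p : ℝ × ℝ => k p.1 p.2) ∧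
  ∀ (u : ℝ → Lam) (hu : Continuous u) (hc : HasCompactSupport u),
    (A ((hu.memLp_of_hasCompactSupport hc).toLp u) : ℝ → Lam) =ᵐ[volume]
      fun r => ∫ r', k r r' (u r')

/-- evaluation at a point on test functions -/
def evD (r : ℝ) : DL →ₗ[ℂ] Lam where
  toFun φ := (φ : ℝ → Lam) r
  map_add' _ _ := rfl
  map_smul' _ _ := rfl

section gen
variable {K : Type*} [NormedAddCommGroup K] [InnerProductSpace ℂ K] [CompleteSpace K]
  (J : K →L[ℂ] Lp Lam 2 (volume : Measure ℝ)) (e : DL →ₗ[ℂ] K) (he : DenseRange e)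
  (hJ : ∀ φ, J (e φ) = iL φ)

/-- evaluation at a point on the closed graph -/
def ev (e : DL →ₗ[ℂ] K) (r : ℝ) : K →L[ℂ] Lam := (evD r).extendOfNorm e

/-- ellipticity: the function and its derivative are controlled by the graph norm -/
def Ell (e : DL →ₗ[ℂ] K) (c : ℝ) : Prop :=
  ∀ φ : DL, ‖iL φ‖ ^ 2 ≤ ‖e φ‖ ^ 2 ∧ ‖iL (dD φ)‖ ^ 2 ≤ c * ‖e φ‖ ^ 2

variable {e}

lemma evD_bound {c : ℝ} (hc : 0 ≤ c) (hT : Ell e c) (r : ℝ) (φ : DL) :
    ‖evD r φ‖ ≤ Real.sqrt (1 + c) * ‖e φ‖ := by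
  have h1 := sobolev φ r one_pos
  rw [one_mul, inv_one, one_mul] at h1
  obtain ⟨h2, h3⟩ := hT φ
  have h4 : ‖evD r φ‖ ^ 2 ≤ (1 + c) * ‖e φ‖ ^ 2 := by
    have : ‖evD r φ‖ = ‖(φ : ℝ → Lam) r‖ := rfl
    rw [this]; linarith
  rw [← Real.sqrt_sq (norm_nonneg (evD r φ)), ← Real.sqrt_sq (norm_nonneg (e φ)),
    ← Real.sqrt_mul (by positivity)]
  exact Real.sqrt_le_sqrt h4

include he in
lemma ev_apply {c : ℝ} (hc : 0 ≤ c) (hT : Ell e c) (r : ℝ) (φ : DL) :
    ev e r (e φ) = (φ : ℝ → Lam) r :=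
  LinearMap.extendOfNorm_eq he ⟨_, evD_bound hc hT r⟩ φ

include he in
lemma norm_ev_le {c : ℝ} (hc : 0 ≤ c) (hT : Ell e c) (r : ℝ) : ‖ev e r‖ ≤ Real.sqrt (1 + c) :=
  LinearMap.opNorm_extendOfNorm_le he (Real.sqrt_nonneg _) (evD_bound hc hT r)

include he in
lemma norm_ev_sub_le {c : ℝ} (hc : 0 ≤ c) (hT : Ell e c) (r r' : ℝ) :
    ‖ev e r - ev e r'‖ ≤ Real.sqrt (c * |r - r'|) := by
  refine ContinuousLinearMap.opNorm_le_bound _ (Real.sqrt_nonneg _) fun v => ?_
  have hcl : IsClosed {v : K | ‖(ev e r - ev e r') v‖ ≤ Real.sqrt (c * |r - r'|) * ‖v‖} := by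
    apply isClosed_le <;> fun_prop
  have hsub : range e ⊆ {v : K | ‖(ev e r - ev e r') v‖ ≤ Real.sqrt (c * |r - r'|) * ‖v‖} := by
    rintro _ ⟨φ, rfl⟩
    show ‖(ev e r - ev e r') (e φ)‖ ≤ _
    rw [_root_.sub_apply, ev_apply he hc hT, ev_apply he hc hT]
    have h1 := holder φ r r'
    have h2 := (hT φ).2
    have h3 : ‖(φ : ℝ → Lam) r - (φ : ℝ → Lam) r'‖ ^ 2 ≤ (c * |r - r'|) * ‖e φ‖ ^ 2 := by
      refine h1.trans ?_
      have := mul_le_mul_of_nonneg_left h2 (abs_nonneg (r - r'))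
      linarith
    rw [← Real.sqrt_sq (norm_nonneg ((φ : ℝ → Lam) r - (φ : ℝ → Lam) r')),
      ← Real.sqrt_sq (norm_nonneg (e φ)), ← Real.sqrt_mul (by positivity)]
    exact Real.sqrt_le_sqrt h3
  have := closure_minimal hsub hcl
  rw [he.closure_range] at this
  exact this (mem_univ v)

include he in
lemma continuous_ev {c : ℝ} (hc : 0 ≤ c) (hT : Ell e c) : Continuous (fun r => ev e r) := by
  rw [continuous_iff_continuousAt]
  intro r₀
  rw [ContinuousAt, tendsto_iff_norm_sub_tendsto_zero]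
  have h1 : Tendsto (fun r => Real.sqrt (c * |r - r₀|)) (𝓝 r₀) (𝓝 0) := by
    have : Continuous (fun r => Real.sqrt (c * |r - r₀|)) := by fun_prop
    have h2 := this.tendsto r₀
    simpa using h2
  exact squeeze_zero (fun _ => norm_nonneg _) (fun r => norm_ev_sub_le he hc hT r r₀) h1

include he hJ in
/-- the continuous representative -/
lemma coeFn_proj {c : ℝ} (hc : 0 ≤ c) (hT : Ell e c) (v : K) :
    (J v : ℝ → Lam) =ᵐ[volume] fun r => ev e r v := by
  obtain ⟨y, hy, hyv⟩ := mem_closure_iff_seq_limit.1 (he v)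
  choose φ hφ using hy
  have h1 : Tendsto (fun n => J (y n)) atTop (𝓝 (J v)) := (J.continuous.tendsto v).comp hyv
  have h2 := tendstoInMeasure_of_tendsto_Lp h1
  obtain ⟨ns, hns, h3⟩ := h2.exists_seq_tendsto_ae
  have h4 : ∀ n, ∀ᵐ r, (J (y n) : ℝ → Lam) r = (φ n : ℝ → Lam) r := by
    intro n
    rw [← hφ n, hJ]
    exact (DL.memLp (φ n)).coeFn_toLp
  filter_upwards [h3, ae_all_iff.2 h4] with r hr hr4
  have h5 : Tendsto (fun k => ev e r (y (ns k))) atTop (𝓝 (ev e r v)) :=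
    ((ev e r).continuous.tendsto v).comp (hyv.comp hns.tendsto_atTop)
  refine tendsto_nhds_unique hr ?_
  refine h5.congr fun k => ?_
  rw [hr4 (ns k), ← hφ (ns k), ev_apply he hc hT]

include he hJ in
lemma hasContKernel_gen {c : ℝ} (hc : 0 ≤ c) (hT : Ell e c) (B : K →L[ℂ] K) :
    HasContKernel (J ∘L B ∘L adjoint J) (fun r r' => ev e r ∘L B ∘L adjoint (ev e r')) := by
  have hev := continuous_ev he hc hT
  constructor
  · have h1 : Continuous (fun p : ℝ × ℝ => ev e p.1) := hev.comp continuous_fst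
    have h2 : Continuous (fun p : ℝ × ℝ => adjoint (ev e p.2)) :=
      (LinearIsometryEquiv.continuous _).comp (hev.comp continuous_snd)
    exact h1.clm_comp (continuous_const.clm_comp h2)
  · intro u hu hcu
    set U := (hu.memLp_of_hasCompactSupport (μ := volume) (p := 2) hcu).toLp u with hU
    have hcont : Continuous (fun r' => adjoint (ev e r') (u r')) :=
      ((LinearIsometryEquiv.continuous _).comp hev).clm_apply hu
    have hsupp : HasCompactSupport (fun r' => adjoint (ev e r') (u r')) := by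
      refine hcu.mono fun r hr => ?_
      rw [Function.mem_support] at hr ⊢
      intro h0
      apply hr
      show adjoint (ev e r) (u r) = 0
      rw [h0, map_zero]
    have hint : Integrable (fun r' => adjoint (ev e r') (u r')) :=
      hcont.integrable_of_hasCompactSupport hsupp
    have hadj : adjoint J U = ∫ r', adjoint (ev e r') (u r') := by
      refine ext_inner_left ℂ fun v => ?_
      rw [ContinuousLinearMap.adjoint_inner_right, L2.inner_def]
      have e1 : ∀ r', ⟪v, adjoint (ev e r') (u r')⟫_ℂ = ⟪ev e r' v, u r'⟫_ℂ := fun r' =>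
        ContinuousLinearMap.adjoint_inner_right _ _ _
      have e2 : ⟪v, ∫ r', adjoint (ev e r') (u r')⟫_ℂ = ∫ r', ⟪v, adjoint (ev e r') (u r')⟫_ℂ :=
        ((innerSL ℂ v).integral_comp_comm hint).symm
      rw [e2]
      refine integral_congr_ae ?_
      filter_upwards [(hu.memLp_of_hasCompactSupport (μ := volume) (p := 2) hcu).coeFn_toLp,
        coeFn_proj J he hJ hc hT v] with r h1 h2
      rw [h2, e1]
      have : (U : ℝ → Lam) r = u r := h1
      rw [this]
    have h1 := coeFn_proj J he hJ hc hT (B (adjoint J U))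
    show (J (B (adjoint J U)) : ℝ → Lam) =ᵐ[volume] _
    filter_upwards [h1] with r hr
    rw [hr, hadj]
    have h3 := (ev e r ∘L B).integral_comp_comm hint
    exact h3.symm

end gen
end Pool.Agent.H772R2
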