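import Pool.Agent.H772R2.LeafSig

set_option autoImplicit false
set_option linter.all false
open scoped InnerProductSpace ENNReal ComplexConjugate ContDiff Topology
open ContinuousLinearMap MeasureTheory Set Filter
noncomputable section
namespace Pool.Agent.H772R2

/-- the continuous kernel of an operator is unique -/
theorem contKernel_unique {A : Lp Lam 2 (volume : Measure ℝ) →L[ℂ] Lp Lam 2 (volume : Measure ℝ)}
    {k k' : ℝ → ℝ → (Lam →L[ℂ] Lam)} (h : HasContKernel A k) (h' : HasContKernel A k') :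
    k = k' := by
  obtain ⟨hc, hk⟩ := h
  obtain ⟨hc', hk'⟩ := h'
  funext r s
  refine ContinuousLinearMap.ext fun a => ?_
  rw [← sub_eq_zero]
  set D : ℝ → ℝ → Lam := fun r s => k r s a - k' r s a with hD
  have hDc : Continuous (fun p : ℝ × ℝ => D p.1 p.2) := by
    have h1 : Continuous (fun p : ℝ × ℝ => k p.1 p.2 a) := hc.clm_apply continuous_const
    have h2 : Continuous (fun p : ℝ × ℝ => k' p.1 p.2 a) := hc'.clm_apply continuous_const
    exact h1.sub h2
  have hint : ∀ (φ : ℝ → ℝ), ContDiff ℝ ∞ φ → HasCompactSupport φ → ∀ r, ∫ s, φ s • D r s = 0 := by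
    intro φ hφ hφc
    have hu : Continuous (fun s => φ s • a) := hφ.continuous.smul continuous_const
    have huc : HasCompactSupport (fun s => φ s • a) := hφc.smul_right
    have h1 := hk _ hu huc
    have h2 := hk' _ hu huc
    have h3 : (fun r => ∫ s, φ s • D r s) =ᵐ[volume] fun _ => 0 := by
      filter_upwards [h1, h2] with r hr1 hr2
      have e1 : ∫ s, k r s (φ s • a) = ∫ s, k' r s (φ s • a) := by rw [← hr1, ← hr2]
      have i1 : Integrable (fun s => k r s (φ s • a)) := by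
        have c1 : Continuous (fun s => k r s) := hc.comp (Continuous.prodMk_right r)
        refine (c1.clm_apply hu).integrable_of_hasCompactSupport ?_
        refine huc.mono fun s hs => ?_
        rw [Function.mem_support] at hs ⊢
        intro h0; apply hs; rw [h0, map_zero]
      have i2 : Integrable (fun s => k' r s (φ s • a)) := by
        have c1 : Continuous (fun s => k' r s) := hc'.comp (Continuous.prodMk_right r)
        refine (c1.clm_apply hu).integrable_of_hasCompactSupport ?_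
        refine huc.mono fun s hs => ?_
        rw [Function.mem_support] at hs ⊢
        intro h0; apply hs; rw [h0, map_zero]
      have e2 : ∀ s, φ s • D r s = k r s (φ s • a) - k' r s (φ s • a) := by
        intro s
        rw [hD]
        show φ s • (k r s a - k' r s a) = _
        rw [smul_sub, ContinuousLinearMap.map_smul_of_tower, ContinuousLinearMap.map_smul_of_tower]
      simp only [e2]
      rw [integral_sub i1 i2, e1, sub_self]
    have hcont : Continuous (fun r => ∫ s, φ s • D r s) := by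
      have h4 : ∀ r, ∫ s, φ s • D r s = ∫ s in tsupport φ, φ s • D r s := by
        intro r
        symm
        apply setIntegral_eq_integral_of_forall_compl_eq_zero
        intro s hs
        rw [image_eq_zero_of_notMem_tsupport hs, zero_smul]
      simp only [h4]
      refine continuous_parametric_integral_of_continuous ?_ hφc
      exact (hφ.continuous.comp continuous_snd).smul hDc
    have h5 := (Continuous.ae_eq_iff_eq volume hcont continuous_const).1 h3
    intro r
    exact congrFun h5 r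
  have hloc : LocallyIntegrable (fun s => D r s) :=
    (hDc.comp (Continuous.prodMk_right r)).locallyIntegrable
  have h6 := ae_eq_zero_of_integral_contDiff_smul_eq_zero hloc
    (fun φ hφ hφc => hint φ hφ hφc r)
  have h7 : (fun s => D r s) =ᵐ[volume] fun _ => 0 := h6
  have h8 := (Continuous.ae_eq_iff_eq volume (hDc.comp (Continuous.prodMk_right r))
    continuous_const).1 h7
  exact congrFun h8 s

lemma trL_nonneg {k : Lam →L[ℂ] Lam} (h : ∀ a, 0 ≤ RCLike.re ⟪a, k a⟫_ℂ) : 0 ≤ trL k := by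
  rw [trL_eq]
  exact Finset.sum_nonneg fun S _ => h _

section nonneg
variable {E' : Type*} [NormedAddCommGroup E'] [InnerProductSpace ℂ E'] [CompleteSpace E']
  (A : Lam →L[ℂ] E') (M : ℝ → Lam →L[ℂ] E') (hM : Continuous M)

lemma ker_nonneg_gen {K : Type*} [NormedAddCommGroup K] [InnerProductSpace ℂ K] [CompleteSpace K]
    (J : K →L[ℂ] Lp Lam 2 (volume : Measure ℝ)) (E : K →L[ℂ] Lam)
    (S : Lp Lam 2 (volume : Measure ℝ) →L[ℂ] Lp Lam 2 (volume : Measure ℝ)) (hS : adjoint S = S) :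
    0 ≤ trL (E ∘L (adjoint J ∘L (S ∘L S) ∘L J) ∘L adjoint E) := by
  apply trL_nonneg
  intro a
  have h1 : E ∘L (adjoint J ∘L (S ∘L S) ∘L J) ∘L adjoint E =
      (E ∘L adjoint J ∘L S) ∘L adjoint (E ∘L adjoint J ∘L S) := by
    rw [ContinuousLinearMap.adjoint_comp, ContinuousLinearMap.adjoint_comp, hS,
      ContinuousLinearMap.adjoint_adjoint]
    rfl
  rw [h1, ContinuousLinearMap.comp_apply, ← ContinuousLinearMap.adjoint_inner_left,
      inner_self_eq_norm_sq]
  positivity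

lemma ker_psd_gen {K : Type*} [NormedAddCommGroup K] [InnerProductSpace ℂ K] [CompleteSpace K]
    (J : K →L[ℂ] Lp Lam 2 (volume : Measure ℝ)) (E : K →L[ℂ] Lam)
    (S : Lp Lam 2 (volume : Measure ℝ) →L[ℂ] Lp Lam 2 (volume : Measure ℝ)) (hS : adjoint S = S)
    (a : Lam) : ∃ c : ℝ, 0 ≤ c ∧
      ⟪a, (E ∘L (adjoint J ∘L (S ∘L S) ∘L J) ∘L adjoint E) a⟫_ℂ = (c : ℂ) := by
  have h1 : E ∘L (adjoint J ∘L (S ∘L S) ∘L J) ∘L adjoint E =
      (E ∘L adjoint J ∘L S) ∘L adjoint (E ∘L adjoint J ∘L S) := by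
    rw [ContinuousLinearMap.adjoint_comp, ContinuousLinearMap.adjoint_comp, hS,
      ContinuousLinearMap.adjoint_adjoint]
    rfl
  refine ⟨‖adjoint (E ∘L adjoint J ∘L S) a‖ ^ 2, sq_nonneg _, ?_⟩
  rw [h1, ContinuousLinearMap.comp_apply, ← ContinuousLinearMap.adjoint_inner_left,
      inner_self_eq_norm_sq_to_K]
  simp

lemma leafKer_psd {f : ℝ → ℝ} (hf : Adm f) (h0 : ∀ x, 0 ≤ f x) (r : ℝ) (a : Lam) :
    ∃ c : ℝ, 0 ≤ c ∧ ⟪a, leafKer A M hM f r r a⟫_ℂ = (c : ℂ) := by
  have hf1 : Adm (fun x => Real.sqrt (f x) * (1 + x)) := hf.sqrt.mul (by fun_prop)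
  have hsa : adjoint (fcalc iL (lineOp A M hM) (fun x => Real.sqrt (f x) * (1 + x))) =
      fcalc iL (lineOp A M hM) (fun x => Real.sqrt (f x) * (1 + x)) := by
    have := fcalc_sa iL (lineOp A M hM) (fun x => Real.sqrt (f x) * (1 + x))
    rwa [ContinuousLinearMap.isSelfAdjoint_iff'] at this
  have h2 : fcalc iL (lineOp A M hM) (fun x => f x * (1 + x) * (1 + x)) =
      fcalc iL (lineOp A M hM) (fun x => Real.sqrt (f x) * (1 + x)) ∘L
      fcalc iL (lineOp A M hM) (fun x => Real.sqrt (f x) * (1 + x)) := by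
    rw [← fcalc_mul iL (lineOp A M hM) hf1 hf1]
    congr 1
    funext x
    have := Real.mul_self_sqrt (h0 x)
    calc f x * (1 + x) * (1 + x) = (Real.sqrt (f x) * Real.sqrt (f x)) * (1 + x) * (1 + x) := by
          rw [this]
      _ = _ := by ring
  have h3 := ker_psd_gen (projH iL (lineOp A M hM)) (ev (toGl iL (lineOp A M hM)) r)
    (fcalc iL (lineOp A M hM) (fun x => Real.sqrt (f x) * (1 + x))) hsa a
  rw [← h2] at h3
  exact h3

lemma leafKer_nonneg {f : ℝ → ℝ} (hf : Adm f) (h0 : ∀ x, 0 ≤ f x) (r : ℝ) :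
    0 ≤ trL (leafKer A M hM f r r) := by
  have hf1 : Adm (fun x => Real.sqrt (f x) * (1 + x)) := hf.sqrt.mul (by fun_prop)
  have hsa : adjoint (fcalc iL (lineOp A M hM) (fun x => Real.sqrt (f x) * (1 + x))) =
      fcalc iL (lineOp A M hM) (fun x => Real.sqrt (f x) * (1 + x)) := by
    have := fcalc_sa iL (lineOp A M hM) (fun x => Real.sqrt (f x) * (1 + x))
    rwa [ContinuousLinearMap.isSelfAdjoint_iff'] at this
  have h2 : fcalc iL (lineOp A M hM) (fun x => f x * (1 + x) * (1 + x)) =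
      fcalc iL (lineOp A M hM) (fun x => Real.sqrt (f x) * (1 + x)) ∘L
      fcalc iL (lineOp A M hM) (fun x => Real.sqrt (f x) * (1 + x)) := by
    rw [← fcalc_mul iL (lineOp A M hM) hf1 hf1]
    congr 1
    funext x
    have := Real.mul_self_sqrt (h0 x)
    calc f x * (1 + x) * (1 + x) = (Real.sqrt (f x) * Real.sqrt (f x)) * (1 + x) * (1 + x) := by
          rw [this]
      _ = _ := by ring
  have h3 := ker_nonneg_gen (projH iL (lineOp A M hM)) (ev (toGl iL (lineOp A M hM)) r)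
    (fcalc iL (lineOp A M hM) (fun x => Real.sqrt (f x) * (1 + x))) hsa
  rw [← h2] at h3
  exact h3

/-- the pointwise bound of the diagonal of the kernel -/
lemma leaf_bound {γ ξ η ε : ℝ} (hA : ∀ a, ‖A a‖ ≤ ‖a‖) (hε : 0 < ε) (hγ : γ ^ 2 ≤ ε)
    (hT : Coer A M hM ξ η (γ * η) (1 / 4) (5 * ε))
    {f : ℝ → ℝ} (hf : Adm f) (h0 : ∀ x, 0 ≤ f x)
    (h1 : ∀ x, f x ≤ 1) (hfε : ∀ x, ε ≤ x → f x = 0) :
    trL (leafKer A M hM f 0 0) ≤ (24 * cN (1 / 4) 5 24 ^ 2 * Real.sqrt ε * (1 + (ξ / Real.sqrt ε) ^ 2)⁻¹) *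
      (Icc (-(5 * Real.sqrt ε)) (5 * Real.sqrt ε)).indicator (fun _ => (1 : ℝ)) η := by
  have hsε : 0 < Real.sqrt ε := Real.sqrt_pos.2 hε
  by_cases hη : η ^ 2 ≤ 24 * ε
  · have hmem : η ∈ Icc (-(5 * Real.sqrt ε)) (5 * Real.sqrt ε) := by
      rw [mem_Icc, ← abs_le]
      have h2 : |η| ^ 2 ≤ (5 * Real.sqrt ε) ^ 2 := by
        rw [sq_abs, mul_pow, Real.sq_sqrt hε.le]; linarith
      exact (sq_le_sq₀ (abs_nonneg _) (by positivity)).1 h2
    rw [indicator_of_mem hmem, mul_one]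
    have hμ : (γ * η) ^ 2 ≤ 24 * ε ^ 2 := by
      rw [mul_pow]
      calc γ ^ 2 * η ^ 2 ≤ ε * (24 * ε) := by gcongr
        _ = 24 * ε ^ 2 := by ring
    have hE := ell_of_coer A M hM (show (0:ℝ) < 1 / 4 by norm_num)
      (show 0 ≤ 5 * ε by positivity) hT
    have h2 := leafKer_bound A M hM hA hε (show (0:ℝ) < 1 / 4 by norm_num)
      (show (0:ℝ) ≤ 5 by norm_num) (show (0:ℝ) ≤ 24 by norm_num) hμ hT
      (show 0 ≤ (1 + 5 * ε) / (1 / 4) by positivity) hE hf h0 h1 hfε
    refine h2.trans ?_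
    have h3 : 1 + (ξ / Real.sqrt ε) ^ 2 ≤ wa ξ η (γ * η) ε 0 := by
      unfold wa wV
      rw [div_pow, Real.sq_sqrt hε.le, zero_mul, sub_zero, add_div]
      have : 0 ≤ η ^ 2 / ε := by positivity
      linarith
    have h4 : 0 ≤ 3 * cN (1 / 4) 5 24 ^ 2 * Real.sqrt ε := by positivity
    calc 8 * (3 * cN (1 / 4) 5 24 ^ 2 * Real.sqrt ε / wa ξ η (γ * η) ε 0)
        ≤ 8 * (3 * cN (1 / 4) 5 24 ^ 2 * Real.sqrt ε / (1 + (ξ / Real.sqrt ε) ^ 2)) := by gcongr
      _ = _ := by ring
  · push Not at hη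
    have h2 := low_of_coer A M hM (show (0:ℝ) < 1 / 4 by norm_num) hT
      (show ε + 5 * ε ≤ 1 / 4 * η ^ 2 by linarith)
    have h3 := leafKer_zero A M hM hε.le hfε h2 0 0
    rw [h3]
    have h4 : trL 0 = 0 := by simp [trL]
    rw [h4]
    have h5 : 0 ≤ (Icc (-(5 * Real.sqrt ε)) (5 * Real.sqrt ε)).indicator (fun _ => (1 : ℝ)) η :=
      indicator_nonneg (fun _ _ => zero_le_one) _
    positivity

end nonneg

/-- the integral of the majorant over the conormal fibre -/
lemma lint_major {ε c : ℝ} (hε : 0 < ε) (hc : 0 ≤ c) :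
    ∫⁻ z : ℝ × ℝ, ENNReal.ofReal ((c * (1 + (z.1 / Real.sqrt ε) ^ 2)⁻¹) *
      (Icc (-(5 * Real.sqrt ε)) (5 * Real.sqrt ε)).indicator (fun _ => (1 : ℝ)) z.2) =
    ENNReal.ofReal (c * (10 * Real.pi * ε)) := by
  have hsε : 0 < Real.sqrt ε := Real.sqrt_pos.2 hε
  have h1 : ∀ z : ℝ × ℝ, ENNReal.ofReal ((c * (1 + (z.1 / Real.sqrt ε) ^ 2)⁻¹) *
      (Icc (-(5 * Real.sqrt ε)) (5 * Real.sqrt ε)).indicator (fun _ => (1 : ℝ)) z.2) =
      ENNReal.ofReal (c * (1 + (z.1 / Real.sqrt ε) ^ 2)⁻¹) *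
      (Icc (-(5 * Real.sqrt ε)) (5 * Real.sqrt ε)).indicator (fun _ => (1 : ℝ≥0∞)) z.2 := by
    intro z
    rw [ENNReal.ofReal_mul (by positivity)]
    congr 1
    by_cases hz : z.2 ∈ Icc (-(5 * Real.sqrt ε)) (5 * Real.sqrt ε)
    · rw [indicator_of_mem hz, indicator_of_mem hz, ENNReal.ofReal_one]
    · rw [indicator_of_notMem hz, indicator_of_notMem hz, ENNReal.ofReal_zero]
  simp only [h1]
  rw [Measure.volume_eq_prod, lintegral_prod_mul
    (f := fun x : ℝ => ENNReal.ofReal (c * (1 + (x / Real.sqrt ε) ^ 2)⁻¹))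
    (g := fun y : ℝ => (Icc (-(5 * Real.sqrt ε)) (5 * Real.sqrt ε)).indicator
      (fun _ => (1 : ℝ≥0∞)) y)]
  · rw [lintegral_indicator measurableSet_Icc, setLIntegral_one, Real.volume_Icc]
    have h2 : ∫⁻ x : ℝ, ENNReal.ofReal (c * (1 + (x / Real.sqrt ε) ^ 2)⁻¹) =
        ENNReal.ofReal (c * (Real.sqrt ε * Real.pi)) := by
      rw [← ofReal_integral_eq_lintegral_ofReal]
      · rw [integral_const_mul]
        have h3 : ∫ x : ℝ, (1 + (x / Real.sqrt ε) ^ 2)⁻¹ = Real.sqrt ε * Real.pi := by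
          have h4 := Measure.integral_comp_div (fun x : ℝ => (1 + x ^ 2)⁻¹) (Real.sqrt ε)
          rw [integral_univ_inv_one_add_sq, abs_of_pos hsε, smul_eq_mul] at h4
          exact h4
        rw [h3]
      · have h4 := (integrable_inv_one_add_sq.comp_div hsε.ne').const_mul c
        exact h4
      · exact Eventually.of_forall fun x => by positivity
    rw [h2, ← ENNReal.ofReal_mul (by positivity)]
    congr 1
    have := Real.mul_self_sqrt hε.le
    calc c * (Real.sqrt ε * Real.pi) * (5 * Real.sqrt ε - -(5 * Real.sqrt ε)) =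
        c * (10 * Real.pi * (Real.sqrt ε * Real.sqrt ε)) := by ring
      _ = _ := by rw [this]
  · exact (Measurable.ennreal_ofReal (by fun_prop)).aemeasurable
  · exact (measurable_const.indicator measurableSet_Icc).aemeasurable

end Pool.Agent.H772R2
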