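import Pool.Agent.H772R2.LeafTr
import Pool.Agent.H772R2.Cliff

set_option autoImplicit false
set_option linter.all false
open scoped InnerProductSpace ENNReal ComplexConjugate ContDiff Topology
open ContinuousLinearMap MeasureTheory Set Filter
noncomputable section
namespace Pool.Agent.H772R2

/-- the Hilbert space sum of three copies of `Lam` -/
abbrev Lam3 : Type := PiLp 2 (fun _ : Fin 3 => Lam)

/-- the map `a ↦ (A a, B a, C a)` -/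
def trip (A B C : Lam →L[ℂ] Lam) : Lam →L[ℂ] Lam3 :=
  ((PiLp.continuousLinearEquiv 2 ℂ (fun _ : Fin 3 => Lam)).symm : (Fin 3 → Lam) →L[ℂ] Lam3) ∘L
    ContinuousLinearMap.pi ![A, B, C]

lemma trip_apply (A B C : Lam →L[ℂ] Lam) (a : Lam) :
    trip A B C a = WithLp.toLp 2 ![A a, B a, C a] := by
  unfold trip
  ext i
  fin_cases i <;> rfl

lemma norm_trip_add_sq (A B C A' B' C' : Lam →L[ℂ] Lam) (a a' : Lam) :
    ‖trip A B C a + trip A' B' C' a'‖ ^ 2 =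
      ‖A a + A' a'‖ ^ 2 + ‖B a + B' a'‖ ^ 2 + ‖C a + C' a'‖ ^ 2 := by
  rw [PiLp.norm_sq_eq_of_L2, Fin.sum_univ_three]
  rfl

lemma norm_trip_sq (A B C : Lam →L[ℂ] Lam) (a : Lam) :
    ‖trip A B C a‖ ^ 2 = ‖A a‖ ^ 2 + ‖B a‖ ^ 2 + ‖C a‖ ^ 2 := by
  rw [PiLp.norm_sq_eq_of_L2, Fin.sum_univ_three]
  rfl

/-- The zeroth order part `B = γ ε₁ ι₂` of `d_F = ε₀ (X + B)`. -/
def Bz (γ : ℝ) : Lam →L[ℂ] Lam := (γ : ℂ) • (ext 1 ∘L int 2)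

/-- The adjoint `B† = γ ε₂ ι₁` of `Bz`. -/
def Bs (γ : ℝ) : Lam →L[ℂ] Lam := (γ : ℂ) • (ext 2 ∘L int 1)

lemma norm_Bz_le (γ : ℝ) (a : Lam) : ‖Bz γ a‖ ≤ |γ| * ‖a‖ := by
  show ‖(γ : ℂ) • ext 1 (int 2 a)‖ ≤ _
  rw [norm_smul, Complex.norm_real, Real.norm_eq_abs]
  have h1 := norm_ext_le 1 (int 2 a)
  have h2 := norm_int_le 2 a
  gcongr
  exact h1.trans h2

lemma norm_Bs_le (γ : ℝ) (a : Lam) : ‖Bs γ a‖ ≤ |γ| * ‖a‖ := by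
  show ‖(γ : ℂ) • ext 2 (int 1 a)‖ ≤ _
  rw [norm_smul, Complex.norm_real, Real.norm_eq_abs]
  have h1 := norm_ext_le 2 (int 1 a)
  have h2 := norm_int_le 1 a
  gcongr
  exact h1.trans h2

/-- the principal part of the leafwise operator `φ ↦ (d φ, d* φ, √g_N φ)` -/
def lapA : Lam →L[ℂ] Lam3 := trip (ext 0) (-(int 0)) 0

/-- the zeroth order part of the leafwise operator `φ ↦ (d φ, d* φ, √g_N φ)` -/
def lapM (γ ξ η : ℝ) (r : ℝ) : Lam →L[ℂ] Lam3 :=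
  trip (ext 0 ∘L Bz γ) (int 0 ∘L Bs γ)
    ((Real.sqrt ((ξ - r * (γ * η)) ^ 2 + η ^ 2) : ℂ) • ContinuousLinearMap.id ℂ Lam)

lemma cont_affine {F : Type*} [NormedAddCommGroup F] [NormedSpace ℂ F] (P Q : F) {s : ℝ → ℝ}
    (hs : Continuous s) : Continuous (fun r => P + ((s r : ℝ) : ℂ) • Q) := by
  fun_prop

lemma lapM_cont (γ ξ η : ℝ) : Continuous (lapM γ ξ η) := by
  have h1 : lapM γ ξ η = fun r => trip (ext 0 ∘L Bz γ) (int 0 ∘L Bs γ) 0 +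
      (Real.sqrt ((ξ - r * (γ * η)) ^ 2 + η ^ 2) : ℂ) •
        trip 0 0 (ContinuousLinearMap.id ℂ Lam) := by
    funext r
    refine ContinuousLinearMap.ext fun a => ?_
    rw [_root_.add_apply, _root_.smul_apply]
    unfold lapM
    rw [trip_apply, trip_apply, trip_apply]
    ext i
    fin_cases i <;> simp
  rw [h1]
  exact cont_affine _ _ (by fun_prop)

lemma lapA_norm (a : Lam) : ‖lapA a‖ ≤ ‖a‖ := by
  have h1 : ‖lapA a‖ ^ 2 = ‖a‖ ^ 2 := by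
    unfold lapA
    rw [norm_trip_sq, ← norm_ext_int 0 a]
    simp
  exact ((sq_eq_sq₀ (norm_nonneg _) (norm_nonneg _)).1 h1).le

lemma half_sq {E : Type*} [NormedAddCommGroup E] (x y : E) :
    ‖x‖ ^ 2 / 2 - ‖y‖ ^ 2 ≤ ‖x + y‖ ^ 2 := by
  have h1 : ‖x‖ ≤ ‖x + y‖ + ‖y‖ := by
    have := norm_sub_le (x + y) y
    rwa [add_sub_cancel_right] at this
  have h2 : ‖x‖ ^ 2 ≤ (‖x + y‖ + ‖y‖) ^ 2 := by gcongr
  nlinarith [sq_nonneg (‖x + y‖ - ‖y‖)]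

lemma lap_pointwise (γ ξ η r : ℝ) (a b : Lam) :
    ‖a‖ ^ 2 / 2 + wV ξ η (γ * η) r * ‖b‖ ^ 2 - 2 * γ ^ 2 * ‖b‖ ^ 2 ≤
      ‖lapA a + lapM γ ξ η r b‖ ^ 2 := by
  unfold lapA lapM
  rw [norm_trip_add_sq]
  have h1 := half_sq (ext 0 a) ((ext 0 ∘L Bz γ) b)
  have h2 := half_sq ((-(int 0)) a) ((int 0 ∘L Bs γ) b)
  have h3 : ‖(ext 0 ∘L Bz γ) b‖ ^ 2 ≤ γ ^ 2 * ‖b‖ ^ 2 := by
    have h4 := (norm_ext_le 0 (Bz γ b)).trans (norm_Bz_le γ b)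
    calc ‖(ext 0 ∘L Bz γ) b‖ ^ 2 ≤ (|γ| * ‖b‖) ^ 2 := by
          have := norm_nonneg (ext 0 (Bz γ b))
          exact pow_le_pow_left₀ this h4 2
      _ = γ ^ 2 * ‖b‖ ^ 2 := by rw [mul_pow, sq_abs]
  have h5 : ‖(int 0 ∘L Bs γ) b‖ ^ 2 ≤ γ ^ 2 * ‖b‖ ^ 2 := by
    have h4 := (norm_int_le 0 (Bs γ b)).trans (norm_Bs_le γ b)
    calc ‖(int 0 ∘L Bs γ) b‖ ^ 2 ≤ (|γ| * ‖b‖) ^ 2 := by
          have := norm_nonneg (int 0 (Bs γ b))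
          exact pow_le_pow_left₀ this h4 2
      _ = γ ^ 2 * ‖b‖ ^ 2 := by rw [mul_pow, sq_abs]
  have h6 := norm_ext_int 0 a
  have h7 : ‖(-(int 0)) a‖ ^ 2 = ‖int 0 a‖ ^ 2 := by
    rw [_root_.neg_apply, norm_neg]
  have h8 : ‖(0 : Lam →L[ℂ] Lam) a + ((Real.sqrt ((ξ - r * (γ * η)) ^ 2 + η ^ 2) : ℂ) •
      ContinuousLinearMap.id ℂ Lam) b‖ ^ 2 = wV ξ η (γ * η) r * ‖b‖ ^ 2 := by
    rw [_root_.zero_apply, zero_add, _root_.smul_apply, norm_smul, Complex.norm_real,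
      Real.norm_eq_abs, mul_pow, sq_abs, Real.sq_sqrt (by positivity)]
    rfl
  rw [h8]
  rw [h7] at h2
  linarith

lemma wV_int (φ : DL) (ξ η μ : ℝ) :
    Integrable (fun r => wV ξ η μ r * ‖(φ : ℝ → Lam) r‖ ^ 2) :=
  memLp_of_DL φ _ (by unfold wV; fun_prop)

lemma coer_of_pointwise {E' : Type*} [NormedAddCommGroup E'] [InnerProductSpace ℂ E']
    [CompleteSpace E'] (A : Lam →L[ℂ] E') (M : ℝ → Lam →L[ℂ] E') (hM : Continuous M)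
    {ξ η μ c0 b : ℝ}
    (h : ∀ r (x y : Lam), c0 * ‖x‖ ^ 2 + c0 * (wV ξ η μ r * ‖y‖ ^ 2) - b * ‖y‖ ^ 2 ≤
      ‖A x + M r y‖ ^ 2) : Coer A M hM ξ η μ c0 b := by
  intro φ
  rw [norm_iL_sq, norm_iL_sq, lineOp_norm_sq]
  have hi1 := integrable_normSq (dD φ)
  have hi2 := wV_int φ ξ η μ
  have hi3 := integrable_normSq φ
  have h1 : ∫ r, (c0 * ‖(dD φ : ℝ → Lam) r‖ ^ 2 + c0 * (wV ξ η μ r * ‖(φ : ℝ → Lam) r‖ ^ 2) -
      b * ‖(φ : ℝ → Lam) r‖ ^ 2) ≤ ∫ r, ‖lineT A M φ r‖ ^ 2 :=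
    integral_mono (((hi1.const_mul c0).add (hi2.const_mul c0)).sub (hi3.const_mul b))
      (lineT_int A hM φ) fun r => h r ((dD φ : ℝ → Lam) r) ((φ : ℝ → Lam) r)
  have hi12 : Integrable (fun r => c0 * ‖(dD φ : ℝ → Lam) r‖ ^ 2 +
    c0 * (wV ξ η μ r * ‖(φ : ℝ → Lam) r‖ ^ 2)) := (hi1.const_mul c0).add (hi2.const_mul c0)
  rw [integral_sub hi12 (hi3.const_mul b),
    integral_add (hi1.const_mul c0) (hi2.const_mul c0), integral_const_mul, integral_const_mul,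
    integral_const_mul] at h1
  linarith

lemma lap_coer {γ ε : ℝ} (hγ : γ ^ 2 ≤ ε) (ξ η : ℝ) :
    Coer lapA (lapM γ ξ η) (lapM_cont γ ξ η) ξ η (γ * η) (1 / 4) (5 * ε) := by
  apply coer_of_pointwise
  intro r x y
  have h1 := lap_pointwise γ ξ η r x y
  have h2 : 0 ≤ wV ξ η (γ * η) r * ‖y‖ ^ 2 := mul_nonneg (wV_nonneg _ _ _ _) (sq_nonneg _)
  have h3 : 0 ≤ ‖x‖ ^ 2 := sq_nonneg _
  have h4 : 0 ≤ ‖y‖ ^ 2 := sq_nonneg _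
  have h5 : γ ^ 2 * ‖y‖ ^ 2 ≤ ε * ‖y‖ ^ 2 := by gcongr
  have h6 : 0 ≤ ε * ‖y‖ ^ 2 := mul_nonneg ((sq_nonneg γ).trans hγ) h4
  nlinarith

end Pool.Agent.H772R2
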