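import Pool.Agent.H772R2.LeafOps

set_option autoImplicit false
set_option linter.all false
open scoped InnerProductSpace ENNReal ComplexConjugate ContDiff Topology
open ContinuousLinearMap MeasureTheory Set Filter
noncomputable section
namespace Pool.Agent.H772R2

/-- Clifford multiplication `i (ε(ν) - ι(ν))` by the covector `ν = x ω¹ + y ω²` -/
def sym (x y : ℝ) : Lam →L[ℂ] Lam :=
  Complex.I • ((x : ℂ) • cl 1 + (y : ℂ) • cl 2)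

lemma sym_apply (x y : ℝ) (a : Lam) :
    sym x y a = Complex.I • ((x : ℂ) • cl 1 a + (y : ℂ) • cl 2 a) := rfl

/-- the zeroth order part of the leafwise signature operator `d + d* + σ(D_H)` -/
def sigM (γ ξ η : ℝ) (r : ℝ) : Lam →L[ℂ] Lam :=
  (ext 0 ∘L Bz γ + int 0 ∘L Bs γ) + sym (ξ - r * (γ * η)) η

lemma sigM_cont (γ ξ η : ℝ) : Continuous (sigM γ ξ η) := by
  have h1 : sigM γ ξ η = fun r => ((ext 0 ∘L Bz γ + int 0 ∘L Bs γ) + Complex.I • (η : ℂ) • cl 2) +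
      ((ξ - r * (γ * η) : ℝ) : ℂ) • (Complex.I • cl 1) := by
    funext r
    unfold sigM sym
    rw [smul_add, smul_comm Complex.I]
    abel
  rw [h1]
  exact cont_affine _ _ (by fun_prop)

lemma re_cross_zero (a : Lam) : RCLike.re ⟪cl 1 a, cl 2 a⟫_ℂ = 0 := by
  have h1 := cl_adj 1 a (cl 2 a)
  have h2 := cl_adj 2 a (cl 1 a)
  have h3 := cl_anti 1 2 (by decide) a
  have h4 : RCLike.re ⟪cl 1 a, cl 2 a⟫_ℂ = RCLike.re ⟪cl 2 a, cl 1 a⟫_ℂ := inner_re_symm _ _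
  have h5 : ⟪cl 1 a, cl 2 a⟫_ℂ = - ⟪cl 2 a, cl 1 a⟫_ℂ := by
    rw [h1, h2, h3, inner_neg_right]
  rw [h5, map_neg] at h4
  have h6 : RCLike.re ⟪cl 1 a, cl 2 a⟫_ℂ = - RCLike.re ⟪cl 2 a, cl 1 a⟫_ℂ := by
    rw [h5, map_neg]
  linarith

lemma norm_sym (x y : ℝ) (a : Lam) : ‖sym x y a‖ ^ 2 = (x ^ 2 + y ^ 2) * ‖a‖ ^ 2 := by
  rw [sym_apply, norm_smul, Complex.norm_I, one_mul, @norm_add_sq ℂ, norm_smul, norm_smul,
    inner_smul_left, inner_smul_right, norm_cl, norm_cl, Complex.norm_real, Complex.norm_real,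
    Complex.conj_ofReal]
  have h1 : RCLike.re ((x : ℂ) * ((y : ℂ) * ⟪cl 1 a, cl 2 a⟫_ℂ)) = 0 := by
    have h2 : (x : ℂ) * ((y : ℂ) * ⟪cl 1 a, cl 2 a⟫_ℂ) = ((x * y : ℝ) : ℂ) * ⟪cl 1 a, cl 2 a⟫_ℂ := by
      push_cast; ring
    rw [h2]
    have h3 : RCLike.re (((x * y : ℝ) : ℂ) * ⟪cl 1 a, cl 2 a⟫_ℂ) =
      (x * y) * RCLike.re ⟪cl 1 a, cl 2 a⟫_ℂ := RCLike.re_ofReal_mul (K := ℂ) _ _
    rw [h3, re_cross_zero, mul_zero]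
  rw [h1, Real.norm_eq_abs, Real.norm_eq_abs, mul_pow, mul_pow, sq_abs, sq_abs]
  ring

/-- `c₀ σ` is Hermitian -/
lemma cl_sym_adj (x y : ℝ) (a b : Lam) : ⟪a, cl 0 (sym x y b)⟫_ℂ = ⟪cl 0 (sym x y a), b⟫_ℂ := by
  have h1 : ∀ j : Fin 3, 0 ≠ j → ⟪a, cl 0 (cl j b)⟫_ℂ = - ⟪cl 0 (cl j a), b⟫_ℂ := by
    intro j hj
    have e1 := cl_adj 0 a (cl j b)
    have e2 := cl_adj j (cl 0 a) b
    have e3 := cl_anti 0 j hj a
    rw [e3, inner_neg_left, e2, e1]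
    ring
  rw [sym_apply, sym_apply]
  simp only [map_smul, map_add, inner_smul_right, inner_smul_left, inner_add_right, inner_add_left,
    Complex.conj_I, Complex.conj_ofReal]
  rw [h1 1 (by decide), h1 2 (by decide)]
  ring

lemma cross_bound (ξ η μ : ℝ) (φ : DL) :
    Integrable (fun r => RCLike.re ⟪cl 0 ((dD φ : ℝ → Lam) r),
      sym (ξ - r * μ) η ((φ : ℝ → Lam) r)⟫_ℂ) ∧
    -(|μ| * ‖iL φ‖ ^ 2) ≤ 2 * ∫ r, RCLike.re ⟪cl 0 ((dD φ : ℝ → Lam) r),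
      sym (ξ - r * μ) η ((φ : ℝ → Lam) r)⟫_ℂ := by
  set G : ℝ → Lam := fun r => cl 0 (sym (ξ - r * μ) η ((φ : ℝ → Lam) r)) with hG
  set G1 : ℝ → Lam := fun r => cl 0 (sym (ξ - r * μ) η ((dD φ : ℝ → Lam) r)) with hG1
  set G2 : ℝ → Lam := fun r => cl 0 (sym (-μ) 0 ((φ : ℝ → Lam) r)) with hG2
  have hGd : ∀ r, HasDerivAt G (G1 r + G2 r) r := by
    intro r
    have h1 := hasDerivAt_DL φ r
    have h2 : HasDerivAt (fun r => cl 1 ((φ : ℝ → Lam) r)) (cl 1 ((dD φ : ℝ → Lam) r)) r :=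
      ((cl 1).restrictScalars ℝ).hasFDerivAt.comp_hasDerivAt r h1
    have h3 : HasDerivAt (fun r => cl 2 ((φ : ℝ → Lam) r)) (cl 2 ((dD φ : ℝ → Lam) r)) r :=
      ((cl 2).restrictScalars ℝ).hasFDerivAt.comp_hasDerivAt r h1
    have h4 : HasDerivAt (fun r : ℝ => ((ξ - r * μ : ℝ) : ℂ)) ((-μ : ℝ) : ℂ) r := by
      have h5 : HasDerivAt (fun r : ℝ => ξ - r * μ) (-μ) r := by
        simpa using ((hasDerivAt_id r).mul_const μ).const_sub ξ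
      exact h5.ofReal_comp
    have h6 := ((h4.smul h2).add (h3.const_smul (η : ℂ))).const_smul Complex.I
    have h7 := ((cl 0).restrictScalars ℝ).hasFDerivAt.comp_hasDerivAt r h6
    refine h7.congr_deriv ?_
    show cl 0 _ = cl 0 _ + cl 0 _
    rw [← map_add]
    congr 1
    rw [sym_apply, sym_apply, ← smul_add]
    congr 1
    simp only [Complex.ofReal_zero, zero_smul, add_zero]
    abel
  have hHd : ∀ r, HasDerivAt (fun r => ⟪(φ : ℝ → Lam) r, G r⟫_ℂ)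
      (⟪(φ : ℝ → Lam) r, G1 r + G2 r⟫_ℂ + ⟪(dD φ : ℝ → Lam) r, G r⟫_ℂ) r := fun r =>
    (hasDerivAt_DL φ r).inner ℂ (hGd r)
  have hφc := φ.2.1.continuous
  have hdc := (dD φ).2.1.continuous
  have hGc : Continuous G := by
    rw [continuous_iff_continuousAt]; exact fun r => (hGd r).continuousAt
  have hG2c : Continuous G2 := by
    rw [hG2]; fun_prop
  have hG1c : Continuous G1 := by
    have : G1 = fun r => cl 0 (Complex.I • (((ξ - r * μ : ℝ) : ℂ) • cl 1 ((dD φ : ℝ → Lam) r) +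
      (η : ℂ) • cl 2 ((dD φ : ℝ → Lam) r))) := rfl
    rw [this]; fun_prop
  have hsupp : ∀ (F : ℝ → ℂ), (∀ r, (φ : ℝ → Lam) r = 0 → (dD φ : ℝ → Lam) r = 0 → F r = 0) →
      HasCompactSupport F := by
    intro F hF
    refine HasCompactSupport.intro (K := tsupport (φ : ℝ → Lam)) φ.2.2 fun r hr => ?_
    have h1 : (φ : ℝ → Lam) r = 0 := image_eq_zero_of_notMem_tsupport hr
    have h2 : deriv (φ : ℝ → Lam) r = 0 := by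
      have : r ∉ tsupport (deriv (φ : ℝ → Lam)) := fun h => hr (tsupport_deriv_subset h)
      exact image_eq_zero_of_notMem_tsupport this
    exact hF r h1 h2
  have hi0 : Integrable (fun r => ⟪(φ : ℝ → Lam) r, G r⟫_ℂ) :=
    (hφc.inner hGc).integrable_of_hasCompactSupport (hsupp _ fun r h _ => by
      simp [h])
  have hi1 : Integrable (fun r => ⟪(φ : ℝ → Lam) r, G1 r⟫_ℂ) :=
    (hφc.inner hG1c).integrable_of_hasCompactSupport (hsupp _ fun r h _ => by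
      simp [h])
  have hi2 : Integrable (fun r => ⟪(φ : ℝ → Lam) r, G2 r⟫_ℂ) :=
    (hφc.inner hG2c).integrable_of_hasCompactSupport (hsupp _ fun r h _ => by
      simp [h])
  have hi3 : Integrable (fun r => ⟪(dD φ : ℝ → Lam) r, G r⟫_ℂ) :=
    (hdc.inner hGc).integrable_of_hasCompactSupport (hsupp _ fun r h h' => by
      simp [h'])
  have hcross : ∀ r, ⟪cl 0 ((dD φ : ℝ → Lam) r), sym (ξ - r * μ) η ((φ : ℝ → Lam) r)⟫_ℂ =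
      - ⟪(dD φ : ℝ → Lam) r, G r⟫_ℂ := fun r => cl_adj 0 _ _
  have hi4 : Integrable (fun r => RCLike.re ⟪cl 0 ((dD φ : ℝ → Lam) r),
      sym (ξ - r * μ) η ((φ : ℝ → Lam) r)⟫_ℂ) := by
    have h1 : Integrable (fun r => RCLike.re (- ⟪(dD φ : ℝ → Lam) r, G r⟫_ℂ)) := hi3.neg.re
    refine h1.congr (Eventually.of_forall fun r => ?_)
    show RCLike.re (- ⟪(dD φ : ℝ → Lam) r, G r⟫_ℂ) = _
    beta_reduce
    rw [hcross]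
  refine ⟨hi4, ?_⟩
  have hzero := integral_eq_zero_of_hasDerivAt_of_integrable hHd
    (by
      have : Integrable (fun r => (⟪(φ : ℝ → Lam) r, G1 r⟫_ℂ + ⟪(φ : ℝ → Lam) r, G2 r⟫_ℂ) +
        ⟪(dD φ : ℝ → Lam) r, G r⟫_ℂ) := (hi1.add hi2).add hi3
      refine this.congr (Eventually.of_forall fun r => ?_)
      beta_reduce
      rw [inner_add_right]) hi0
  have hre1 : ∀ r, RCLike.re ⟪(φ : ℝ → Lam) r, G1 r⟫_ℂ = RCLike.re ⟪(dD φ : ℝ → Lam) r, G r⟫_ℂ := by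
    intro r
    rw [hG1]
    show RCLike.re ⟪(φ : ℝ → Lam) r, cl 0 (sym (ξ - r * μ) η ((dD φ : ℝ → Lam) r))⟫_ℂ = _
    rw [cl_sym_adj, inner_re_symm]
  have hG2n : ∀ r, |RCLike.re ⟪(φ : ℝ → Lam) r, G2 r⟫_ℂ| ≤ |μ| * ‖(φ : ℝ → Lam) r‖ ^ 2 := by
    intro r
    have h1 : |RCLike.re ⟪(φ : ℝ → Lam) r, G2 r⟫_ℂ| ≤ ‖(φ : ℝ → Lam) r‖ * ‖G2 r‖ :=
      (RCLike.abs_re_le_norm _).trans (norm_inner_le_norm _ _)
    have h2 : ‖G2 r‖ = |μ| * ‖(φ : ℝ → Lam) r‖ := by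
      rw [hG2]
      show ‖cl 0 (sym (-μ) 0 ((φ : ℝ → Lam) r))‖ = _
      rw [norm_cl]
      have h3 := norm_sym (-μ) 0 ((φ : ℝ → Lam) r)
      have h4 : ‖sym (-μ) 0 ((φ : ℝ → Lam) r)‖ ^ 2 = (|μ| * ‖(φ : ℝ → Lam) r‖) ^ 2 := by
        rw [h3, mul_pow, sq_abs]; ring
      exact (sq_eq_sq₀ (norm_nonneg _) (by positivity)).1 h4
    rw [h2] at h1
    linarith
  -- real parts
  have h5 : ∫ r, RCLike.re (⟪(φ : ℝ → Lam) r, G1 r + G2 r⟫_ℂ + ⟪(dD φ : ℝ → Lam) r, G r⟫_ℂ) = 0 := by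
    have hI : Integrable (fun r => (⟪(φ : ℝ → Lam) r, G1 r + G2 r⟫_ℂ +
        ⟪(dD φ : ℝ → Lam) r, G r⟫_ℂ)) := by
      have : Integrable (fun r => (⟪(φ : ℝ → Lam) r, G1 r⟫_ℂ + ⟪(φ : ℝ → Lam) r, G2 r⟫_ℂ) +
        ⟪(dD φ : ℝ → Lam) r, G r⟫_ℂ) := (hi1.add hi2).add hi3
      refine this.congr (Eventually.of_forall fun r => ?_)
      beta_reduce
      rw [inner_add_right]
    have h6 := integral_re hI
    rw [hzero] at h6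
    rw [h6]
    simp
  have h6 : ∫ r, (2 * RCLike.re ⟪(dD φ : ℝ → Lam) r, G r⟫_ℂ +
      RCLike.re ⟪(φ : ℝ → Lam) r, G2 r⟫_ℂ) = 0 := by
    rw [← h5]
    refine integral_congr_ae (Eventually.of_forall fun r => ?_)
    show 2 * RCLike.re ⟪(dD φ : ℝ → Lam) r, G r⟫_ℂ + RCLike.re ⟪(φ : ℝ → Lam) r, G2 r⟫_ℂ =
      RCLike.re (⟪(φ : ℝ → Lam) r, G1 r + G2 r⟫_ℂ + ⟪(dD φ : ℝ → Lam) r, G r⟫_ℂ)
    rw [inner_add_right, map_add, map_add, hre1]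
    ring
  rw [integral_add (hi3.re.const_mul 2) hi2.re, integral_const_mul] at h6
  have h7 : ∫ r, RCLike.re ⟪(φ : ℝ → Lam) r, G2 r⟫_ℂ ≥ -(|μ| * ‖iL φ‖ ^ 2) := by
    rw [norm_iL_sq, ← integral_const_mul, ← integral_neg]
    refine integral_mono ((integrable_normSq φ).const_mul _).neg hi2.re fun r => ?_
    exact (abs_le.1 (hG2n r)).1
  have h8 : ∫ r, RCLike.re ⟪cl 0 ((dD φ : ℝ → Lam) r), sym (ξ - r * μ) η ((φ : ℝ → Lam) r)⟫_ℂ =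
      - ∫ r, RCLike.re ⟪(dD φ : ℝ → Lam) r, G r⟫_ℂ := by
    rw [← integral_neg]
    refine integral_congr_ae (Eventually.of_forall fun r => ?_)
    show RCLike.re ⟪cl 0 ((dD φ : ℝ → Lam) r), sym (ξ - r * μ) η ((φ : ℝ → Lam) r)⟫_ℂ = _
    rw [hcross, map_neg]
  rw [h8]
  linarith

lemma sig_coer {γ ε : ℝ} (hγ : γ ^ 2 ≤ ε) (ξ η : ℝ) :
    Coer (cl 0) (sigM γ ξ η) (sigM_cont γ ξ η) ξ η (γ * η) (1 / 4) (5 * ε) := by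
  intro φ
  obtain ⟨hi0, hcr⟩ := cross_bound ξ η (γ * η) φ
  have hi1 := integrable_normSq (dD φ)
  have hi2 := wV_int φ ξ η (γ * η)
  have hi3 := integrable_normSq φ
  have hpt : ∀ r, ‖(dD φ : ℝ → Lam) r‖ ^ 2 / 2 + wV ξ η (γ * η) r * ‖(φ : ℝ → Lam) r‖ ^ 2 / 2 +
      RCLike.re ⟪cl 0 ((dD φ : ℝ → Lam) r), sym (ξ - r * (γ * η)) η ((φ : ℝ → Lam) r)⟫_ℂ -
      4 * γ ^ 2 * ‖(φ : ℝ → Lam) r‖ ^ 2 ≤ ‖lineT (cl 0) (sigM γ ξ η) φ r‖ ^ 2 := by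
    intro r
    set a := (dD φ : ℝ → Lam) r with ha
    set b := (φ : ℝ → Lam) r with hb
    have e1 : lineT (cl 0) (sigM γ ξ η) φ r = (cl 0 a + sym (ξ - r * (γ * η)) η b) +
        (ext 0 (Bz γ b) + int 0 (Bs γ b)) := by
      show cl 0 a + ((ext 0 (Bz γ b) + int 0 (Bs γ b)) + sym (ξ - r * (γ * η)) η b) = _
      abel
    rw [e1]
    have h1 := half_sq (cl 0 a + sym (ξ - r * (γ * η)) η b) (ext 0 (Bz γ b) + int 0 (Bs γ b))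
    have h2 : ‖ext 0 (Bz γ b) + int 0 (Bs γ b)‖ ≤ 2 * (|γ| * ‖b‖) := by
      have h3 := (norm_ext_le 0 (Bz γ b)).trans (norm_Bz_le γ b)
      have h4 := (norm_int_le 0 (Bs γ b)).trans (norm_Bs_le γ b)
      have h5 := norm_add_le (ext 0 (Bz γ b)) (int 0 (Bs γ b))
      linarith
    have h3 : ‖ext 0 (Bz γ b) + int 0 (Bs γ b)‖ ^ 2 ≤ 4 * γ ^ 2 * ‖b‖ ^ 2 := by
      calc ‖ext 0 (Bz γ b) + int 0 (Bs γ b)‖ ^ 2 ≤ (2 * (|γ| * ‖b‖)) ^ 2 := by gcongr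
        _ = 4 * γ ^ 2 * ‖b‖ ^ 2 := by rw [mul_pow, mul_pow, sq_abs]; ring
    have h4 : ‖cl 0 a + sym (ξ - r * (γ * η)) η b‖ ^ 2 = ‖a‖ ^ 2 +
        2 * RCLike.re ⟪cl 0 a, sym (ξ - r * (γ * η)) η b⟫_ℂ + wV ξ η (γ * η) r * ‖b‖ ^ 2 := by
      rw [@norm_add_sq ℂ, norm_cl, norm_sym]
      rfl
    rw [h4] at h1
    linarith
  have h1 : ∫ r, (‖(dD φ : ℝ → Lam) r‖ ^ 2 / 2 +
      wV ξ η (γ * η) r * ‖(φ : ℝ → Lam) r‖ ^ 2 / 2 +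
      RCLike.re ⟪cl 0 ((dD φ : ℝ → Lam) r), sym (ξ - r * (γ * η)) η ((φ : ℝ → Lam) r)⟫_ℂ -
      4 * γ ^ 2 * ‖(φ : ℝ → Lam) r‖ ^ 2) ≤ ∫ r, ‖lineT (cl 0) (sigM γ ξ η) φ r‖ ^ 2 :=
    integral_mono ((((hi1.div_const 2).add (hi2.div_const 2)).add hi0).sub
    (hi3.const_mul (4 * γ ^ 2))) (lineT_int (cl 0) (sigM_cont γ ξ η) φ) hpt
  have hi12 : Integrable (fun r => ‖(dD φ : ℝ → Lam) r‖ ^ 2 / 2 +
    wV ξ η (γ * η) r * ‖(φ : ℝ → Lam) r‖ ^ 2 / 2) := (hi1.div_const 2).add (hi2.div_const 2)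
  have hi123 : Integrable (fun r => ‖(dD φ : ℝ → Lam) r‖ ^ 2 / 2 +
    wV ξ η (γ * η) r * ‖(φ : ℝ → Lam) r‖ ^ 2 / 2 +
    RCLike.re ⟪cl 0 ((dD φ : ℝ → Lam) r), sym (ξ - r * (γ * η)) η ((φ : ℝ → Lam) r)⟫_ℂ) :=
    hi12.add hi0
  rw [integral_sub hi123 (hi3.const_mul _), integral_add hi12 hi0,
    integral_add (hi1.div_const 2) (hi2.div_const 2), integral_div, integral_div,
    integral_const_mul, ← norm_iL_sq, ← norm_iL_sq, ← lineOp_norm_sq _ _ (sigM_cont γ ξ η)] at h1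
  have h2 : |γ * η| * ‖iL φ‖ ^ 2 ≤ γ ^ 2 / 2 * ‖iL φ‖ ^ 2 +
      (∫ r, wV ξ η (γ * η) r * ‖(φ : ℝ → Lam) r‖ ^ 2) / 2 := by
    have h3 : η ^ 2 * ‖iL φ‖ ^ 2 ≤ ∫ r, wV ξ η (γ * η) r * ‖(φ : ℝ → Lam) r‖ ^ 2 := by
      rw [norm_iL_sq, ← integral_const_mul]
      refine integral_mono (hi3.const_mul _) hi2 fun r => ?_
      show η ^ 2 * ‖(φ : ℝ → Lam) r‖ ^ 2 ≤ wV ξ η (γ * η) r * ‖(φ : ℝ → Lam) r‖ ^ 2
      have : η ^ 2 ≤ wV ξ η (γ * η) r := by unfold wV; nlinarith [sq_nonneg (ξ - r * (γ * η))]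
      gcongr
    have h4 : |γ * η| ≤ γ ^ 2 / 2 + η ^ 2 / 2 := by
      rw [abs_mul]
      nlinarith [sq_nonneg (|γ| - |η|), sq_abs γ, sq_abs η]
    have h5 : |γ * η| * ‖iL φ‖ ^ 2 ≤ (γ ^ 2 / 2 + η ^ 2 / 2) * ‖iL φ‖ ^ 2 := by gcongr
    linarith
  have h3 : γ ^ 2 * ‖iL φ‖ ^ 2 ≤ ε * ‖iL φ‖ ^ 2 := by gcongr
  have h4 : 0 ≤ ‖iL (dD φ)‖ ^ 2 := sq_nonneg _
  have h5 : 0 ≤ ε * ‖iL φ‖ ^ 2 := mul_nonneg ((sq_nonneg γ).trans hγ) (sq_nonneg _)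
  linarith

/-- coercivity implies ellipticity -/
lemma ell_of_coer {E' : Type*} [NormedAddCommGroup E'] [InnerProductSpace ℂ E']
    [CompleteSpace E'] (A : Lam →L[ℂ] E') (M : ℝ → Lam →L[ℂ] E') (hM : Continuous M)
    {ξ η μ c0 b : ℝ} (hc0 : 0 < c0) (hb : 0 ≤ b) (h : Coer A M hM ξ η μ c0 b) :
    Ell (toGl iL (lineOp A M hM)) ((1 + b) / c0) := by
  intro φ
  have h1 : ‖toGl iL (lineOp A M hM) φ‖ ^ 2 = ‖iL φ‖ ^ 2 + ‖lineOp A M hM φ‖ ^ 2 :=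
    norm_sq_eq iL (lineOp A M hM) (toGl iL (lineOp A M hM) φ)
  rw [h1]
  have h2 := h φ
  have h3 : 0 ≤ ∫ r, wV ξ η μ r * ‖(φ : ℝ → Lam) r‖ ^ 2 :=
    integral_nonneg fun r => mul_nonneg (wV_nonneg _ _ _ _) (sq_nonneg _)
  have h4 : 0 ≤ ‖lineOp A M hM φ‖ ^ 2 := sq_nonneg _
  have h5 : 0 ≤ ‖iL φ‖ ^ 2 := sq_nonneg _
  refine ⟨by linarith, ?_⟩
  rw [div_mul_eq_mul_div, le_div_iff₀ hc0]
  have h6 : 0 ≤ b * ‖lineOp A M hM φ‖ ^ 2 := mul_nonneg hb h4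
  have h7 : 0 ≤ c0 * ∫ r, wV ξ η μ r * ‖(φ : ℝ → Lam) r‖ ^ 2 := mul_nonneg hc0.le h3
  linarith

/-- lower bound of the leafwise operator by `η²` -/
lemma low_of_coer {E' : Type*} [NormedAddCommGroup E'] [InnerProductSpace ℂ E']
    [CompleteSpace E'] (A : Lam →L[ℂ] E') (M : ℝ → Lam →L[ℂ] E') (hM : Continuous M)
    {ξ η μ c0 b ε : ℝ} (hc0 : 0 < c0) (h : Coer A M hM ξ η μ c0 b) (hη : ε + b ≤ c0 * η ^ 2)
    (φ : DL) : ε * ‖iL φ‖ ^ 2 ≤ ‖lineOp A M hM φ‖ ^ 2 := by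
  have h2 := h φ
  have h3 : η ^ 2 * ‖iL φ‖ ^ 2 ≤ ∫ r, wV ξ η μ r * ‖(φ : ℝ → Lam) r‖ ^ 2 := by
    rw [norm_iL_sq, ← integral_const_mul]
    refine integral_mono ((integrable_normSq φ).const_mul _) (wV_int φ ξ η μ) fun r => ?_
    show η ^ 2 * ‖(φ : ℝ → Lam) r‖ ^ 2 ≤ wV ξ η μ r * ‖(φ : ℝ → Lam) r‖ ^ 2
    have : η ^ 2 ≤ wV ξ η μ r := by unfold wV; nlinarith [sq_nonneg (ξ - r * μ)]
    gcongr
  have h4 : 0 ≤ ‖iL (dD φ)‖ ^ 2 := sq_nonneg _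
  have h5 : (ε + b) * ‖iL φ‖ ^ 2 ≤ c0 * η ^ 2 * ‖iL φ‖ ^ 2 := by gcongr
  nlinarith

end Pool.Agent.H772R2
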