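import Pool.Agent.H772R2.LeafEst2

set_option autoImplicit false
set_option linter.all false
open scoped InnerProductSpace ENNReal ComplexConjugate ContDiff Topology
open ContinuousLinearMap MeasureTheory Set Filter
noncomputable section
namespace Pool.Agent.H772R2

section
variable {D H H' : Type*} [AddCommGroup D] [Module ℂ D]
  [NormedAddCommGroup H] [InnerProductSpace ℂ H] [CompleteSpace H]
  [NormedAddCommGroup H'] [InnerProductSpace ℂ H'] [CompleteSpace H']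

/-- The linear embedding of `D` into the closed graph. -/
def toGl (i : D →ₗ[ℂ] H) (T : D →ₗ[ℂ] H') : D →ₗ[ℂ] graphClosure i T :=
  (graphMap i T).codRestrict (graphClosure i T)
    (fun u => Submodule.le_topologicalClosure _ ⟨u, rfl⟩)

lemma denseRange_toGl (i : D →ₗ[ℂ] H) (T : D →ₗ[ℂ] H') : DenseRange (toGl i T) := by
  intro v
  refine (closure_subtype (X := WithLp 2 (H × H')) (x := v) (s := range (toGl i T))).2 ?_
  have h1 : (Subtype.val '' range (toGl i T) : Set (WithLp 2 (H × H'))) =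
      (LinearMap.range (graphMap i T) : Set (WithLp 2 (H × H'))) := by
    ext x
    constructor
    · rintro ⟨_, ⟨u, rfl⟩, rfl⟩
      exact ⟨u, rfl⟩
    · rintro ⟨u, rfl⟩
      exact ⟨toGl i T u, ⟨u, rfl⟩, rfl⟩
  rw [h1]
  exact v.2

lemma spectral_vec' (i : D →ₗ[ℂ] H) (T : D →ₗ[ℂ] H') {f : ℝ → ℝ} (hf : Adm f) (h0 : ∀ x, 0 ≤ f x)
    (h1 : ∀ x, f x ≤ 1) {ε : ℝ} (hε : 0 ≤ ε) (hfε : ∀ x, ε ≤ x → f x = 0) (w : H) (hw : ‖w‖ ≤ 1) :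
    ∃ z : H, ‖projH i T (adjoint (projH i T)
        (fcalc i T (fun x => Real.sqrt (f x) * (1 + x)) w))‖ ≤ 1 ∧ ‖z‖ ≤ ε ∧
      ∀ v', ⟪adjoint (projH i T) (fcalc i T (fun x => Real.sqrt (f x) * (1 + x)) w), v'⟫_ℂ =
        ⟪projH i T (adjoint (projH i T)
          (fcalc i T (fun x => Real.sqrt (f x) * (1 + x)) w)) + z, projH i T v'⟫_ℂ := by
  obtain ⟨v, z, hv1, hv2, hv3, hv4⟩ := spectral_vec i T hf h0 h1 hε hfε w
  rw [← hv1]
  exact ⟨z, hv2.trans hw, hv3.trans (mul_le_of_le_one_right hε hw), hv4⟩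

lemma projH_toGl (i : D →ₗ[ℂ] H) (T : D →ₗ[ℂ] H') (u : D) : projH i T (toGl i T u) = i u := rfl

lemma inner_toGl (i : D →ₗ[ℂ] H) (T : D →ₗ[ℂ] H') (u v : D) :
    ⟪toGl i T u, toGl i T v⟫_ℂ = ⟪i u, i v⟫_ℂ + ⟪T u, T v⟫_ℂ :=
  inner_eq i T (toGl i T u) (toGl i T v)

end

section ker
variable {E' : Type*} [NormedAddCommGroup E'] [InnerProductSpace ℂ E'] [CompleteSpace E']
  (A : Lam →L[ℂ] E') (M : ℝ → Lam →L[ℂ] E') (hM : Continuous M)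

/-- The Schwartz kernel of `f` of the leafwise operator. -/
def leafKer (f : ℝ → ℝ) (r r' : ℝ) : Lam →L[ℂ] Lam :=
  ev (toGl iL (lineOp A M hM)) r ∘L midB iL (lineOp A M hM) f ∘L
    adjoint (ev (toGl iL (lineOp A M hM)) r')

lemma hasContKernel_leaf {c : ℝ} (hc : 0 ≤ c) (hE : Ell (toGl iL (lineOp A M hM)) c) {f : ℝ → ℝ}
    (hf : Adm f) : HasContKernel (fcalc iL (lineOp A M hM) f) (leafKer A M hM f) := by
  rw [fcalc_factor iL (lineOp A M hM) hf]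
  exact hasContKernel_gen (projH iL (lineOp A M hM)) (denseRange_toGl _ _)
    (fun φ => projH_toGl _ _ φ) hc hE _

/-- positivity and upper bound for the kernel on the diagonal, abstract form -/
lemma ker_form {K H : Type*} [NormedAddCommGroup K] [InnerProductSpace ℂ K] [CompleteSpace K]
    [NormedAddCommGroup H] [InnerProductSpace ℂ H] [CompleteSpace H]
    (E : K →L[ℂ] Lam) (J : K →L[ℂ] H) (S : H →L[ℂ] H) (hS : adjoint S = S) {c : ℝ} (hc : 0 ≤ c)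
    (hb : ∀ w : H, ‖w‖ ≤ 1 → ‖E (adjoint J (S w))‖ ^ 2 ≤ c) (a : Lam) :
    0 ≤ RCLike.re ⟪a, (E ∘L (adjoint J ∘L (S ∘L S) ∘L J) ∘L adjoint E) a⟫_ℂ ∧
    RCLike.re ⟪a, (E ∘L (adjoint J ∘L (S ∘L S) ∘L J) ∘L adjoint E) a⟫_ℂ ≤ c * ‖a‖ ^ 2 := by
  set L : H →L[ℂ] Lam := E ∘L adjoint J ∘L S with hL
  have h1 : E ∘L (adjoint J ∘L (S ∘L S) ∘L J) ∘L adjoint E = L ∘L adjoint L := by
    rw [hL, ContinuousLinearMap.adjoint_comp, ContinuousLinearMap.adjoint_comp, hS,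
      ContinuousLinearMap.adjoint_adjoint]
    rfl
  have h2 : RCLike.re ⟪a, (L ∘L adjoint L) a⟫_ℂ = ‖adjoint L a‖ ^ 2 := by
    rw [ContinuousLinearMap.comp_apply, ← ContinuousLinearMap.adjoint_inner_left,
      inner_self_eq_norm_sq]
  rw [h1, h2]
  refine ⟨sq_nonneg _, ?_⟩
  have hLn : ‖L‖ ≤ Real.sqrt c := by
    refine ContinuousLinearMap.opNorm_le_bound _ (Real.sqrt_nonneg _) fun w => ?_
    rcases eq_or_ne w 0 with rfl | hw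
    · simp
    · have hwn : 0 < ‖w‖ := norm_pos_iff.2 hw
      have h3 : ‖((‖w‖⁻¹ : ℝ) : ℂ) • w‖ ≤ 1 := by
        rw [norm_smul, Complex.norm_real, norm_inv, norm_norm, inv_mul_cancel₀ hwn.ne']
      have h4 := hb _ h3
      have h5 : E (adjoint J (S (((‖w‖⁻¹ : ℝ) : ℂ) • w))) = ((‖w‖⁻¹ : ℝ) : ℂ) • L w := by
        rw [map_smul, map_smul, map_smul]; rfl
      rw [h5, norm_smul, Complex.norm_real, norm_inv, norm_norm, mul_pow] at h4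
      have h6 : ‖L w‖ ^ 2 ≤ c * ‖w‖ ^ 2 := by
        have h7 := mul_le_mul_of_nonneg_right h4 (sq_nonneg ‖w‖)
        have h8 : ‖w‖⁻¹ ^ 2 * ‖L w‖ ^ 2 * ‖w‖ ^ 2 = ‖L w‖ ^ 2 := by
          field_simp
        linarith
      rw [← Real.sqrt_sq (norm_nonneg (L w)), ← Real.sqrt_sq (norm_nonneg w), ← Real.sqrt_mul hc]
      exact Real.sqrt_le_sqrt h6
  have h9 : ‖adjoint L a‖ ≤ Real.sqrt c * ‖a‖ := by
    refine ((adjoint L).le_opNorm a).trans ?_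
    have : ‖adjoint L‖ = ‖L‖ := LinearIsometryEquiv.norm_map _ _
    rw [this]
    gcongr
  calc ‖adjoint L a‖ ^ 2 ≤ (Real.sqrt c * ‖a‖) ^ 2 := by gcongr
    _ = c * ‖a‖ ^ 2 := by rw [mul_pow, Real.sq_sqrt hc]

/-- the pointwise trace -/
def trL (k : Lam →L[ℂ] Lam) : ℝ := RCLike.re (LinearMap.trace ℂ Lam (k : Lam →ₗ[ℂ] Lam))

lemma trL_eq (k : Lam →L[ℂ] Lam) :
    trL k = ∑ S : Finset (Fin 3), RCLike.re ⟪EuclideanSpace.basisFun (Finset (Fin 3)) ℂ S,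
      k (EuclideanSpace.basisFun (Finset (Fin 3)) ℂ S)⟫_ℂ := by
  unfold trL
  rw [LinearMap.trace_eq_sum_inner _ (EuclideanSpace.basisFun (Finset (Fin 3)) ℂ), map_sum]
  rfl

lemma trL_le {k : Lam →L[ℂ] Lam} {c : ℝ} (h : ∀ a, RCLike.re ⟪a, k a⟫_ℂ ≤ c * ‖a‖ ^ 2) :
    trL k ≤ 8 * c := by
  rw [trL_eq]
  calc _ ≤ ∑ S : Finset (Fin 3), c := by
        refine Finset.sum_le_sum fun S _ => ?_
        refine (h _).trans ?_
        simp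
    _ = 8 * c := by
        rw [Finset.sum_const, Finset.card_univ]
        simp

lemma leafKer_zero {f : ℝ → ℝ} {ε : ℝ} (hε : 0 ≤ ε) (hfε : ∀ x, ε ≤ x → f x = 0)
    (hT : ∀ φ : DL, ε * ‖iL φ‖ ^ 2 ≤ ‖lineOp A M hM φ‖ ^ 2) (r r' : ℝ) :
    leafKer A M hM f r r' = 0 := by
  have h1 : fcalc iL (lineOp A M hM) (fun x => f x * (1 + x) * (1 + x)) = 0 :=
    fcalc_eq_zero iL (lineOp A M hM) hε (fun x hx => by rw [hfε x hx]; ring) hT
  unfold leafKer midB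
  rw [h1]
  ext v
  simp

lemma ker_bound_gen {K : Type*} [NormedAddCommGroup K] [InnerProductSpace ℂ K] [CompleteSpace K]
    (J : K →L[ℂ] Lp Lam 2 (volume : Measure ℝ)) (e : DL →ₗ[ℂ] K) (he : DenseRange e)
    (hJ : ∀ φ, J (e φ) = iL φ) (hJ1 : ‖J‖ ≤ 1) (hA : ∀ a, ‖A a‖ ≤ ‖a‖)
    (hK : ∀ φ ψ, ⟪e φ, e ψ⟫_ℂ = ⟪iL φ, iL ψ⟫_ℂ +
      ⟪lineOp A M hM φ, lineOp A M hM ψ⟫_ℂ)
    {ξ η μ ε c0 C0 C1 : ℝ} (hε : 0 < ε) (hc0 : 0 < c0) (hC0 : 0 ≤ C0)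
    (hC1 : 0 ≤ C1) (hμ : μ ^ 2 ≤ C1 * ε ^ 2) (hT : Coer A M hM ξ η μ c0 (C0 * ε))
    {c : ℝ} (hc : 0 ≤ c) (hE : Ell e c)
    (S : Lp Lam 2 (volume : Measure ℝ) →L[ℂ] Lp Lam 2 (volume : Measure ℝ)) (hS : adjoint S = S)
    (hSv : ∀ w, ‖w‖ ≤ 1 → ∃ z, ‖J (adjoint J (S w))‖ ≤ 1 ∧ ‖z‖ ≤ ε ∧
      ∀ v', ⟪adjoint J (S w), v'⟫_ℂ = ⟪J (adjoint J (S w)) + z, J v'⟫_ℂ) :
    trL (ev e 0 ∘L (adjoint J ∘L (S ∘L S) ∘L J) ∘L adjoint (ev e 0)) ≤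
      8 * (3 * cN c0 C0 C1 ^ 2 * Real.sqrt ε / wa ξ η μ ε 0) := by
  have ha := wa_ge ξ η μ hε 0
  apply trL_le
  intro a
  refine (ker_form (ev e 0) J S hS (by positivity) ?_ a).2
  intro w hw
  obtain ⟨z, hw', hz', hv4⟩ := hSv w hw
  have h4 := weighted_gen J e he hJ hJ1 A hA M hM hK hε hc0 hC0 hC1 hμ hT hc hE _ z hw' hz' hv4
  rw [le_div_iff₀ (by positivity), mul_comm]
  exact h4

lemma leafKer_bound (hA : ∀ a, ‖A a‖ ≤ ‖a‖) {ξ η μ ε c0 C0 C1 : ℝ} (hε : 0 < ε) (hc0 : 0 < c0)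
    (hC0 : 0 ≤ C0) (hC1 : 0 ≤ C1) (hμ : μ ^ 2 ≤ C1 * ε ^ 2)
    (hT : Coer A M hM ξ η μ c0 (C0 * ε))
    {c : ℝ} (hc : 0 ≤ c) (hE : Ell (toGl iL (lineOp A M hM)) c)
    {f : ℝ → ℝ} (hf : Adm f) (h0 : ∀ x, 0 ≤ f x)
    (h1 : ∀ x, f x ≤ 1) (hfε : ∀ x, ε ≤ x → f x = 0) :
    trL (leafKer A M hM f 0 0) ≤
      8 * (3 * cN c0 C0 C1 ^ 2 * Real.sqrt ε / wa ξ η μ ε 0) := by
  have hf1 : Adm (fun x => Real.sqrt (f x) * (1 + x)) := hf.sqrt.mul (by fun_prop)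
  have hsa : adjoint (fcalc iL (lineOp A M hM) (fun x => Real.sqrt (f x) * (1 + x))) =
      fcalc iL (lineOp A M hM) (fun x => Real.sqrt (f x) * (1 + x)) := by
    have := fcalc_sa iL (lineOp A M hM) (fun x => Real.sqrt (f x) * (1 + x))
    rwa [ContinuousLinearMap.isSelfAdjoint_iff'] at this
  have h2 : fcalc iL (lineOp A M hM) (fun x => f x * (1 + x) * (1 + x)) =
      fcalc iL (lineOp A M hM) (fun x => Real.sqrt (f x) * (1 + x)) ∘L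
      fcalc iL (lineOp A M hM) (fun x => Real.sqrt (f x) * (1 + x)) := by
    rw [← fcalc_mul iL (lineOp A M hM) hf1 hf1]
    congr 1
    funext x
    have := Real.mul_self_sqrt (h0 x)
    calc f x * (1 + x) * (1 + x) = (Real.sqrt (f x) * Real.sqrt (f x)) * (1 + x) * (1 + x) := by
          rw [this]
      _ = _ := by ring
  have h3 := ker_bound_gen A M hM (projH iL (lineOp A M hM)) (toGl iL (lineOp A M hM))
    (denseRange_toGl _ _) (fun φ => projH_toGl _ _ φ) (projH_norm_le _ _) hA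
    (fun φ ψ => inner_toGl iL (lineOp A M hM) φ ψ) hε hc0 hC0 hC1 hμ hT hc hE
    (fcalc iL (lineOp A M hM) (fun x => Real.sqrt (f x) * (1 + x))) hsa
    (spectral_vec' iL (lineOp A M hM) hf h0 h1 hε.le hfε)
  rw [← h2] at h3
  exact h3

end ker

end Pool.Agent.H772R2
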