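import Pool.Agent.H772R2.LeafEv

set_option autoImplicit false
set_option linter.all false
open scoped InnerProductSpace ENNReal ComplexConjugate ContDiff Topology
open ContinuousLinearMap MeasureTheory Set Filter
noncomputable section
namespace Pool.Agent.H772R2

section lineOp
variable {E' : Type*} [NormedAddCommGroup E'] [InnerProductSpace ℂ E'] [CompleteSpace E']

/-- The first-order operator `φ ↦ A φ' + M φ` on test functions of the line. -/
def lineT (A : Lam →L[ℂ] E') (M : ℝ → Lam →L[ℂ] E') (φ : ℝ → Lam) (r : ℝ) : E' :=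
  A (deriv φ r) + M r (φ r)

lemma lineT_cont (A : Lam →L[ℂ] E') {M : ℝ → Lam →L[ℂ] E'} (hM : Continuous M) (φ : DL) :
    Continuous (lineT A M φ) :=
  (A.continuous.comp (dD φ).2.1.continuous).add (hM.clm_apply φ.2.1.continuous)

lemma lineT_supp (A : Lam →L[ℂ] E') (M : ℝ → Lam →L[ℂ] E') (φ : DL) :
    HasCompactSupport (lineT A M φ) := by
  refine HasCompactSupport.intro (K := tsupport (φ : ℝ → Lam)) φ.2.2 fun r hr => ?_
  have h1 : (φ : ℝ → Lam) r = 0 := image_eq_zero_of_notMem_tsupport hr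
  have h2 : deriv (φ : ℝ → Lam) r = 0 := by
    have : r ∉ tsupport (deriv (φ : ℝ → Lam)) := fun h => hr (tsupport_deriv_subset h)
    exact image_eq_zero_of_notMem_tsupport this
  rw [lineT, h1, h2, map_zero, map_zero, add_zero]

lemma lineT_memLp (A : Lam →L[ℂ] E') {M : ℝ → Lam →L[ℂ] E'} (hM : Continuous M) (φ : DL) :
    MemLp (lineT A M φ) 2 volume :=
  (lineT_cont A hM φ).memLp_of_hasCompactSupport (lineT_supp A M φ)

/-- The operator `φ ↦ A φ' + M φ` from the test functions of the line to `L²(ℝ; E')`. -/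
def lineOp (A : Lam →L[ℂ] E') (M : ℝ → Lam →L[ℂ] E') (hM : Continuous M) :
    DL →ₗ[ℂ] Lp E' 2 (volume : Measure ℝ) where
  toFun φ := (lineT_memLp A hM φ).toLp _
  map_add' φ ψ := by
    rw [← MemLp.toLp_add]
    congr 1
    funext r
    have h1 : deriv ((φ + ψ : DL) : ℝ → Lam) r = deriv (φ : ℝ → Lam) r + deriv (ψ : ℝ → Lam) r :=
      deriv_add (φ.2.1.differentiable (by simp)).differentiableAt
        (ψ.2.1.differentiable (by simp)).differentiableAt
    show A (deriv ((φ + ψ : DL) : ℝ → Lam) r) + M r ((φ : ℝ → Lam) r + (ψ : ℝ → Lam) r) =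
      (A (deriv (φ : ℝ → Lam) r) + M r ((φ : ℝ → Lam) r)) +
      (A (deriv (ψ : ℝ → Lam) r) + M r ((ψ : ℝ → Lam) r))
    rw [h1, map_add, map_add]
    abel
  map_smul' c φ := by
    rw [← MemLp.toLp_const_smul]
    congr 1
    funext r
    have h1 : deriv ((c • φ : DL) : ℝ → Lam) r = c • deriv (φ : ℝ → Lam) r :=
      deriv_const_smul c (φ.2.1.differentiable (by simp)).differentiableAt
    show A (deriv ((c • φ : DL) : ℝ → Lam) r) + M r (c • (φ : ℝ → Lam) r) =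
      c • (A (deriv (φ : ℝ → Lam) r) + M r ((φ : ℝ → Lam) r))
    rw [h1, map_smul, map_smul, smul_add]

lemma lineOp_inner (A : Lam →L[ℂ] E') (M : ℝ → Lam →L[ℂ] E') (hM : Continuous M) (φ ψ : DL) :
    ⟪lineOp A M hM φ, lineOp A M hM ψ⟫_ℂ = ∫ r, ⟪lineT A M φ r, lineT A M ψ r⟫_ℂ := by
  rw [L2.inner_def]
  refine integral_congr_ae ?_
  filter_upwards [(lineT_memLp A hM φ).coeFn_toLp, (lineT_memLp A hM ψ).coeFn_toLp] with r h1 h2
  have e1 : (lineOp A M hM φ : ℝ → E') r = lineT A M φ r := h1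
  have e2 : (lineOp A M hM ψ : ℝ → E') r = lineT A M ψ r := h2
  rw [e1, e2]

lemma lineOp_norm_sq (A : Lam →L[ℂ] E') (M : ℝ → Lam →L[ℂ] E') (hM : Continuous M) (φ : DL) :
    ‖lineOp A M hM φ‖ ^ 2 = ∫ r, ‖lineT A M φ r‖ ^ 2 := by
  have h1 : ⟪lineOp A M hM φ, lineOp A M hM φ⟫_ℂ = ((‖lineOp A M hM φ‖ ^ 2 : ℝ) : ℂ) := by
    rw [inner_self_eq_norm_sq_to_K]; push_cast; rfl
  rw [lineOp_inner] at h1
  have h2 : ∀ r, ⟪lineT A M φ r, lineT A M φ r⟫_ℂ = ((‖lineT A M φ r‖ ^ 2 : ℝ) : ℂ) := by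
    intro r
    rw [inner_self_eq_norm_sq_to_K]; push_cast; rfl
  simp only [h2] at h1
  rw [integral_complex_ofReal] at h1
  exact_mod_cast h1.symm

lemma lineT_int (A : Lam →L[ℂ] E') {M : ℝ → Lam →L[ℂ] E'} (hM : Continuous M) (φ : DL) :
    Integrable (fun r => ‖lineT A M φ r‖ ^ 2) := by
  have h1 : Continuous (fun r => ‖lineT A M φ r‖ ^ 2) := (lineT_cont A hM φ).norm.pow 2
  have h2 : HasCompactSupport (fun r => ‖lineT A M φ r‖ ^ 2) := by
    refine (lineT_supp A M φ).mono fun r hr => ?_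
    rw [Function.mem_support] at hr ⊢
    intro h0
    apply hr
    show ‖lineT A M φ r‖ ^ 2 = 0
    rw [h0]; simp
  exact h1.integrable_of_hasCompactSupport h2

lemma iL_inner (φ ψ : DL) : ⟪iL φ, iL ψ⟫_ℂ = ∫ r, ⟪(φ : ℝ → Lam) r, (ψ : ℝ → Lam) r⟫_ℂ := by
  rw [L2.inner_def]
  refine integral_congr_ae ?_
  filter_upwards [(DL.memLp φ).coeFn_toLp, (DL.memLp ψ).coeFn_toLp] with r h1 h2
  have e1 : (iL φ : ℝ → Lam) r = (φ : ℝ → Lam) r := h1
  have e2 : (iL ψ : ℝ → Lam) r = (ψ : ℝ → Lam) r := h2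
  rw [e1, e2]

/-- multiplication of a test function by a smooth real function -/
def mulD (χ : ℝ → ℝ) (hχ : ContDiff ℝ ∞ χ) (φ : DL) : DL :=
  ⟨fun r => χ r • (φ : ℝ → Lam) r, hχ.smul φ.2.1, φ.2.2.smul_left (f := χ)⟩

lemma mulD_apply (χ : ℝ → ℝ) (hχ : ContDiff ℝ ∞ χ) (φ : DL) (r : ℝ) :
    (mulD χ hχ φ : ℝ → Lam) r = χ r • (φ : ℝ → Lam) r := rfl

lemma deriv_mulD (χ : ℝ → ℝ) (hχ : ContDiff ℝ ∞ χ) (φ : DL) (r : ℝ) :
    deriv (mulD χ hχ φ : ℝ → Lam) r =
      χ r • deriv (φ : ℝ → Lam) r + deriv χ r • (φ : ℝ → Lam) r :=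
  deriv_smul (hχ.differentiable (by simp)).differentiableAt
    (φ.2.1.differentiable (by simp)).differentiableAt

lemma lineT_mulD (A : Lam →L[ℂ] E') (M : ℝ → Lam →L[ℂ] E') (χ : ℝ → ℝ) (hχ : ContDiff ℝ ∞ χ)
    (φ : DL) (r : ℝ) : lineT A M (mulD χ hχ φ) r =
      χ r • lineT A M φ r + deriv χ r • A ((φ : ℝ → Lam) r) := by
  rw [lineT, deriv_mulD, mulD_apply, lineT]
  rw [map_add, ContinuousLinearMap.map_smul_of_tower, ContinuousLinearMap.map_smul_of_tower,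
    ContinuousLinearMap.map_smul_of_tower, smul_add]
  abel

/-- pointwise localisation identity -/
lemma ims (A : Lam →L[ℂ] E') (M : ℝ → Lam →L[ℂ] E') (om q : ℝ → ℝ) (hom : ContDiff ℝ ∞ om)
    (hq : ContDiff ℝ ∞ q) (hqom : ∀ r, q r = om r ^ 2) (φ : DL) (r : ℝ) :
    RCLike.re ⟪lineT A M φ r, lineT A M (mulD q hq φ) r⟫_ℂ =
      ‖lineT A M (mulD om hom φ) r‖ ^ 2 - deriv om r ^ 2 * ‖A ((φ : ℝ → Lam) r)‖ ^ 2 := by
  have hd : deriv q r = 2 * om r * deriv om r := by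
    have : q = om ^ 2 := funext hqom
    rw [this]
    have h1 := ((hom.differentiable (by simp)).differentiableAt (x := r)).hasDerivAt.pow 2
    rw [h1.deriv]; push_cast; ring
  rw [lineT_mulD, lineT_mulD, hd, hqom]
  set x := lineT A M φ r
  set y := A ((φ : ℝ → Lam) r)
  rw [@norm_add_sq ℂ, inner_add_right]
  rw [RCLike.real_smul_eq_coe_smul (K := ℂ) (om r ^ 2) x,
    RCLike.real_smul_eq_coe_smul (K := ℂ) (2 * om r * deriv om r) y,
    RCLike.real_smul_eq_coe_smul (K := ℂ) (om r) x,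
    RCLike.real_smul_eq_coe_smul (K := ℂ) (deriv om r) y]
  rw [inner_smul_right, inner_smul_right, inner_smul_right, inner_smul_left, map_add,
    RCLike.re_ofReal_mul, RCLike.re_ofReal_mul, RCLike.conj_ofReal, RCLike.re_ofReal_mul,
    RCLike.re_ofReal_mul, norm_smul, norm_smul, inner_self_eq_norm_sq, mul_pow, mul_pow,
    RCLike.norm_ofReal, RCLike.norm_ofReal, sq_abs, sq_abs]
  ring

end lineOp
end Pool.Agent.H772R2
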