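import Pool.Agent.H772R2.LeafSig
import Pool.Agent.H772R2.Cell

set_option autoImplicit false
set_option linter.all false
open scoped InnerProductSpace ENNReal ComplexConjugate ContDiff Topology
open ContinuousLinearMap MeasureTheory Set Filter
noncomputable section
namespace Pool.Agent.H772R2

/-- Lebesgue measure on the unit interval -/
def muI : Measure ℝ := volume.restrict (Ico (0 : ℝ) 1)

/-- Lebesgue measure on the fundamental domain `[0,1)³` of the torus `T³ = ℝ³/ℤ³` -/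
def muM : Measure (ℝ × ℝ × ℝ) := volume.restrict (Ico (0 : ℝ) 1 ×ˢ Ico (0 : ℝ) 1 ×ˢ Ico (0 : ℝ) 1)

lemma muM_eq : muM = muI.prod (muI.prod muI) := by
  unfold muM muI
  rw [Measure.prod_restrict, Measure.prod_restrict]
  rfl

instance : IsProbabilityMeasure muI := ⟨by simp [muI]⟩

instance : IsProbabilityMeasure muM := by rw [muM_eq]; infer_instance

/-- The smooth differential forms on the torus `T³ = ℝ³/ℤ³`, written in the coframe
`ω⁰, ω¹, ω²`: smooth functions of `(t, x, y)` with values in `Lam`, of period `1` in each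
variable. -/
def DM : Submodule ℂ (ℝ × ℝ × ℝ → Lam) where
  carrier := {u | ContDiff ℝ ∞ u ∧ ∀ t x y, u (t + 1, x, y) = u (t, x, y) ∧
    u (t, x + 1, y) = u (t, x, y) ∧ u (t, x, y + 1) = u (t, x, y)}
  add_mem' := fun {u v} h h' => ⟨h.1.add h'.1, fun t x y => by
    obtain ⟨h1, h2, h3⟩ := h.2 t x y
    obtain ⟨h1', h2', h3'⟩ := h'.2 t x y
    simp only [Pi.add_apply, h1, h2, h3, h1', h2', h3', and_self]⟩
  zero_mem' := ⟨contDiff_const, fun t x y => by simp⟩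
  smul_mem' := fun c u h => ⟨contDiff_const.smul h.1, fun t x y => by
    obtain ⟨h1, h2, h3⟩ := h.2 t x y
    simp only [Pi.smul_apply, h1, h2, h3, and_self]⟩

lemma memLp_of_cont {F : Type*} [NormedAddCommGroup F] {u : ℝ × ℝ × ℝ → F} (hu : Continuous u) :
    MemLp u 2 muM := by
  have hK : IsCompact (Icc (0 : ℝ) 1 ×ˢ Icc (0 : ℝ) 1 ×ˢ Icc (0 : ℝ) 1) :=
    isCompact_Icc.prod (isCompact_Icc.prod isCompact_Icc)
  obtain ⟨C, hC⟩ := hK.exists_bound_of_continuousOn hu.continuousOn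
  refine MemLp.of_bound hu.aestronglyMeasurable C ?_
  unfold muM
  refine (ae_restrict_iff' (measurableSet_Ico.prod (measurableSet_Ico.prod measurableSet_Ico))).2
    (Eventually.of_forall fun p hp => ?_)
  exact hC p ⟨Ico_subset_Icc_self hp.1, Ico_subset_Icc_self hp.2.1, Ico_subset_Icc_self hp.2.2⟩

section mk
variable {F : Type*} [NormedAddCommGroup F] [InnerProductSpace ℂ F] [CompleteSpace F]

/-- The operator into `L²(T³; F)` defined by an expression `P u`, linear in the smooth form `u`. -/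
def mkOp (P : (ℝ × ℝ × ℝ → Lam) → ℝ × ℝ × ℝ → F) (hc : ∀ u : DM, Continuous (P u))
    (ha : ∀ u v : DM, P ((u + v : DM) : ℝ × ℝ × ℝ → Lam) = P u + P v)
    (hs : ∀ (c : ℂ) (u : DM), P ((c • u : DM) : ℝ × ℝ × ℝ → Lam) = c • P u) :
    DM →ₗ[ℂ] Lp F 2 muM where
  toFun u := (memLp_of_cont (hc u)).toLp _
  map_add' u v := by
    rw [← MemLp.toLp_add]
    congr 1
    exact ha u v
  map_smul' c u := by
    rw [← MemLp.toLp_const_smul]
    congr 1
    exact hs c u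

lemma mkOp_ae (P : (ℝ × ℝ × ℝ → Lam) → ℝ × ℝ × ℝ → F) (hc : ∀ u : DM, Continuous (P u))
    (ha : ∀ u v : DM, P ((u + v : DM) : ℝ × ℝ × ℝ → Lam) = P u + P v)
    (hs : ∀ (c : ℂ) (u : DM), P ((c • u : DM) : ℝ × ℝ × ℝ → Lam) = c • P u) (u : DM) :
    (mkOp P hc ha hs u : ℝ × ℝ × ℝ → F) =ᵐ[muM] P u :=
  (memLp_of_cont (hc u)).coeFn_toLp

lemma mkOp_inner (P : (ℝ × ℝ × ℝ → Lam) → ℝ × ℝ × ℝ → F) (hc : ∀ u : DM, Continuous (P u))
    (ha : ∀ u v : DM, P ((u + v : DM) : ℝ × ℝ × ℝ → Lam) = P u + P v)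
    (hs : ∀ (c : ℂ) (u : DM), P ((c • u : DM) : ℝ × ℝ × ℝ → Lam) = c • P u) (u v : DM) :
    ⟪mkOp P hc ha hs u, mkOp P hc ha hs v⟫_ℂ = ∫ p, ⟪P u p, P v p⟫_ℂ ∂muM := by
  rw [L2.inner_def]
  refine integral_congr_ae ?_
  filter_upwards [mkOp_ae P hc ha hs u, mkOp_ae P hc ha hs v] with p h1 h2
  rw [h1, h2]

lemma mkOp_norm_sq (P : (ℝ × ℝ × ℝ → Lam) → ℝ × ℝ × ℝ → F) (hc : ∀ u : DM, Continuous (P u))
    (ha : ∀ u v : DM, P ((u + v : DM) : ℝ × ℝ × ℝ → Lam) = P u + P v)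
    (hs : ∀ (c : ℂ) (u : DM), P ((c • u : DM) : ℝ × ℝ × ℝ → Lam) = c • P u) (u : DM) :
    ‖mkOp P hc ha hs u‖ ^ 2 = ∫ p, ‖P u p‖ ^ 2 ∂muM := by
  have h1 : ⟪mkOp P hc ha hs u, mkOp P hc ha hs u⟫_ℂ = ((‖mkOp P hc ha hs u‖ ^ 2 : ℝ) : ℂ) := by
    rw [inner_self_eq_norm_sq_to_K]; push_cast; rfl
  rw [mkOp_inner] at h1
  have h2 : ∀ p, ⟪P u p, P u p⟫_ℂ = ((‖P u p‖ ^ 2 : ℝ) : ℂ) := by
    intro p
    rw [inner_self_eq_norm_sq_to_K]; push_cast; rfl
  simp only [h2] at h1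
  rw [integral_complex_ofReal] at h1
  exact_mod_cast h1.symm

end mk

/-- the inclusion of the smooth forms into `L²` -/
def iM : DM →ₗ[ℂ] Lp Lam 2 muM :=
  mkOp (fun u => u) (fun u => u.2.1.continuous) (fun _ _ => rfl) (fun _ _ => rfl)

lemma iM_inner (u v : DM) : ⟪iM u, iM v⟫_ℂ =
    ∫ p, ⟪(u : ℝ × ℝ × ℝ → Lam) p, (v : ℝ × ℝ × ℝ → Lam) p⟫_ℂ ∂muM :=
  mkOp_inner _ _ _ _ u v

lemma iM_norm_sq (u : DM) : ‖iM u‖ ^ 2 = ∫ p, ‖(u : ℝ × ℝ × ℝ → Lam) p‖ ^ 2 ∂muM :=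
  mkOp_norm_sq _ _ _ _ u

/-! ### the differential operators -/
section ops
variable (g : ℝ → ℝ)

/-- the derivative along the leaves, `X = ∂_t + g(x) ∂_y` -/
def dX (u : ℝ × ℝ × ℝ → Lam) (p : ℝ × ℝ × ℝ) : Lam := fderiv ℝ u p (1, 0, g p.2.1)

/-- `∂_x` -/
def dx (u : ℝ × ℝ × ℝ → Lam) (p : ℝ × ℝ × ℝ) : Lam := fderiv ℝ u p (0, 1, 0)

/-- `∂_y` -/
def dy (u : ℝ × ℝ × ℝ → Lam) (p : ℝ × ℝ × ℝ) : Lam := fderiv ℝ u p (0, 0, 1)

/-- the tangential differential `d_F = ε₀ (X + g' ε₁ ι₂)` -/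
def opF (u : ℝ × ℝ × ℝ → Lam) (p : ℝ × ℝ × ℝ) : Lam :=
  ext 0 (dX g u p + Bz (deriv g p.2.1) (u p))

/-- its formal adjoint `d_F^* = - ι₀ (X - g' ε₂ ι₁)` -/
def opFs (u : ℝ × ℝ × ℝ → Lam) (p : ℝ × ℝ × ℝ) : Lam :=
  - int 0 (dX g u p - Bs (deriv g p.2.1) (u p))

/-- the transversal differential `d_H = ε₁ ∂_x + ε₂ ∂_y` -/
def opH (u : ℝ × ℝ × ℝ → Lam) (p : ℝ × ℝ × ℝ) : Lam :=
  ext 1 (dx u p) + ext 2 (dy u p)

/-- its formal adjoint `d_H^* = - (ι₁ ∂_x + ι₂ ∂_y)` -/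
def opHs (u : ℝ × ℝ × ℝ → Lam) (p : ℝ × ℝ × ℝ) : Lam :=
  - (int 1 (dx u p) + int 2 (dy u p))

end ops

lemma DM.diff (u : DM) : Differentiable ℝ (u : ℝ × ℝ × ℝ → Lam) :=
  u.2.1.differentiable (by simp)

lemma fd_add (u v : DM) (p w : ℝ × ℝ × ℝ) :
    fderiv ℝ ((u : ℝ × ℝ × ℝ → Lam) + (v : ℝ × ℝ × ℝ → Lam)) p w =
      fderiv ℝ (u : ℝ × ℝ × ℝ → Lam) p w + fderiv ℝ (v : ℝ × ℝ × ℝ → Lam) p w := by
  have h1 : fderiv ℝ ((u : ℝ × ℝ × ℝ → Lam) + (v : ℝ × ℝ × ℝ → Lam)) p =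
      fderiv ℝ (u : ℝ × ℝ × ℝ → Lam) p + fderiv ℝ (v : ℝ × ℝ × ℝ → Lam) p :=
    fderiv_add (DM.diff u).differentiableAt (DM.diff v).differentiableAt
  rw [h1]; rfl

lemma fd_smul (c : ℂ) (u : DM) (p w : ℝ × ℝ × ℝ) :
    fderiv ℝ (c • (u : ℝ × ℝ × ℝ → Lam)) p w =
      c • fderiv ℝ (u : ℝ × ℝ × ℝ → Lam) p w := by
  have h1 : fderiv ℝ (c • (u : ℝ × ℝ × ℝ → Lam)) p =
      c • fderiv ℝ (u : ℝ × ℝ × ℝ → Lam) p :=
    fderiv_const_smul (DM.diff u).differentiableAt c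
  rw [h1]; rfl

lemma fd_cont (u : DM) {w : ℝ × ℝ × ℝ → ℝ × ℝ × ℝ} (hw : Continuous w) :
    Continuous (fun p => fderiv ℝ (u : ℝ × ℝ × ℝ → Lam) p (w p)) := by
  have h1 : Continuous (fderiv ℝ (u : ℝ × ℝ × ℝ → Lam)) := u.2.1.continuous_fderiv (by simp)
  exact h1.clm_apply hw

section ops2
variable {g : ℝ → ℝ}

lemma Bz_cont {s : ℝ × ℝ × ℝ → ℝ} (hs : Continuous s) {u : ℝ × ℝ × ℝ → Lam} (hu : Continuous u) :
    Continuous (fun p => Bz (s p) (u p)) := by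
  have : (fun p => Bz (s p) (u p)) = fun p => ((s p : ℝ) : ℂ) • ext 1 (int 2 (u p)) := rfl
  rw [this]; fun_prop

lemma Bs_cont {s : ℝ × ℝ × ℝ → ℝ} (hs : Continuous s) {u : ℝ × ℝ × ℝ → Lam} (hu : Continuous u) :
    Continuous (fun p => Bs (s p) (u p)) := by
  have : (fun p => Bs (s p) (u p)) = fun p => ((s p : ℝ) : ℂ) • ext 2 (int 1 (u p)) := rfl
  rw [this]; fun_prop

lemma opF_cont (hg : ContDiff ℝ ∞ g) (u : DM) : Continuous (opF g u) := by
  have h0 := hg.continuous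
  have h1 : Continuous (deriv g) := hg.continuous_deriv (by simp)
  have h2 : Continuous (dX g (u : ℝ × ℝ × ℝ → Lam)) := fd_cont u (by fun_prop)
  exact (ext 0).continuous.comp (h2.add (Bz_cont (by fun_prop) u.2.1.continuous))

lemma opFs_cont (hg : ContDiff ℝ ∞ g) (u : DM) : Continuous (opFs g u) := by
  have h0 := hg.continuous
  have h1 : Continuous (deriv g) := hg.continuous_deriv (by simp)
  have h2 : Continuous (dX g (u : ℝ × ℝ × ℝ → Lam)) := fd_cont u (by fun_prop)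
  exact ((int 0).continuous.comp (h2.sub (Bs_cont (by fun_prop) u.2.1.continuous))).neg

lemma opH_cont (u : DM) : Continuous (opH u) := by
  have h2 : Continuous (dx (u : ℝ × ℝ × ℝ → Lam)) := fd_cont u continuous_const
  have h3 : Continuous (dy (u : ℝ × ℝ × ℝ → Lam)) := fd_cont u continuous_const
  exact ((ext 1).continuous.comp h2).add ((ext 2).continuous.comp h3)

lemma opHs_cont (u : DM) : Continuous (opHs u) := by
  have h2 : Continuous (dx (u : ℝ × ℝ × ℝ → Lam)) := fd_cont u continuous_const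
  have h3 : Continuous (dy (u : ℝ × ℝ × ℝ → Lam)) := fd_cont u continuous_const
  exact (((int 1).continuous.comp h2).add ((int 2).continuous.comp h3)).neg

lemma opF_add (u v : DM) : opF g ((u + v : DM) : ℝ × ℝ × ℝ → Lam) = opF g u + opF g v := by
  funext p
  simp only [Submodule.coe_add, opF, dX, fd_add, Submodule.coe_add, Pi.add_apply, map_add]
  abel

lemma opFs_add (u v : DM) : opFs g ((u + v : DM) : ℝ × ℝ × ℝ → Lam) = opFs g u + opFs g v := by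
  funext p
  simp only [Submodule.coe_add, opFs, dX, fd_add, Submodule.coe_add, Pi.add_apply, map_add, map_sub]
  abel

lemma opH_add (u v : DM) : opH ((u + v : DM) : ℝ × ℝ × ℝ → Lam) = opH u + opH v := by
  funext p
  simp only [Submodule.coe_add, opH, dx, dy, fd_add, Submodule.coe_add, Pi.add_apply, map_add]
  abel

lemma opHs_add (u v : DM) : opHs ((u + v : DM) : ℝ × ℝ × ℝ → Lam) = opHs u + opHs v := by
  funext p
  simp only [Submodule.coe_add, opHs, dx, dy, fd_add, Submodule.coe_add, Pi.add_apply, map_add]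
  abel

lemma opF_smul (c : ℂ) (u : DM) : opF g ((c • u : DM) : ℝ × ℝ × ℝ → Lam) = c • opF g u := by
  funext p
  simp only [opF, dX, fd_smul, Pi.smul_apply, Submodule.coe_smul, map_add, map_smul, smul_add]

lemma opFs_smul (c : ℂ) (u : DM) : opFs g ((c • u : DM) : ℝ × ℝ × ℝ → Lam) = c • opFs g u := by
  funext p
  simp only [opFs, dX, fd_smul, Pi.smul_apply, Submodule.coe_smul, map_add, map_sub, map_smul,
    smul_neg, smul_sub]

lemma opH_smul (c : ℂ) (u : DM) : opH ((c • u : DM) : ℝ × ℝ × ℝ → Lam) = c • opH u := by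
  funext p
  simp only [opH, dx, dy, fd_smul, Pi.smul_apply, Submodule.coe_smul, map_add, map_smul, smul_add]

lemma opHs_smul (c : ℂ) (u : DM) : opHs ((c • u : DM) : ℝ × ℝ × ℝ → Lam) = c • opHs u := by
  funext p
  simp only [opHs, dx, dy, fd_smul, Pi.smul_apply, Submodule.coe_smul, map_add, map_smul,
    smul_add, smul_neg, neg_add]

end ops2

end Pool.Agent.H772R2
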