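import Pool.Agent.H772R2.MBase

set_option autoImplicit false
set_option linter.all false
open scoped InnerProductSpace ENNReal ComplexConjugate ContDiff Topology
open ContinuousLinearMap MeasureTheory Set Filter
noncomputable section
namespace Pool.Agent.H772R2

/-- the unit vector `1 ∈ Λ⁰` -/
def e0 : Lam := EuclideanSpace.single ∅ 1

lemma norm_e0 : ‖e0‖ = 1 := by simp [e0]

/-- the exponential `e^{2πimy}` -/
def Ey (m : ℤ) (y : ℝ) : ℂ := Complex.exp (((2 * Real.pi * m * y : ℝ) : ℂ) * Complex.I)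

lemma norm_Ey (m : ℤ) (y : ℝ) : ‖Ey m y‖ = 1 := Complex.norm_exp_ofReal_mul_I _

lemma Ey_add_one (m : ℤ) (y : ℝ) : Ey m (y + 1) = Ey m y := by
  unfold Ey
  have h : ((2 * Real.pi * m * (y + 1) : ℝ) : ℂ) * Complex.I =
      ((2 * Real.pi * m * y : ℝ) : ℂ) * Complex.I + m * (2 * Real.pi * Complex.I) := by
    push_cast; ring
  rw [h, Complex.exp_add, Complex.exp_int_mul_two_pi_mul_I, mul_one]

lemma Ey_contDiff (m : ℤ) : ContDiff ℝ ∞ (Ey m) := by
  unfold Ey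
  apply ContDiff.cexp
  apply ContDiff.mul _ contDiff_const
  exact Complex.ofRealCLM.contDiff.comp (contDiff_const.mul contDiff_id)

lemma Ey_hasDeriv (m : ℤ) (y : ℝ) :
    HasDerivAt (Ey m) (((2 * Real.pi * m : ℝ) : ℂ) * Complex.I * Ey m y) y := by
  have h1 : HasDerivAt (fun y : ℝ => 2 * Real.pi * m * y) (2 * Real.pi * m) y := by
    simpa using (hasDerivAt_id y).const_mul (2 * Real.pi * m)
  have h2 := (h1.ofReal_comp.mul_const Complex.I).cexp
  refine h2.congr_deriv ?_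
  unfold Ey
  ring

lemma Ey_mul (m n : ℤ) (y : ℝ) : conj (Ey m y) * Ey n y = Ey (n - m) y := by
  unfold Ey
  rw [← Complex.exp_conj, ← Complex.exp_add]
  congr 1
  rw [map_mul, Complex.conj_ofReal, Complex.conj_I]
  push_cast; ring

lemma Ey_zero (y : ℝ) : Ey 0 y = 1 := by simp [Ey]

lemma Ey_integral {n : ℤ} (hn : n ≠ 0) : ∫ y, Ey n y ∂muI = 0 := by
  have hn' : (n : ℂ) ≠ 0 := by exact_mod_cast hn
  unfold muI
  rw [integral_Ico_eq_integral_Ioo, ← integral_Ioc_eq_integral_Ioo,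
    ← intervalIntegral.integral_of_le zero_le_one]
  have hc : ((2 * Real.pi * n : ℝ) : ℂ) * Complex.I ≠ 0 := by
    push_cast
    simp [Real.pi_ne_zero, hn]
  have h1 : ∀ y ∈ Set.uIcc (0 : ℝ) 1, HasDerivAt
      (fun y => (((2 * Real.pi * n : ℝ) : ℂ) * Complex.I)⁻¹ * Ey n y) (Ey n y) y := by
    intro y _
    have := (Ey_hasDeriv n y).const_mul (((2 * Real.pi * n : ℝ) : ℂ) * Complex.I)⁻¹
    refine this.congr_deriv ?_
    rw [← mul_assoc, inv_mul_cancel₀ hc, one_mul]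
  rw [intervalIntegral.integral_eq_sub_of_hasDerivAt h1
    ((Ey_contDiff n).continuous.intervalIntegrable _ _)]
  have := Ey_add_one n 0
  rw [zero_add] at this
  rw [this, sub_self]

/-- the scalar part of the test forms -/
def tw (s : ℝ) (L j : ℕ) (m : ℤ) (p : ℝ × ℝ × ℝ) : ℂ :=
  ((s * cell L j p.2.1 : ℝ) : ℂ) * Ey m p.2.2

lemma tw_contDiff (s : ℝ) {L j : ℕ} (hL : 0 < L) (hj : j < L) (m : ℤ) :
    ContDiff ℝ ∞ (tw s L j m) := by
  unfold tw
  apply ContDiff.mul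
  · have h1 := cell_contDiff hL hj
    exact Complex.ofRealCLM.contDiff.comp (contDiff_const.mul
      (h1.comp (contDiff_fst.comp contDiff_snd)))
  · exact (Ey_contDiff m).comp (contDiff_snd.comp contDiff_snd)

/-- the test forms -/
def tst (s : ℝ) {L j : ℕ} (hL : 0 < L) (hj : j < L) (m : ℤ) : DM :=
  ⟨fun p => tw s L j m p • e0, (tw_contDiff s hL hj m).smul contDiff_const, fun t x y => by
    have h1 := cell_periodic L j x
    refine ⟨rfl, ?_, ?_⟩
    · simp only [tw, h1]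
    · simp only [tw, Ey_add_one]⟩

lemma tst_apply (s : ℝ) {L j : ℕ} (hL : 0 < L) (hj : j < L) (m : ℤ) (p : ℝ × ℝ × ℝ) :
    (tst s hL hj m : ℝ × ℝ × ℝ → Lam) p = tw s L j m p • e0 := rfl

lemma tst_norm (s : ℝ) {L j : ℕ} (hL : 0 < L) (hj : j < L) (m : ℤ) (p : ℝ × ℝ × ℝ) :
    ‖(tst s hL hj m : ℝ × ℝ × ℝ → Lam) p‖ ^ 2 = s ^ 2 * cell L j p.2.1 ^ 2 := by
  rw [tst_apply, norm_smul, norm_e0, mul_one, tw, norm_mul, norm_Ey, mul_one, Complex.norm_real,
    Real.norm_eq_abs, sq_abs, mul_pow]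

lemma tst_fderiv (s : ℝ) {L j : ℕ} (hL : 0 < L) (hj : j < L) (m : ℤ) (p v : ℝ × ℝ × ℝ) :
    fderiv ℝ (tst s hL hj m : ℝ × ℝ × ℝ → Lam) p v =
      (((v.2.1 * (s * deriv (cell L j) p.2.1) : ℝ) : ℂ) * Ey m p.2.2 +
       ((s * cell L j p.2.1 : ℝ) : ℂ) *
        ((v.2.2 : ℂ) * (((2 * Real.pi * m : ℝ) : ℂ) * Complex.I * Ey m p.2.2))) • e0 := by
  have h1 : HasFDerivAt (fun p : ℝ × ℝ × ℝ => p.2.1)
      ((ContinuousLinearMap.fst ℝ ℝ ℝ).comp (ContinuousLinearMap.snd ℝ ℝ (ℝ × ℝ))) p :=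
    ((ContinuousLinearMap.fst ℝ ℝ ℝ).comp (ContinuousLinearMap.snd ℝ ℝ (ℝ × ℝ))).hasFDerivAt
  have h2 : HasFDerivAt (fun p : ℝ × ℝ × ℝ => p.2.2)
      ((ContinuousLinearMap.snd ℝ ℝ ℝ).comp (ContinuousLinearMap.snd ℝ ℝ (ℝ × ℝ))) p :=
    ((ContinuousLinearMap.snd ℝ ℝ ℝ).comp (ContinuousLinearMap.snd ℝ ℝ (ℝ × ℝ))).hasFDerivAt
  have h3 : HasDerivAt (cell L j) (deriv (cell L j) p.2.1) p.2.1 :=
    ((cell_contDiff hL hj).differentiable (by simp)).differentiableAt.hasDerivAt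
  have h4 := (h3.const_mul s).ofReal_comp.hasFDerivAt.comp p h1
  have h5 := (Ey_hasDeriv m p.2.2).hasFDerivAt.comp p h2
  have h6 := (h4.mul h5).smul_const e0
  have h7 : fderiv ℝ (tst s hL hj m : ℝ × ℝ × ℝ → Lam) p = _ := h6.fderiv
  rw [h7]
  simp only [ContinuousLinearMap.smulRight_apply, ContinuousLinearMap.add_apply,
    ContinuousLinearMap.smul_apply, ContinuousLinearMap.comp_apply,
    ContinuousLinearMap.coe_fst', ContinuousLinearMap.coe_snd', Function.comp,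
    ContinuousLinearMap.toSpanSingleton_apply, ContinuousLinearMap.one_apply]
  congr 1
  simp only [smul_eq_mul, Complex.real_smul]
  push_cast
  ring

lemma tst_dx (s : ℝ) {L j : ℕ} (hL : 0 < L) (hj : j < L) (m : ℤ) (p : ℝ × ℝ × ℝ) :
    ‖dx (tst s hL hj m : ℝ × ℝ × ℝ → Lam) p‖ ^ 2 = s ^ 2 * deriv (cell L j) p.2.1 ^ 2 := by
  unfold dx
  rw [tst_fderiv, norm_smul, norm_e0, mul_one]
  simp only [one_mul, Complex.ofReal_zero, zero_mul, mul_zero, add_zero]
  rw [norm_mul, norm_Ey, mul_one, Complex.norm_real, Real.norm_eq_abs, sq_abs, mul_pow]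

lemma tst_dy (s : ℝ) {L j : ℕ} (hL : 0 < L) (hj : j < L) (m : ℤ) (p : ℝ × ℝ × ℝ) :
    ‖dy (tst s hL hj m : ℝ × ℝ × ℝ → Lam) p‖ ^ 2 =
      (2 * Real.pi * m) ^ 2 * (s ^ 2 * cell L j p.2.1 ^ 2) := by
  unfold dy
  rw [tst_fderiv, norm_smul, norm_e0, mul_one]
  simp only [one_mul, Complex.ofReal_zero, zero_mul, mul_zero, zero_add, Complex.ofReal_one]
  rw [norm_mul, norm_mul, norm_mul, norm_Ey, mul_one, Complex.norm_I, mul_one, Complex.norm_real,
    Complex.norm_real, Real.norm_eq_abs, Real.norm_eq_abs, mul_pow, sq_abs, sq_abs, mul_pow]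
  ring

lemma tst_dX (g : ℝ → ℝ) (s : ℝ) {L j : ℕ} (hL : 0 < L) (hj : j < L) (m : ℤ) (p : ℝ × ℝ × ℝ) :
    ‖dX g (tst s hL hj m : ℝ × ℝ × ℝ → Lam) p‖ ^ 2 =
      g p.2.1 ^ 2 * ((2 * Real.pi * m) ^ 2 * (s ^ 2 * cell L j p.2.1 ^ 2)) := by
  unfold dX
  rw [tst_fderiv, norm_smul, norm_e0, mul_one]
  simp only [one_mul, Complex.ofReal_zero, zero_mul, mul_zero, zero_add]
  rw [norm_mul, norm_mul, norm_mul, norm_mul, norm_Ey, mul_one, Complex.norm_I, mul_one,
    Complex.norm_real, Complex.norm_real, Complex.norm_real, Real.norm_eq_abs, Real.norm_eq_abs,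
    Real.norm_eq_abs, mul_pow, mul_pow, sq_abs, sq_abs, sq_abs, mul_pow]
  ring

/-- integrals over the torus of functions of `x` only -/
lemma int_x (G : ℝ → ℝ) : ∫ p, G p.2.1 ∂muM = ∫ x, G x ∂muI := by
  rw [muM_eq, integral_fun_snd (μ := muI) (ν := muI.prod muI) (fun q : ℝ × ℝ => G q.1),
    integral_fun_fst]
  simp

lemma tst_inner (s : ℝ) {L j k : ℕ} (hL : 0 < L) (hj : j < L) (hk : k < L) (m n : ℤ) :
    ⟪iM (tst s hL hj m), iM (tst s hL hk n)⟫_ℂ =
      ((∫ x, (s * cell L j x) * (s * cell L k x) ∂muI : ℝ) : ℂ) * ∫ y, Ey (n - m) y ∂muI := by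
  rw [iM_inner]
  have h1 : ∀ p : ℝ × ℝ × ℝ, ⟪(tst s hL hj m : ℝ × ℝ × ℝ → Lam) p,
      (tst s hL hk n : ℝ × ℝ × ℝ → Lam) p⟫_ℂ =
      (fun q : ℝ × ℝ => (((s * cell L j q.1) * (s * cell L k q.1) : ℝ) : ℂ) * Ey (n - m) q.2) p.2 := by
    intro p
    have he : ⟪e0, e0⟫_ℂ = 1 := by
      rw [inner_self_eq_norm_sq_to_K, norm_e0]; simp
    rw [tst_apply, tst_apply, inner_smul_left, inner_smul_right, he, mul_one, tw, tw, map_mul,
      Complex.conj_ofReal]
    show _ = (((s * cell L j p.2.1) * (s * cell L k p.2.1) : ℝ) : ℂ) * Ey (n - m) p.2.2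
    rw [← Ey_mul]
    push_cast
    ring
  simp only [h1]
  rw [muM_eq, integral_fun_snd (μ := muI) (ν := muI.prod muI) (fun q : ℝ × ℝ =>
    (((s * cell L j q.1) * (s * cell L k q.1) : ℝ) : ℂ) * Ey (n - m) q.2)]
  rw [probReal_univ, one_smul]
  rw [integral_prod_mul (fun x => (((s * cell L j x) * (s * cell L k x) : ℝ) : ℂ))
    (fun y => Ey (n - m) y), integral_complex_ofReal]

lemma tst_orth {L j k : ℕ} (hL : 0 < L) (hj : j < L) (hk : k < L) (m n : ℤ) :
    ⟪iM (tst (Real.sqrt (L / A0)) hL hj m), iM (tst (Real.sqrt (L / A0)) hL hk n)⟫_ℂ =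
      if j = k ∧ m = n then 1 else 0 := by
  have hL' : (0 : ℝ) < L := by exact_mod_cast hL
  rw [tst_inner]
  by_cases hjk : j = k
  · subst hjk
    by_cases hmn : m = n
    · subst hmn
      rw [sub_self]
      simp only [Ey_zero, and_self, if_true]
      have h1 : ∫ x, (Real.sqrt (L / A0) * cell L j x) * (Real.sqrt (L / A0) * cell L j x) ∂muI = 1 := by
        have h2 : ∀ x, (Real.sqrt (L / A0) * cell L j x) * (Real.sqrt (L / A0) * cell L j x) =
            (L / A0) * cell L j x ^ 2 := by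
          intro x
          have := Real.mul_self_sqrt (show (0 : ℝ) ≤ L / A0 from div_nonneg hL'.le A0_pos.le)
          calc _ = (Real.sqrt (L / A0) * Real.sqrt (L / A0)) * cell L j x ^ 2 := by ring
            _ = _ := by rw [this]
        simp only [h2]
        rw [integral_const_mul]
        have h3 := integral_cell_sq hL hj
        unfold muI
        rw [h3]
        have := A0_pos
        field_simp
      rw [h1]
      simp
    · have : n - m ≠ 0 := fun h => hmn (by omega)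
      rw [Ey_integral this]
      simp [hmn]
  · have h1 : ∀ x, (Real.sqrt (L / A0) * cell L j x) * (Real.sqrt (L / A0) * cell L k x) = 0 := by
      intro x
      have := cell_mul hL hjk x
      calc _ = (Real.sqrt (L / A0) * Real.sqrt (L / A0)) * (cell L j x * cell L k x) := by ring
        _ = 0 := by rw [this, mul_zero]
    simp only [h1, integral_zero, Complex.ofReal_zero, zero_mul, hjk, false_and, if_false]

/-- the upper bound for the energy of the test forms -/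
lemma energy_bound {F : Type*} [NormedAddCommGroup F] [InnerProductSpace ℂ F] [CompleteSpace F]
    {g : ℝ → ℝ} {h : ℝ}
    (P : (ℝ × ℝ × ℝ → Lam) → ℝ × ℝ × ℝ → F) (hc : ∀ u : DM, Continuous (P u))
    (ha : ∀ u v : DM, P ((u + v : DM) : ℝ × ℝ × ℝ → Lam) = P u + P v)
    (hs : ∀ (c : ℂ) (u : DM), P ((c • u : DM) : ℝ × ℝ × ℝ → Lam) = c • P u)
    (hP : ∀ (u : DM) (p : ℝ × ℝ × ℝ), ‖P u p‖ ^ 2 ≤ 16 * (‖dX g u p‖ ^ 2 +
      deriv g p.2.1 ^ 2 * ‖(u : ℝ × ℝ × ℝ → Lam) p‖ ^ 2 + h ^ 2 * ‖dx u p‖ ^ 2 +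
      h ^ 2 * ‖dy u p‖ ^ 2))
    {L j : ℕ} (hL : 0 < L) (hj : j < L) (m : ℤ) {γ₀ M : ℝ} (hm : |(m : ℝ)| ≤ M)
    (hγ : ∀ x, deriv g x ^ 2 ≤ γ₀ ^ 2)
    (hg : ∀ x, (j : ℝ) / L < x → x < (j + 1) / L → g x ^ 2 ≤ (γ₀ / L) ^ 2) :
    ‖mkOp P hc ha hs (tst (Real.sqrt (L / A0)) hL hj m)‖ ^ 2 ≤
      16 * (((γ₀ / L) ^ 2 * (2 * Real.pi * M) ^ 2 + γ₀ ^ 2 + h ^ 2 * (2 * Real.pi * M) ^ 2) +
        h ^ 2 * (L ^ 2 * A1 / A0)) := by
  have hL' : (0 : ℝ) < L := by exact_mod_cast hL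
  set s := Real.sqrt (L / A0) with hs'
  have hs2 : s ^ 2 = L / A0 := Real.sq_sqrt (div_nonneg hL'.le A0_pos.le)
  set Kc := (γ₀ / L) ^ 2 * (2 * Real.pi * M) ^ 2 + γ₀ ^ 2 + h ^ 2 * (2 * Real.pi * M) ^ 2 with hKc
  have hm2 : (2 * Real.pi * (m : ℝ)) ^ 2 ≤ (2 * Real.pi * M) ^ 2 := by
    rw [mul_pow, mul_pow _ M]
    have : (m : ℝ) ^ 2 ≤ M ^ 2 := by
      rw [← sq_abs (m : ℝ)]
      exact pow_le_pow_left₀ (abs_nonneg _) hm 2
    gcongr
  rw [mkOp_norm_sq]
  have hint1 : Integrable (fun x => 16 * (Kc * (s ^ 2 * cell L j x ^ 2) +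
      h ^ 2 * (s ^ 2 * deriv (cell L j) x ^ 2))) muI := by
    have hc1 : Continuous (fun x => 16 * (Kc * (s ^ 2 * cell L j x ^ 2) +
      h ^ 2 * (s ^ 2 * deriv (cell L j) x ^ 2))) := by
      have e1 := (cell_contDiff hL hj).continuous
      have e2 := (cell_contDiff hL hj).continuous_deriv (by simp)
      fun_prop
    have := (hc1.integrableOn_Icc (a := (0 : ℝ)) (b := 1) (μ := volume))
    exact this.mono_set Ico_subset_Icc_self
  have hint2 : Integrable (fun p : ℝ × ℝ × ℝ => 16 * (Kc * (s ^ 2 * cell L j p.2.1 ^ 2) +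
      h ^ 2 * (s ^ 2 * deriv (cell L j) p.2.1 ^ 2))) muM := by
    rw [muM_eq]
    have h1 := hint1.comp_fst muI
    exact h1.comp_snd muI
  calc ∫ p, ‖P (tst s hL hj m) p‖ ^ 2 ∂muM
      ≤ ∫ p, 16 * (Kc * (s ^ 2 * cell L j p.2.1 ^ 2) +
          h ^ 2 * (s ^ 2 * deriv (cell L j) p.2.1 ^ 2)) ∂muM := by
        refine integral_mono_of_nonneg (Eventually.of_forall fun p => by positivity) hint2 ?_
        have hQ : ∀ᵐ p ∂muM, p.2.1 ∈ Ico (0 : ℝ) 1 := by
          unfold muM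
          refine (ae_restrict_iff' (measurableSet_Ico.prod (measurableSet_Ico.prod
            measurableSet_Ico))).2 (Eventually.of_forall fun p hp => hp.2.1)
        filter_upwards [hQ] with p hp
        refine (hP (tst s hL hj m) p).trans ?_
        rw [tst_dX, tst_norm, tst_dx, tst_dy]
        have h3 : g p.2.1 ^ 2 * ((2 * Real.pi * m) ^ 2 * (s ^ 2 * cell L j p.2.1 ^ 2)) +
            deriv g p.2.1 ^ 2 * (s ^ 2 * cell L j p.2.1 ^ 2) +
            h ^ 2 * ((2 * Real.pi * m) ^ 2 * (s ^ 2 * cell L j p.2.1 ^ 2)) ≤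
            Kc * (s ^ 2 * cell L j p.2.1 ^ 2) := by
          by_cases hcell : cell L j p.2.1 = 0
          · rw [hcell]; simp
          · obtain ⟨hc1, hc2⟩ := cell_supp hL hp hcell
            have h4 := hg p.2.1 hc1 hc2
            have h5 := hγ p.2.1
            have h6 : g p.2.1 ^ 2 * (2 * Real.pi * m) ^ 2 + deriv g p.2.1 ^ 2 +
              h ^ 2 * (2 * Real.pi * m) ^ 2 ≤ Kc := by
              rw [hKc]; gcongr
            have h7 : 0 ≤ s ^ 2 * cell L j p.2.1 ^ 2 := by positivity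
            have := mul_le_mul_of_nonneg_right h6 h7
            linarith
        linarith
    _ = ∫ x, 16 * (Kc * (s ^ 2 * cell L j x ^ 2) +
          h ^ 2 * (s ^ 2 * deriv (cell L j) x ^ 2)) ∂muI := int_x (fun x => 16 * (Kc * (s ^ 2 *
            cell L j x ^ 2) + h ^ 2 * (s ^ 2 * deriv (cell L j) x ^ 2)))
    _ = 16 * (Kc * (s ^ 2 * ∫ x, cell L j x ^ 2 ∂muI) +
          h ^ 2 * (s ^ 2 * ∫ x, deriv (cell L j) x ^ 2 ∂muI)) := by
        have e1 : Integrable (fun x => cell L j x ^ 2) muI :=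
          (((cell_contDiff hL hj).continuous.pow 2).integrableOn_Icc (a := (0 : ℝ)) (b := 1)
            (μ := volume)).mono_set Ico_subset_Icc_self
        have e2 : Integrable (fun x => deriv (cell L j) x ^ 2) muI :=
          ((((cell_contDiff hL hj).continuous_deriv (by simp)).pow 2).integrableOn_Icc
            (a := (0 : ℝ)) (b := 1) (μ := volume)).mono_set Ico_subset_Icc_self
        rw [integral_const_mul, integral_add ((e1.const_mul _).const_mul _)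
          ((e2.const_mul _).const_mul _), integral_const_mul, integral_const_mul,
          integral_const_mul, integral_const_mul]
    _ = 16 * (Kc + h ^ 2 * (L ^ 2 * A1 / A0)) := by
        have h1 := integral_cell_sq hL hj
        have h2 := integral_dcell_sq hL hj
        have h3 : ∫ x, cell L j x ^ 2 ∂muI = (L : ℝ)⁻¹ * A0 := h1
        have h4 : ∫ x, deriv (cell L j) x ^ 2 ∂muI = (L : ℝ) * A1 := h2
        rw [h3, h4, hs2]
        have := A0_pos
        field_simp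

end Pool.Agent.H772R2
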