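import Pool.Agent.H772R2.Geo

set_option autoImplicit false
set_option linter.all false
open scoped InnerProductSpace ENNReal ComplexConjugate ContDiff Topology
open ContinuousLinearMap MeasureTheory Set Filter
noncomputable section
namespace Pool.Agent.H772R2

/-! ### the resolvent -/
section res
variable {D H H' : Type*} [AddCommGroup D] [Module ℂ D]
  [NormedAddCommGroup H] [InnerProductSpace ℂ H] [CompleteSpace H]
  [NormedAddCommGroup H'] [InnerProductSpace ℂ H'] [CompleteSpace H']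

lemma adj_of_dense {K : Type*} [NormedAddCommGroup K] [InnerProductSpace ℂ K] [CompleteSpace K]
    (J : K →L[ℂ] H) (e : D → K) (he : DenseRange e) (a : H) (b : K)
    (h : ∀ v, ⟪a, J (e v)⟫_ℂ = ⟪b, e v⟫_ℂ) : adjoint J a = b := by
  refine ext_inner_right ℂ fun v' => ?_
  rw [ContinuousLinearMap.adjoint_inner_left]
  have hcl : IsClosed {v' : K | ⟪a, J v'⟫_ℂ = ⟪b, v'⟫_ℂ} :=
    isClosed_eq (continuous_const.inner J.continuous) (continuous_const.inner continuous_id)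
  have hsub : range e ⊆ {v' : K | ⟪a, J v'⟫_ℂ = ⟪b, v'⟫_ℂ} := by
    rintro _ ⟨v, rfl⟩
    exact h v
  have := closure_minimal hsub hcl
  rw [he.closure_range] at this
  exact this (mem_univ v')

/-- `resolv i T` inverts `1 + T^*T` -/
theorem resolv_apply (i : D →ₗ[ℂ] H) (T : D →ₗ[ℂ] H') (u : D) (w : H)
    (h : ∀ v, ⟪T u, T v⟫_ℂ = ⟪w, i v⟫_ℂ) : resolv i T (i u + w) = i u := by
  have h1 : adjoint (projH i T) (i u + w) = toGl i T u := by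
    refine adj_of_dense (projH i T) (toGl i T) (denseRange_toGl i T) _ _ fun v => ?_
    rw [inner_toGl, projH_toGl, inner_add_left, h]
  show projH i T (adjoint (projH i T) (i u + w)) = i u
  rw [h1, projH_toGl]

end res

/-! ### integration by parts on the torus -/

lemma integrable3 {F : Type*} [NormedAddCommGroup F] {u : ℝ × ℝ × ℝ → F} (hu : Continuous u) :
    Integrable u muM := (memLp_of_cont hu).integrable (by norm_num)

lemma integrable2 {F : Type*} [NormedAddCommGroup F] {u : ℝ × ℝ → F} (hu : Continuous u) :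
    Integrable u (muI.prod muI) := by
  have hK : IsCompact (Icc (0 : ℝ) 1 ×ˢ Icc (0 : ℝ) 1) := isCompact_Icc.prod isCompact_Icc
  have h1 : IntegrableOn u (Icc (0 : ℝ) 1 ×ˢ Icc (0 : ℝ) 1) (volume.prod volume) :=
    hu.continuousOn.integrableOn_compact hK
  have h2 := h1.mono_set (s := Ico (0 : ℝ) 1 ×ˢ Ico (0 : ℝ) 1)
    (prod_mono Ico_subset_Icc_self Ico_subset_Icc_self)
  unfold IntegrableOn at h2
  rw [← Measure.prod_restrict] at h2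
  exact h2

lemma int_zero {H H' : ℝ → ℂ} (hd : ∀ t, HasDerivAt H (H' t) t) (hc : Continuous H')
    (h : H 1 = H 0) : ∫ t, H' t ∂muI = 0 := by
  unfold muI
  rw [integral_Ico_eq_integral_Ioo, ← integral_Ioc_eq_integral_Ioo,
    ← intervalIntegral.integral_of_le zero_le_one,
    intervalIntegral.integral_eq_sub_of_hasDerivAt (fun t _ => hd t) (hc.intervalIntegrable _ _),
    h, sub_self]

lemma int_dt {F F' : ℝ × ℝ × ℝ → ℂ} (hd : ∀ t q, HasDerivAt (fun t => F (t, q)) (F' (t, q)) t)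
    (hc : Continuous F') (hp : ∀ q, F (1, q) = F (0, q)) : ∫ p, F' p ∂muM = 0 := by
  have hi := integrable3 hc
  rw [muM_eq] at hi ⊢
  rw [integral_prod_symm _ hi]
  have : ∀ q : ℝ × ℝ, ∫ t, F' (t, q) ∂muI = 0 := fun q =>
    int_zero (fun t => hd t q) (by fun_prop) (hp q)
  simp [this]

lemma int_dx {F F' : ℝ × ℝ × ℝ → ℂ}
    (hd : ∀ t x y, HasDerivAt (fun x => F (t, x, y)) (F' (t, x, y)) x)
    (hc : Continuous F') (hp : ∀ t y, F (t, 1, y) = F (t, 0, y)) : ∫ p, F' p ∂muM = 0 := by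
  have hi := integrable3 hc
  rw [muM_eq] at hi ⊢
  rw [integral_prod _ hi]
  have : ∀ t : ℝ, ∫ q, F' (t, q) ∂(muI.prod muI) = 0 := by
    intro t
    rw [integral_prod_symm _ (integrable2 (by fun_prop))]
    have : ∀ y : ℝ, ∫ x, F' (t, x, y) ∂muI = 0 := fun y =>
      int_zero (fun x => hd t x y) (by fun_prop) (hp t y)
    simp [this]
  simp [this]

lemma int_dy {F F' : ℝ × ℝ × ℝ → ℂ}
    (hd : ∀ t x y, HasDerivAt (fun y => F (t, x, y)) (F' (t, x, y)) y)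
    (hc : Continuous F') (hp : ∀ t x, F (t, x, 1) = F (t, x, 0)) : ∫ p, F' p ∂muM = 0 := by
  have hi := integrable3 hc
  rw [muM_eq] at hi ⊢
  rw [integral_prod _ hi]
  have : ∀ t : ℝ, ∫ q, F' (t, q) ∂(muI.prod muI) = 0 := by
    intro t
    rw [integral_prod _ (integrable2 (by fun_prop))]
    have : ∀ x : ℝ, ∫ y, F' (t, x, y) ∂muI = 0 := fun x =>
      int_zero (fun y => hd t x y) (by fun_prop) (hp t x)
    simp [this]
  simp [this]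

lemma DM.hasFDeriv (u : DM) (p : ℝ × ℝ × ℝ) :
    HasFDerivAt (u : ℝ × ℝ × ℝ → Lam) (fderiv ℝ (u : ℝ × ℝ × ℝ → Lam) p) p :=
  (DM.diff u).differentiableAt.hasFDerivAt

lemma DM.per_t (u : DM) (q : ℝ × ℝ) : (u : ℝ × ℝ × ℝ → Lam) (1, q) = (u : ℝ × ℝ × ℝ → Lam) (0, q) := by
  have := (u.2.2 0 q.1 q.2).1
  rwa [zero_add] at this

lemma DM.per_x (u : DM) (t y : ℝ) :
    (u : ℝ × ℝ × ℝ → Lam) (t, 1, y) = (u : ℝ × ℝ × ℝ → Lam) (t, 0, y) := by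
  have := (u.2.2 t 0 y).2.1
  rwa [zero_add] at this

lemma DM.per_y (u : DM) (t x : ℝ) :
    (u : ℝ × ℝ × ℝ → Lam) (t, x, 1) = (u : ℝ × ℝ × ℝ → Lam) (t, x, 0) := by
  have := (u.2.2 t x 0).2.2
  rwa [zero_add] at this

lemma ibp_x (u v : DM) : ∫ p, ⟪dx u p, (v : ℝ × ℝ × ℝ → Lam) p⟫_ℂ ∂muM =
    - ∫ p, ⟪(u : ℝ × ℝ × ℝ → Lam) p, dx v p⟫_ℂ ∂muM := by
  have hc1 : Continuous (dx (u : ℝ × ℝ × ℝ → Lam)) := fd_cont u continuous_const
  have hc2 : Continuous (dx (v : ℝ × ℝ × ℝ → Lam)) := fd_cont v continuous_const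
  have hu := u.2.1.continuous
  have hv := v.2.1.continuous
  have h0 : ∫ p, (⟪(u : ℝ × ℝ × ℝ → Lam) p, dx v p⟫_ℂ +
      ⟪dx u p, (v : ℝ × ℝ × ℝ → Lam) p⟫_ℂ) ∂muM = 0 := by
    refine int_dx (F := fun p => ⟪(u : ℝ × ℝ × ℝ → Lam) p, (v : ℝ × ℝ × ℝ → Lam) p⟫_ℂ) ?_
      ((hu.inner hc2).add (hc1.inner hv)) ?_
    · intro t x y
      have hcurve : HasDerivAt (fun x : ℝ => ((t, x, y) : ℝ × ℝ × ℝ)) (0, 1, 0) x :=
        (hasDerivAt_const x t).prodMk ((hasDerivAt_id x).prodMk (hasDerivAt_const x y))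
      exact ((DM.hasFDeriv u (t, x, y)).comp_hasDerivAt x hcurve).inner ℂ
        ((DM.hasFDeriv v (t, x, y)).comp_hasDerivAt x hcurve)
    · intro t y
      simp only [DM.per_x]
  rw [integral_add (integrable3 (hu.inner hc2)) (integrable3 (hc1.inner hv))] at h0
  linear_combination h0

lemma ibp_y (u v : DM) : ∫ p, ⟪dy u p, (v : ℝ × ℝ × ℝ → Lam) p⟫_ℂ ∂muM =
    - ∫ p, ⟪(u : ℝ × ℝ × ℝ → Lam) p, dy v p⟫_ℂ ∂muM := by
  have hc1 : Continuous (dy (u : ℝ × ℝ × ℝ → Lam)) := fd_cont u continuous_const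
  have hc2 : Continuous (dy (v : ℝ × ℝ × ℝ → Lam)) := fd_cont v continuous_const
  have hu := u.2.1.continuous
  have hv := v.2.1.continuous
  have h0 : ∫ p, (⟪(u : ℝ × ℝ × ℝ → Lam) p, dy v p⟫_ℂ +
      ⟪dy u p, (v : ℝ × ℝ × ℝ → Lam) p⟫_ℂ) ∂muM = 0 := by
    refine int_dy (F := fun p => ⟪(u : ℝ × ℝ × ℝ → Lam) p, (v : ℝ × ℝ × ℝ → Lam) p⟫_ℂ) ?_
      ((hu.inner hc2).add (hc1.inner hv)) ?_
    · intro t x y
      have hcurve : HasDerivAt (fun y : ℝ => ((t, x, y) : ℝ × ℝ × ℝ)) (0, 0, 1) y :=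
        (hasDerivAt_const y t).prodMk ((hasDerivAt_const y x).prodMk (hasDerivAt_id y))
      exact ((DM.hasFDeriv u (t, x, y)).comp_hasDerivAt y hcurve).inner ℂ
        ((DM.hasFDeriv v (t, x, y)).comp_hasDerivAt y hcurve)
    · intro t x
      simp only [DM.per_y]
  rw [integral_add (integrable3 (hu.inner hc2)) (integrable3 (hc1.inner hv))] at h0
  linear_combination h0

lemma dX_eq (g : ℝ → ℝ) (u : ℝ × ℝ × ℝ → Lam) (p : ℝ × ℝ × ℝ) :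
    dX g u p = fderiv ℝ u p (1, 0, 0) + (g p.2.1 : ℂ) • dy u p := by
  have h1 : ((1, 0, g p.2.1) : ℝ × ℝ × ℝ) = (1, 0, 0) + g p.2.1 • (0, 0, 1) := by
    ext <;> simp
  unfold dX dy
  rw [h1, map_add, map_smul]
  rfl

lemma ibp_X {g : ℝ → ℝ} (hg : ContDiff ℝ ∞ g) (u v : DM) :
    ∫ p, ⟪dX g u p, (v : ℝ × ℝ × ℝ → Lam) p⟫_ℂ ∂muM =
    - ∫ p, ⟪(u : ℝ × ℝ × ℝ → Lam) p, dX g v p⟫_ℂ ∂muM := by
  have hgc := hg.continuous
  have hct1 : Continuous (fun p => fderiv ℝ (u : ℝ × ℝ × ℝ → Lam) p (1, 0, 0)) :=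
    fd_cont u continuous_const
  have hct2 : Continuous (fun p => fderiv ℝ (v : ℝ × ℝ × ℝ → Lam) p (1, 0, 0)) :=
    fd_cont v continuous_const
  have hc1 : Continuous (dy (u : ℝ × ℝ × ℝ → Lam)) := fd_cont u continuous_const
  have hc2 : Continuous (dy (v : ℝ × ℝ × ℝ → Lam)) := fd_cont v continuous_const
  have hX1 : Continuous (dX g (u : ℝ × ℝ × ℝ → Lam)) := fd_cont u (by fun_prop)
  have hX2 : Continuous (dX g (v : ℝ × ℝ × ℝ → Lam)) := fd_cont v (by fun_prop)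
  have hu := u.2.1.continuous
  have hv := v.2.1.continuous
  have h0 : ∫ p, (⟪(u : ℝ × ℝ × ℝ → Lam) p, fderiv ℝ (v : ℝ × ℝ × ℝ → Lam) p (1, 0, 0)⟫_ℂ +
      ⟪fderiv ℝ (u : ℝ × ℝ × ℝ → Lam) p (1, 0, 0), (v : ℝ × ℝ × ℝ → Lam) p⟫_ℂ) ∂muM = 0 := by
    refine int_dt (F := fun p => ⟪(u : ℝ × ℝ × ℝ → Lam) p, (v : ℝ × ℝ × ℝ → Lam) p⟫_ℂ) ?_
      ((hu.inner hct2).add (hct1.inner hv)) ?_
    · rintro t ⟨x, y⟩
      have hcurve : HasDerivAt (fun t : ℝ => ((t, x, y) : ℝ × ℝ × ℝ)) (1, 0, 0) t :=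
        (hasDerivAt_id t).prodMk ((hasDerivAt_const t x).prodMk (hasDerivAt_const t y))
      exact ((DM.hasFDeriv u (t, x, y)).comp_hasDerivAt t hcurve).inner ℂ
        ((DM.hasFDeriv v (t, x, y)).comp_hasDerivAt t hcurve)
    · intro q
      simp only [DM.per_t]
  have h1 : ∫ p, (g p.2.1 : ℂ) * (⟪(u : ℝ × ℝ × ℝ → Lam) p, dy v p⟫_ℂ +
      ⟪dy u p, (v : ℝ × ℝ × ℝ → Lam) p⟫_ℂ) ∂muM = 0 := by
    refine int_dy (F := fun p => (g p.2.1 : ℂ) *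
      ⟪(u : ℝ × ℝ × ℝ → Lam) p, (v : ℝ × ℝ × ℝ → Lam) p⟫_ℂ) ?_
      ((Complex.continuous_ofReal.comp (by fun_prop)).mul
        ((hu.inner hc2).add (hc1.inner hv))) ?_
    · intro t x y
      have hcurve : HasDerivAt (fun y : ℝ => ((t, x, y) : ℝ × ℝ × ℝ)) (0, 0, 1) y :=
        (hasDerivAt_const y t).prodMk ((hasDerivAt_const y x).prodMk (hasDerivAt_id y))
      exact (((DM.hasFDeriv u (t, x, y)).comp_hasDerivAt y hcurve).inner ℂ
        ((DM.hasFDeriv v (t, x, y)).comp_hasDerivAt y hcurve)).const_mul ((g x : ℝ) : ℂ)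
    · intro t x
      simp only [DM.per_y]
  have h2 : ∫ p, (⟪(u : ℝ × ℝ × ℝ → Lam) p, dX g v p⟫_ℂ +
      ⟪dX g u p, (v : ℝ × ℝ × ℝ → Lam) p⟫_ℂ) ∂muM = 0 := by
    have e1 : ∀ p, ⟪(u : ℝ × ℝ × ℝ → Lam) p, dX g v p⟫_ℂ +
        ⟪dX g u p, (v : ℝ × ℝ × ℝ → Lam) p⟫_ℂ =
        (⟪(u : ℝ × ℝ × ℝ → Lam) p, fderiv ℝ (v : ℝ × ℝ × ℝ → Lam) p (1, 0, 0)⟫_ℂ +
        ⟪fderiv ℝ (u : ℝ × ℝ × ℝ → Lam) p (1, 0, 0), (v : ℝ × ℝ × ℝ → Lam) p⟫_ℂ) +
        (g p.2.1 : ℂ) * (⟪(u : ℝ × ℝ × ℝ → Lam) p, dy v p⟫_ℂ +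
        ⟪dy u p, (v : ℝ × ℝ × ℝ → Lam) p⟫_ℂ) := by
      intro p
      rw [dX_eq, dX_eq, inner_add_right, inner_add_left, inner_smul_right, inner_smul_left,
        Complex.conj_ofReal]
      ring
    simp only [e1]
    have i1 : Integrable (fun p => ⟪(u : ℝ × ℝ × ℝ → Lam) p,
        fderiv ℝ (v : ℝ × ℝ × ℝ → Lam) p (1, 0, 0)⟫_ℂ +
        ⟪fderiv ℝ (u : ℝ × ℝ × ℝ → Lam) p (1, 0, 0), (v : ℝ × ℝ × ℝ → Lam) p⟫_ℂ) muM :=
      integrable3 ((hu.inner hct2).add (hct1.inner hv))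
    have i2 : Integrable (fun p => (g p.2.1 : ℂ) * (⟪(u : ℝ × ℝ × ℝ → Lam) p, dy v p⟫_ℂ +
        ⟪dy u p, (v : ℝ × ℝ × ℝ → Lam) p⟫_ℂ)) muM :=
      integrable3 ((Complex.continuous_ofReal.comp (by fun_prop)).mul
        ((hu.inner hc2).add (hc1.inner hv)))
    rw [integral_add i1 i2, h0, h1, add_zero]
  rw [integral_add (integrable3 (hu.inner hX2)) (integrable3 (hX1.inner hv))] at h2
  linear_combination h2

end Pool.Agent.H772R2
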