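import Pool.Agent.H772R2.San1

set_option autoImplicit false
set_option linter.all false
open scoped InnerProductSpace ENNReal ComplexConjugate ContDiff Topology
open ContinuousLinearMap MeasureTheory Set Filter
noncomputable section
namespace Pool.Agent.H772R2

lemma clmC {V : Type*} [NormedAddCommGroup V] [NormedSpace ℝ V] (A : Lam →L[ℂ] Lam) {u : V → Lam}
    (hu : ContDiff ℝ ∞ u) : ContDiff ℝ ∞ (fun p => A (u p)) :=
  (A.restrictScalars ℝ).contDiff.comp hu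

lemma Bz_adj (γ : ℝ) (a b : Lam) : ⟪Bz γ a, b⟫_ℂ = ⟪a, Bs γ b⟫_ℂ := by
  show ⟪(γ : ℂ) • ext 1 (int 2 a), b⟫_ℂ = ⟪a, (γ : ℂ) • ext 2 (int 1 b)⟫_ℂ
  rw [inner_smul_left, inner_smul_right, Complex.conj_ofReal, adjoint_ext, adjoint_int]

lemma Bs_int (γ : ℝ) (b : Lam) : Bs γ (int 0 b) = int 0 (Bs γ b) := by
  show (γ : ℂ) • ext 2 (int 1 (int 0 b)) = int 0 ((γ : ℂ) • ext 2 (int 1 b))
  rw [int_int 1 0 (by decide), map_neg, ext_int 2 0 (by decide), neg_neg, map_smul]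

lemma fd_per {u : ℝ × ℝ × ℝ → Lam} {a : ℝ × ℝ × ℝ} (h : ∀ p, u (p + a) = u p) (p : ℝ × ℝ × ℝ) :
    fderiv ℝ u (p + a) = fderiv ℝ u p := by
  have h1 : (fun p => u (p + a)) = u := funext h
  have h2 := fderiv_comp_add_right (𝕜 := ℝ) (f := u) (x := p) a
  rw [h1] at h2
  exact h2.symm

lemma DM.fd_t (u : DM) (t x y : ℝ) : fderiv ℝ (u : ℝ × ℝ × ℝ → Lam) (t + 1, x, y) =
    fderiv ℝ (u : ℝ × ℝ × ℝ → Lam) (t, x, y) := by
  have h := fd_per (u := u) (a := (1, 0, 0)) (fun p => by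
    obtain ⟨t, x, y⟩ := p
    have := (u.2.2 t x y).1
    simpa using this) (t, x, y)
  simpa using h

lemma DM.fd_x (u : DM) (t x y : ℝ) : fderiv ℝ (u : ℝ × ℝ × ℝ → Lam) (t, x + 1, y) =
    fderiv ℝ (u : ℝ × ℝ × ℝ → Lam) (t, x, y) := by
  have h := fd_per (u := u) (a := (0, 1, 0)) (fun p => by
    obtain ⟨t, x, y⟩ := p
    have := (u.2.2 t x y).2.1
    simpa using this) (t, x, y)
  simpa using h

lemma DM.fd_y (u : DM) (t x y : ℝ) : fderiv ℝ (u : ℝ × ℝ × ℝ → Lam) (t, x, y + 1) =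
    fderiv ℝ (u : ℝ × ℝ × ℝ → Lam) (t, x, y) := by
  have h := fd_per (u := u) (a := (0, 0, 1)) (fun p => by
    obtain ⟨t, x, y⟩ := p
    have := (u.2.2 t x y).2.2
    simpa using this) (t, x, y)
  simpa using h

lemma DM.fd_smooth (u : DM) {w : ℝ × ℝ × ℝ → ℝ × ℝ × ℝ} (hw : ContDiff ℝ ∞ w) :
    ContDiff ℝ ∞ (fun p => fderiv ℝ (u : ℝ × ℝ × ℝ → Lam) p (w p)) :=
  ((contDiff_infty_iff_fderiv.1 u.2.1).2).clm_apply hw

/-- a linear differential expression as a map of the smooth forms of the torus to themselves -/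
def mkD (P : (ℝ × ℝ × ℝ → Lam) → ℝ × ℝ × ℝ → Lam) (hs : ∀ u : DM, ContDiff ℝ ∞ (P u))
    (hp : ∀ (u : DM) t x y, P u (t + 1, x, y) = P u (t, x, y) ∧
      P u (t, x + 1, y) = P u (t, x, y) ∧ P u (t, x, y + 1) = P u (t, x, y))
    (ha : ∀ u v : DM, P ((u + v : DM) : ℝ × ℝ × ℝ → Lam) = P u + P v)
    (hm : ∀ (c : ℂ) (u : DM), P ((c • u : DM) : ℝ × ℝ × ℝ → Lam) = c • P u) : DM →ₗ[ℂ] DM where
  toFun u := ⟨P u, hs u, hp u⟩
  map_add' u v := Subtype.ext (ha u v)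
  map_smul' c u := Subtype.ext (hm c u)

/-- a constant coefficient endomorphism -/
def mapD (A : Lam →L[ℂ] Lam) (u : DM) : DM :=
  ⟨fun p => A ((u : ℝ × ℝ × ℝ → Lam) p), clmC A u.2.1, fun t x y => by
    obtain ⟨h1, h2, h3⟩ := u.2.2 t x y
    simp only [h1, h2, h3, and_self]⟩

lemma mapD_fd (A : Lam →L[ℂ] Lam) (u : DM) (p w : ℝ × ℝ × ℝ) :
    fderiv ℝ (mapD A u : ℝ × ℝ × ℝ → Lam) p w = A (fderiv ℝ (u : ℝ × ℝ × ℝ → Lam) p w) := by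
  have h1 : HasFDerivAt (mapD A u : ℝ × ℝ × ℝ → Lam)
      ((A.restrictScalars ℝ).comp (fderiv ℝ (u : ℝ × ℝ × ℝ → Lam) p)) p :=
    (A.restrictScalars ℝ).hasFDerivAt.comp p (DM.hasFDeriv u p)
  rw [h1.fderiv]; rfl

section maps
variable {g : ℝ → ℝ} (hg : ContDiff ℝ ∞ g) (hp : Function.Periodic g 1)

include hp in
lemma per_deriv : Function.Periodic (deriv g) 1 := by
  intro x
  have e1 : g = fun y => g (y + 1) := funext fun y => (hp y).symm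
  have e2 : deriv (fun y => g (y + 1)) x = deriv g (x + 1) := deriv_comp_add_const _ _ _
  rw [← e2, ← e1]

/-- `d_F` on the smooth forms of the torus -/
def mF : DM →ₗ[ℂ] DM := mkD (opF g)
  (fun u => by
    have h1 : ContDiff ℝ ∞ (deriv g) := (contDiff_infty_iff_deriv.1 hg).2
    have h2 : ContDiff ℝ ∞ (fun p : ℝ × ℝ × ℝ => Bz (deriv g p.2.1) ((u : ℝ × ℝ × ℝ → Lam) p)) := by
      show ContDiff ℝ ∞ (fun p : ℝ × ℝ × ℝ => ((deriv g p.2.1 : ℝ) : ℂ) •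
        ext 1 (int 2 ((u : ℝ × ℝ × ℝ → Lam) p)))
      exact (Complex.ofRealCLM.contDiff.comp (h1.comp (contDiff_fst.comp contDiff_snd))).smul
        (clmC _ (clmC _ u.2.1))
    have h3 : ContDiff ℝ ∞ (dX g u) := DM.fd_smooth u
      (contDiff_const.prodMk (contDiff_const.prodMk (hg.comp (contDiff_fst.comp contDiff_snd))))
    exact clmC (ext 0) (h3.add h2))
  (fun u t x y => by
    obtain ⟨h1, h2, h3⟩ := u.2.2 t x y
    have h4 := per_deriv hp x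
    have h5 := hp x
    simp only [opF, dX, h1, h2, h3, h4, h5, DM.fd_t, DM.fd_x, DM.fd_y, and_self])
  opF_add opF_smul

/-- `d_F^*` on the smooth forms of the torus -/
def mFs : DM →ₗ[ℂ] DM := mkD (opFs g)
  (fun u => by
    have h1 : ContDiff ℝ ∞ (deriv g) := (contDiff_infty_iff_deriv.1 hg).2
    have h2 : ContDiff ℝ ∞ (fun p : ℝ × ℝ × ℝ => Bs (deriv g p.2.1) ((u : ℝ × ℝ × ℝ → Lam) p)) := by
      show ContDiff ℝ ∞ (fun p : ℝ × ℝ × ℝ => ((deriv g p.2.1 : ℝ) : ℂ) •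
        ext 2 (int 1 ((u : ℝ × ℝ × ℝ → Lam) p)))
      exact (Complex.ofRealCLM.contDiff.comp (h1.comp (contDiff_fst.comp contDiff_snd))).smul
        (clmC _ (clmC _ u.2.1))
    have h3 : ContDiff ℝ ∞ (dX g u) := DM.fd_smooth u
      (contDiff_const.prodMk (contDiff_const.prodMk (hg.comp (contDiff_fst.comp contDiff_snd))))
    exact (clmC (int 0) (h3.sub h2)).neg)
  (fun u t x y => by
    obtain ⟨h1, h2, h3⟩ := u.2.2 t x y
    have h4 := per_deriv hp x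
    have h5 := hp x
    simp only [opFs, dX, h1, h2, h3, h4, h5, DM.fd_t, DM.fd_x, DM.fd_y, and_self])
  opFs_add opFs_smul

/-- `d_H` on the smooth forms of the torus -/
def mH : DM →ₗ[ℂ] DM := mkD opH
  (fun u => (clmC (ext 1) (DM.fd_smooth u contDiff_const)).add
    (clmC (ext 2) (DM.fd_smooth u contDiff_const)))
  (fun u t x y => by
    simp only [opH, dx, dy, DM.fd_t, DM.fd_x, DM.fd_y, and_self])
  opH_add opH_smul

/-- `d_H^*` on the smooth forms of the torus -/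
def mHs : DM →ₗ[ℂ] DM := mkD opHs
  (fun u => ((clmC (int 1) (DM.fd_smooth u contDiff_const)).add
    (clmC (int 2) (DM.fd_smooth u contDiff_const))).neg)
  (fun u t x y => by
    simp only [opHs, dx, dy, DM.fd_t, DM.fd_x, DM.fd_y, and_self])
  opHs_add opHs_smul

/-- `d_F^*` is the formal adjoint of `d_F` -/
theorem mF_adj (u v : DM) : ⟪iM (mF hg hp u), iM v⟫_ℂ = ⟪iM u, iM (mFs hg hp v)⟫_ℂ := by
  rw [iM_inner, iM_inner]
  have hgc := hg.continuous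
  have hgd : Continuous (deriv g) := hg.continuous_deriv (by simp)
  have hX1 : Continuous (dX g (u : ℝ × ℝ × ℝ → Lam)) := fd_cont u (by fun_prop)
  have hX2 : Continuous (dX g (v : ℝ × ℝ × ℝ → Lam)) := fd_cont v (by fun_prop)
  have hu := u.2.1.continuous
  have hv := v.2.1.continuous
  have hB : Continuous (fun p : ℝ × ℝ × ℝ => Bs (deriv g p.2.1) ((v : ℝ × ℝ × ℝ → Lam) p)) :=
    Bs_cont (by fun_prop) hv
  have e1 : ∀ p, ⟪(mF hg hp u : ℝ × ℝ × ℝ → Lam) p, (v : ℝ × ℝ × ℝ → Lam) p⟫_ℂ =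
      ⟪dX g u p, (mapD (int 0) v : ℝ × ℝ × ℝ → Lam) p⟫_ℂ +
      ⟪(u : ℝ × ℝ × ℝ → Lam) p, int 0 (Bs (deriv g p.2.1) ((v : ℝ × ℝ × ℝ → Lam) p))⟫_ℂ := by
    intro p
    show ⟪ext 0 (dX g u p + Bz (deriv g p.2.1) ((u : ℝ × ℝ × ℝ → Lam) p)),
      (v : ℝ × ℝ × ℝ → Lam) p⟫_ℂ = ⟪dX g u p, int 0 ((v : ℝ × ℝ × ℝ → Lam) p)⟫_ℂ + _
    rw [adjoint_ext, inner_add_left, Bz_adj, Bs_int]
  have e2 : ∀ p, ⟪(u : ℝ × ℝ × ℝ → Lam) p, (mFs hg hp v : ℝ × ℝ × ℝ → Lam) p⟫_ℂ =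
      - ⟪(u : ℝ × ℝ × ℝ → Lam) p, dX g (mapD (int 0) v) p⟫_ℂ +
      ⟪(u : ℝ × ℝ × ℝ → Lam) p, int 0 (Bs (deriv g p.2.1) ((v : ℝ × ℝ × ℝ → Lam) p))⟫_ℂ := by
    intro p
    show ⟪(u : ℝ × ℝ × ℝ → Lam) p,
      - int 0 (dX g v p - Bs (deriv g p.2.1) ((v : ℝ × ℝ × ℝ → Lam) p))⟫_ℂ = _
    have h3 : dX g (mapD (int 0) v) p = int 0 (dX g v p) := mapD_fd _ _ _ _
    rw [h3, inner_neg_right, map_sub, inner_sub_right]
    ring
  simp only [e1, e2]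
  have c1 : Continuous (fun p => ⟪(u : ℝ × ℝ × ℝ → Lam) p,
      int 0 (Bs (deriv g p.2.1) ((v : ℝ × ℝ × ℝ → Lam) p))⟫_ℂ) :=
    hu.inner ((int 0).continuous.comp hB)
  have c2 : Continuous (fun p => ⟪dX g u p, (mapD (int 0) v : ℝ × ℝ × ℝ → Lam) p⟫_ℂ) :=
    hX1.inner (mapD (int 0) v).2.1.continuous
  have c3 : Continuous (fun p => ⟪(u : ℝ × ℝ × ℝ → Lam) p, dX g (mapD (int 0) v) p⟫_ℂ) :=
    hu.inner (fd_cont (mapD (int 0) v) (by fun_prop))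
  have c3' : Continuous (fun p => - ⟪(u : ℝ × ℝ × ℝ → Lam) p, dX g (mapD (int 0) v) p⟫_ℂ) := c3.neg
  rw [integral_add (integrable3 c2) (integrable3 c1),
    integral_add (integrable3 c3') (integrable3 c1), integral_neg, ibp_X hg]

/-- `d_H^*` is the formal adjoint of `d_H` -/
theorem mH_adj (u v : DM) : ⟪iM (mH u), iM v⟫_ℂ = ⟪iM u, iM (mHs v)⟫_ℂ := by
  rw [iM_inner, iM_inner]
  have hu := u.2.1.continuous
  have e1 : ∀ p, ⟪(mH u : ℝ × ℝ × ℝ → Lam) p, (v : ℝ × ℝ × ℝ → Lam) p⟫_ℂ =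
      ⟪dx u p, (mapD (int 1) v : ℝ × ℝ × ℝ → Lam) p⟫_ℂ +
      ⟪dy u p, (mapD (int 2) v : ℝ × ℝ × ℝ → Lam) p⟫_ℂ := by
    intro p
    show ⟪ext 1 (dx u p) + ext 2 (dy u p), (v : ℝ × ℝ × ℝ → Lam) p⟫_ℂ = _
    rw [inner_add_left, adjoint_ext, adjoint_ext]
    rfl
  have e2 : ∀ p, ⟪(u : ℝ × ℝ × ℝ → Lam) p, (mHs v : ℝ × ℝ × ℝ → Lam) p⟫_ℂ =
      - ⟪(u : ℝ × ℝ × ℝ → Lam) p, dx (mapD (int 1) v) p⟫_ℂ +
      - ⟪(u : ℝ × ℝ × ℝ → Lam) p, dy (mapD (int 2) v) p⟫_ℂ := by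
    intro p
    show ⟪(u : ℝ × ℝ × ℝ → Lam) p, - (int 1 (dx v p) + int 2 (dy v p))⟫_ℂ = _
    have h3 : dx (mapD (int 1) v) p = int 1 (dx v p) := mapD_fd _ _ _ _
    have h4 : dy (mapD (int 2) v) p = int 2 (dy v p) := mapD_fd _ _ _ _
    rw [h3, h4, inner_neg_right, inner_add_right]
    ring
  simp only [e1, e2]
  have c1 : Continuous (fun p => ⟪dx u p, (mapD (int 1) v : ℝ × ℝ × ℝ → Lam) p⟫_ℂ) :=
    (fd_cont u continuous_const).inner (mapD (int 1) v).2.1.continuous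
  have c2 : Continuous (fun p => ⟪dy u p, (mapD (int 2) v : ℝ × ℝ × ℝ → Lam) p⟫_ℂ) :=
    (fd_cont u continuous_const).inner (mapD (int 2) v).2.1.continuous
  have c3 : Continuous (fun p => ⟪(u : ℝ × ℝ × ℝ → Lam) p, dx (mapD (int 1) v) p⟫_ℂ) :=
    hu.inner (fd_cont (mapD (int 1) v) continuous_const)
  have c4 : Continuous (fun p => ⟪(u : ℝ × ℝ × ℝ → Lam) p, dy (mapD (int 2) v) p⟫_ℂ) :=
    hu.inner (fd_cont (mapD (int 2) v) continuous_const)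
  have c3' : Continuous (fun p => - ⟪(u : ℝ × ℝ × ℝ → Lam) p, dx (mapD (int 1) v) p⟫_ℂ) := c3.neg
  have c4' : Continuous (fun p => - ⟪(u : ℝ × ℝ × ℝ → Lam) p, dy (mapD (int 2) v) p⟫_ℂ) := c4.neg
  rw [integral_add (integrable3 c1) (integrable3 c2),
    integral_add (integrable3 c3') (integrable3 c4'), integral_neg, integral_neg,
    ibp_x, ibp_y]

lemma mF_adj' (u v : DM) : ⟪iM (mFs hg hp u), iM v⟫_ℂ = ⟪iM u, iM (mF hg hp v)⟫_ℂ := by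
  rw [← inner_conj_symm, ← mF_adj, inner_conj_symm]

lemma mH_adj' (u v : DM) : ⟪iM (mHs u), iM v⟫_ℂ = ⟪iM u, iM (mH v)⟫_ℂ := by
  rw [← inner_conj_symm, ← mH_adj, inner_conj_symm]

/-- `Δ_F + h² Δ_H` on the smooth forms of the torus, with `Δ_F = d_F d_F^* + d_F^* d_F` and
`Δ_H = d_H d_H^* + d_H^* d_H` -/
def DeltaM (h : ℝ) : DM →ₗ[ℂ] DM :=
  (mF hg hp ∘ₗ mFs hg hp + mFs hg hp ∘ₗ mF hg hp) +
    ((h : ℂ) ^ 2) • (mH ∘ₗ mHs + mHs ∘ₗ mH)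

/-- `D_F + h D_H` on the smooth forms of the torus, with `D_F = d_F + d_F^*` and
`D_H = d_H + d_H^*` -/
def SigM (h : ℝ) : DM →ₗ[ℂ] DM :=
  (mF hg hp + mFs hg hp) + (h : ℂ) • (mH + mHs)

lemma lapOp_inner (h : ℝ) (u v : DM) : ⟪lapOp g hg h u, lapOp g hg h v⟫_ℂ =
    ⟪iM (DeltaM hg hp h u), iM v⟫_ℂ := by
  have h1 : ⟪lapOp g hg h u, lapOp g hg h v⟫_ℂ =
      ⟪iM (mF hg hp u), iM (mF hg hp v)⟫_ℂ + ⟪iM (mFs hg hp u), iM (mFs hg hp v)⟫_ℂ +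
      (h : ℂ) ^ 2 * ⟪iM (mH u), iM (mH v)⟫_ℂ + (h : ℂ) ^ 2 * ⟪iM (mHs u), iM (mHs v)⟫_ℂ := by
    rw [iM_inner, iM_inner, iM_inner, iM_inner]
    have h2 : ⟪lapOp g hg h u, lapOp g hg h v⟫_ℂ = ∫ p, ⟪lapP g h u p, lapP g h v p⟫_ℂ ∂muM :=
      mkOp_inner _ _ _ _ u v
    rw [h2, ← integral_const_mul, ← integral_const_mul]
    have c1 : Continuous (fun p => ⟪(mF hg hp u : ℝ × ℝ × ℝ → Lam) p,
      (mF hg hp v : ℝ × ℝ × ℝ → Lam) p⟫_ℂ) :=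
      (mF hg hp u).2.1.continuous.inner (mF hg hp v).2.1.continuous
    have c2 : Continuous (fun p => ⟪(mFs hg hp u : ℝ × ℝ × ℝ → Lam) p,
      (mFs hg hp v : ℝ × ℝ × ℝ → Lam) p⟫_ℂ) :=
      (mFs hg hp u).2.1.continuous.inner (mFs hg hp v).2.1.continuous
    have c3 : Continuous (fun p => (h : ℂ) ^ 2 * ⟪(mH u : ℝ × ℝ × ℝ → Lam) p,
      (mH v : ℝ × ℝ × ℝ → Lam) p⟫_ℂ) :=
      continuous_const.mul ((mH u).2.1.continuous.inner (mH v).2.1.continuous)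
    have c4 : Continuous (fun p => (h : ℂ) ^ 2 * ⟪(mHs u : ℝ × ℝ × ℝ → Lam) p,
      (mHs v : ℝ × ℝ × ℝ → Lam) p⟫_ℂ) :=
      continuous_const.mul ((mHs u).2.1.continuous.inner (mHs v).2.1.continuous)
    have c12 : Continuous (fun p => ⟪(mF hg hp u : ℝ × ℝ × ℝ → Lam) p,
      (mF hg hp v : ℝ × ℝ × ℝ → Lam) p⟫_ℂ + ⟪(mFs hg hp u : ℝ × ℝ × ℝ → Lam) p,
      (mFs hg hp v : ℝ × ℝ × ℝ → Lam) p⟫_ℂ) := c1.add c2
    have c123 : Continuous (fun p => ⟪(mF hg hp u : ℝ × ℝ × ℝ → Lam) p,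
      (mF hg hp v : ℝ × ℝ × ℝ → Lam) p⟫_ℂ + ⟪(mFs hg hp u : ℝ × ℝ × ℝ → Lam) p,
      (mFs hg hp v : ℝ × ℝ × ℝ → Lam) p⟫_ℂ + (h : ℂ) ^ 2 * ⟪(mH u : ℝ × ℝ × ℝ → Lam) p,
      (mH v : ℝ × ℝ × ℝ → Lam) p⟫_ℂ) := c12.add c3
    rw [← integral_add (integrable3 c1) (integrable3 c2),
      ← integral_add (integrable3 c12) (integrable3 c3),
      ← integral_add (integrable3 c123) (integrable3 c4)]
    refine integral_congr_ae (Eventually.of_forall fun p => ?_)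
    beta_reduce
    rw [PiLp.inner_apply, Fin.sum_univ_four]
    show ⟪opF g u p, opF g v p⟫_ℂ + ⟪opFs g u p, opFs g v p⟫_ℂ +
      ⟪(h : ℂ) • opH u p, (h : ℂ) • opH v p⟫_ℂ + ⟪(h : ℂ) • opHs u p, (h : ℂ) • opHs v p⟫_ℂ = _
    rw [inner_smul_left, inner_smul_right, inner_smul_left, inner_smul_right, Complex.conj_ofReal,
      ← mul_assoc, ← mul_assoc, ← sq]
    rfl
  rw [h1, ← mF_adj' hg hp (mF hg hp u) v, ← mF_adj hg hp (mFs hg hp u) v, ← mH_adj' (mH u) v,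
    ← mH_adj (mHs u) v]
  have h3 : DeltaM hg hp h u = (mF hg hp (mFs hg hp u) + mFs hg hp (mF hg hp u)) +
    ((h : ℂ) ^ 2) • (mH (mHs u) + mHs (mH u)) := rfl
  rw [h3, map_add, map_add, map_smul, map_add, inner_add_left, inner_add_left, inner_smul_left,
    inner_add_left, map_pow, Complex.conj_ofReal]
  ring

/-- the resolvent used to define the functional calculus inverts `1 + Δ_F + h² Δ_H` -/
theorem resolv_lap (h : ℝ) (u : DM) :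
    resolv iM (lapOp g hg h) (iM (u + DeltaM hg hp h u)) = iM u := by
  rw [map_add]
  exact resolv_apply iM (lapOp g hg h) u _ fun v => lapOp_inner hg hp h u v

lemma sigOp_eq (h : ℝ) (u : DM) : sigOp g hg h u = iM (SigM hg hp h u) := rfl

/-- `D_F + h D_H` is symmetric -/
theorem SigM_symm (h : ℝ) (u v : DM) :
    ⟪iM (SigM hg hp h u), iM v⟫_ℂ = ⟪iM u, iM (SigM hg hp h v)⟫_ℂ := by
  have h1 : ∀ u, SigM hg hp h u = (mF hg hp u + mFs hg hp u) + (h : ℂ) • (mH u + mHs u) :=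
    fun u => rfl
  rw [h1, h1]
  simp only [map_add, map_smul, inner_add_left, inner_add_right, inner_smul_left,
    inner_smul_right, Complex.conj_ofReal, mF_adj, mF_adj', mH_adj, mH_adj']
  ring

/-- the resolvent used to define the functional calculus inverts `1 + (D_F + h D_H)²` -/
theorem resolv_sig (h : ℝ) (u : DM) :
    resolv iM (sigOp g hg h) (iM (u + SigM hg hp h (SigM hg hp h u))) = iM u := by
  rw [map_add]
  refine resolv_apply iM (sigOp g hg h) u _ fun v => ?_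
  rw [sigOp_eq hg hp, sigOp_eq hg hp, SigM_symm hg hp h (SigM hg hp h u) v]

end maps

end Pool.Agent.H772R2
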