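import Pool.Agent.H772R2.San2

set_option autoImplicit false
set_option linter.all false
open scoped InnerProductSpace ENNReal ComplexConjugate ContDiff Topology
open ContinuousLinearMap MeasureTheory Set Filter
noncomputable section
namespace Pool.Agent.H772R2

/-- an endomorphism with constant coefficients on the line -/
def mapL (A : Lam →L[ℂ] Lam) : DL →ₗ[ℂ] DL where
  toFun φ := ⟨fun r => A ((φ : ℝ → Lam) r), clmC A φ.2.1, by
    refine φ.2.2.mono fun r hr => ?_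
    rw [Function.mem_support] at hr ⊢
    intro h0; apply hr
    show A ((φ : ℝ → Lam) r) = 0
    rw [h0, map_zero]⟩
  map_add' φ ψ := Subtype.ext (funext fun r => map_add A _ _)
  map_smul' c φ := Subtype.ext (funext fun r => map_smul A _ _)

/-- the derivative as a linear map of the test functions -/
def dDl : DL →ₗ[ℂ] DL where
  toFun φ := dD φ
  map_add' φ ψ := Subtype.ext (funext fun r => deriv_add
    (φ.2.1.differentiable (by simp)).differentiableAt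
    (ψ.2.1.differentiable (by simp)).differentiableAt)
  map_smul' c φ := Subtype.ext (funext fun r => deriv_const_smul c
    (φ.2.1.differentiable (by simp)).differentiableAt)

/-- multiplication by a smooth real function -/
def mulDl (χ : ℝ → ℝ) (hχ : ContDiff ℝ ∞ χ) : DL →ₗ[ℂ] DL where
  toFun φ := mulD χ hχ φ
  map_add' φ ψ := Subtype.ext (funext fun r => smul_add _ _ _)
  map_smul' c φ := Subtype.ext (funext fun r => by
    show χ r • (c • (φ : ℝ → Lam) r) = c • (χ r • (φ : ℝ → Lam) r)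
    exact smul_comm _ _ _)

lemma ibp_line (φ ψ : DL) : ⟪iL (dDl φ), iL ψ⟫_ℂ = - ⟪iL φ, iL (dDl ψ)⟫_ℂ := by
  rw [iL_inner, iL_inner]
  have hφ := φ.2.1.continuous
  have hψ := ψ.2.1.continuous
  have hφ' := (dD φ).2.1.continuous
  have hψ' := (dD ψ).2.1.continuous
  have hs : ∀ (F : ℝ → ℂ), (∀ r, (ψ : ℝ → Lam) r = 0 → (dD ψ : ℝ → Lam) r = 0 → F r = 0) →
      HasCompactSupport F := by
    intro F hF
    refine HasCompactSupport.intro (K := tsupport (ψ : ℝ → Lam)) ψ.2.2 fun r hr => ?_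
    have h1 : (ψ : ℝ → Lam) r = 0 := image_eq_zero_of_notMem_tsupport hr
    have h2 : deriv (ψ : ℝ → Lam) r = 0 := by
      have : r ∉ tsupport (deriv (ψ : ℝ → Lam)) := fun h => hr (tsupport_deriv_subset h)
      exact image_eq_zero_of_notMem_tsupport this
    exact hF r h1 h2
  have i0 : Integrable (fun r => ⟪(φ : ℝ → Lam) r, (ψ : ℝ → Lam) r⟫_ℂ) :=
    (hφ.inner hψ).integrable_of_hasCompactSupport (hs _ fun r h _ => by simp [h])
  have i1 : Integrable (fun r => ⟪(φ : ℝ → Lam) r, (dD ψ : ℝ → Lam) r⟫_ℂ) :=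
    (hφ.inner hψ').integrable_of_hasCompactSupport (hs _ fun r _ h => by simp [h])
  have i2 : Integrable (fun r => ⟪(dD φ : ℝ → Lam) r, (ψ : ℝ → Lam) r⟫_ℂ) :=
    (hφ'.inner hψ).integrable_of_hasCompactSupport (hs _ fun r h _ => by simp [h])
  have h0 := integral_eq_zero_of_hasDerivAt_of_integrable
    (fun r => (hasDerivAt_DL φ r).inner ℂ (hasDerivAt_DL ψ r)) (i1.add i2) i0
  rw [integral_add i1 i2] at h0
  show ∫ r, ⟪(dD φ : ℝ → Lam) r, (ψ : ℝ → Lam) r⟫_ℂ = - ∫ r, ⟪(φ : ℝ → Lam) r, (dD ψ : ℝ → Lam) r⟫_ℂ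
  linear_combination h0

section leaf
variable (g : ℝ → ℝ) (ν : Ph)

/-- the pullback of `d_F` to the leaf through `ν` -/
def lF : DL →ₗ[ℂ] DL := mapL (ext 0) ∘ₗ (dDl + mapL (Bz (deriv g ν.1.2.1)))

/-- the pullback of `d_F^*` to the leaf through `ν` -/
def lFs : DL →ₗ[ℂ] DL := - (mapL (int 0) ∘ₗ (dDl - mapL (Bs (deriv g ν.1.2.1))))

lemma gN_smooth : ContDiff ℝ ∞ (fun r => gN (flow g r ν)) := by
  unfold gN flow
  fun_prop

/-- multiplication by `g_N` along the leaf through `ν` -/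
def lV : DL →ₗ[ℂ] DL := mulDl (fun r => gN (flow g r ν)) (gN_smooth g ν)

/-- multiplication by the transverse symbol `σ(D_H)` along the leaf through `ν` -/
def lS : DL →ₗ[ℂ] DL :=
  mapL (Complex.I • cl 1) ∘ₗ mulDl (fun r => (flow g r ν).2.1) (by unfold flow; fun_prop) +
  mapL (Complex.I • cl 2) ∘ₗ mulDl (fun r => (flow g r ν).2.2) (by unfold flow; fun_prop)

lemma lF_apply (φ : DL) (r : ℝ) : (lF g ν φ : ℝ → Lam) r =
    ext 0 (deriv (φ : ℝ → Lam) r + Bz (deriv g ν.1.2.1) ((φ : ℝ → Lam) r)) := rfl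

lemma lFs_apply (φ : DL) (r : ℝ) : (lFs g ν φ : ℝ → Lam) r =
    - int 0 (deriv (φ : ℝ → Lam) r - Bs (deriv g ν.1.2.1) ((φ : ℝ → Lam) r)) := rfl

lemma lV_apply (φ : DL) (r : ℝ) : (lV g ν φ : ℝ → Lam) r = gN (flow g r ν) • (φ : ℝ → Lam) r := rfl

lemma lS_apply (φ : DL) (r : ℝ) : (lS g ν φ : ℝ → Lam) r =
    sym (flow g r ν).2.1 (flow g r ν).2.2 ((φ : ℝ → Lam) r) := by
  show Complex.I • cl 1 ((flow g r ν).2.1 • (φ : ℝ → Lam) r) +
    Complex.I • cl 2 ((flow g r ν).2.2 • (φ : ℝ → Lam) r) = _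
  rw [sym_apply, smul_add, ContinuousLinearMap.map_smul_of_tower,
    ContinuousLinearMap.map_smul_of_tower]
  rfl

/-- `lF` is the pullback of `d_F` along `r ↦ π (flow g r ν)` -/
theorem pullback_F {U : ℝ × ℝ × ℝ → Lam} (hU : Differentiable ℝ U) (r : ℝ) :
    opF g U (flow g r ν).1 = ext 0 (deriv (fun r => U (flow g r ν).1) r +
      Bz (deriv g ν.1.2.1) (U (flow g r ν).1)) := by
  obtain ⟨⟨t, x, y⟩, ξ, η⟩ := ν
  have hcurve : HasDerivAt (fun r : ℝ => ((t + r, x, y + r * g x) : ℝ × ℝ × ℝ)) (1, 0, g x) r := by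
    refine ((hasDerivAt_id r).const_add t).prodMk ((hasDerivAt_const r x).prodMk ?_)
    simpa using ((hasDerivAt_id r).mul_const (g x)).const_add y
  have h1 := (hU (t + r, x, y + r * g x)).hasFDerivAt.comp_hasDerivAt r hcurve
  have h2 : deriv (fun r => U (flow g r ((t, x, y), ξ, η)).1) r =
    fderiv ℝ U (t + r, x, y + r * g x) (1, 0, g x) := h1.deriv
  rw [h2]
  rfl

/-- `lFs` is the pullback of `d_F^*` along `r ↦ π (flow g r ν)` -/
theorem pullback_Fs {U : ℝ × ℝ × ℝ → Lam} (hU : Differentiable ℝ U) (r : ℝ) :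
    opFs g U (flow g r ν).1 = - int 0 (deriv (fun r => U (flow g r ν).1) r -
      Bs (deriv g ν.1.2.1) (U (flow g r ν).1)) := by
  obtain ⟨⟨t, x, y⟩, ξ, η⟩ := ν
  have hcurve : HasDerivAt (fun r : ℝ => ((t + r, x, y + r * g x) : ℝ × ℝ × ℝ)) (1, 0, g x) r := by
    refine ((hasDerivAt_id r).const_add t).prodMk ((hasDerivAt_const r x).prodMk ?_)
    simpa using ((hasDerivAt_id r).mul_const (g x)).const_add y
  have h1 := (hU (t + r, x, y + r * g x)).hasFDerivAt.comp_hasDerivAt r hcurve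
  have h2 : deriv (fun r => U (flow g r ((t, x, y), ξ, η)).1) r =
    fderiv ℝ U (t + r, x, y + r * g x) (1, 0, g x) := h1.deriv
  rw [h2]
  rfl

lemma iL_map_adj {A B : Lam →L[ℂ] Lam} (h : ∀ a b, ⟪A a, b⟫_ℂ = ⟪a, B b⟫_ℂ) (φ ψ : DL) :
    ⟪iL (mapL A φ), iL ψ⟫_ℂ = ⟪iL φ, iL (mapL B ψ)⟫_ℂ := by
  rw [iL_inner, iL_inner]
  refine integral_congr_ae (Eventually.of_forall fun r => h _ _)

lemma dDl_map (A : Lam →L[ℂ] Lam) (φ : DL) : dDl (mapL A φ) = mapL A (dDl φ) := by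
  refine Subtype.ext (funext fun r => ?_)
  have h1 : HasDerivAt (fun r => A ((φ : ℝ → Lam) r)) (A ((dD φ : ℝ → Lam) r)) r :=
    (A.restrictScalars ℝ).hasFDerivAt.comp_hasDerivAt r (hasDerivAt_DL φ r)
  exact h1.deriv

lemma lF_adj (φ ψ : DL) : ⟪iL (lF g ν φ), iL ψ⟫_ℂ = ⟪iL φ, iL (lFs g ν ψ)⟫_ℂ := by
  have h1 : lF g ν φ = mapL (ext 0) (dDl φ) + mapL (ext 0) (mapL (Bz (deriv g ν.1.2.1)) φ) := by
    show mapL (ext 0) (dDl φ + mapL (Bz (deriv g ν.1.2.1)) φ) = _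
    rw [map_add]
  have h2 : lFs g ν ψ = - dDl (mapL (int 0) ψ) + mapL (Bs (deriv g ν.1.2.1)) (mapL (int 0) ψ) := by
    show - (mapL (int 0) (dDl ψ - mapL (Bs (deriv g ν.1.2.1)) ψ)) = _
    rw [map_sub, dDl_map]
    have h3 : mapL (int 0) (mapL (Bs (deriv g ν.1.2.1)) ψ) =
        mapL (Bs (deriv g ν.1.2.1)) (mapL (int 0) ψ) :=
      Subtype.ext (funext fun r => (Bs_int _ _).symm)
    rw [h3]
    abel
  rw [h1, h2, map_add, inner_add_left, iL_map_adj (adjoint_ext 0), iL_map_adj (adjoint_ext 0),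
    iL_map_adj (Bz_adj _), ibp_line, map_add, inner_add_right, map_neg, inner_neg_right]

lemma lF_adj' (φ ψ : DL) : ⟪iL (lFs g ν φ), iL ψ⟫_ℂ = ⟪iL φ, iL (lF g ν ψ)⟫_ℂ := by
  rw [← inner_conj_symm, ← lF_adj, inner_conj_symm]

/-- `Δ_{F_N} + g_N` on the leaf through `ν` -/
def DeltaL : DL →ₗ[ℂ] DL := (lF g ν ∘ₗ lFs g ν + lFs g ν ∘ₗ lF g ν) + lV g ν

/-- `D_{F_N} + σ(D_H)` on the leaf through `ν` -/
def SigL : DL →ₗ[ℂ] DL := (lF g ν + lFs g ν) + lS g ν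

lemma leafLap_inner (φ ψ : DL) : ⟪leafLap g ν φ, leafLap g ν ψ⟫_ℂ =
    ⟪iL (DeltaL g ν φ), iL ψ⟫_ℂ := by
  have h1 : ⟪leafLap g ν φ, leafLap g ν ψ⟫_ℂ =
      ⟪iL (lF g ν φ), iL (lF g ν ψ)⟫_ℂ + ⟪iL (lFs g ν φ), iL (lFs g ν ψ)⟫_ℂ +
      ⟪iL (lV g ν φ), iL ψ⟫_ℂ := by
    rw [iL_inner, iL_inner, iL_inner]
    have h2 : ⟪leafLap g ν φ, leafLap g ν ψ⟫_ℂ = _ := lineOp_inner _ _ _ φ ψ
    rw [h2]
    have hs : ∀ (F : DL) (G : ℝ → Lam), HasCompactSupport (fun r => ⟪(F : ℝ → Lam) r, G r⟫_ℂ) := by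
      intro F G
      refine F.2.2.mono fun r hr => ?_
      rw [Function.mem_support] at hr ⊢
      intro h0; apply hr
      show ⟪(F : ℝ → Lam) r, G r⟫_ℂ = 0
      rw [h0, inner_zero_left]
    have i1 : Integrable (fun r => ⟪(lF g ν φ : ℝ → Lam) r, (lF g ν ψ : ℝ → Lam) r⟫_ℂ) :=
      ((lF g ν φ).2.1.continuous.inner (lF g ν ψ).2.1.continuous).integrable_of_hasCompactSupport
        (hs _ _)
    have i2 : Integrable (fun r => ⟪(lFs g ν φ : ℝ → Lam) r, (lFs g ν ψ : ℝ → Lam) r⟫_ℂ) :=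
      ((lFs g ν φ).2.1.continuous.inner (lFs g ν ψ).2.1.continuous).integrable_of_hasCompactSupport
        (hs _ _)
    have i3 : Integrable (fun r => ⟪(lV g ν φ : ℝ → Lam) r, (ψ : ℝ → Lam) r⟫_ℂ) :=
      ((lV g ν φ).2.1.continuous.inner ψ.2.1.continuous).integrable_of_hasCompactSupport
        (hs _ _)
    have i12 : Integrable (fun r => ⟪(lF g ν φ : ℝ → Lam) r, (lF g ν ψ : ℝ → Lam) r⟫_ℂ +
      ⟪(lFs g ν φ : ℝ → Lam) r, (lFs g ν ψ : ℝ → Lam) r⟫_ℂ) := i1.add i2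
    rw [← integral_add i1 i2, ← integral_add i12 i3]
    refine integral_congr_ae (Eventually.of_forall fun r => ?_)
    beta_reduce
    have hpos : 0 ≤ gN (flow g r ν) := by unfold gN; positivity
    set a := deriv (φ : ℝ → Lam) r with ha
    set b := (φ : ℝ → Lam) r with hb
    set a' := deriv (ψ : ℝ → Lam) r with ha'
    set b' := (ψ : ℝ → Lam) r with hb'
    have e1 : ∀ (a b : Lam), lapA a + lapCoef g (flow g r ν) b =
        WithLp.toLp 2 ![ext 0 (a + Bz (deriv g ν.1.2.1) b), - int 0 (a - Bs (deriv g ν.1.2.1) b),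
          (Real.sqrt (gN (flow g r ν)) : ℂ) • b] := by
      intro a b
      unfold lapA lapCoef
      rw [trip_apply, trip_apply]
      refine WithLp.ofLp_injective 2 (funext fun i => ?_)
      fin_cases i
      · show ext 0 a + ext 0 (Bz (deriv g ν.1.2.1) b) = ext 0 (a + Bz (deriv g ν.1.2.1) b)
        rw [map_add]
      · show - int 0 a + int 0 (Bs (deriv g ν.1.2.1) b) = - int 0 (a - Bs (deriv g ν.1.2.1) b)
        rw [map_sub]; abel
      · show (0 : Lam) + (Real.sqrt (gN (flow g r ν)) : ℂ) • b = _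
        rw [zero_add]; rfl
    have e2 : lineT lapA (fun r => lapCoef g (flow g r ν)) φ r = lapA a + lapCoef g (flow g r ν) b :=
      rfl
    have e3 : lineT lapA (fun r => lapCoef g (flow g r ν)) ψ r =
      lapA a' + lapCoef g (flow g r ν) b' := rfl
    rw [e2, e3, e1, e1, PiLp.inner_apply, Fin.sum_univ_three]
    show ⟪ext 0 (a + Bz (deriv g ν.1.2.1) b), ext 0 (a' + Bz (deriv g ν.1.2.1) b')⟫_ℂ +
      ⟪- int 0 (a - Bs (deriv g ν.1.2.1) b), - int 0 (a' - Bs (deriv g ν.1.2.1) b')⟫_ℂ +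
      ⟪(Real.sqrt (gN (flow g r ν)) : ℂ) • b, (Real.sqrt (gN (flow g r ν)) : ℂ) • b'⟫_ℂ = _
    rw [lF_apply, lF_apply, lFs_apply, lFs_apply, lV_apply, inner_smul_left, inner_smul_right,
      Complex.conj_ofReal, ← mul_assoc, ← Complex.ofReal_mul, Real.mul_self_sqrt hpos,
      RCLike.real_smul_eq_coe_smul (K := ℂ), inner_smul_left]
    have e4 : (starRingEnd ℂ) ((gN (flow g r ν) : ℝ) : ℂ) = ((gN (flow g r ν) : ℝ) : ℂ) :=
      Complex.conj_ofReal _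
    congr 2
    exact e4.symm
  rw [h1, ← lF_adj' g ν (lF g ν φ) ψ, ← lF_adj g ν (lFs g ν φ) ψ]
  have h3 : DeltaL g ν φ = (lF g ν (lFs g ν φ) + lFs g ν (lF g ν φ)) + lV g ν φ := rfl
  rw [h3, map_add, map_add, inner_add_left, inner_add_left]
  ring

/-- the resolvent used on the leaf inverts `1 + Δ_{F_N} + g_N` -/
theorem resolv_leafLap (φ : DL) :
    resolv iL (leafLap g ν) (iL (φ + DeltaL g ν φ)) = iL φ := by
  rw [map_add]
  exact resolv_apply iL (leafLap g ν) φ _ fun ψ => leafLap_inner g ν φ ψ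

lemma sym_adj (x y : ℝ) (a b : Lam) : ⟪sym x y a, b⟫_ℂ = ⟪a, sym x y b⟫_ℂ := by
  simp only [sym_apply, inner_smul_left, inner_smul_right, inner_add_left, inner_add_right,
    Complex.conj_I, Complex.conj_ofReal, cl_adj]
  ring

lemma leafSig_eq (φ : DL) : leafSig g ν φ = iL (SigL g ν φ) := by
  have h1 : lineT (cl 0) (fun r => sigCoef g (flow g r ν)) φ = (SigL g ν φ : ℝ → Lam) := by
    funext r
    have h2 : (SigL g ν φ : ℝ → Lam) r = ((lF g ν φ : ℝ → Lam) r + (lFs g ν φ : ℝ → Lam) r) +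
      (lS g ν φ : ℝ → Lam) r := rfl
    rw [h2, lF_apply, lFs_apply, lS_apply]
    show cl 0 (deriv (φ : ℝ → Lam) r) + ((ext 0 (Bz (deriv g ν.1.2.1) ((φ : ℝ → Lam) r)) +
      int 0 (Bs (deriv g ν.1.2.1) ((φ : ℝ → Lam) r))) +
      sym (flow g r ν).2.1 (flow g r ν).2.2 ((φ : ℝ → Lam) r)) = _
    rw [cl_apply, map_add, map_sub]
    abel
  show (lineT_memLp (cl 0) (sigCoef_cont g ν) φ).toLp _ = (DL.memLp (SigL g ν φ)).toLp _
  congr 1

lemma SigL_symm (φ ψ : DL) : ⟪iL (SigL g ν φ), iL ψ⟫_ℂ = ⟪iL φ, iL (SigL g ν ψ)⟫_ℂ := by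
  have h1 : ∀ φ, SigL g ν φ = (lF g ν φ + lFs g ν φ) + lS g ν φ := fun φ => rfl
  have h2 : ⟪iL (lS g ν φ), iL ψ⟫_ℂ = ⟪iL φ, iL (lS g ν ψ)⟫_ℂ := by
    rw [iL_inner, iL_inner]
    refine integral_congr_ae (Eventually.of_forall fun r => ?_)
    beta_reduce
    rw [lS_apply, lS_apply, sym_adj]
  rw [h1, h1]
  simp only [map_add, inner_add_left, inner_add_right, lF_adj, lF_adj', h2]
  ring

/-- the resolvent used on the leaf inverts `1 + (D_{F_N} + σ(D_H))²` -/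
theorem resolv_leafSig (φ : DL) :
    resolv iL (leafSig g ν) (iL (φ + SigL g ν (SigL g ν φ))) = iL φ := by
  rw [map_add]
  refine resolv_apply iL (leafSig g ν) φ _ fun ψ => ?_
  rw [leafSig_eq, leafSig_eq, SigL_symm g ν (SigL g ν φ) ψ]

end leaf

end Pool.Agent.H772R2
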